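import Pool.Agent.Lib.MP_740d3f_ag.Defs

set_option autoImplicit false

/-! # Basic algebra of configurations -/

namespace Pool.Agent.Lib.MP_740d3f_ag
open Polynomial
noncomputable section

section PF

variable {R : Type*} [CommRing R] {ι : Type*} [Fintype ι] [DecidableEq ι]

/-- abstract form of `Phi` -/
def PF (A F : ι → R) : R :=
  ∑ i, A i * F i * ∏ j ∈ Finset.univ.erase i, (∑ l, A l * F l - F j) +
    ∏ j, (∑ l, A l * F l - F j)

theorem PF_map {S : Type*} [CommRing S] (f : R →+* S) (A F : ι → R) :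
    f (PF A F) = PF (fun i => f (A i)) (fun i => f (F i)) := by
  simp [PF, map_sum, map_prod]

theorem PF_smul (A F : ι → R) (t : R) :
    PF A (fun i => t * F i) = t ^ Fintype.card ι * PF A F := by
  unfold PF
  have hW : ∀ j, ∑ l, A l * (t * F l) - t * F j = t * (∑ l, A l * F l - F j) := by
    intro j
    rw [mul_sub, Finset.mul_sum]
    congr 1
    exact Finset.sum_congr rfl fun l _ => by ring
  simp only [hW, Finset.prod_mul_distrib, Finset.prod_const]
  rw [mul_add, Finset.mul_sum]
  congr 1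
  refine Finset.sum_congr rfl fun i _ => ?_
  have hc : Fintype.card ι = (Finset.univ.erase i).card + 1 := by
    rw [Finset.card_erase_of_mem (Finset.mem_univ i), Finset.card_univ]
    have : 0 < Fintype.card ι := Fintype.card_pos_iff.mpr ⟨i⟩
    omega
  rw [hc, pow_succ]
  ring

theorem Phi_eq_PF (a s c : ι → R) :
    Phi a s c = PF (fun i => C (a i)) (fun i => C (s i) * prodE s c i) := by
  unfold Phi PF Gp Wp
  simp only [C_mul, mul_assoc]

end PF

theorem Phi_map {R S : Type*} [CommRing R] [CommRing S] {ι : Type*} [Fintype ι] [DecidableEq ι]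
    (f : R →+* S) (a s c : ι → R) :
    (Phi a s c).map f = Phi (fun i => f (a i)) (fun i => f (s i)) (fun i => f (c i)) := by
  rw [Phi_eq_PF, Phi_eq_PF, ← coe_mapRingHom, PF_map]
  simp [prodE, lin, map_prod, Polynomial.map_prod]

theorem Phi_scale {R : Type*} [CommRing R] {ι : Type*} [Fintype ι] [DecidableEq ι]
    (a s c u : ι → R) :
    Phi a (fun i => u i * s i) (fun i => u i * c i)
      = C ((∏ i, u i) ^ Fintype.card ι) * Phi a s c := by
  rw [Phi_eq_PF, Phi_eq_PF, map_pow, ← PF_smul]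
  congr 1
  funext i
  have h1 : prodE (fun i => u i * s i) (fun i => u i * c i) i
      = C (∏ j ∈ Finset.univ.erase i, u j) * prodE s c i := by
    unfold prodE lin
    rw [map_prod, ← Finset.prod_mul_distrib]
    refine Finset.prod_congr rfl fun j _ => ?_
    simp only [C_mul]; ring
  rw [h1, ← Finset.mul_prod_erase Finset.univ u (Finset.mem_univ i)]
  simp only [C_mul]; ring

theorem Phi_affine {K : Type*} [Field K] {ι : Type*} [Fintype ι] [DecidableEq ι]
    (a z : ι → K) (z0 r : K) :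
    (Phi a 1 (fun i => r * z i + z0)).comp (C r * X + C z0)
      = C (r ^ (Fintype.card ι * (Fintype.card ι - 1))) * Phi a 1 z := by
  have h0 : ∀ p : K[X], p.comp (C r * X + C z0) = compRingHom (C r * X + C z0) p := fun _ => rfl
  rw [Phi_eq_PF, Phi_eq_PF, h0, PF_map, mul_comm (Fintype.card ι), pow_mul, map_pow, ← PF_smul]
  congr 1
  · funext i; simp
  funext i
  simp only [map_mul, Pi.one_apply, map_one, one_mul]
  have hc : Fintype.card ι - 1 = (Finset.univ.erase i).card := by
    rw [Finset.card_erase_of_mem (Finset.mem_univ i), Finset.card_univ]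
  unfold prodE
  rw [hc, map_pow, ← Finset.prod_const, ← Finset.prod_mul_distrib, map_prod]
  refine Finset.prod_congr rfl fun j _ => ?_
  simp [lin]
  ring

section Ev

variable {K : Type*} [Field K] {ι : Type*} [Fintype ι] [DecidableEq ι]

theorem prodE_one_eval (z : ι → K) (p : K) (i : ι) :
    (prodE 1 z i).eval p = ∏ j ∈ Finset.univ.erase i, (p - z j) := by
  simp [prodE, lin, eval_prod]

theorem Wp_one_eval (a z : ι → K) (p : K) :
    (Wp a 1 z).eval p = ∑ i, a i * ∏ j ∈ Finset.univ.erase i, (p - z j) := by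
  simp [Wp, eval_finset_sum, prodE_one_eval]

theorem Gp_one_eval (a z : ι → K) (p : K) (i : ι) :
    (Gp a 1 z i).eval p = (Wp a 1 z).eval p - ∏ j ∈ Finset.univ.erase i, (p - z j) := by
  simp [Gp, prodE_one_eval]

theorem PhiZ_eval (a z : ι → K) (p : K) :
    (PhiZ a z).eval p = ∑ i, a i * (∏ j ∈ Finset.univ.erase i, (p - z j)) *
      ∏ j ∈ Finset.univ.erase i, (Gp a 1 z j).eval p + ∏ j, (Gp a 1 z j).eval p := by
  simp [PhiZ, Phi, eval_finset_sum, eval_prod, prodE_one_eval]

variable {a z : ι → K} {p : K}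

theorem prodE_eq_div (hp : ∀ i, p ≠ z i) (i : ι) :
    ∏ j ∈ Finset.univ.erase i, (p - z j) = (∏ j, (p - z j)) / (p - z i) := by
  rw [← Finset.mul_prod_erase Finset.univ _ (Finset.mem_univ i)]
  field_simp [sub_ne_zero.mpr (hp i)]

theorem prod_ne_zero' (hp : ∀ i, p ≠ z i) : ∏ j, (p - z j) ≠ 0 :=
  Finset.prod_ne_zero_iff.mpr fun i _ => sub_ne_zero.mpr (hp i)

theorem Wp_eq_omega (hp : ∀ i, p ≠ z i) :
    (Wp a 1 z).eval p = (∏ j, (p - z j)) * omega a z p := by
  rw [Wp_one_eval, omega, Finset.mul_sum]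
  refine Finset.sum_congr rfl fun i _ => ?_
  rw [prodE_eq_div hp]; ring

theorem Gp_eq_Y (hp : ∀ i, p ≠ z i) (hw : omega a z p ≠ 0) (i : ι) :
    (Gp a 1 z i).eval p = (∏ j, (p - z j)) * omega a z p * Yc a z p i := by
  rw [Gp_one_eval, Wp_eq_omega hp, prodE_eq_div hp, Yc]
  have := sub_ne_zero.mpr (hp i)
  field_simp

theorem PhiZ_eq_Y (hp : ∀ i, p ≠ z i) (hw : omega a z p ≠ 0) (hY : ∀ i, Yc a z p i ≠ 0) :
    (PhiZ a z).eval p =
      (∏ j, (Gp a 1 z j).eval p) * (∑ i, a i / Yc a z p i + (1 - ∑ i, a i)) := by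
  have hP := prod_ne_zero' hp
  have hG : ∀ i, (Gp a 1 z i).eval p ≠ 0 := fun i => by
    rw [Gp_eq_Y hp hw]; exact mul_ne_zero (mul_ne_zero hP hw) (hY i)
  rw [PhiZ_eval]
  have h1 : ∀ i, a i * (∏ j ∈ Finset.univ.erase i, (p - z j)) *
      ∏ j ∈ Finset.univ.erase i, (Gp a 1 z j).eval p =
      (∏ j, (Gp a 1 z j).eval p) * (a i / Yc a z p i - a i) := by
    intro i
    rw [← Finset.mul_prod_erase Finset.univ (fun j => (Gp a 1 z j).eval p) (Finset.mem_univ i),
      Gp_eq_Y hp hw, prodE_eq_div hp]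
    have h2 : Yc a z p i = 1 - 1 / ((p - z i) * omega a z p) := rfl
    have h3 := sub_ne_zero.mpr (hp i)
    have h4 : (∏ j, (p - z j)) / (p - z i) =
        (∏ j, (p - z j)) * omega a z p * (1 - Yc a z p i) := by
      rw [h2]; field_simp; ring
    rw [h4]
    have := hY i
    field_simp
  rw [Finset.sum_congr rfl fun i _ => h1 i, ← Finset.mul_sum, Finset.sum_sub_distrib]
  ring

/-- identity `∑ a Y = 0` (including infinity) -/
theorem sum_aY (hp : ∀ i, p ≠ z i) (hw : omega a z p ≠ 0) :
    ∑ i, a i * Yc a z p i + (1 - ∑ i, a i) = 0 := by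
  have h1 : ∀ i, a i * Yc a z p i = a i - (a i / (p - z i)) / omega a z p := by
    intro i
    have := sub_ne_zero.mpr (hp i)
    rw [Yc]; field_simp
  rw [Finset.sum_congr rfl fun i _ => h1 i, Finset.sum_sub_distrib, ← Finset.sum_div]
  have : (∑ i, a i / (p - z i)) = omega a z p := rfl
  rw [this, div_self hw]; ring

end Ev

variable {K : Type*} [Field K] {ι : Type*} [Fintype ι] [DecidableEq ι]

theorem Yc_affine (a z : ι → K) (z0 r : K) (hr : r ≠ 0) (p : K) (i : ι) :
    Yc a (fun i => r * z i + z0) (r * p + z0) i = Yc a z p i := by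
  have h1 : omega a (fun i => r * z i + z0) (r * p + z0) = omega a z p / r := by
    unfold omega
    rw [Finset.sum_div]
    refine Finset.sum_congr rfl fun i _ => ?_
    have : r * p + z0 - (r * z i + z0) = (p - z i) * r := by ring
    rw [this, div_mul_eq_div_div]
  unfold Yc
  rw [h1]
  have : (r * p + z0 - (r * z i + z0)) * (omega a z p / r) = (p - z i) * omega a z p := by
    field_simp
    ring
  rw [this]

theorem omega_affine (a z : ι → K) (z0 r : K) (p : K) :
    omega a (fun i => r * z i + z0) (r * p + z0) = omega a z p / r := by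
  unfold omega
  rw [Finset.sum_div]
  refine Finset.sum_congr rfl fun i _ => ?_
  have : r * p + z0 - (r * z i + z0) = (p - z i) * r := by ring
  rw [this, div_mul_eq_div_div]

theorem mult_affine (a z : ι → K) (z0 r : K) (hr : r ≠ 0) (p : K) :
    mult a (fun i => r * z i + z0) (r * p + z0) = mult a z p := by
  unfold mult
  simp only [Yc_affine a z z0 r hr p]

theorem Spec_reindex {ι' : Type*} [Fintype ι'] [DecidableEq ι'] (e : ι' ≃ ι) (a z : ι → K) :
    Spec (a ∘ e) (z ∘ e) = Spec a z := by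
  have hom : ∀ p, omega (a ∘ e) (z ∘ e) p = omega a z p := fun p => by
    unfold omega
    exact Equiv.sum_comp e (fun i => a i / (p - z i))
  have hY : ∀ p i, Yc (a ∘ e) (z ∘ e) p i = Yc a z p (e i) := fun p i => by
    unfold Yc; rw [hom]; rfl
  have hm : ∀ p, mult (a ∘ e) (z ∘ e) p = mult a z p := fun p => by
    unfold mult
    simp only [hY, Function.comp_apply]
    rw [Equiv.sum_comp e (fun i => a i * Yc a z p i ^ 2), Equiv.sum_comp e a,
      Equiv.sum_comp e (fun i => a i / Yc a z p i ^ 2)]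
  have hE : ∀ (f : ι → K[X]) (i : ι'), ∏ j ∈ Finset.univ.erase i, f (e j) =
      ∏ j ∈ Finset.univ.erase (e i), f j := by
    intro f i
    refine Finset.prod_bij (fun j _ => e j) ?_ ?_ ?_ ?_
    · intro j hj; simp at hj ⊢; exact hj
    · intro j _ k _ h; exact e.injective h
    · intro j hj; exact ⟨e.symm j, by simpa [Equiv.symm_apply_eq] using hj, by simp⟩
    · intro j _; rfl
  have hPE : ∀ i, prodE (1 : ι' → K) (z ∘ e) i = prodE 1 z (e i) := fun i =>
    hE (fun j => lin 1 z j) i
  have hW : Wp (a ∘ e) 1 (z ∘ e) = Wp a 1 z := by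
    unfold Wp
    simp only [hPE]
    exact Equiv.sum_comp e (fun i => C (a i * (1 : ι → K) i) * prodE 1 z i)
  have hG : ∀ i, Gp (a ∘ e) 1 (z ∘ e) i = Gp a 1 z (e i) := fun i => by
    unfold Gp; rw [hW, hPE]; rfl
  have hP : PhiZ (a ∘ e) (z ∘ e) = PhiZ a z := by
    unfold PhiZ Phi
    simp only [hPE, hG]
    congr 1
    · rw [← Equiv.sum_comp e (fun i => C (a i * (1 : ι → K) i) * prodE 1 z i *
        ∏ j ∈ Finset.univ.erase i, Gp a 1 z j)]
      refine Finset.sum_congr rfl fun i _ => ?_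
      rw [hE (fun j => Gp a 1 z j)]
      rfl
    · exact Equiv.prod_comp e (fun j => Gp a 1 z j)
  unfold Spec
  rw [hP]
  exact Multiset.map_congr rfl fun p _ => hm p

theorem Spec_affine (a z : ι → K) (z0 r : K) (hr : r ≠ 0) :
    Spec a (fun i => r * z i + z0) = Spec a z := by
  have h1 := Phi_affine a z z0 r
  have h2 : (PhiZ a z).roots = ((PhiZ a (fun i => r * z i + z0)).comp (C r * X + C z0)).roots := by
    rw [PhiZ, h1, roots_C_mul _ (pow_ne_zero _ hr)]
  have h3 : (PhiZ a (fun i => r * z i + z0)).roots =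
      (PhiZ a z).roots.map (fun p => r * p + z0) := by
    rw [h2]
    have := roots_comp_C_mul_X_add_C (p := PhiZ a (fun i => r * z i + z0)) (a := r) (b := z0)
      (IsUnit.mk0 r hr)
    rw [this, Multiset.map_map]
    conv_lhs => rw [← Multiset.map_id' (PhiZ a fun i => r * z i + z0).roots]
    refine Multiset.map_congr rfl fun p _ => ?_
    simp [Ring.inverse_eq_inv]
    field_simp
    ring
  unfold Spec
  rw [h3, Multiset.map_map]
  exact Multiset.map_congr rfl fun p _ => by
    simp only [Function.comp_apply]; exact mult_affine a z z0 r hr p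

theorem omega_map {L : Type*} [Field L] (f : K →+* L) (a z : ι → K) (p : K) :
    omega (fun i => f (a i)) (fun i => f (z i)) (f p) = f (omega a z p) := by
  simp [omega, map_sum, map_div₀]

theorem Yc_map {L : Type*} [Field L] (f : K →+* L) (a z : ι → K) (p : K) (i : ι) :
    Yc (fun i => f (a i)) (fun i => f (z i)) (f p) i = f (Yc a z p i) := by
  simp [Yc, omega_map]

theorem mult_map {L : Type*} [Field L] (f : K →+* L) (a z : ι → K) (p : K) :
    mult (fun i => f (a i)) (fun i => f (z i)) (f p) = f (mult a z p) := by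
  simp [mult, Yc_map, map_sum]

theorem PhiZ_map {L : Type*} [Field L] (f : K →+* L) (a z : ι → K) :
    PhiZ (fun i => f (a i)) (fun i => f (z i)) = (PhiZ a z).map f := by
  rw [PhiZ, PhiZ, Phi_map]
  congr 1
  funext i; simp

theorem Spec_map {L : Type*} [Field L] [IsAlgClosed K] (f : K →+* L) (a z : ι → K) :
    Spec (fun i => f (a i)) (fun i => f (z i)) = (Spec a z).map f := by
  unfold Spec
  rw [PhiZ_map, Polynomial.Splits.roots_map (IsAlgClosed.splits _) f, Multiset.map_map,
    Multiset.map_map]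
  exact Multiset.map_congr rfl fun p _ => mult_map f a z p

theorem lin_one (z : ι → K) (i : ι) : lin 1 z i = X - C (z i) := by simp [lin]

theorem prodE_monic (z : ι → K) (i : ι) : (prodE 1 z i).Monic := by
  unfold prodE
  refine monic_prod_of_monic _ _ fun j _ => ?_
  rw [lin_one]; exact monic_X_sub_C _

theorem prodE_natDegree (z : ι → K) (i : ι) :
    (prodE 1 z i).natDegree = Fintype.card ι - 1 := by
  unfold prodE
  rw [natDegree_prod_of_monic]
  · simp only [lin_one, natDegree_X_sub_C, Finset.sum_const, smul_eq_mul, mul_one]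
    rw [Finset.card_erase_of_mem (Finset.mem_univ i), Finset.card_univ]
  · intro j _; rw [lin_one]; exact monic_X_sub_C _

theorem Wp_natDegree_le (a z : ι → K) : (Wp a 1 z).natDegree ≤ Fintype.card ι - 1 := by
  unfold Wp
  refine natDegree_sum_le_of_forall_le _ _ fun i _ => ?_
  refine (natDegree_C_mul_le _ _).trans ?_
  rw [prodE_natDegree]

theorem prodE_coeff (z : ι → K) (i : ι) : (prodE 1 z i).coeff (Fintype.card ι - 1) = 1 := by
  have := (prodE_monic z i).coeff_natDegree
  rwa [prodE_natDegree] at this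

theorem Wp_coeff (a z : ι → K) : (Wp a 1 z).coeff (Fintype.card ι - 1) = ∑ i, a i := by
  unfold Wp
  simp [finset_sum_coeff, prodE_coeff]

theorem Gp_natDegree_le (a z : ι → K) (i : ι) :
    (Gp a 1 z i).natDegree ≤ Fintype.card ι - 1 := by
  unfold Gp
  refine (natDegree_sub_le _ _).trans (max_le (Wp_natDegree_le a z) ?_)
  refine (natDegree_C_mul_le _ _).trans ?_
  rw [prodE_natDegree]

theorem Gp_coeff (a z : ι → K) (i : ι) :
    (Gp a 1 z i).coeff (Fintype.card ι - 1) = ∑ i, a i - 1 := by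
  unfold Gp
  simp [Wp_coeff, prodE_coeff]

theorem PhiZ_natDegree_le (a z : ι → K) :
    (PhiZ a z).natDegree ≤ Fintype.card ι * (Fintype.card ι - 1) := by
  unfold PhiZ Phi
  refine (natDegree_add_le _ _).trans (max_le ?_ ?_)
  · refine natDegree_sum_le_of_forall_le _ _ fun i _ => ?_
    have hc : Fintype.card ι - 1 = (Finset.univ.erase i).card := by
      rw [Finset.card_erase_of_mem (Finset.mem_univ i), Finset.card_univ]
    have h0 : 0 < Fintype.card ι := Fintype.card_pos_iff.mpr ⟨i⟩
    refine natDegree_mul_le.trans ?_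
    have h1 : (C (a i * (1 : ι → K) i) * prodE 1 z i).natDegree ≤ Fintype.card ι - 1 :=
      (natDegree_C_mul_le _ _).trans (prodE_natDegree z i).le
    have h2 : (∏ j ∈ Finset.univ.erase i, Gp a 1 z j).natDegree ≤
        (Fintype.card ι - 1) * (Fintype.card ι - 1) := by
      refine (natDegree_prod_le _ _).trans ?_
      refine (Finset.sum_le_card_nsmul _ _ (Fintype.card ι - 1)
        fun j _ => Gp_natDegree_le a z j).trans ?_
      rw [← hc, smul_eq_mul]
    calc _ ≤ (Fintype.card ι - 1) + (Fintype.card ι - 1) * (Fintype.card ι - 1) :=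
          add_le_add h1 h2
      _ = ((Fintype.card ι - 1) + 1) * (Fintype.card ι - 1) := by ring
      _ = _ := by rw [Nat.sub_add_cancel h0]
  · refine (natDegree_prod_le _ _).trans ?_
    refine (Finset.sum_le_card_nsmul _ _ (Fintype.card ι - 1)
      fun j _ => Gp_natDegree_le a z j).trans ?_
    rw [smul_eq_mul, Finset.card_univ]

theorem PhiZ_coeff [Nonempty ι] (a z : ι → K) :
    (PhiZ a z).coeff (Fintype.card ι * (Fintype.card ι - 1)) =
      (∑ i, a i - 1) ^ (Fintype.card ι - 1) * (2 * ∑ i, a i - 1) := by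
  have h0 : 0 < Fintype.card ι := Fintype.card_pos
  unfold PhiZ Phi
  rw [coeff_add, finset_sum_coeff]
  have hA : ∀ i : ι, (C (a i * (1 : ι → K) i) * prodE 1 z i *
      ∏ j ∈ Finset.univ.erase i, Gp a 1 z j).coeff (Fintype.card ι * (Fintype.card ι - 1)) =
      a i * (∑ i, a i - 1) ^ (Fintype.card ι - 1) := by
    intro i
    have hc : (Finset.univ.erase i).card = Fintype.card ι - 1 := by
      rw [Finset.card_erase_of_mem (Finset.mem_univ i), Finset.card_univ]
    have h1 : (C (a i * (1 : ι → K) i) * prodE 1 z i).natDegree ≤ Fintype.card ι - 1 :=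
      (natDegree_C_mul_le _ _).trans (prodE_natDegree z i).le
    have h2 : (∏ j ∈ Finset.univ.erase i, Gp a 1 z j).natDegree ≤
        (Fintype.card ι - 1) * (Fintype.card ι - 1) := by
      refine (natDegree_prod_le _ _).trans ?_
      refine (Finset.sum_le_card_nsmul _ _ (Fintype.card ι - 1)
        fun j _ => Gp_natDegree_le a z j).trans ?_
      rw [hc, smul_eq_mul]
    have h3 : Fintype.card ι * (Fintype.card ι - 1) =
        (Fintype.card ι - 1) + (Fintype.card ι - 1) * (Fintype.card ι - 1) := by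
      obtain ⟨n, hn⟩ : ∃ n, Fintype.card ι = n + 1 := ⟨_, (Nat.sub_add_cancel h0).symm⟩
      rw [hn]; simp; ring
    rw [h3, coeff_mul_add_eq_of_natDegree_le h1 h2]
    have h4 : (∏ j ∈ Finset.univ.erase i, Gp a 1 z j).coeff
        ((Fintype.card ι - 1) * (Fintype.card ι - 1)) =
        (∑ i, a i - 1) ^ (Fintype.card ι - 1) := by
      have := coeff_prod_of_natDegree_le (Finset.univ.erase i) (fun j => Gp a 1 z j)
        (Fintype.card ι - 1) (fun j _ => Gp_natDegree_le a z j)
      rw [hc] at this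
      rw [this]
      simp only [Gp_coeff, Finset.prod_const, hc]
    rw [h4]
    simp [prodE_coeff]
  have hB : (∏ j, Gp a 1 z j).coeff (Fintype.card ι * (Fintype.card ι - 1)) =
      (∑ i, a i - 1) ^ Fintype.card ι := by
    have := coeff_prod_of_natDegree_le Finset.univ (fun j => Gp a 1 z j)
      (Fintype.card ι - 1) (fun j _ => Gp_natDegree_le a z j)
    rw [Finset.card_univ] at this
    rw [this]
    simp only [Gp_coeff, Finset.prod_const, Finset.card_univ]
  rw [Finset.sum_congr rfl fun i _ => hA i, hB, ← Finset.sum_mul]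
  obtain ⟨n, hn⟩ : ∃ n, Fintype.card ι = n + 1 := ⟨_, (Nat.sub_add_cancel h0).symm⟩
  rw [hn]; simp only [Nat.add_sub_cancel]; ring

section Roots

variable [Nonempty ι] {a z : ι → K}

theorem PhiZ_coeff_ne_zero (hg : GenW a) :
    (PhiZ a z).coeff (Fintype.card ι * (Fintype.card ι - 1)) ≠ 0 := by
  rw [PhiZ_coeff]
  have h := hg.avoid Finset.univ Finset.univ_nonempty
  exact mul_ne_zero (pow_ne_zero _ (sub_ne_zero.mpr h.2.1)) (sub_ne_zero.mpr h.2.2.1)

theorem PhiZ_ne_zero (hg : GenW a) : PhiZ a z ≠ 0 := fun h => by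
  have := PhiZ_coeff_ne_zero (z := z) hg
  rw [h] at this; simp at this

theorem PhiZ_natDegree (hg : GenW a) :
    (PhiZ a z).natDegree = Fintype.card ι * (Fintype.card ι - 1) :=
  le_antisymm (PhiZ_natDegree_le a z) (le_natDegree_of_ne_zero (PhiZ_coeff_ne_zero hg))

theorem avoid_single (hg : GenW a) (i : ι) : a i ≠ 0 ∧ a i ≠ 1 ∧ 2 * a i ≠ 1 := by
  have := hg.avoid {i} (Finset.singleton_nonempty i)
  simp only [Finset.sum_singleton] at this
  exact ⟨this.1, this.2.1, this.2.2.1⟩

theorem root_ne (hg : GenW a) (hz : Function.Injective z) (p : K)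
    (hp : (PhiZ a z).IsRoot p) (i : ι) : p ≠ z i := by
  rintro rfl
  have h0 : ∀ j, j ≠ i → ∏ k ∈ Finset.univ.erase j, (z i - z k) = 0 := fun j hj =>
    Finset.prod_eq_zero (Finset.mem_erase.mpr ⟨hj.symm, Finset.mem_univ i⟩) (sub_self _)
  set Q := ∏ k ∈ Finset.univ.erase i, (z i - z k) with hQ
  have hQ0 : Q ≠ 0 := Finset.prod_ne_zero_iff.mpr fun k hk =>
    sub_ne_zero.mpr (hz.ne (Finset.ne_of_mem_erase hk).symm)
  have hW : (Wp a 1 z).eval (z i) = a i * Q := by
    rw [Wp_one_eval, Finset.sum_eq_single i]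
    · intro j _ hj; rw [h0 j hj, mul_zero]
    · intro h; exact absurd (Finset.mem_univ i) h
  have hG : ∀ j, j ≠ i → (Gp a 1 z j).eval (z i) = a i * Q := fun j hj => by
    rw [Gp_one_eval, hW, h0 j hj, sub_zero]
  have hGi : (Gp a 1 z i).eval (z i) = (a i - 1) * Q := by
    rw [Gp_one_eval, hW]; ring
  have h1 := hp
  rw [IsRoot.def, PhiZ_eval, Finset.sum_eq_single i] at h1
  rotate_left
  · intro j _ hj; rw [h0 j hj]; ring
  · intro h; exact absurd (Finset.mem_univ i) h
  rw [← Finset.mul_prod_erase Finset.univ (fun j => (Gp a 1 z j).eval (z i)) (Finset.mem_univ i),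
    hGi] at h1
  have hP : ∏ j ∈ Finset.univ.erase i, (Gp a 1 z j).eval (z i) ≠ 0 :=
    Finset.prod_ne_zero_iff.mpr fun j hj => by
      rw [hG j (Finset.ne_of_mem_erase hj)]
      exact mul_ne_zero (avoid_single hg i).1 hQ0
  have h2 : (2 * a i - 1) * Q * ∏ j ∈ Finset.univ.erase i, (Gp a 1 z j).eval (z i) = 0 := by
    rw [← h1]; ring
  rcases mul_eq_zero.mp h2 with h3 | h3
  · rcases mul_eq_zero.mp h3 with h4 | h4
    · exact (avoid_single hg i).2.2 (sub_eq_zero.mp h4)
    · exact hQ0 h4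
  · exact hP h3

theorem root_omega (hg : GenW a) (hz : Function.Injective z) (p : K)
    (hp : (PhiZ a z).IsRoot p) : omega a z p ≠ 0 := by
  have hne := root_ne hg hz p hp
  intro hw
  have hW : (Wp a 1 z).eval p = 0 := by rw [Wp_eq_omega hne, hw, mul_zero]
  have hP := prod_ne_zero' hne
  have hG : ∀ i, (Gp a 1 z i).eval p = -((∏ j, (p - z j)) / (p - z i)) := fun i => by
    rw [Gp_one_eval, hW, prodE_eq_div hne, zero_sub]
  have hG0 : ∀ i, (Gp a 1 z i).eval p ≠ 0 := fun i => by
    rw [hG]; exact neg_ne_zero.mpr (div_ne_zero hP (sub_ne_zero.mpr (hne i)))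
  have h1 := hp
  rw [IsRoot.def, PhiZ_eval] at h1
  have h2 : ∀ i, a i * (∏ j ∈ Finset.univ.erase i, (p - z j)) *
      ∏ j ∈ Finset.univ.erase i, (Gp a 1 z j).eval p =
      - a i * (∏ j, (Gp a 1 z j).eval p) := fun i => by
    rw [← Finset.mul_prod_erase Finset.univ (fun j => (Gp a 1 z j).eval p) (Finset.mem_univ i),
      hG i, prodE_eq_div hne]; ring
  rw [Finset.sum_congr rfl fun i _ => h2 i, ← Finset.sum_mul, Finset.sum_neg_distrib] at h1
  have h3 : (1 - ∑ i, a i) * ∏ j, (Gp a 1 z j).eval p = 0 := by rw [← h1]; ring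
  rcases mul_eq_zero.mp h3 with h4 | h4
  · exact (hg.avoid Finset.univ Finset.univ_nonempty).2.1 (sub_eq_zero.mp h4).symm
  · exact Finset.prod_ne_zero_iff.mpr (fun i _ => hG0 i) h4

theorem root_G (hg : GenW a) (hz : Function.Injective z) (p : K)
    (hp : (PhiZ a z).IsRoot p) (i : ι) : (Gp a 1 z i).eval p ≠ 0 := by
  have hne := root_ne hg hz p hp
  intro hi
  have hP := prod_ne_zero' hne
  have hW : (Wp a 1 z).eval p = (∏ j, (p - z j)) / (p - z i) := by
    rw [Gp_one_eval, prodE_eq_div hne] at hi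
    exact sub_eq_zero.mp hi
  have hG : ∀ j, j ≠ i → (Gp a 1 z j).eval p ≠ 0 := fun j hj => by
    have hi' := sub_ne_zero.mpr (hne i)
    have hj' := sub_ne_zero.mpr (hne j)
    have : (Gp a 1 z j).eval p = (∏ j, (p - z j)) * (z i - z j) / ((p - z i) * (p - z j)) := by
      rw [Gp_one_eval, hW, prodE_eq_div hne]; field_simp; ring
    rw [this]
    exact div_ne_zero (mul_ne_zero hP (sub_ne_zero.mpr (hz.ne hj.symm))) (mul_ne_zero hi' hj')
  have h1 := hp
  rw [IsRoot.def, PhiZ_eval, Finset.sum_eq_single i] at h1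
  rotate_left
  · intro j _ hj
    rw [Finset.prod_eq_zero (f := fun j => (Gp a 1 z j).eval p)
      (Finset.mem_erase.mpr ⟨hj.symm, Finset.mem_univ i⟩) hi, mul_zero]
  · intro h; exact absurd (Finset.mem_univ i) h
  rw [Finset.prod_eq_zero (f := fun j => (Gp a 1 z j).eval p) (Finset.mem_univ i) hi,
    add_zero, prodE_eq_div hne] at h1
  have hPj : ∏ j ∈ Finset.univ.erase i, (Gp a 1 z j).eval p ≠ 0 :=
    Finset.prod_ne_zero_iff.mpr fun j hj => hG j (Finset.ne_of_mem_erase hj)
  exact mul_ne_zero (mul_ne_zero (avoid_single hg i).1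
    (div_ne_zero hP (sub_ne_zero.mpr (hne i)))) hPj h1

theorem root_Y (hg : GenW a) (hz : Function.Injective z) (p : K)
    (hp : (PhiZ a z).IsRoot p) (i : ι) : Yc a z p i ≠ 0 := by
  have h1 := root_G hg hz p hp i
  rw [Gp_eq_Y (root_ne hg hz p hp) (root_omega hg hz p hp)] at h1
  exact right_ne_zero_of_mul h1

theorem root_sum_inv (hg : GenW a) (hz : Function.Injective z) (p : K)
    (hp : (PhiZ a z).IsRoot p) : ∑ i, a i / Yc a z p i + (1 - ∑ i, a i) = 0 := by
  have h := hp
  rw [IsRoot.def, PhiZ_eq_Y (root_ne hg hz p hp) (root_omega hg hz p hp) (root_Y hg hz p hp)] at h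
  exact (mul_eq_zero.mp h).resolve_left
    (Finset.prod_ne_zero_iff.mpr fun i _ => root_G hg hz p hp i)

end Roots

/-- structure of the period-two points -/
theorem root_facts [Nonempty ι] (a z : ι → K) (hg : GenW a) (hz : Function.Injective z) :
    PhiZ a z ≠ 0 ∧ (PhiZ a z).natDegree = Fintype.card ι * (Fintype.card ι - 1) ∧
    ∀ p, (PhiZ a z).IsRoot p →
      (∀ i, p ≠ z i) ∧ omega a z p ≠ 0 ∧ (∀ i, Yc a z p i ≠ 0) ∧
      ∑ i, a i * Yc a z p i + (1 - ∑ i, a i) = 0 ∧
      ∑ i, a i / Yc a z p i + (1 - ∑ i, a i) = 0 :=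
  ⟨PhiZ_ne_zero hg, PhiZ_natDegree hg, fun p hp =>
    ⟨root_ne hg hz p hp, root_omega hg hz p hp, root_Y hg hz p hp,
      sum_aY (root_ne hg hz p hp) (root_omega hg hz p hp), root_sum_inv hg hz p hp⟩⟩

/-- the polynomials `W` and `G_i` do not vanish at a period-two point -/
theorem root_facts' [Nonempty ι] (a z : ι → K) (hg : GenW a) (hz : Function.Injective z) (p : K)
    (hp : (PhiZ a z).IsRoot p) :
    (Wp a 1 z).eval p ≠ 0 ∧ (∀ i, (Gp a 1 z i).eval p ≠ 0) ∧
    omega a z p = (Wp a 1 z).eval p / ∏ i, (p - z i) ∧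
    ∀ i, Yc a z p i = (Gp a 1 z i).eval p / (Wp a 1 z).eval p := by
  have hne := root_ne hg hz p hp
  have hw := root_omega hg hz p hp
  have hP := prod_ne_zero' hne
  refine ⟨?_, root_G hg hz p hp, ?_, fun i => ?_⟩
  · rw [Wp_eq_omega hne]; exact mul_ne_zero hP hw
  · rw [Wp_eq_omega hne]; field_simp
  · rw [Wp_eq_omega hne, Gp_eq_Y hne hw]; field_simp

/-- coordinates at the other point: `q - z_i = (p - z_i) Y_i` -/
theorem q_sub (a z : ι → K) (p : K) (i : ι) (hp : p ≠ z i) :
    p - 1 / omega a z p - z i = (p - z i) * Yc a z p i := by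
  have := sub_ne_zero.mpr hp
  unfold Yc
  by_cases hw : omega a z p = 0
  · simp [hw]
  · field_simp
    ring

theorem omega_q (a z : ι → K) (p : K) (hp : ∀ i, p ≠ z i) (hw : omega a z p ≠ 0)
    (hY : ∀ i, Yc a z p i ≠ 0) :
    omega a z (p - 1 / omega a z p) = omega a z p * (∑ i, a i / Yc a z p i - ∑ i, a i) := by
  have h1 : ∀ i, a i / (p - 1 / omega a z p - z i) =
      omega a z p * (a i / Yc a z p i - a i) := fun i => by
    rw [q_sub a z p i (hp i)]
    have h2 : 1 / (p - z i) = omega a z p * (1 - Yc a z p i) := by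
      have := sub_ne_zero.mpr (hp i)
      unfold Yc; field_simp; ring
    have h3 : a i / ((p - z i) * Yc a z p i) = a i * (1 / (p - z i)) / Yc a z p i := by
      have := sub_ne_zero.mpr (hp i)
      have := hY i
      field_simp
    rw [h3, h2]
    have := hY i
    field_simp
  rw [omega, Finset.sum_congr rfl fun i _ => h1 i, ← Finset.mul_sum, Finset.sum_sub_distrib]

/-- the other point of the two-cycle -/
theorem root_partner [Nonempty ι] (a z : ι → K) (hg : GenW a) (hz : Function.Injective z) (p : K)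
    (hp : (PhiZ a z).IsRoot p) :
    (PhiZ a z).IsRoot (p - 1 / omega a z p) ∧
    omega a z (p - 1 / omega a z p) = - omega a z p ∧
    (∀ i, Yc a z (p - 1 / omega a z p) i = (Yc a z p i)⁻¹) ∧
    mult a z (p - 1 / omega a z p) = mult a z p ∧ p - 1 / omega a z p ≠ p := by
  have hne := root_ne hg hz p hp
  have hw := root_omega hg hz p hp
  have hY := root_Y hg hz p hp
  have hs := root_sum_inv hg hz p hp
  have hq : omega a z (p - 1 / omega a z p) = - omega a z p := by
    rw [omega_q a z p hne hw hY]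
    linear_combination omega a z p * hs
  have hqz : ∀ i, p - 1 / omega a z p ≠ z i := fun i h => by
    have h1 := q_sub a z p i (hne i)
    rw [h, sub_self] at h1
    exact mul_ne_zero (sub_ne_zero.mpr (hne i)) (hY i) h1.symm
  have hYq : ∀ i, Yc a z (p - 1 / omega a z p) i = (Yc a z p i)⁻¹ := fun i => by
    rw [Yc, hq, q_sub a z p i (hne i)]
    have h2 : 1 / (p - z i) = omega a z p * (1 - Yc a z p i) := by
      have := sub_ne_zero.mpr (hne i)
      unfold Yc; field_simp; ring
    have h3 := sub_ne_zero.mpr (hne i)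
    have h4 := hY i
    have h5 : 1 / ((p - z i) * Yc a z p i * -omega a z p) =
        - (1 / (p - z i)) / (Yc a z p i * omega a z p) := by
      field_simp
    rw [h5, h2]
    field_simp
    ring
  have hqw : omega a z (p - 1 / omega a z p) ≠ 0 := by rw [hq]; exact neg_ne_zero.mpr hw
  refine ⟨?_, hq, hYq, ?_, ?_⟩
  · rw [IsRoot.def, PhiZ_eq_Y hqz hqw (fun i => by rw [hYq]; exact inv_ne_zero (hY i))]
    have : ∑ i, a i / Yc a z (p - 1 / omega a z p) i = ∑ i, a i * Yc a z p i :=
      Finset.sum_congr rfl fun i _ => by rw [hYq, div_inv_eq_mul]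
    rw [this, sum_aY hne hw, mul_zero]
  · unfold mult
    simp only [hYq, inv_pow, div_inv_eq_mul]
    rw [mul_comm]
    simp only [div_eq_mul_inv]
  · intro h
    have : 1 / omega a z p = 0 := by
      have := sub_eq_self.mp h
      exact this
    exact one_div_ne_zero hw this

/-- converse: a pair of distinct points with `ω(p)(p-q) = 1 = ω(q)(q-p)` -/
theorem isRoot_iff [Nonempty ι] (a z : ι → K) (hg : GenW a) (hz : Function.Injective z) (p : K)
    (hp : ∀ i, p ≠ z i) (hw : omega a z p ≠ 0) (hq : ∀ i, p - 1 / omega a z p ≠ z i) :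
    (PhiZ a z).IsRoot p ↔ omega a z (p - 1 / omega a z p) = - omega a z p := by
  have hY : ∀ i, Yc a z p i ≠ 0 := fun i h => by
    have h1 := q_sub a z p i (hp i)
    rw [h, mul_zero, sub_eq_zero] at h1
    exact hq i h1
  have hG : ∏ j, (Gp a 1 z j).eval p ≠ 0 := Finset.prod_ne_zero_iff.mpr fun i _ => by
    rw [Gp_eq_Y hp hw]; exact mul_ne_zero (mul_ne_zero (prod_ne_zero' hp) hw) (hY i)
  rw [omega_q a z p hp hw hY, IsRoot.def, PhiZ_eq_Y hp hw hY]
  constructor
  · intro h
    have h1 := (mul_eq_zero.mp h).resolve_left hG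
    linear_combination omega a z p * h1
  · intro h
    have h1 : omega a z p * (∑ i, a i / Yc a z p i + (1 - ∑ i, a i)) = 0 := by
      linear_combination h
    rw [(mul_eq_zero.mp h1).resolve_left hw, mul_zero]

/-- `∑ a Y^2` (with infinity) as a derivative -/
theorem sum_aY_sq (a z : ι → K) (p : K) (hp : ∀ i, p ≠ z i) (hw : omega a z p ≠ 0) :
    ∑ i, a i * Yc a z p i ^ 2 + (1 - ∑ i, a i) =
      (∑ i, a i / (p - z i) ^ 2) / omega a z p ^ 2 - 1 := by
  have h1 : ∀ i, a i * Yc a z p i ^ 2 = a i - 2 * (a i / (p - z i)) / omega a z p +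
      (a i / (p - z i) ^ 2) / omega a z p ^ 2 := fun i => by
    have := sub_ne_zero.mpr (hp i)
    unfold Yc; field_simp; ring
  rw [Finset.sum_congr rfl fun i _ => h1 i, Finset.sum_add_distrib, Finset.sum_sub_distrib,
    ← Finset.sum_div, ← Finset.sum_div, ← Finset.mul_sum]
  have : (∑ i, a i / (p - z i)) = omega a z p := rfl
  rw [this, mul_div_assoc, div_self hw]; ring

theorem mult_eq_deriv [Nonempty ι] (a z : ι → K) (hg : GenW a) (hz : Function.Injective z) (p : K)
    (hp : (PhiZ a z).IsRoot p) :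
    mult a z p = (1 - (∑ i, a i / (p - z i) ^ 2) / omega a z p ^ 2) *
      (1 - (∑ i, a i / (p - 1 / omega a z p - z i) ^ 2) / omega a z (p - 1 / omega a z p) ^ 2) := by
  obtain ⟨hr, -, hY, -, -⟩ := root_partner a z hg hz p hp
  have h1 := sum_aY_sq a z p (root_ne hg hz p hp) (root_omega hg hz p hp)
  have h2 := sum_aY_sq a z _ (root_ne hg hz _ hr) (root_omega hg hz _ hr)
  have h3 : ∑ i, a i * Yc a z (p - 1 / omega a z p) i ^ 2 = ∑ i, a i / Yc a z p i ^ 2 :=
    Finset.sum_congr rfl fun i _ => by rw [hY, inv_pow, div_eq_mul_inv]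
  rw [h3] at h2
  rw [mult, h1, h2]; ring

theorem derivative_prodE_eval (z : ι → K) (p : K) (hp : ∀ i, p ≠ z i) :
    ∃ D : K, ∀ i, (derivative (prodE 1 z i)).eval p =
      (D - (prodE 1 z i).eval p) / (p - z i) := by
  refine ⟨(derivative (∏ j, lin 1 z j)).eval p, fun i => ?_⟩
  have h1 : (∏ j, lin 1 z j) = lin 1 z i * prodE 1 z i :=
    (Finset.mul_prod_erase Finset.univ (fun j => lin 1 z j) (Finset.mem_univ i)).symm
  have h2 := sub_ne_zero.mpr (hp i)
  rw [h1, derivative_mul, lin_one]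
  simp only [derivative_sub, derivative_X, derivative_C, sub_zero, one_mul, eval_add, eval_mul,
    eval_sub, eval_X, eval_C]
  field_simp
  ring

/-- derivative of the dynatomic polynomial at a period-two point -/
theorem derivative_PhiZ [Nonempty ι] (a z : ι → K) (hg : GenW a)
    (hz : Function.Injective z) (p : K) (hp : (PhiZ a z).IsRoot p) :
    (derivative (PhiZ a z)).eval p =
      (∏ j, (Gp a 1 z j).eval p) * (omega a z p * (mult a z p - 1)) := by
  have hne := root_ne hg hz p hp
  have hw := root_omega hg hz p hp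
  have hY := root_Y hg hz p hp
  have hs := root_sum_inv hg hz p hp
  have hs1 := sum_aY hne hw
  have hG := root_G hg hz p hp
  have hP := prod_ne_zero' hne
  have hmult : mult a z p = (∑ i, a i * Yc a z p i ^ 2 + (1 - ∑ i, a i)) *
    (∑ i, a i / Yc a z p i ^ 2 + (1 - ∑ i, a i)) := rfl
  obtain ⟨D, hD⟩ := derivative_prodE_eval z p hne
  have hu : ∀ i, 1 / (p - z i) = omega a z p * (1 - Yc a z p i) := fun i => by
    have := sub_ne_zero.mpr (hne i)
    unfold Yc; field_simp; ring
  have hF : ∀ i, (prodE 1 z i).eval p =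
      (∏ j, (p - z j)) * (omega a z p * (1 - Yc a z p i)) := fun i => by
    rw [prodE_one_eval, prodE_eq_div hne, ← hu i]; ring
  have hGY : ∀ i, (Gp a 1 z i).eval p = (∏ j, (p - z j)) * omega a z p * Yc a z p i :=
    fun i => Gp_eq_Y hne hw i
  generalize hPdef : ∏ j, (p - z j) = P at *
  generalize omega a z p = w at *
  generalize Yc a z p = Y at *
  have hGgen : ∃ G : ι → K, G = fun i => (Gp a 1 z i).eval p := ⟨_, rfl⟩
  obtain ⟨G, hGd⟩ := hGgen
  have hGi : ∀ i, (Gp a 1 z i).eval p = G i := fun i => by rw [hGd]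
  simp only [hGi] at hG hGY ⊢
  have hF' : ∀ i, (derivative (prodE 1 z i)).eval p =
      (D - P * (w * (1 - Y i))) * (w * (1 - Y i)) := fun i => by
    rw [hD, hF, div_eq_mul_one_div, hu]
  have hsum1 : ∑ i, a i * (1 - Y i) = 1 := by
    have : ∀ i, a i * (1 - Y i) = a i - a i * Y i := fun i => by ring
    rw [Finset.sum_congr rfl fun i _ => this i, Finset.sum_sub_distrib]
    linear_combination -hs1
  obtain ⟨s, hsd⟩ : ∃ s, s = ∑ i, a i * (1 - Y i) ^ 2 := ⟨_, rfl⟩
  have hW' : (derivative (Wp a 1 z)).eval p = D * w - P * w ^ 2 * s := by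
    unfold Wp
    rw [derivative_sum, eval_finsetSum]
    have : ∀ i, (derivative (C (a i * (1 : ι → K) i) * prodE 1 z i)).eval p =
        D * w * (a i * (1 - Y i)) - P * w ^ 2 * (a i * (1 - Y i) ^ 2) := fun i => by
      simp only [Pi.one_apply, mul_one, derivative_C_mul, eval_mul, eval_C, hF']
      ring
    rw [Finset.sum_congr rfl fun i _ => this i, Finset.sum_sub_distrib, ← Finset.mul_sum,
      ← Finset.mul_sum, hsum1, hsd, mul_one]
  have hG' : ∀ i, (derivative (Gp a 1 z i)).eval p =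
      D * w * Y i - P * w ^ 2 * (s - (1 - Y i) ^ 2) := fun i => by
    unfold Gp
    simp only [Pi.one_apply, C_1, one_mul, derivative_sub, eval_sub, hF', hW']
    ring
  have hH : ∀ i, (∏ j ∈ Finset.univ.erase i, Gp a 1 z j).eval p = (∏ j, G j) / G i := fun i => by
    rw [← Finset.mul_prod_erase Finset.univ G (Finset.mem_univ i), eval_prod,
      Finset.prod_congr rfl fun j _ => hGi j]
    field_simp [hG i]
  have hH' : ∀ i, (derivative (∏ j ∈ Finset.univ.erase i, Gp a 1 z j)).eval p =
      ((derivative (∏ j, Gp a 1 z j)).eval p -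
        (derivative (Gp a 1 z i)).eval p * ((∏ j, G j) / G i)) / G i := fun i => by
    rw [← Finset.mul_prod_erase Finset.univ (fun j => Gp a 1 z j) (Finset.mem_univ i),
      derivative_mul, eval_add, eval_mul, eval_mul, hH, hGi]
    have h0 : G i ≠ 0 := hG i
    field_simp
    ring
  generalize ∏ j, G j = H at *
  generalize hH'e : (derivative (∏ j, Gp a 1 z j)).eval p = H' at *
  have hterm : ∀ i, (derivative (C (a i * (1 : ι → K) i) * prodE 1 z i *
      ∏ j ∈ Finset.univ.erase i, Gp a 1 z j)).eval p =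
      H' * (a i / Y i - a i) + H * w * ((s - 1) * (a i / Y i ^ 2) + (2 - s) * (a i / Y i)
        - a i) := fun i => by
    have h0 : G i ≠ 0 := hG i
    have h1 := hY i
    simp only [Pi.one_apply, mul_one, derivative_mul, derivative_C, zero_mul, zero_add, eval_add,
      eval_mul, eval_C, hF, hF', hH, hH', hG', hGY]
    field_simp
    ring
  unfold PhiZ Phi
  rw [derivative_add, eval_add, derivative_sum, eval_finsetSum,
    Finset.sum_congr rfl fun i _ => hterm i, hH'e]
  have hN : ∑ i, (H' * (a i / Y i - a i) + H * w * ((s - 1) * (a i / Y i ^ 2) +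
      (2 - s) * (a i / Y i) - a i)) =
      H' * (∑ i, a i / Y i - ∑ i, a i) + H * w * ((s - 1) * (∑ i, a i / Y i ^ 2) +
      (2 - s) * (∑ i, a i / Y i) - ∑ i, a i) := by
    rw [Finset.sum_add_distrib, ← Finset.mul_sum, ← Finset.mul_sum, Finset.sum_sub_distrib,
      Finset.sum_sub_distrib, Finset.sum_add_distrib, ← Finset.mul_sum, ← Finset.mul_sum]
  have hs2 : ∑ i, a i * Y i ^ 2 = s - 2 + ∑ i, a i := by
    have : ∀ i, a i * Y i ^ 2 = a i * (1 - Y i) ^ 2 - 2 * (a i * (1 - Y i)) + a i :=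
      fun i => by ring
    rw [Finset.sum_congr rfl fun i _ => this i, Finset.sum_add_distrib, Finset.sum_sub_distrib,
      ← Finset.mul_sum, hsum1, ← hsd]
    ring
  rw [hN, hmult, hs2]
  linear_combination (H' + H * w * (2 - s)) * hs

/-- simple roots -/
theorem rootMultiplicity_eq_one [Nonempty ι] (a z : ι → K) (hg : GenW a)
    (hz : Function.Injective z) (p : K) (hp : (PhiZ a z).IsRoot p) (hm : mult a z p ≠ 1) :
    (PhiZ a z).rootMultiplicity p = 1 := by
  have h0 : PhiZ a z ≠ 0 := PhiZ_ne_zero hg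
  have h1 : 0 < (PhiZ a z).rootMultiplicity p := (rootMultiplicity_pos h0).mpr hp
  by_contra h
  have h2 : 1 < (PhiZ a z).rootMultiplicity p := by omega
  have h3 := (one_lt_rootMultiplicity_iff_isRoot h0).mp h2
  have h4 : (derivative (PhiZ a z)).eval p = 0 := h3.2
  rw [derivative_PhiZ a z hg hz p hp] at h4
  rcases mul_eq_zero.mp h4 with h5 | h5
  · exact Finset.prod_ne_zero_iff.mpr (fun i _ => root_G hg hz p hp i) h5
  · exact (mul_ne_zero (root_omega hg hz p hp) (sub_ne_zero.mpr hm)) h5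

theorem mu_ne_one (A B : K) (hA : A ≠ 0) (hB : B ≠ 0) (hC : 1 - A - B ≠ 0) (hA' : 2 * A ≠ 1)
    (hB' : 2 * B ≠ 1) (hC' : 2 * (A + B) ≠ 1) : mu A B ≠ 1 := by
  intro h
  have h1 : mu A B - 1 = (2 * A - 1) * (2 * B - 1) * (1 - 2 * (A + B)) /
      (A * B * (1 - A - B)) := by
    unfold mu; field_simp; ring
  rw [h, sub_self] at h1
  have h2 : (2 * A - 1) * (2 * B - 1) * (1 - 2 * (A + B)) / (A * B * (1 - A - B)) ≠ 0 :=
    div_ne_zero (mul_ne_zero (mul_ne_zero (sub_ne_zero.mpr hA') (sub_ne_zero.mpr hB'))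
      (sub_ne_zero.mpr hC'.symm)) (mul_ne_zero (mul_ne_zero hA hB) hC)
  exact h2 h1.symm

theorem Y_ne_one (a z : ι → K) (p : K) (i : ι) (hp : p ≠ z i) (hw : omega a z p ≠ 0) :
    Yc a z p i ≠ 1 := by
  intro h
  have h1 := sub_ne_zero.mpr hp
  unfold Yc at h
  have : 1 / ((p - z i) * omega a z p) = 0 := by linear_combination -h
  exact one_div_ne_zero (mul_ne_zero h1 hw) this

theorem Y_injective (a z : ι → K) (hz : Function.Injective z) (p : K) (hp : ∀ i, p ≠ z i)
    (hw : omega a z p ≠ 0) : Function.Injective (Yc a z p) := by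
  intro i j h
  apply hz
  have h1 := sub_ne_zero.mpr (hp i)
  have h2 := sub_ne_zero.mpr (hp j)
  unfold Yc at h
  field_simp at h
  linear_combination -h

/-- two-point configurations -/
theorem mult_two (a z : Fin 2 → K) (hg : GenW a) (hz : Function.Injective z) (p : K)
    (hp : (PhiZ a z).IsRoot p) : mult a z p = mu (a 0) (a 1) := by
  have hne := root_ne hg hz p hp
  have hw := root_omega hg hz p hp
  have hY := root_Y hg hz p hp
  have hs := root_sum_inv hg hz p hp
  have hs1 := sum_aY hne hw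
  have h01 : Yc a z p 0 ≠ Yc a z p 1 := fun h => by
    have := Y_injective a z hz p hne hw h
    exact absurd this (by decide)
  have hy1 := Y_ne_one a z p 0 (hne 0) hw
  have hw1 := Y_ne_one a z p 1 (hne 1) hw
  have hA := (avoid_single hg 0).1
  have hB := (avoid_single hg 1).1
  have hC : 1 - a 0 - a 1 ≠ 0 := by
    have := (hg.avoid Finset.univ Finset.univ_nonempty).2.1
    rw [Fin.sum_univ_two] at this
    intro h; exact this (by linear_combination -h)
  unfold mult
  simp only [Fin.sum_univ_two] at hs hs1 ⊢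
  have hy0 := hY 0
  have hw0 := hY 1
  generalize Yc a z p 0 = y at *
  generalize Yc a z p 1 = v at *
  generalize a 0 = A at *
  generalize a 1 = B at *
  have e1 := sub_ne_zero.mpr h01
  have e2 := sub_ne_zero.mpr hy1
  have e3 := sub_ne_zero.mpr hw1
  have hs' : A * v + B * y + (1 - (A + B)) * (y * v) = 0 := by
    have : A / y + B / v + (1 - (A + B)) = (A * v + B * y + (1 - (A + B)) * (y * v)) / (y * v) := by
      field_simp
    rw [this] at hs
    exact (div_eq_zero_iff.mp hs).resolve_right (mul_ne_zero hy0 hw0)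
  have hAv : A = - y * (v + 1) / ((y - v) * (y - 1)) := by
    rw [eq_div_iff (mul_ne_zero e1 e2)]
    linear_combination y * hs1 + hs'
  have hBv : B = - v * (y + 1) / ((v - y) * (v - 1)) := by
    have e1' : v - y ≠ 0 := sub_ne_zero.mpr h01.symm
    rw [eq_div_iff (mul_ne_zero e1' e3)]
    linear_combination v * hs1 + hs'
  have e1' : v - y ≠ 0 := sub_ne_zero.mpr h01.symm
  have hCv : 1 - A - B = - (y + v) / ((1 - y) * (1 - v)) := by
    rw [hAv, hBv]
    have e2' : 1 - y ≠ 0 := sub_ne_zero.mpr hy1.symm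
    have e3' : 1 - v ≠ 0 := sub_ne_zero.mpr hw1.symm
    field_simp
    ring
  have hv1 : v + 1 ≠ 0 := fun h => hA (by rw [hAv, h]; simp)
  have hy1' : y + 1 ≠ 0 := fun h => hB (by rw [hBv, h]; simp)
  have hyv : y + v ≠ 0 := fun h => hC (by rw [hCv, h]; simp)
  have hM1 : A * y ^ 2 + B * v ^ 2 + (1 - (A + B)) = -(y * v + y + v) := by
    linear_combination (y + v + 1) * hs1 + hs'
  have hM2 : A / y ^ 2 + B / v ^ 2 + (1 - (A + B)) = -(y + v + 1) / (y * v) := by
    have h5 : A / y ^ 2 + B / v ^ 2 + (1 - (A + B)) =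
      (A * v ^ 2 + B * y ^ 2 + (1 - (A + B)) * (y * v) ^ 2) / (y * v) ^ 2 := by
      field_simp
    rw [h5, div_eq_div_iff (pow_ne_zero 2 (mul_ne_zero hy0 hw0)) (mul_ne_zero hy0 hw0)]
    linear_combination (y * v * (y * v + y + v)) * hs' + (y * v) ^ 2 * hs1
  rw [hM1, hM2]
  have hmu : mu A B * (A * B * (1 - A - B)) =
      9 * (A * B * (1 - A - B)) + (1 - 4 * (A * B + (A + B) * (1 - A - B))) := by
    unfold mu; field_simp
  have hD : A * B * (1 - A - B) ≠ 0 := mul_ne_zero (mul_ne_zero hA hB) hC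
  refine mul_right_cancel₀ hD ?_
  rw [hmu, hAv, hBv]
  have e2' : 1 - y ≠ 0 := sub_ne_zero.mpr hy1.symm
  have e3' : 1 - v ≠ 0 := sub_ne_zero.mpr hw1.symm
  field_simp
  ring

end

end Pool.Agent.Lib.MP_740d3f_ag
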