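import Pool.Agent.Lib.MP_740d3f_ag.Red

set_option autoImplicit false
set_option linter.unusedSectionVars false
set_option linter.unusedVariables false

/-! # Chains: integral multipliers and the coarse spectrum -/

namespace Pool.Agent.Lib.MP_740d3f_ag
open Polynomial
noncomputable section


namespace ChainA

theorem card_values {k : Type*} [DecidableEq k] {n : ℕ} (c : Fin n → k)
    (h4 : ∀ i j l s : Fin n, i < j → j < l → l < s →
       c i ≠ c j → c i ≠ c l → c i ≠ c s → c j ≠ c l → c j ≠ c s → c l ≠ c s → False) :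
    (Finset.univ.image c).card ≤ 3 := by
  by_contra hcon
  push Not at hcon
  obtain ⟨T, hT, hTc⟩ := Finset.exists_subset_card_eq (n := 4) (by omega : 4 ≤ (Finset.univ.image c).card)
  have hpre : ∀ v : T, ∃ i : Fin n, c i = v := by
    intro v
    obtain ⟨i, _, hi⟩ := Finset.mem_image.1 (hT v.2)
    exact ⟨i, hi⟩
  choose g hg using hpre
  have hginj : Function.Injective g := by
    intro x y hxy
    apply Subtype.ext
    rw [← hg x, ← hg y, hxy]
  set S : Finset (Fin n) := Finset.univ.image g with hS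
  have hSc : S.card = 4 := by
    rw [hS, Finset.card_image_of_injective _ hginj, Finset.card_univ, Fintype.card_coe, hTc]
  have hcinj : ∀ x ∈ S, ∀ y ∈ S, c x = c y → x = y := by
    intro x hx y hy hxy
    rw [hS, Finset.mem_image] at hx hy
    obtain ⟨v, _, rfl⟩ := hx
    obtain ⟨w, _, rfl⟩ := hy
    rw [hg, hg] at hxy
    rw [Subtype.ext hxy]
  set e := S.orderEmbOfFin hSc with he
  have hmem : ∀ t, e t ∈ S := fun t => Finset.orderEmbOfFin_mem S hSc t
  have hne : ∀ s t : Fin 4, s ≠ t → c (e s) ≠ c (e t) := by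
    intro s t hst h
    exact hst (e.injective (hcinj _ (hmem s) _ (hmem t) h))
  exact h4 (e 0) (e 1) (e 2) (e 3) (e.strictMono (by decide)) (e.strictMono (by decide))
    (e.strictMono (by decide)) (hne _ _ (by decide)) (hne _ _ (by decide)) (hne _ _ (by decide))
    (hne _ _ (by decide)) (hne _ _ (by decide)) (hne _ _ (by decide))

theorem comb {k : Type*} [Field k] {n : ℕ} (b c : Fin n → k)
    (hb : ∀ S : Finset (Fin n), S.Nonempty → S ≠ Finset.univ → ∑ i ∈ S, b i ≠ 0)
    (hs : ∑ i, b i * c i = 0)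
    (h4 : ∀ i j l s : Fin n, i < j → j < l → l < s →
       c i ≠ c j → c i ≠ c l → c i ≠ c s → c j ≠ c l → c j ≠ c s → c l ≠ c s → False)
    (h0 : ∃ i, c i = 0) (h1 : ∃ i, c i ≠ 0) : ∑ i, b i * c i ^ 2 ≠ 0 := by
  classical
  obtain ⟨i0, hi0⟩ := h0
  obtain ⟨i1, hi1⟩ := h1
  have hcard := card_values c h4
  set V := (Finset.univ.image c).erase 0 with hV
  have hVc : V.card ≤ 2 := by
    rw [hV, Finset.card_erase_of_mem (Finset.mem_image.2 ⟨i0, Finset.mem_univ _, hi0⟩)]
    omega
  have hVn : V.Nonempty :=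
    ⟨c i1, Finset.mem_erase.2 ⟨hi1, Finset.mem_image_of_mem _ (Finset.mem_univ _)⟩⟩
  set B : k → k := fun v => ∑ i ∈ Finset.univ.filter (fun i => c i = v), b i with hB
  have hBne : ∀ v ∈ V, B v ≠ 0 := by
    intro v hv
    rw [hV, Finset.mem_erase, Finset.mem_image] at hv
    obtain ⟨hv0, i, _, hi⟩ := hv
    apply hb
    · exact ⟨i, by simp [hi]⟩
    · intro h
      have h2 := Finset.mem_univ i0
      rw [← h, Finset.mem_filter] at h2
      exact hv0 (by rw [← h2.2, hi0])
  have hsum : ∀ e : ℕ, e ≠ 0 → ∑ i, b i * c i ^ e = ∑ v ∈ V, B v * v ^ e := by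
    intro e he
    have h2 : ∑ i, b i * c i ^ e = ∑ v ∈ Finset.univ.image c, B v * v ^ e := by
      rw [← Finset.sum_fiberwise_of_maps_to (s := Finset.univ) (t := Finset.univ.image c) (g := c)
        (fun i _ => Finset.mem_image_of_mem _ (Finset.mem_univ i))]
      apply Finset.sum_congr rfl
      intro v _
      rw [hB]
      simp only
      rw [Finset.sum_mul]
      apply Finset.sum_congr rfl
      intro i hi
      rw [(Finset.mem_filter.1 hi).2]
    rw [h2, hV]
    rw [Finset.sum_erase]
    simp [he]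
  have hs1 := hsum 1 one_ne_zero
  simp only [pow_one] at hs1
  rw [hs] at hs1
  rw [hsum 2 two_ne_zero]
  have hpos : 0 < V.card := Finset.card_pos.2 hVn
  rcases (by omega : V.card = 1 ∨ V.card = 2) with h | h
  · obtain ⟨v, hv⟩ := Finset.card_eq_one.1 h
    have hvV : v ∈ V := by rw [hv]; exact Finset.mem_singleton_self v
    have hv0 : v ≠ 0 := Finset.ne_of_mem_erase hvV
    rw [hv, Finset.sum_singleton] at hs1
    exact absurd hs1.symm (mul_ne_zero (hBne v hvV) hv0)
  · obtain ⟨v, w, hvw, hv⟩ := Finset.card_eq_two.1 h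
    have hvV : v ∈ V := by rw [hv]; simp
    have hv0 : v ≠ 0 := Finset.ne_of_mem_erase hvV
    rw [hv, Finset.sum_pair hvw] at hs1
    rw [hv, Finset.sum_pair hvw]
    have h3 : B v * v ^ 2 + B w * w ^ 2 = B v * v * (v - w) := by
      linear_combination (-w) * hs1
    rw [h3]
    exact mul_ne_zero (mul_ne_zero (hBne v hvV) hv0) (sub_ne_zero.2 hvw)

end ChainA


section Part1


variable {K : Type*} [Field K]

namespace ChainA

/-- transfer of inequalities to a coarser ring -/
theorem le_of_coarse {O O₁ : ValuationSubring K} (hO : O ≤ O₁) {x y : K}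
    (h : O.valuation x ≤ O.valuation y) : O₁.valuation x ≤ O₁.valuation y := by
  rw [ValuationSubring.valuation_le_iff] at h ⊢
  obtain ⟨a, ha⟩ := h
  exact ⟨⟨a, hO a.2⟩, ha⟩

theorem eq_of_coarse {O O₁ : ValuationSubring K} (hO : O ≤ O₁) {x y : K}
    (h : O.valuation x = O.valuation y) : O₁.valuation x = O₁.valuation y :=
  le_antisymm (le_of_coarse hO h.le) (le_of_coarse hO h.ge)

theorem eq_one_of_coarse {O O₁ : ValuationSubring K} (hO : O ≤ O₁) {x : K}
    (h : O.valuation x = 1) : O₁.valuation x = 1 := by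
  have h1 := eq_of_coarse hO (x := x) (y := 1) (by rw [h, map_one])
  rw [h1, map_one]

end ChainA

variable (O : ValuationSubring K)

/-- distances in a chain -/
theorem ChainA.dist {m : ℕ} (z : Fin (m + 1) → K) (hch : IsChain O z) (i j : Fin (m + 1))
    (hij : i < j) : O.valuation (z j - z i) = O.valuation (z j - z 0) ∧ z j ≠ z 0 := by
  have h := hch i j hij
  constructor
  · have h1 : z j - z i = (z j - z 0) - (z i - z 0) := by ring
    rw [h1]
    exact Valuation.map_sub_eq_of_lt_left _ h
  · intro h0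
    rw [h0, sub_self, map_zero] at h
    exact not_lt_zero h

theorem ChainA.injective {m : ℕ} (z : Fin (m + 1) → K) (hch : IsChain O z) :
    Function.Injective z := by
  have key : ∀ i j : Fin (m + 1), i < j → z i ≠ z j := by
    intro i j hij h
    obtain ⟨h1, h2⟩ := ChainA.dist O z hch i j hij
    rw [h, sub_self, map_zero] at h1
    have h3 := (map_eq_zero O.valuation).1 h1.symm
    exact h2 (sub_eq_zero.1 h3)
  intro i j h
  rcases lt_trichotomy i j with h1 | h1 | h1
  · exact absurd h (key i j h1)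
  · exact h1
  · exact absurd h.symm (key j i h1)

/-- reduction of a chain at its vertex `j` -/
theorem ChainA.reduces {m : ℕ} (a z : Fin (m + 1) → K) (hch : IsChain O z) (j : Fin (m + 1))
    (hj : j ≠ 0) :
    Reduces O a z (z 0) (z j - z 0) (cb j) (cw O a j) ![0, 1] := by
  have h0j : 0 < j := Fin.pos_iff_ne_zero.2 hj
  have hr : z j - z 0 ≠ 0 := sub_ne_zero.2 (ChainA.dist O z hch 0 j h0j).2
  have hvr : O.valuation (z j - z 0) ≠ 0 := by
    rw [Ne, map_eq_zero]; exact hr
  have hvr' : 0 < O.valuation (z j - z 0) := zero_lt_iff.2 hvr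
  have hlt : ∀ i, i < j → O.valuation ((z i - z 0) / (z j - z 0)) < 1 := by
    intro i hi
    rw [map_div₀, div_lt_one₀ hvr']
    exact hch i j hi
  refine ⟨hr, ?_, ?_, ?_, ?_, ?_⟩
  · intro x y hxy
    fin_cases x <;> fin_cases y <;> simp_all
  · intro i b hb
    unfold cb at hb
    split_ifs at hb with h1 h2
    · simp only [Option.some.injEq] at hb
      subst hb
      have h3 := hlt i h1
      have h4 : (z i - z 0) / (z j - z 0) ∈ O := by
        rw [← ValuationSubring.valuation_le_one_iff]; exact h3.le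
      refine ⟨h4, ?_⟩
      rw [(resK_eq_zero_iff O h4).2 h3]
      simp
    · simp only [Option.some.injEq] at hb
      subst hb
      subst h2
      rw [div_self hr]
      refine ⟨one_mem _, ?_⟩
      rw [resK_one]
      simp
  · intro i hi
    unfold cb at hi
    split_ifs at hi with h1 h2
    have h3 : j < i := lt_of_le_of_ne (not_lt.1 h1) (Ne.symm h2)
    rw [← ValuationSubring.valuation_le_one_iff, not_le, map_div₀, one_lt_div₀ hvr']
    exact hch j i h3
  · intro b
    fin_cases b
    · refine ⟨0, ?_⟩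
      simp [cb, h0j]
    · refine ⟨j, ?_⟩
      simp [cb]
  · intro b
    fin_cases b
    · simp only [cw, Fin.zero_eta, Matrix.cons_val_zero]
      apply Finset.sum_congr _ (fun _ _ => rfl)
      ext i
      rw [Finset.mem_filter, Finset.mem_filter]
      unfold cb
      split_ifs with h1 h2 <;> simp [h1]
    · simp only [cw, Fin.mk_one, Matrix.cons_val_one, Matrix.cons_val_fin_one]
      have : (Finset.univ.filter (fun i => cb j i = some 1)) = {j} := by
        ext i
        rw [Finset.mem_filter, Finset.mem_singleton]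
        unfold cb
        split_ifs with h1 h2
        · simp [h1.ne]
        · simp [h2]
        · simp [h2]
      rw [this, Finset.sum_singleton]


end Part1

section Part3


variable {K : Type*} [Field K]

namespace ChainA

section
variable {ι : Type*} [Fintype ι] [DecidableEq ι]

omit [DecidableEq ι] in
theorem cross4 (a z : ι → K) (p : K) (hne : ∀ i, p ≠ z i) (i j l s : ι) :
    (Yc a z p i - Yc a z p j) * (Yc a z p l - Yc a z p s) * ((z l - z i) * (z s - z j)) =
    ((z j - z i) * (z s - z l)) * ((Yc a z p i - Yc a z p l) * (Yc a z p j - Yc a z p s)) := by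
  have h1 := sub_ne_zero.2 (hne i)
  have h2 := sub_ne_zero.2 (hne j)
  have h3 := sub_ne_zero.2 (hne l)
  have h4 := sub_ne_zero.2 (hne s)
  unfold Yc
  by_cases hw : omega a z p = 0
  · simp [hw]
  · field_simp
    ring

omit [DecidableEq ι] in
theorem cross3 (a z : ι → K) (p : K) (hne : ∀ i, p ≠ z i) (i j l : ι) :
    (Yc a z p i - Yc a z p j) * (Yc a z p l - 1) * (z l - z i) =
    (z j - z i) * ((Yc a z p i - Yc a z p l) * (Yc a z p j - 1)) := by
  have h1 := sub_ne_zero.2 (hne i)
  have h2 := sub_ne_zero.2 (hne j)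
  have h3 := sub_ne_zero.2 (hne l)
  unfold Yc
  by_cases hw : omega a z p = 0
  · simp [hw]
  · field_simp
    ring

end

/-- extended weights -/
def bx {k : Type*} [Field k] {m : ℕ} (b : Fin (m + 1) → k) : Fin (m + 2) → k :=
  Fin.snoc (α := fun _ => k) b (1 - ∑ i, b i)

theorem bx_sum {k : Type*} [Field k] {m : ℕ} (b : Fin (m + 1) → k) : ∑ i, bx b i = 1 := by
  rw [Fin.sum_univ_castSucc]
  simp [bx]

theorem bx_subset {k : Type*} [Field k] {m : ℕ} (b : Fin (m + 1) → k) (hg : GenW b)
    (S : Finset (Fin (m + 2))) (hS : S.Nonempty) (hS' : S ≠ Finset.univ) :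
    ∑ i ∈ S, bx b i ≠ 0 := by
  classical
  have key : ∀ T : Finset (Fin (m + 2)), T.Nonempty → Fin.last (m + 1) ∉ T →
      ∑ i ∈ T, bx b i ≠ 0 ∧ ∑ i ∈ T, bx b i ≠ 1 := by
    intro T hT hl
    have h1 : ∑ i ∈ T, bx b i =
        ∑ i ∈ Finset.univ.filter (fun i : Fin (m + 1) => i.castSucc ∈ T), b i := by
      have h2 : ∑ i ∈ T, bx b i = ∑ i, if i ∈ T then bx b i else 0 := by
        rw [Finset.sum_ite_mem, Finset.univ_inter]
      rw [h2, Fin.sum_univ_castSucc, if_neg hl, add_zero, Finset.sum_filter]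
      apply Finset.sum_congr rfl
      intro i _
      simp [bx]
    have h3 : (Finset.univ.filter (fun i : Fin (m + 1) => i.castSucc ∈ T)).Nonempty := by
      obtain ⟨x, hx⟩ := hT
      have hxl : x ≠ Fin.last (m + 1) := fun h => hl (h ▸ hx)
      refine ⟨x.castPred hxl, ?_⟩
      rw [Finset.mem_filter]
      refine ⟨Finset.mem_univ _, ?_⟩
      rw [Fin.castSucc_castPred]
      exact hx
    have h4 := hg.avoid _ h3
    rw [h1]
    exact ⟨h4.1, h4.2.1⟩
  by_cases hl : Fin.last (m + 1) ∈ S
  · have h1 : Sᶜ.Nonempty := by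
      rw [Finset.nonempty_iff_ne_empty, Ne, Finset.compl_eq_empty_iff]
      exact hS'
    have h2 := (key Sᶜ h1 (by simpa using hl)).2
    intro h3
    apply h2
    have h4 := Finset.sum_add_sum_compl S (bx b)
    rw [h3, bx_sum, zero_add] at h4
    exact h4
  · exact (key S hS hl).1

end ChainA

variable (O : ValuationSubring K)

namespace ChainA

theorem sum_sq_val {m : ℕ} (a z : Fin (m + 1) → K) (ha : ∀ i, a i ∈ O)
    (hg : GenW (fun i => resK O (a i))) (hch : IsChain O z) (p : K)
    (hne : ∀ i, p ≠ z i)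
    (hs : ∑ i, a i * Yc a z p i + (1 - ∑ i, a i) = 0)
    (y : K) (hy : ∀ i, O.valuation (Yc a z p i) ≤ O.valuation y) (hy1 : 1 ≤ O.valuation y)
    (hmax : y = 1 ∨ ∃ i, y = Yc a z p i)
    (hlt : O.valuation 1 < O.valuation y ∨ ∃ i, O.valuation (Yc a z p i) < O.valuation y) :
    O.valuation (∑ i, a i * Yc a z p i ^ 2 + (1 - ∑ i, a i)) = O.valuation y ^ 2 := by
  have hy0 : y ≠ 0 := by
    rintro rfl
    rw [map_zero] at hy1
    exact absurd hy1 (by simp)
  have hvy : O.valuation y ≠ 0 := by rw [Ne, map_eq_zero]; exact hy0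
  have hvy' : 0 < O.valuation y := zero_lt_iff.2 hvy
  set Y : Fin (m + 2) → K := Fin.snoc (α := fun _ => K) (Yc a z p) 1 with hYdef
  have hYc : ∀ i : Fin (m + 1), Y i.castSucc = Yc a z p i := by
    intro i; simp [hYdef]
  have hYl : Y (Fin.last (m + 1)) = 1 := by simp [hYdef]
  have hYle : ∀ i, O.valuation (Y i) ≤ O.valuation y := by
    intro i
    refine Fin.lastCases ?_ (fun j => ?_) i
    · rw [hYl, map_one]; exact hy1
    · rw [hYc]; exact hy j
  have hmem : ∀ i, Y i / y ∈ O := by
    intro i
    rw [← ValuationSubring.valuation_le_one_iff, map_div₀, div_le_one₀ hvy']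
    exact hYle i
  set c : Fin (m + 2) → IsLocalRing.ResidueField O := fun i => resK O (Y i / y) with hc
  set b : Fin (m + 2) → IsLocalRing.ResidueField O := bx (fun i => resK O (a i)) with hb
  have hbl : b (Fin.last (m + 1)) = resK O (1 - ∑ i, a i) := by
    rw [resK_sub O (one_mem _) (sum_mem fun i _ => ha i), resK_one,
      resK_sum O _ _ (fun i _ => ha i)]
    simp [hb, bx]
  have hbc : ∀ i : Fin (m + 1), b i.castSucc = resK O (a i) := by
    intro i; simp [hb, bx]
  have h1mem : (1 - ∑ i, a i) ∈ O := sub_mem (one_mem _) (sum_mem fun i _ => ha i)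
  have hsum : ∀ e : ℕ, ∑ i, b i * c i ^ e =
      resK O ((∑ i, a i * Yc a z p i ^ e + (1 - ∑ i, a i)) / y ^ e) := by
    intro e
    have h1 : (∑ i, a i * Yc a z p i ^ e + (1 - ∑ i, a i)) / y ^ e =
        ∑ i, a i * (Yc a z p i / y) ^ e + (1 - ∑ i, a i) * (1 / y) ^ e := by
      rw [add_div, Finset.sum_div]
      congr 1
      · apply Finset.sum_congr rfl
        intro i _
        rw [div_pow, mul_div_assoc]
      · rw [div_pow, one_pow, mul_one_div]
    have hmc : ∀ i, Yc a z p i / y ∈ O := by
      intro i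
      have := hmem i.castSucc
      rwa [hYc] at this
    have hml : 1 / y ∈ O := by
      have := hmem (Fin.last _)
      rwa [hYl] at this
    rw [h1, Fin.sum_univ_castSucc, resK_add O
      (sum_mem fun i _ => mul_mem (ha i) (pow_mem (hmc i) e)) (mul_mem h1mem (pow_mem hml e)),
      resK_sum O _ _ (fun i _ => mul_mem (ha i) (pow_mem (hmc i) e)),
      resK_mul O h1mem (pow_mem hml e), resK_pow O hml]
    congr 1
    · apply Finset.sum_congr rfl
      intro i _
      rw [resK_mul O (ha i) (pow_mem (hmc i) e), resK_pow O (hmc i), hbc, hc]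
      simp only
      rw [hYc]
    · rw [hbl, hc]
      simp only
      rw [hYl]
  have hvd : ∀ i j, c i ≠ c j → O.valuation (Y i - Y j) = O.valuation y := by
    intro i j hij
    rw [hc] at hij
    simp only [ne_eq] at hij
    rw [resK_eq_iff O (hmem i) (hmem j), ← sub_div, map_div₀, div_lt_one₀ hvy', not_lt] at hij
    exact le_antisymm (O.valuation.map_sub_le (hYle i) (hYle j)) hij
  have hzz : ∀ i j : Fin (m + 1), i < j → O.valuation (z j - z i) = O.valuation (z j - z 0) :=
    fun i j h => (ChainA.dist O z hch i j h).1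
  have hz0 : ∀ i j : Fin (m + 1), i < j → O.valuation (z j - z 0) ≠ 0 := by
    intro i j h
    rw [Ne, map_eq_zero, sub_eq_zero]
    exact (ChainA.dist O z hch i j h).2
  have hres : ∑ i, b i * c i ^ 2 ≠ 0 := by
    apply comb b c (bx_subset _ hg)
    · have := hsum 1
      simp only [pow_one] at this
      rw [this, hs, zero_div, resK_zero]
    · intro i j l s hij hjl hls h1 h2 h3 h4 h5 h6
      have hil : i ≠ Fin.last _ := (((hij.trans hjl).trans hls).trans_le (Fin.le_last _)).ne
      have hjl' : j ≠ Fin.last _ := ((hjl.trans hls).trans_le (Fin.le_last _)).ne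
      have hll : l ≠ Fin.last _ := (hls.trans_le (Fin.le_last _)).ne
      obtain ⟨i', rfl⟩ := Fin.exists_castSucc_eq.2 hil
      obtain ⟨j', rfl⟩ := Fin.exists_castSucc_eq.2 hjl'
      obtain ⟨l', rfl⟩ := Fin.exists_castSucc_eq.2 hll
      have hij' : i' < j' := by simpa using hij
      have hjl'' : j' < l' := by simpa using hjl
      have e1 := hvd _ _ h1
      have e2 := hvd _ _ h2
      have e5 := hvd _ _ h5
      have e6 := hvd _ _ h6
      have hlt' := hch j' l' hjl''
      by_cases hsl : s = Fin.last _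
      · subst hsl
        rw [hYl, hYc] at e5 e6
        rw [hYc, hYc] at e1 e2
        have h7 := congrArg O.valuation (cross3 a z p hne i' j' l')
        rw [map_mul, map_mul, map_mul, map_mul, e1, e2, e5, e6, hzz i' l' (hij'.trans hjl''),
          hzz i' j' hij', mul_comm (O.valuation (z j' - z 0))] at h7
        have h8 := mul_left_cancel₀ (mul_ne_zero hvy hvy) h7
        exact absurd h8 hlt'.ne'
      · obtain ⟨s', rfl⟩ := Fin.exists_castSucc_eq.2 hsl
        have hls' : l' < s' := by simpa using hls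
        rw [hYc, hYc] at e1 e2 e5 e6
        have h7 := congrArg O.valuation (cross4 a z p hne i' j' l' s')
        rw [map_mul, map_mul, map_mul, map_mul, map_mul, map_mul, e1, e2, e5, e6,
          hzz i' l' (hij'.trans hjl''), hzz i' j' hij', hzz l' s' hls',
          hzz j' s' (hjl''.trans hls'), mul_comm (O.valuation (z j' - z 0) * _)] at h7
        have h8 := mul_left_cancel₀ (mul_ne_zero hvy hvy) h7
        have h9 := mul_right_cancel₀ (hz0 l' s' hls') h8
        exact absurd h9 hlt'.ne'
    · have : ∃ i, O.valuation (Y i) < O.valuation y := by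
        rcases hlt with h | ⟨i, h⟩
        · exact ⟨Fin.last _, by rw [hYl]; exact h⟩
        · exact ⟨i.castSucc, by rw [hYc]; exact h⟩
      obtain ⟨i, hi⟩ := this
      refine ⟨i, ?_⟩
      rw [hc]
      simp only
      rw [resK_eq_zero_iff O (hmem i), map_div₀, div_lt_one₀ hvy']
      exact hi
    · have : ∃ i, Y i = y := by
        rcases hmax with h | ⟨i, h⟩
        · exact ⟨Fin.last _, by rw [hYl]; exact h.symm⟩
        · exact ⟨i.castSucc, by rw [hYc]; exact h.symm⟩
      obtain ⟨i, hi⟩ := this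
      refine ⟨i, ?_⟩
      rw [hc]
      simp only
      rw [hi, div_self hy0, resK_one]
      exact one_ne_zero
  rw [hsum 2] at hres
  have hin : (∑ i, a i * Yc a z p i ^ 2 + (1 - ∑ i, a i)) / y ^ 2 ∈ O := by
    by_contra hcon
    apply hres
    unfold resK
    rw [dif_neg hcon]
  rw [resK_ne_zero_iff O hin, map_div₀, map_pow] at hres
  rwa [div_eq_one_iff_eq (pow_ne_zero _ hvy)] at hres

end ChainA


end Part3

section Part4


variable {K : Type*} [Field K] [IsAlgClosed K] (O : ValuationSubring K)
  [CharZero (IsLocalRing.ResidueField O)]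

omit [IsAlgClosed K] [CharZero (IsLocalRing.ResidueField O)] in
/-- key dichotomy: for a chain, either all coordinates `Y_i` are units, or the valuation of
the multiplier is `(max |Y| / min |Y|)^2` (maximum and minimum over all `i` and infinity,
where the coordinate is `1`). -/
theorem ChainA.chain_mult_val' {m : ℕ}
    (a z : Fin (m + 1) → K) (ha : ∀ i, a i ∈ O)
    (hg : GenW (fun i => resK O (a i))) (hch : IsChain O z)
    (p : K) (hp : (PhiZ a z).IsRoot p) :
    (∀ i, O.valuation (Yc a z p i) = 1) ∨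
    ∃ Ymax Ymin : K, (Ymax = 1 ∨ ∃ i, Ymax = Yc a z p i) ∧ (Ymin = 1 ∨ ∃ i, Ymin = Yc a z p i) ∧
      (∀ i, O.valuation (Yc a z p i) ≤ O.valuation Ymax) ∧
      (∀ i, O.valuation Ymin ≤ O.valuation (Yc a z p i)) ∧
      1 ≤ O.valuation Ymax ∧ O.valuation Ymin ≤ 1 ∧ O.valuation Ymin < O.valuation Ymax ∧
      O.valuation (mult a z p) = (O.valuation (Ymax / Ymin)) ^ 2 := by
  have hga : GenW a := genW_of_res O a ha hg
  have hz := ChainA.injective O z hch
  have hne := root_ne hga hz p hp
  have hw := root_omega hga hz p hp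
  have hY0 := root_Y hga hz p hp
  obtain ⟨hq, hwq, hYq, -, -⟩ := root_partner a z hga hz p hp
  have hneq := root_ne hga hz _ hq
  by_cases hall : ∀ i, O.valuation (Yc a z p i) = 1
  · exact Or.inl hall
  right
  set Y : Fin (m + 2) → K := Fin.snoc (α := fun _ => K) (Yc a z p) 1 with hYdef
  have hYc : ∀ i : Fin (m + 1), Y i.castSucc = Yc a z p i := by
    intro i; simp [hYdef]
  have hYl : Y (Fin.last (m + 1)) = 1 := by simp [hYdef]
  have hcase : ∀ i, Y i = 1 ∨ ∃ j, Y i = Yc a z p j := by
    intro i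
    refine Fin.lastCases ?_ (fun j => ?_) i
    · exact Or.inl hYl
    · exact Or.inr ⟨j, hYc j⟩
  obtain ⟨imax, himax⟩ := Finite.exists_max (fun i => O.valuation (Y i))
  obtain ⟨imin, himin⟩ := Finite.exists_min (fun i => O.valuation (Y i))
  have h1 : ∀ i, O.valuation (Yc a z p i) ≤ O.valuation (Y imax) := by
    intro i; have := himax i.castSucc; simp only [hYc] at this; exact this
  have h2 : ∀ i, O.valuation (Y imin) ≤ O.valuation (Yc a z p i) := by
    intro i; have := himin i.castSucc; simp only [hYc] at this; exact this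
  have h3 : 1 ≤ O.valuation (Y imax) := by
    have := himax (Fin.last _); simp only [hYl, map_one] at this; exact this
  have h4 : O.valuation (Y imin) ≤ 1 := by
    have := himin (Fin.last _); simp only [hYl, map_one] at this; exact this
  have h5 : O.valuation (Y imin) < O.valuation (Y imax) := by
    by_contra hcon
    push Not at hcon
    apply hall
    intro i
    apply le_antisymm
    · exact (h1 i).trans (hcon.trans h4)
    · exact h3.trans (hcon.trans (h2 i))
  have hmin0 : Y imin ≠ 0 := by
    rcases hcase imin with h | ⟨j, h⟩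
    · rw [h]; exact one_ne_zero
    · rw [h]; exact hY0 j
  have hvmin : 0 < O.valuation (Y imin) := zero_lt_iff.2 (by rw [Ne, map_eq_zero]; exact hmin0)
  have hv0 : ∀ i, 0 < O.valuation (Yc a z p i) := fun i =>
    zero_lt_iff.2 (by rw [Ne, map_eq_zero]; exact hY0 i)
  refine ⟨Y imax, Y imin, hcase imax, hcase imin, h1, h2, h3, h4, h5, ?_⟩
  have e1 := ChainA.sum_sq_val O a z ha hg hch p hne (sum_aY hne hw) (Y imax) h1 h3 (hcase imax)
    (by
      rcases hcase imin with h | ⟨j, h⟩
      · left; rw [h] at h5; exact h5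
      · right; exact ⟨j, by rw [h] at h5; exact h5⟩)
  have hwq0 : omega a z (p - 1 / omega a z p) ≠ 0 := by rw [hwq]; exact neg_ne_zero.2 hw
  have e2 := ChainA.sum_sq_val O a z ha hg hch (p - 1 / omega a z p) hneq
    (sum_aY hneq hwq0) (Y imin)⁻¹ (by
      intro i
      rw [hYq, map_inv₀, map_inv₀, inv_le_inv₀ (hv0 i) hvmin]
      exact h2 i) (by
      rw [map_inv₀, one_le_inv₀ hvmin]
      exact h4) (by
      rcases hcase imin with h | ⟨j, h⟩
      · left; rw [h, inv_one]
      · right; exact ⟨j, by rw [h, hYq]⟩) (by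
      rcases hcase imax with h | ⟨j, h⟩
      · left
        rw [h] at h5
        rw [map_one, map_inv₀, one_lt_inv₀ hvmin]
        rw [map_one] at h5
        exact h5
      · right
        refine ⟨j, ?_⟩
        rw [hYq, map_inv₀, map_inv₀, inv_lt_inv₀ (hv0 j) hvmin]
        rw [h] at h5
        exact h5)
  have e3 : mult a z p = (∑ i, a i * Yc a z p i ^ 2 + (1 - ∑ i, a i)) *
      (∑ i, a i * Yc a z (p - 1 / omega a z p) i ^ 2 + (1 - ∑ i, a i)) := by
    unfold mult
    congr 2
    apply Finset.sum_congr rfl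
    intro i _
    rw [hYq, inv_pow, div_eq_mul_inv]
  rw [e3, map_mul, e1, e2, map_inv₀, map_div₀, div_eq_mul_inv, mul_pow]


end Part4

section Part5


namespace ChainA

variable {K : Type*} [Field K]

/-- a period-two point all of whose coordinates are units -/
theorem exists_pair {m : ℕ} (O₁ : ValuationSubring K)
    (a z : Fin (m + 1) → K) (ha : ∀ i, a i ∈ O₁)
    (hg : GenW (fun i => resK O₁ (a i)))
    (p : K) (hne : ∀ i, p ≠ z i) (hw : omega a z p ≠ 0)
    (hs : ∑ i, a i * Yc a z p i + (1 - ∑ i, a i) = 0)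
    (hs' : ∑ i, a i / Yc a z p i + (1 - ∑ i, a i) = 0)
    (hY : ∀ i, O₁.valuation (Yc a z p i) = 1) :
    ∃ i k : Fin (m + 1), i < k ∧ O₁.valuation ((z k - z i) * omega a z p) = 1 ∧
      O₁.valuation ((p - z k) * omega a z p) = 1 := by
  classical
  set w := omega a z p with hwdef
  have hYm : ∀ i, Yc a z p i ∈ O₁ := fun i => by
    rw [← ValuationSubring.valuation_le_one_iff, hY i]
  have hx : ∀ i, 1 - Yc a z p i = ((p - z i) * w)⁻¹ := fun i => by
    unfold Yc
    rw [one_div]
    ring
  have hxm : ∀ i, ((p - z i) * w)⁻¹ ∈ O₁ := fun i => by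
    rw [← hx]; exact sub_mem (one_mem _) (hYm i)
  set T : Finset (Fin (m + 1)) :=
    Finset.univ.filter (fun i => O₁.valuation ((p - z i) * w)⁻¹ = 1) with hT
  have hnT : ∀ i, i ∉ T → resK O₁ ((p - z i) * w)⁻¹ = 0 := by
    intro i hi
    rw [hT, Finset.mem_filter] at hi
    rw [resK_eq_zero_iff O₁ (hxm i)]
    refine lt_of_le_of_ne ?_ (fun h => hi ⟨Finset.mem_univ _, h⟩)
    rw [ValuationSubring.valuation_le_one_iff]
    exact hxm i
  by_contra hcon
  have hpair : ∀ i ∈ T, ∀ k ∈ T, i < k →
      resK O₁ ((p - z i) * w)⁻¹ = resK O₁ ((p - z k) * w)⁻¹ := by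
    intro i hi k hk hik
    rw [resK_eq_iff O₁ (hxm i) (hxm k)]
    have h1 : ((p - z i) * w)⁻¹ - ((p - z k) * w)⁻¹ =
        -(((z k - z i) * w) * ((p - z i) * w)⁻¹ * ((p - z k) * w)⁻¹) := by
      have e1 := sub_ne_zero.2 (hne i)
      have e2 := sub_ne_zero.2 (hne k)
      field_simp
      ring
    have h2 : ((p - z i) * w)⁻¹ - ((p - z k) * w)⁻¹ ∈ O₁ := sub_mem (hxm i) (hxm k)
    refine lt_of_le_of_ne ((ValuationSubring.valuation_le_one_iff _ _).2 h2) ?_
    intro h3
    apply hcon
    refine ⟨i, k, hik, ?_, ?_⟩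
    · rw [h1, Valuation.map_neg, map_mul, map_mul, (Finset.mem_filter.1 hi).2,
        (Finset.mem_filter.1 hk).2, mul_one, mul_one] at h3
      exact h3
    · have := (Finset.mem_filter.1 hk).2
      rw [map_inv₀, inv_eq_one] at this
      exact this
  have hpair' : ∀ i ∈ T, ∀ k ∈ T,
      resK O₁ ((p - z i) * w)⁻¹ = resK O₁ ((p - z k) * w)⁻¹ := by
    intro i hi k hk
    rcases lt_trichotomy i k with h | h | h
    · exact hpair i hi k hk h
    · rw [h]
    · exact (hpair k hk i hi h).symm
  -- the first relation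
  have hsum1 : ∑ i, a i * ((p - z i) * w)⁻¹ = 1 := by
    have : ∀ i, a i * ((p - z i) * w)⁻¹ = a i - a i * Yc a z p i := fun i => by
      rw [← hx]; ring
    rw [Finset.sum_congr rfl fun i _ => this i, Finset.sum_sub_distrib]
    linear_combination -hs
  have hsum1' : ∑ i ∈ T, resK O₁ (a i) * resK O₁ ((p - z i) * w)⁻¹ = 1 := by
    have h1 := congrArg (resK O₁) hsum1
    rw [resK_one, resK_sum O₁ _ _ (fun i _ => mul_mem (ha i) (hxm i))] at h1
    rw [← h1]
    apply Finset.sum_subset_zero_on_sdiff (Finset.subset_univ T)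
    · intro i hi
      rw [resK_mul O₁ (ha i) (hxm i), hnT i (Finset.mem_sdiff.1 hi).2, mul_zero]
    · intro i _
      rw [resK_mul O₁ (ha i) (hxm i)]
  have hTn : T.Nonempty := by
    by_contra h
    rw [Finset.not_nonempty_iff_eq_empty] at h
    rw [h, Finset.sum_empty] at hsum1'
    exact zero_ne_one hsum1'
  obtain ⟨t, ht⟩ := hTn
  set u := resK O₁ ((p - z t) * w)⁻¹ with hu
  have hAu : (∑ i ∈ T, resK O₁ (a i)) * u = 1 := by
    rw [← hsum1', Finset.sum_mul]
    apply Finset.sum_congr rfl
    intro i hi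
    rw [hpair' i hi t ht]
  have hYres : ∀ i, resK O₁ (Yc a z p i) = 1 - resK O₁ ((p - z i) * w)⁻¹ := fun i => by
    have : Yc a z p i = 1 - ((p - z i) * w)⁻¹ := by rw [← hx]; ring
    rw [this, resK_sub O₁ (one_mem _) (hxm i), resK_one]
  have hYres0 : ∀ i, resK O₁ (Yc a z p i) ≠ 0 := fun i =>
    (resK_ne_zero_iff O₁ (hYm i)).2 (hY i)
  have hu1 : 1 - u ≠ 0 := by rw [hu, ← hYres]; exact hYres0 t
  have hYi : ∀ i, a i / Yc a z p i ∈ O₁ := fun i => by
    rw [← ValuationSubring.valuation_le_one_iff, map_div₀, hY i, div_one,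
      ValuationSubring.valuation_le_one_iff]
    exact ha i
  have hsum2 : ∑ i ∈ T, resK O₁ (a i) / (1 - u) + (1 - ∑ i ∈ T, resK O₁ (a i)) = 0 := by
    have h1 := congrArg (resK O₁) hs'
    rw [resK_zero, resK_add O₁ (sum_mem fun i _ => hYi i)
      (sub_mem (one_mem _) (sum_mem fun i _ => ha i)), resK_sub O₁ (one_mem _)
      (sum_mem fun i _ => ha i), resK_one, resK_sum O₁ _ _ (fun i _ => hYi i),
      resK_sum O₁ _ _ (fun i _ => ha i)] at h1
    rw [← h1]
    have h2 : ∑ i, resK O₁ (a i / Yc a z p i) =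
        ∑ i ∈ T, resK O₁ (a i) / (1 - u) + ∑ i ∈ Finset.univ \ T, resK O₁ (a i) := by
      rw [← Finset.sum_sdiff (Finset.subset_univ T), add_comm]
      congr 1
      · apply Finset.sum_congr rfl
        intro i hi
        rw [resK_div O₁ (ha i) (hY i), hYres, hpair' i hi t ht]
      · apply Finset.sum_congr rfl
        intro i hi
        rw [resK_div O₁ (ha i) (hY i), hYres, hnT i (Finset.mem_sdiff.1 hi).2, sub_zero, div_one]
    rw [h2, ← Finset.sum_sdiff (Finset.subset_univ T) (f := fun i => resK O₁ (a i))]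
    ring
  rw [← Finset.sum_div] at hsum2
  have hav := (hg.avoid T ⟨t, ht⟩).2.2.1
  apply hav
  set A := ∑ i ∈ T, resK O₁ (a i) with hA
  have h3 : A + (1 - A) * (1 - u) = 0 := by
    have : A / (1 - u) * (1 - u) = A := div_mul_cancel₀ _ hu1
    linear_combination (1 - u) * hsum2 - this
  have h4 : u = 2 := by linear_combination -h3 + hAu
  rw [h4] at hAu
  linear_combination hAu

end ChainA

variable {K : Type*} [Field K] [IsAlgClosed K] (O : ValuationSubring K)
  [CharZero (IsLocalRing.ResidueField O)]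

omit [IsAlgClosed K] [CharZero (IsLocalRing.ResidueField O)] in
/-- for a chain, a period-two point with integral multiplier (with respect to a coarser ring)
has only unit coordinates, and it lives at a vertex -/
theorem ChainA.chain_units' {m : ℕ} (O₁ : ValuationSubring K) (hO : O ≤ O₁)
    (a z : Fin (m + 1) → K) (ha : ∀ i, a i ∈ O)
    (hg : GenW (fun i => resK O (a i))) (hch : IsChain O z)
    (p : K) (hp : (PhiZ a z).IsRoot p) (hM : mult a z p ∈ O₁) :
    (∀ i, O₁.valuation (Yc a z p i) = 1) ∧
    ∃ j : Fin (m + 1), j ≠ 0 ∧ O₁.valuation ((z j - z 0) * omega a z p) = 1 ∧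
      O₁.valuation (p - z 0) ≤ O₁.valuation (z j - z 0) := by
  have hga : GenW a := genW_of_res O a ha hg
  have hz := ChainA.injective O z hch
  have hne := root_ne hga hz p hp
  have hw := root_omega hga hz p hp
  have hunits : ∀ i, O₁.valuation (Yc a z p i) = 1 := by
    rcases ChainA.chain_mult_val' O a z ha hg hch p hp with h | h
    · intro i
      exact ChainA.eq_one_of_coarse hO (h i)
    · obtain ⟨Ymax, Ymin, hmax, hmin, h1, h2, h3, h4, h5, h6⟩ := h
      have hvmin : 0 < O.valuation Ymin := by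
        rw [zero_lt_iff, Ne, map_eq_zero]
        rcases hmin with h | ⟨i, h⟩
        · rw [h]; exact one_ne_zero
        · rw [h]; exact root_Y hga hz p hp i
      have hmin0 : Ymin ≠ 0 := by
        intro h; rw [h, map_zero] at hvmin; exact lt_irrefl _ hvmin
      have h7 : O₁.valuation (mult a z p) = O₁.valuation ((Ymax / Ymin) ^ 2) := by
        apply ChainA.eq_of_coarse hO
        rw [h6, map_pow]
      have h8 : O₁.valuation Ymax ≤ O₁.valuation Ymin := by
        rw [← ValuationSubring.valuation_le_one_iff, h7, map_pow,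
          pow_le_one_iff (two_ne_zero), map_div₀, div_le_one₀] at hM
        · exact hM
        · rw [zero_lt_iff, Ne, map_eq_zero]; exact hmin0
      have h9 : O₁.valuation Ymin ≤ 1 := by
        have := ChainA.le_of_coarse hO (x := Ymin) (y := 1) (by rw [map_one]; exact h4)
        rwa [map_one] at this
      have h10 : 1 ≤ O₁.valuation Ymax := by
        have := ChainA.le_of_coarse hO (x := 1) (y := Ymax) (by rw [map_one]; exact h3)
        rwa [map_one] at this
      intro i
      apply le_antisymm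
      · exact (ChainA.le_of_coarse hO (h1 i)).trans (h8.trans h9)
      · exact h10.trans (h8.trans (ChainA.le_of_coarse hO (h2 i)))
  refine ⟨hunits, ?_⟩
  obtain ⟨i, k, hik, h1, h2⟩ := ChainA.exists_pair O₁ a z (fun i => hO (ha i))
    (genW_coarse O O₁ hO a ha hg) p hne hw (sum_aY hne hw) (root_sum_inv hga hz p hp) hunits
  have hvw : O₁.valuation (omega a z p) ≠ 0 := by rw [Ne, map_eq_zero]; exact hw
  have h3 : O₁.valuation (z k - z i) = O₁.valuation (z k - z 0) :=
    ChainA.eq_of_coarse hO (ChainA.dist O z hch i k hik).1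
  have h4 : O₁.valuation ((z k - z 0) * omega a z p) = 1 := by
    rw [map_mul, ← h3, ← map_mul]; exact h1
  refine ⟨k, ?_, h4, ?_⟩
  · rintro rfl
    exact absurd hik (Fin.not_lt_zero i)
  · have h5 : O₁.valuation (p - z k) = O₁.valuation (z k - z 0) := by
      rw [map_mul] at h2 h4
      exact mul_right_cancel₀ hvw (h2.trans h4.symm)
    have h6 : p - z 0 = (p - z k) + (z k - z 0) := by ring
    rw [h6]
    exact Valuation.map_add_le _ h5.le le_rfl


end Part5

section Part6


variable {K : Type*} [Field K] [IsAlgClosed K] (O : ValuationSubring K)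
  [CharZero (IsLocalRing.ResidueField O)]

omit [IsAlgClosed K] [CharZero (IsLocalRing.ResidueField O)] in
theorem ChainA.genW_cw {m : ℕ} (a z : Fin (m + 1) → K)
    (hg : GenW (fun i => resK O (a i))) (hch : IsChain O z) (j : Fin (m + 1)) (hj : j ≠ 0) :
    GenW (cw O a j) := by
  have hR := ChainA.reduces O a z hch j hj
  exact genW_reduced _ hg (cb j) hR.hsurj _ hR.hA

omit [IsAlgClosed K] [CharZero (IsLocalRing.ResidueField O)] in
theorem ChainA.inj01 : Function.Injective (![0, 1] : Fin 2 → IsLocalRing.ResidueField O) := by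
  intro x y hxy
  fin_cases x <;> fin_cases y <;> simp_all

omit [IsAlgClosed K] [CharZero (IsLocalRing.ResidueField O)] in
theorem ChainA.mu_cw_ne_one {m : ℕ} (a z : Fin (m + 1) → K)
    (hg : GenW (fun i => resK O (a i))) (hch : IsChain O z) (j : Fin (m + 1)) (hj : j ≠ 0) :
    mu (cw O a j 0) (cw O a j 1) ≠ 1 := by
  have hG := ChainA.genW_cw O a z hg hch j hj
  have h0 := hG.avoid {0} (Finset.singleton_nonempty _)
  have h1 := hG.avoid {1} (Finset.singleton_nonempty _)
  have h2 := hG.avoid Finset.univ Finset.univ_nonempty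
  rw [Finset.sum_singleton] at h0 h1
  rw [Fin.sum_univ_two] at h2
  apply mu_ne_one
  · exact h0.1
  · exact h1.1
  · intro h
    apply h2.2.1
    linear_combination -h
  · exact h0.2.2.1
  · exact h1.2.2.1
  · exact h2.2.2.1

/-- a root which is good at the vertex `j` -/
theorem ChainA.good_mult {m : ℕ} (a z : Fin (m + 1) → K) (ha : ∀ i, a i ∈ O)
    (hg : GenW (fun i => resK O (a i))) (hch : IsChain O z)
    (p : K) (hp : (PhiZ a z).IsRoot p) (j : Fin (m + 1)) (hj : j ≠ 0)
    (hgood : GoodAt O (cw O a j) ![0, 1] (z 0) (z j - z 0) p) :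
    mult a z p ∈ O ∧ resK O (mult a z p) = mu (cw O a j 0) (cw O a j 1) := by
  have hR := ChainA.reduces O a z hch j hj
  have h1 := (good_roots O a z ha hg (ChainA.injective O z hch) _ _ _ _ _ hR).2 p hp hgood
  refine ⟨h1.1, ?_⟩
  rw [h1.2.1]
  exact mult_two _ _ (ChainA.genW_cw O a z hg hch j hj) (ChainA.inj01 O) _ hgood.2

/-- integral period-two points are good at a vertex -/
theorem ChainA.chain_integral' {m : ℕ}
    (a z : Fin (m + 1) → K) (ha : ∀ i, a i ∈ O)
    (hg : GenW (fun i => resK O (a i))) (hch : IsChain O z)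
    (p : K) (hp : (PhiZ a z).IsRoot p) (hM : mult a z p ∈ O) :
    ∃ j : Fin (m + 1), j ≠ 0 ∧ GoodAt O (cw O a j) ![0, 1] (z 0) (z j - z 0) p ∧
      resK O (mult a z p) = mu (cw O a j 0) (cw O a j 1) := by
  obtain ⟨hu, j, hj, h1, h2⟩ := ChainA.chain_units' O O le_rfl a z ha hg hch p hp hM
  have hR := ChainA.reduces O a z hch j hj
  have hgood := good_of_units O a z ha hg (ChainA.injective O z hch) _ _ _ _ _ hR p hp hu h1 h2
  exact ⟨j, hj, hgood, (ChainA.good_mult O a z ha hg hch p hp j hj hgood).2⟩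

theorem ChainA.chain_mult_ne_one' {m : ℕ}
    (a z : Fin (m + 1) → K) (ha : ∀ i, a i ∈ O)
    (hg : GenW (fun i => resK O (a i))) (hch : IsChain O z)
    (p : K) (hp : (PhiZ a z).IsRoot p) : mult a z p ≠ 1 := by
  intro h
  obtain ⟨j, hj, h1, h2⟩ := ChainA.chain_integral' O a z ha hg hch p hp (by rw [h]; exact one_mem _)
  rw [h, resK_one] at h2
  exact ChainA.mu_cw_ne_one O a z hg hch j hj h2.symm

open Classical in
/-- the part of the spectrum that is integral with respect to a coarser valuation ring `O₁`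
for which exactly the edge `j` of the chain is degenerate -/
theorem ChainA.coarse_spec' {m : ℕ} (O₁ : ValuationSubring K) (hO : O ≤ O₁)
    [CharZero (IsLocalRing.ResidueField O₁)]
    (a z : Fin (m + 1) → K) (ha : ∀ i, a i ∈ O)
    (hg : GenW (fun i => resK O (a i))) (hch : IsChain O z)
    (j : Fin (m + 1)) (hj0 : 0 < j) (hjl : j < Fin.last m)
    (hlow : ∀ i, i ≠ 0 → i ≤ j → O₁.valuation (z i - z 0) = O₁.valuation (z j - z 0))
    (hhigh : ∀ i, j < i → O₁.valuation (z i - z 0) = O₁.valuation (z (Fin.last m) - z 0))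
    (hlt : O₁.valuation (z j - z 0) < O₁.valuation (z (Fin.last m) - z 0)) :
    ((PhiZ a z).roots.filter (fun p => mult a z p ∈ O₁)).map (fun p => resK O₁ (mult a z p))
      = Spec (fun i : {i : Fin (m + 1) // i ≤ j} => resK O₁ (a i))
          (fun i => resK O₁ ((z i - z 0) / (z j - z 0)))
        + Spec (fun o : Option {i : Fin (m + 1) // j < i} =>
            o.elim (resK O₁ (∑ i ∈ Finset.univ.filter (fun i => i ≤ j), a i))
              (fun i => resK O₁ (a i)))
          (fun o => o.elim 0 (fun i => resK O₁ ((z i - z 0) / (z (Fin.last m) - z 0)))) := by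
  have hz := ChainA.injective O z hch
  have hga : GenW a := genW_of_res O a ha hg
  have hg1 := genW_coarse O O₁ hO a ha hg
  have ha1 : ∀ i, a i ∈ O₁ := fun i => hO (ha i)
  have hdist : ∀ i k : Fin (m + 1), i < k →
      O₁.valuation (z k - z i) = O₁.valuation (z k - z 0) := fun i k hik =>
    ChainA.eq_of_coarse hO (ChainA.dist O z hch i k hik).1
  have hrj : z j - z 0 ≠ 0 := sub_ne_zero.2 (ChainA.dist O z hch 0 j hj0).2
  have hrl : z (Fin.last m) - z 0 ≠ 0 :=
    sub_ne_zero.2 (ChainA.dist O z hch 0 (Fin.last m) (hj0.trans hjl)).2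
  have hvj : 0 < O₁.valuation (z j - z 0) := zero_lt_iff.2 (by rw [Ne, map_eq_zero]; exact hrj)
  have hvl : 0 < O₁.valuation (z (Fin.last m) - z 0) :=
    zero_lt_iff.2 (by rw [Ne, map_eq_zero]; exact hrl)
  -- the low ball
  have hmemlow : ∀ i, i ≤ j → (z i - z 0) / (z j - z 0) ∈ O₁ := by
    intro i hi
    rw [← ValuationSubring.valuation_le_one_iff, map_div₀, div_le_one₀ hvj]
    by_cases h : i = 0
    · rw [h, sub_self, map_zero]; exact zero_le
    · exact (hlow i h hi).le
  have hmemhigh : ∀ i, (z i - z 0) / (z (Fin.last m) - z 0) ∈ O₁ := by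
    intro i
    rw [← ValuationSubring.valuation_le_one_iff, map_div₀, div_le_one₀ hvl]
    rcases le_or_gt i j with h | h
    · by_cases h0 : i = 0
      · rw [h0, sub_self, map_zero]; exact zero_le
      · rw [hlow i h0 h]; exact hlt.le
    · exact (hhigh i h).le
  have hR1 : Reduces O₁ a z (z 0) (z j - z 0)
      (fun i => if h : i ≤ j then some (⟨i, h⟩ : {i : Fin (m + 1) // i ≤ j}) else none)
      (fun i : {i : Fin (m + 1) // i ≤ j} => resK O₁ (a i))
      (fun i => resK O₁ ((z i - z 0) / (z j - z 0))) := by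
    refine ⟨hrj, ?_, ?_, ?_, ?_, ?_⟩
    · have key : ∀ x y : {i : Fin (m + 1) // i ≤ j}, x.1 < y.1 →
          resK O₁ ((z x.1 - z 0) / (z j - z 0)) ≠ resK O₁ ((z y.1 - z 0) / (z j - z 0)) := by
        intro x y hxy h
        rw [resK_eq_iff O₁ (hmemlow _ x.2) (hmemlow _ y.2), ← sub_div, map_div₀,
          div_lt_one₀ hvj, Valuation.map_sub_swap] at h
        have h1 : z y.1 - z 0 - (z x.1 - z 0) = z y.1 - z x.1 := by ring
        rw [h1, hdist _ _ hxy, hlow _ (Fin.pos_iff_ne_zero.1 ((Fin.zero_le _).trans_lt hxy)) y.2] at h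
        exact lt_irrefl _ h
      intro x y hxy
      rcases lt_trichotomy x.1 y.1 with h | h | h
      · exact absurd hxy (key x y h)
      · exact Subtype.ext h
      · exact absurd hxy.symm (key y x h)
    · intro i b hb
      split_ifs at hb with h
      simp only [Option.some.injEq] at hb
      subst hb
      exact ⟨hmemlow i h, rfl⟩
    · intro i hi
      split_ifs at hi with h
      push Not at h
      rw [← ValuationSubring.valuation_le_one_iff, not_le, map_div₀, one_lt_div₀ hvj, hhigh i h]
      exact hlt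
    · intro b
      exact ⟨b.1, by simp [b.2]⟩
    · intro b
      have : (Finset.univ.filter (fun i => (if h : i ≤ j then some (⟨i, h⟩ :
          {i : Fin (m + 1) // i ≤ j}) else none) = some b)) = {b.1} := by
        ext i
        rw [Finset.mem_filter, Finset.mem_singleton]
        split_ifs with h
        · simp only [Finset.mem_univ, Option.some.injEq, true_and]
          constructor
          · rintro rfl; rfl
          · intro hi; exact Subtype.ext hi
        · simp only [Finset.mem_univ, and_false, false_iff]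
          rintro rfl
          exact h b.2
      rw [this, Finset.sum_singleton]
  have hR2 : Reduces O₁ a z (z 0) (z (Fin.last m) - z 0)
      (fun i => if h : j < i then some (some (⟨i, h⟩ : {i : Fin (m + 1) // j < i})) else some none)
      (fun o : Option {i : Fin (m + 1) // j < i} =>
            o.elim (resK O₁ (∑ i ∈ Finset.univ.filter (fun i => i ≤ j), a i))
              (fun i => resK O₁ (a i)))
      (fun o => o.elim 0 (fun i => resK O₁ ((z i - z 0) / (z (Fin.last m) - z 0)))) := by
    have hne0 : ∀ x : {i : Fin (m + 1) // j < i},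
        resK O₁ ((z x.1 - z 0) / (z (Fin.last m) - z 0)) ≠ 0 := by
      intro x
      rw [resK_ne_zero_iff O₁ (hmemhigh _), map_div₀, hhigh x.1 x.2, div_self hvl.ne']
    refine ⟨hrl, ?_, ?_, ?_, ?_, ?_⟩
    · have key : ∀ x y : {i : Fin (m + 1) // j < i}, x.1 < y.1 →
          resK O₁ ((z x.1 - z 0) / (z (Fin.last m) - z 0)) ≠
            resK O₁ ((z y.1 - z 0) / (z (Fin.last m) - z 0)) := by
        intro x y hxy h
        rw [resK_eq_iff O₁ (hmemhigh _) (hmemhigh _), ← sub_div, map_div₀,
          div_lt_one₀ hvl, Valuation.map_sub_swap] at h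
        have h1 : z y.1 - z 0 - (z x.1 - z 0) = z y.1 - z x.1 := by ring
        rw [h1, hdist _ _ hxy, hhigh _ y.2] at h
        exact lt_irrefl _ h
      intro x y hxy
      rcases x with _ | x <;> rcases y with _ | y
      · rfl
      · simp only [Option.elim] at hxy
        exact absurd hxy.symm (hne0 y)
      · simp only [Option.elim] at hxy
        exact absurd hxy (hne0 x)
      · simp only [Option.elim] at hxy
        rcases lt_trichotomy x.1 y.1 with h | h | h
        · exact absurd hxy (key x y h)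
        · rw [Subtype.ext h]
        · exact absurd hxy.symm (key y x h)
    · intro i b hb
      refine ⟨hmemhigh i, ?_⟩
      split_ifs at hb with h
      · simp only [Option.some.injEq] at hb
        subst hb
        rfl
      · simp only [Option.some.injEq] at hb
        subst hb
        push Not at h
        simp only [Option.elim]
        rw [resK_eq_zero_iff O₁ (hmemhigh i), map_div₀, div_lt_one₀ hvl]
        by_cases h0 : i = 0
        · rw [h0, sub_self, map_zero]; exact hvl
        · rw [hlow i h0 h]; exact hlt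
    · intro i hi
      split_ifs at hi
    · intro b
      rcases b with _ | b
      · exact ⟨0, by simp [(not_lt.2 (Fin.zero_le j))]⟩
      · exact ⟨b.1, by simp [b.2]⟩
    · intro b
      rcases b with _ | b
      · simp only [Option.elim]
        rw [resK_sum O₁ _ _ (fun i _ => ha1 i)]
        apply Finset.sum_congr _ (fun _ _ => rfl)
        ext i
        rw [Finset.mem_filter, Finset.mem_filter]
        split_ifs with h
        · simp [not_le.2 h]
        · simp [not_lt.1 h]
      · simp only [Option.elim]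
        have : (Finset.univ.filter (fun i => (if h : j < i then some (some (⟨i, h⟩ :
            {i : Fin (m + 1) // j < i})) else some none) = some (some b))) = {b.1} := by
          ext i
          rw [Finset.mem_filter, Finset.mem_singleton]
          split_ifs with h
          · simp only [Finset.mem_univ, Option.some.injEq, true_and]
            constructor
            · rintro rfl; rfl
            · intro hi; exact Subtype.ext hi
          · simp only [Finset.mem_univ, Option.some.injEq, reduceCtorEq, and_false, false_iff]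
            rintro rfl
            exact h b.2
        rw [this, Finset.sum_singleton]
  have hne1 : Nonempty {i : Fin (m + 1) // i ≤ j} := ⟨⟨0, Fin.zero_le _⟩⟩
  have hG1 := good_roots O₁ a z ha1 hg1 hz _ _ _ _ _ hR1
  have hG2 := good_roots O₁ a z ha1 hg1 hz _ _ _ _ _ hR2
  set A1 := (fun i : {i : Fin (m + 1) // i ≤ j} => resK O₁ (a i)) with hA1
  set Z1 := (fun i : {i : Fin (m + 1) // i ≤ j} => resK O₁ ((z i - z 0) / (z j - z 0))) with hZ1
  set A2 := (fun o : Option {i : Fin (m + 1) // j < i} =>
            o.elim (resK O₁ (∑ i ∈ Finset.univ.filter (fun i => i ≤ j), a i))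
              (fun i => resK O₁ (a i))) with hA2
  set Z2 := (fun o : Option {i : Fin (m + 1) // j < i} =>
    o.elim 0 (fun i => resK O₁ ((z i - z 0) / (z (Fin.last m) - z 0)))) with hZ2
  have hS1 : Spec A1 Z1 = ((PhiZ a z).roots.filter (GoodAt O₁ A1 Z1 (z 0) (z j - z 0))).map
      (fun p => resK O₁ (mult a z p)) := by
    unfold Spec
    rw [← hG1.1, Multiset.map_map]
    apply Multiset.map_congr rfl
    intro p hp
    rw [Multiset.mem_filter, mem_roots'] at hp
    rw [(hG1.2 p hp.1.2 hp.2).2.1]
    rfl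
  have hS2 : Spec A2 Z2 = ((PhiZ a z).roots.filter
      (GoodAt O₁ A2 Z2 (z 0) (z (Fin.last m) - z 0))).map (fun p => resK O₁ (mult a z p)) := by
    unfold Spec
    rw [← hG2.1, Multiset.map_map]
    apply Multiset.map_congr rfl
    intro p hp
    rw [Multiset.mem_filter, mem_roots'] at hp
    rw [(hG2.2 p hp.1.2 hp.2).2.1]
    rfl
  rw [hS1, hS2, ← Multiset.map_add, Multiset.filter_add_filter]
  have hno : (PhiZ a z).roots.filter (fun p => GoodAt O₁ A1 Z1 (z 0) (z j - z 0) p ∧
      GoodAt O₁ A2 Z2 (z 0) (z (Fin.last m) - z 0) p) = 0 := by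
    rw [Multiset.filter_eq_nil]
    intro p hp h
    rw [mem_roots'] at hp
    have e1 := (hG1.2 p hp.2 h.1).2.2.1
    have e2 := (hG2.2 p hp.2 h.2).2.2.1
    have hw := root_omega hga hz p hp.2
    have hvw : O₁.valuation (omega a z p) ≠ 0 := by rw [Ne, map_eq_zero]; exact hw
    rw [map_mul] at e1 e2
    have e3 := mul_right_cancel₀ hvw (e1.trans e2.symm)
    rw [e3] at hlt
    exact lt_irrefl _ hlt
  rw [hno, add_zero]
  congr 1
  apply Multiset.filter_congr
  intro p hp
  rw [mem_roots'] at hp
  constructor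
  · intro hM
    obtain ⟨hu, j', hj', h1, h2⟩ := ChainA.chain_units' O O₁ hO a z ha hg hch p hp.2 hM
    rcases le_or_gt j' j with h | h
    · left
      have h3 := hlow j' hj' h
      rw [map_mul, h3, ← map_mul] at h1
      rw [h3] at h2
      exact good_of_units O₁ a z ha1 hg1 hz _ _ _ _ _ hR1 p hp.2 hu h1 h2
    · right
      have h3 := hhigh j' h
      rw [map_mul, h3, ← map_mul] at h1
      rw [h3] at h2
      exact good_of_units O₁ a z ha1 hg1 hz _ _ _ _ _ hR2 p hp.2 hu h1 h2
  · rintro (h | h)
    · exact (hG1.2 p hp.2 h).1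
    · exact (hG2.2 p hp.2 h).1


end Part6


variable {K : Type*} [Field K] [IsAlgClosed K] (O : ValuationSubring K)
  [CharZero (IsLocalRing.ResidueField O)]

/-- distances in a chain -/
theorem chain_dist {m : ℕ} (z : Fin (m + 1) → K) (hch : IsChain O z) (i j : Fin (m + 1))
    (hij : i < j) : O.valuation (z j - z i) = O.valuation (z j - z 0) ∧ z j ≠ z 0 :=
  ChainA.dist O z hch i j hij

theorem chain_injective {m : ℕ} (z : Fin (m + 1) → K) (hch : IsChain O z) :
    Function.Injective z :=
  ChainA.injective O z hch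

/-- reduction of a chain at its vertex `j` -/
theorem chain_reduces {m : ℕ} (a z : Fin (m + 1) → K) (hch : IsChain O z) (j : Fin (m + 1))
    (hj : j ≠ 0) :
    Reduces O a z (z 0) (z j - z 0) (cb j) (cw O a j) ![0, 1] :=
  ChainA.reduces O a z hch j hj

/-- key dichotomy: for a chain, either all coordinates `Y_i` are units, or the valuation of
the multiplier is `(max |Y| / min |Y|)^2` (maximum and minimum over all `i` and infinity,
where the coordinate is `1`). -/
theorem chain_mult_val {m : ℕ} (hm : 1 ≤ m)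
    (a z : Fin (m + 1) → K) (ha : ∀ i, a i ∈ O)
    (hg : GenW (fun i => resK O (a i))) (hch : IsChain O z)
    (p : K) (hp : (PhiZ a z).IsRoot p) :
    (∀ i, O.valuation (Yc a z p i) = 1) ∨
    ∃ Ymax Ymin : K, (Ymax = 1 ∨ ∃ i, Ymax = Yc a z p i) ∧ (Ymin = 1 ∨ ∃ i, Ymin = Yc a z p i) ∧
      (∀ i, O.valuation (Yc a z p i) ≤ O.valuation Ymax) ∧
      (∀ i, O.valuation Ymin ≤ O.valuation (Yc a z p i)) ∧
      1 ≤ O.valuation Ymax ∧ O.valuation Ymin ≤ 1 ∧ O.valuation Ymin < O.valuation Ymax ∧
      O.valuation (mult a z p) = (O.valuation (Ymax / Ymin)) ^ 2 :=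
  ChainA.chain_mult_val' O a z ha hg hch p hp

/-- for a chain, a period-two point with integral multiplier (with respect to a coarser ring)
has only unit coordinates, and it lives at a vertex -/
theorem chain_units {m : ℕ} (hm : 1 ≤ m) (O₁ : ValuationSubring K) (hO : O ≤ O₁)
    (a z : Fin (m + 1) → K) (ha : ∀ i, a i ∈ O)
    (hg : GenW (fun i => resK O (a i))) (hch : IsChain O z)
    (p : K) (hp : (PhiZ a z).IsRoot p) (hM : mult a z p ∈ O₁) :
    (∀ i, O₁.valuation (Yc a z p i) = 1) ∧
    ∃ j : Fin (m + 1), j ≠ 0 ∧ O₁.valuation ((z j - z 0) * omega a z p) = 1 ∧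
      O₁.valuation (p - z 0) ≤ O₁.valuation (z j - z 0) :=
  ChainA.chain_units' O O₁ hO a z ha hg hch p hp hM

/-- integral period-two points are good at a vertex -/
theorem chain_integral {m : ℕ} (hm : 1 ≤ m)
    (a z : Fin (m + 1) → K) (ha : ∀ i, a i ∈ O)
    (hg : GenW (fun i => resK O (a i))) (hch : IsChain O z)
    (p : K) (hp : (PhiZ a z).IsRoot p) (hM : mult a z p ∈ O) :
    ∃ j : Fin (m + 1), j ≠ 0 ∧ GoodAt O (cw O a j) ![0, 1] (z 0) (z j - z 0) p ∧
      resK O (mult a z p) = mu (cw O a j 0) (cw O a j 1) :=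
  ChainA.chain_integral' O a z ha hg hch p hp hM

theorem chain_mult_ne_one {m : ℕ} (hm : 1 ≤ m)
    (a z : Fin (m + 1) → K) (ha : ∀ i, a i ∈ O)
    (hg : GenW (fun i => resK O (a i))) (hch : IsChain O z)
    (p : K) (hp : (PhiZ a z).IsRoot p) : mult a z p ≠ 1 :=
  ChainA.chain_mult_ne_one' O a z ha hg hch p hp

open Classical in
/-- the part of the spectrum that is integral with respect to a coarser valuation ring `O₁`
for which exactly the edge `j` of the chain is degenerate -/
theorem coarse_spec {m : ℕ} (O₁ : ValuationSubring K) (hO : O ≤ O₁)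
    [CharZero (IsLocalRing.ResidueField O₁)]
    (a z : Fin (m + 1) → K) (ha : ∀ i, a i ∈ O)
    (hg : GenW (fun i => resK O (a i))) (hch : IsChain O z)
    (j : Fin (m + 1)) (hj0 : 0 < j) (hjl : j < Fin.last m)
    (hlow : ∀ i, i ≠ 0 → i ≤ j → O₁.valuation (z i - z 0) = O₁.valuation (z j - z 0))
    (hhigh : ∀ i, j < i → O₁.valuation (z i - z 0) = O₁.valuation (z (Fin.last m) - z 0))
    (hlt : O₁.valuation (z j - z 0) < O₁.valuation (z (Fin.last m) - z 0)) :
    ((PhiZ a z).roots.filter (fun p => mult a z p ∈ O₁)).map (fun p => resK O₁ (mult a z p))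
      = Spec (fun i : {i : Fin (m + 1) // i ≤ j} => resK O₁ (a i))
          (fun i => resK O₁ ((z i - z 0) / (z j - z 0)))
        + Spec (fun o : Option {i : Fin (m + 1) // j < i} =>
            o.elim (resK O₁ (∑ i ∈ Finset.univ.filter (fun i => i ≤ j), a i))
              (fun i => resK O₁ (a i)))
          (fun o => o.elim 0 (fun i => resK O₁ ((z i - z 0) / (z (Fin.last m) - z 0)))) :=
  ChainA.coarse_spec' O O₁ hO a z ha hg hch j hj0 hjl hlow hhigh hlt

end

end Pool.Agent.Lib.MP_740d3f_ag
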