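import Pool.Agent.Lib.MP_740d3f_ag.Defs

set_option autoImplicit false

/-! # Field theory, part A: residue fields and algebraic independence -/

namespace Pool.Agent.Lib.MP_740d3f_ag
noncomputable section

theorem residueField_isAlgClosed {K : Type*} [Field K] [IsAlgClosed K] (O : ValuationSubring K) :
    IsAlgClosed (IsLocalRing.ResidueField O) := by
  refine IsAlgClosed.of_exists_root _ fun p hp hirr => ?_
  have hl : p ∈ Polynomial.lifts (IsLocalRing.residue O) :=
    (Polynomial.lifts_iff_coeff_lifts p).mpr fun n => IsLocalRing.residue_surjective _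
  obtain ⟨P, hP, hdeg, hmon⟩ := Polynomial.lifts_and_natDegree_eq_and_monic hl hp
  have hpos : 0 < p.natDegree := Polynomial.natDegree_pos_iff_degree_pos.mpr
    (Polynomial.degree_pos_of_irreducible hirr)
  have hPK : (P.map (algebraMap O K)).degree ≠ 0 := by
    rw [hmon.degree_map]
    intro h0
    have h1 : P.natDegree = 0 := Polynomial.natDegree_eq_of_degree_eq_some h0
    omega
  obtain ⟨x, hx⟩ := IsAlgClosed.exists_root (P.map (algebraMap O K)) hPK
  have hint : IsIntegral O x := ⟨P, hmon, by rwa [← Polynomial.eval_map]⟩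
  obtain ⟨y, rfl⟩ := IsIntegrallyClosed.isIntegral_iff.mp hint
  refine ⟨IsLocalRing.residue O y, ?_⟩
  have hy : P.eval y = 0 := by
    apply IsFractionRing.injective O K
    rw [map_zero, ← hx, Polynomial.eval_map, Polynomial.eval₂_at_apply]
  rw [← hP, Polynomial.eval_map, Polynomial.eval₂_at_apply, hy, map_zero]

theorem residueField_charZero {K : Type*} [Field K] [CharZero K] (O : ValuationSubring K)
    (k₀ : Subfield K) (h : ∀ x ∈ k₀, x ∈ O) : CharZero (IsLocalRing.ResidueField O) := by
  refine charZero_of_inj_zero fun n hn => ?_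
  by_contra hne
  have hnK : (n : K) ≠ 0 := Nat.cast_ne_zero.mpr hne
  have hinv : (n : K)⁻¹ ∈ O := h _ (inv_mem (natCast_mem k₀ n))
  have h1 : (n : O) * ⟨(n : K)⁻¹, hinv⟩ = 1 := by
    apply Subtype.ext
    simp [hnK]
  have h2 := congrArg (IsLocalRing.residue O) h1
  rw [map_mul, map_natCast, hn, zero_mul, map_one] at h2
  exact zero_ne_one h2

private theorem aeval_ne_zero {K : Type*} [Field K] [CharZero K] {ι : Type*} {a : ι → K}
    (h : AlgebraicIndependent ℚ a) (P : MvPolynomial ι ℚ) (q : ι → ℚ)
    (hq : MvPolynomial.eval q P ≠ 0) : MvPolynomial.aeval a P ≠ 0 := by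
  intro h0
  have := (algebraicIndependent_iff.mp h) P h0
  rw [this, map_zero] at hq
  exact hq rfl

private def sx {ι : Type*} (S : Finset ι) : MvPolynomial ι ℚ := ∑ i ∈ S, MvPolynomial.X i

private theorem aeval_sx {K : Type*} [Field K] [CharZero K] {ι : Type*} (a : ι → K)
    (S : Finset ι) : MvPolynomial.aeval a (sx S) = ∑ i ∈ S, a i := by
  simp [sx]

private theorem eval_sx {ι : Type*} (q : ι → ℚ)
    (S : Finset ι) : MvPolynomial.eval q (sx S) = ∑ i ∈ S, q i := by
  simp [sx]

private theorem genW_avoid {K : Type*} [Field K] [CharZero K] {ι : Type*} [Fintype ι]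
    [DecidableEq ι] (a : ι → K) (h : AlgebraicIndependent ℚ a) (S : Finset ι) (hS : S.Nonempty)
    (u v : ℕ) (hu : u ≠ 0) : (u : K) * ∑ i ∈ S, a i ≠ v := by
  obtain ⟨i₀, hi₀⟩ := hS
  have := aeval_ne_zero h ((u : MvPolynomial ι ℚ) * sx S - (v : MvPolynomial ι ℚ))
    (fun i => if i = i₀ then ((v : ℚ) + 1) / u else 0) (by
      rw [map_sub, map_mul, eval_sx, map_natCast, map_natCast, Finset.sum_ite_eq' S i₀, if_pos hi₀]
      have : (u : ℚ) ≠ 0 := Nat.cast_ne_zero.mpr hu
      field_simp
      norm_num)
  rw [map_sub, map_mul, aeval_sx, map_natCast, map_natCast] at this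
  exact sub_ne_zero.mp this

/-- key step: the polynomial identity forces `S₁` to be one of `T₁`, `T₂` -/
private theorem part_aux {ι : Type*} [Fintype ι] [DecidableEq ι] (S₁ S₂ T₁ T₂ : Finset ι)
    (hS₁ : S₁.Nonempty) (hT₁ : T₁.Nonempty) (hT₂ : T₂.Nonempty)
    (hid : (sx T₁ * sx T₂ * (1 - sx T₁ - sx T₂)) *
        (1 - 4 * (sx S₁ * sx S₂ + (sx S₁ + sx S₂) * (1 - sx S₁ - sx S₂))) =
      (sx S₁ * sx S₂ * (1 - sx S₁ - sx S₂)) *
        (1 - 4 * (sx T₁ * sx T₂ + (sx T₁ + sx T₂) * (1 - sx T₁ - sx T₂)) : MvPolynomial ι ℚ)) :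
    S₁ = T₁ ∨ S₁ = T₂ := by
  obtain ⟨i₀, hi₀⟩ := hS₁
  let φ : MvPolynomial ι ℚ →ₐ[ℚ] MvPolynomial ι ℚ :=
    MvPolynomial.aeval (fun i => if i = i₀ then -(sx (S₁.erase i₀)) else MvPolynomial.X i)
  -- evaluation of `φ P` at points of the hyperplane
  have hev : ∀ (q : ι → ℚ), ∑ i ∈ S₁, q i = 0 → ∀ P : MvPolynomial ι ℚ,
      MvPolynomial.eval q (φ P) = MvPolynomial.eval q P := by
    intro q hq P
    have : (MvPolynomial.eval q).comp φ.toRingHom = MvPolynomial.eval q := by
      apply MvPolynomial.ringHom_ext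
      · intro r; simp [φ]
      · intro i
        by_cases hi : i = i₀
        · subst hi
          have := Finset.add_sum_erase S₁ q hi₀
          simp only [φ, AlgHom.toRingHom_eq_coe, RingHom.coe_comp, RingHom.coe_coe,
            Function.comp_apply, MvPolynomial.aeval_X, if_pos, map_neg, eval_sx,
            MvPolynomial.eval_X]
          linarith
        · simp [φ, hi]
    exact RingHom.congr_fun this P
  have hφS : φ (sx S₁) = 0 := by
    have h1 : φ (sx S₁) = ∑ i ∈ S₁, φ (MvPolynomial.X i) := by simp [sx]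
    rw [h1, ← Finset.add_sum_erase S₁ _ hi₀]
    have h2 : φ (MvPolynomial.X i₀) = -(sx (S₁.erase i₀)) := by simp [φ]
    have h3 : ∑ i ∈ S₁.erase i₀, φ (MvPolynomial.X i) = sx (S₁.erase i₀) := by
      unfold sx
      apply Finset.sum_congr rfl
      intro i hi
      simp [φ, Finset.ne_of_mem_erase hi]
    rw [h2, h3]; ring
  have hid' := congrArg φ hid
  simp only [map_mul, map_sub, map_add, map_one, hφS, map_ofNat] at hid'
  have hprod : (φ (sx T₁) * φ (sx T₂) * (1 - φ (sx T₁) - φ (sx T₂))) * (1 - 2 * φ (sx S₂)) ^ 2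
      = 0 := by
    linear_combination hid'
  by_contra hcon
  push Not at hcon
  -- every linear form `sx T` with `T ≠ S₁` nonempty is nonzero on the hyperplane
  have key : ∀ T : Finset ι, T.Nonempty → S₁ ≠ T → φ (sx T) ≠ 0 := by
    intro T hT hne h0
    obtain ⟨q, hq, hq'⟩ : ∃ q : ι → ℚ, ∑ i ∈ S₁, q i = 0 ∧ ∑ i ∈ T, q i ≠ 0 := by
      by_cases hsub : T ⊆ S₁
      · obtain ⟨l, hl, hl'⟩ : ∃ l ∈ S₁, l ∉ T := by
          by_contra hc
          push Not at hc
          exact hne (Finset.Subset.antisymm hc hsub)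
        obtain ⟨j, hj⟩ := hT
        refine ⟨fun i => (if i = j then 1 else 0) - (if i = l then 1 else 0), ?_, ?_⟩
        · rw [Finset.sum_sub_distrib, Finset.sum_ite_eq', Finset.sum_ite_eq', if_pos (hsub hj),
            if_pos hl, sub_self]
        · rw [Finset.sum_sub_distrib, Finset.sum_ite_eq', Finset.sum_ite_eq', if_pos hj,
            if_neg hl']
          norm_num
      · obtain ⟨j, hj, hj'⟩ := Finset.not_subset.mp hsub
        refine ⟨fun i => if i = j then 1 else 0, ?_, ?_⟩
        · rw [Finset.sum_ite_eq', if_neg hj']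
        · rw [Finset.sum_ite_eq', if_pos hj]
          norm_num
    have := hev q hq (sx T)
    rw [h0, map_zero, eval_sx] at this
    exact hq' this.symm
  have z1 : ∀ P : MvPolynomial ι ℚ, MvPolynomial.eval (fun _ => (0 : ℚ)) (φ P) =
      MvPolynomial.eval (fun _ => (0 : ℚ)) P := hev _ (by simp)
  rcases mul_eq_zero.mp hprod with h | h
  · rcases mul_eq_zero.mp h with h | h
    · rcases mul_eq_zero.mp h with h | h
      · exact key T₁ hT₁ hcon.1 h
      · exact key T₂ hT₂ hcon.2 h
    · have := congrArg (MvPolynomial.eval (fun _ => (0 : ℚ))) h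
      rw [map_sub, map_sub, z1, z1, eval_sx, eval_sx] at this
      simp at this
  · have h' := pow_eq_zero_iff (two_ne_zero) |>.mp h
    have := congrArg (MvPolynomial.eval (fun _ => (0 : ℚ))) h'
    rw [map_sub, map_mul, z1, eval_sx] at this
    simp at this

/-- algebraically independent weights are generic -/
theorem genW_of_algebraicIndependent {K : Type*} [Field K] [CharZero K] {ι : Type*} [Fintype ι]
    [DecidableEq ι] (a : ι → K) (h : AlgebraicIndependent ℚ a) : GenW a := by
  constructor
  · intro S hS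
    refine ⟨?_, ?_, ?_, ?_, ?_⟩
    · have := genW_avoid a h S hS 1 0 (by norm_num); simpa using this
    · have := genW_avoid a h S hS 1 1 (by norm_num); simpa using this
    · have := genW_avoid a h S hS 2 1 (by norm_num); simpa using this
    · have := genW_avoid a h S hS 3 1 (by norm_num); simpa using this
    · have := genW_avoid a h S hS 3 2 (by norm_num); simpa using this
  · intro S₁ S₂ T₁ T₂ hS₁ hS₂ hT₁ hT₂ hdS hdT hmu
    have hne : ∀ S : Finset ι, S.Nonempty → ∑ i ∈ S, a i ≠ 0 := fun S hS => by
      have := genW_avoid a h S hS 1 0 (by norm_num); simpa using this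
    have hne1 : ∀ S T : Finset ι, S.Nonempty → Disjoint S T →
        1 - ∑ i ∈ S, a i - ∑ i ∈ T, a i ≠ 0 := fun S T hS hd => by
      have := genW_avoid a h (S ∪ T) (hS.mono Finset.subset_union_left) 1 1 (by norm_num)
      rw [Finset.sum_union hd] at this
      intro h0
      apply this
      push_cast
      linear_combination -h0
    have hid : (sx T₁ * sx T₂ * (1 - sx T₁ - sx T₂)) *
        (1 - 4 * (sx S₁ * sx S₂ + (sx S₁ + sx S₂) * (1 - sx S₁ - sx S₂))) =
      (sx S₁ * sx S₂ * (1 - sx S₁ - sx S₂)) *
        (1 - 4 * (sx T₁ * sx T₂ + (sx T₁ + sx T₂) * (1 - sx T₁ - sx T₂)) :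
          MvPolynomial ι ℚ) := by
      apply h
      simp only [map_mul, map_sub, map_add, map_one, aeval_sx, map_ofNat]
      unfold mu at hmu
      have e1 := hne S₁ hS₁
      have e2 := hne S₂ hS₂
      have e3 := hne T₁ hT₁
      have e4 := hne T₂ hT₂
      have e5 := hne1 S₁ S₂ hS₁ hdS
      have e6 := hne1 T₁ T₂ hT₁ hdT
      generalize ∑ i ∈ S₁, a i = A at *
      generalize ∑ i ∈ S₂, a i = B at *
      generalize ∑ i ∈ T₁, a i = A' at *
      generalize ∑ i ∈ T₂, a i = B' at *
      have hmu' := add_left_cancel hmu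
      rw [div_eq_div_iff (mul_ne_zero (mul_ne_zero e1 e2) e5)
        (mul_ne_zero (mul_ne_zero e3 e4) e6)] at hmu'
      linear_combination hmu'
    have hne12 : S₁ ≠ S₂ := by
      rintro rfl
      exact hS₁.ne_empty (disjoint_self.mp hdS)
    have h1 := part_aux S₁ S₂ T₁ T₂ hS₁ hT₁ hT₂ hid
    have h2 := part_aux S₂ S₁ T₁ T₂ hS₂ hT₁ hT₂ (by linear_combination hid)
    rcases h1 with h1 | h1 <;> rcases h2 with h2 | h2
    · exact absurd (h1.trans h2.symm) hne12
    · exact Or.inl ⟨h1, h2⟩
    · exact Or.inr ⟨h1, h2⟩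
    · exact absurd (h1.trans h2.symm) hne12

/-- residues of an algebraically independent family lying in a subfield contained in `O` -/
theorem algInd_residue {K : Type*} [Field K] [CharZero K] (O : ValuationSubring K)
    (k₁ : Subfield K) (h : ∀ x ∈ k₁, x ∈ O) [CharZero (IsLocalRing.ResidueField O)]
    {ι : Type*} (y : ι → K) (hy : ∀ i, y i ∈ k₁) (hi : AlgebraicIndependent ℚ y) :
    AlgebraicIndependent ℚ (fun i => resK O (y i)) := by
  let ρ : k₁ →+* IsLocalRing.ResidueField O :=
    (IsLocalRing.residue O).comp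
      { toFun := fun x => (⟨x.1, h x.1 x.2⟩ : O)
        map_one' := rfl
        map_mul' := fun _ _ => rfl
        map_zero' := rfl
        map_add' := fun _ _ => rfl }
  have hy' : AlgebraicIndependent ℚ (fun i => (⟨y i, hy i⟩ : k₁)) := by
    have : AlgebraicIndependent ℚ (fun i => (k₁.subtype.toRatAlgHom) (⟨y i, hy i⟩ : k₁)) := hi
    exact AlgebraicIndependent.of_comp _ this
  have h2 := hy'.map' (f := ρ.toRatAlgHom) ρ.injective
  convert h2 using 1
  funext i
  simp only [resK, Function.comp_apply]
  rw [dif_pos (h _ (hy i))]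
  rfl

/-- elements of the field generated by `y` are algebraic over the algebra generated by `y` -/
private theorem isAlgebraic_adjoin_of_mem_closure {K : Type*} [Field K] [CharZero K] {s : Set K}
    {x : K} (hx : x ∈ Subfield.closure s) : IsAlgebraic (Algebra.adjoin ℚ s) x := by
  refine Subfield.closure_induction (p := fun x _ => IsAlgebraic (Algebra.adjoin ℚ s) x)
    ?_ ?_ ?_ ?_ ?_ ?_ hx
  · intro x hx
    exact isAlgebraic_algebraMap (⟨x, Algebra.subset_adjoin hx⟩ : Algebra.adjoin ℚ s)
  · exact isAlgebraic_one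
  · intro x y _ _ h1 h2; exact h1.add h2
  · intro x _ h1; exact h1.neg
  · intro x _ h1; exact h1.inv
  · intro x y _ _ h1 h2; exact h1.mul h2

/-- the inclusion of the algebra generated by `s` in the field generated by `s` -/
private def inclR {K : Type*} [Field K] [CharZero K] (s : Set K) :
    Algebra.adjoin ℚ s →+* Subfield.closure s :=
  { toFun := fun x => ⟨x.1, by
      refine Algebra.adjoin_induction (p := fun x _ => x ∈ Subfield.closure s)
        ?_ ?_ ?_ ?_ x.2
      · intro x hx; exact Subfield.subset_closure hx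
      · intro r
        rw [eq_ratCast]
        exact SubfieldClass.ratCast_mem _ r
      · intro x y _ _ hx hy; exact add_mem hx hy
      · intro x y _ _ hx hy; exact mul_mem hx hy⟩
    map_one' := rfl
    map_mul' := fun _ _ => rfl
    map_zero' := rfl
    map_add' := fun _ _ => rfl }

private abbrev inclA {K : Type*} [Field K] [CharZero K] (s : Set K) :
    Algebra (Algebra.adjoin ℚ s) (Subfield.closure s) := (inclR s).toAlgebra

attribute [local instance] inclA

private theorem inclT {K : Type*} [Field K] [CharZero K] (s : Set K) :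
    IsScalarTower (Algebra.adjoin ℚ s) (Subfield.closure s) K :=
  .of_algebraMap_eq fun _ => rfl

attribute [local instance] inclT

private theorem inclAlg {K : Type*} [Field K] [CharZero K] (s : Set K) :
    Algebra.IsAlgebraic (Algebra.adjoin ℚ s) (Subfield.closure s) := ⟨fun x => by
    rw [← isAlgebraic_algHom_iff (IsScalarTower.toAlgHom (Algebra.adjoin ℚ s)
      (Subfield.closure s) K) (RingHom.injective _)]
    exact isAlgebraic_adjoin_of_mem_closure x.2⟩

attribute [local instance] inclAlg

/-- passing to the base field generated by part of the family -/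
theorem algInd_over_closure {K : Type*} [Field K] [CharZero K] {ι κ : Type*}
    (a : ι → K) (t : κ → K) (h : AlgebraicIndependent ℚ (Sum.elim a t)) :
    AlgebraicIndependent (Subfield.closure (Set.range a)) t := by
  have h' : AlgebraicIndependent ℚ (Sum.elim t a) := by
    have := h.comp (Equiv.sumComm κ ι) (Equiv.injective _)
    convert this using 1
    funext i
    rcases i with i | i <;> rfl
  have h2 := (AlgebraicIndependent.sumElim_iff.mp h').2
  exact h2.extendScalars _

/-- if a finite algebraically independent family `x` is algebraic over the field generated by a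
family `y` which is not larger, then `y` is algebraically independent -/
theorem algInd_of_isAlgebraic {K : Type*} [Field K] [CharZero K] {ι κ : Type*} [Fintype ι]
    [Fintype κ] (hc : Fintype.card κ ≤ Fintype.card ι) (x : ι → K) (y : κ → K)
    (hx : AlgebraicIndependent ℚ x)
    (h : ∀ i, IsAlgebraic (Subfield.closure (Set.range y)) (x i)) :
    AlgebraicIndependent ℚ y := by
  let M := algebraicClosure (Subfield.closure (Set.range y)) K
  have hxM : ∀ i, x i ∈ M := fun i => mem_algebraicClosure_iff.mpr (h i)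
  have hyM : ∀ j, y j ∈ M := fun j => mem_algebraicClosure_iff.mpr
    (isAlgebraic_algebraMap (⟨y j, Subfield.subset_closure (Set.mem_range_self j)⟩ :
      Subfield.closure (Set.range y)))
  let x' : ι → M := fun i => ⟨x i, hxM i⟩
  let y' : κ → M := fun j => ⟨y j, hyM j⟩
  let v : M →ₐ[ℚ] K := (algebraMap M K).toRatAlgHom
  have hv : Function.Injective v := (algebraMap M K).injective
  have hx' : AlgebraicIndependent ℚ x' := by
    have : AlgebraicIndependent ℚ (fun i => v (x' i)) := hx
    exact AlgebraicIndependent.of_comp _ this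
  have hle : Cardinal.lift.{_} (Cardinal.mk ι) ≤ Cardinal.lift.{_} (Algebra.trdeg ℚ M) :=
    hx'.lift_cardinalMk_le_trdeg
  have hmap : (Algebra.adjoin ℚ (Set.range y')).map v = Algebra.adjoin ℚ (Set.range y) := by
    rw [AlgHom.map_adjoin, ← Set.range_comp]
    rfl
  let f : Algebra.adjoin ℚ (Set.range y') →+* Algebra.adjoin ℚ (Set.range y) :=
    { toFun := fun z => ⟨v z.1, by
        rw [← hmap]
        exact Subalgebra.mem_map.mpr ⟨z.1, z.2, rfl⟩⟩
      map_one' := Subtype.ext (map_one v)
      map_mul' := fun _ _ => Subtype.ext (map_mul v _ _)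
      map_zero' := Subtype.ext (map_zero v)
      map_add' := fun _ _ => Subtype.ext (map_add v _ _) }
  have hf : Function.Surjective f := by
    rintro ⟨w, hw⟩
    rw [← hmap] at hw
    obtain ⟨u, hu, rfl⟩ := Subalgebra.mem_map.mp hw
    exact ⟨⟨u, hu⟩, rfl⟩
  have halg : Algebra.IsAlgebraic (Algebra.adjoin ℚ (Set.range y')) M := ⟨fun z => by
    have h1 : IsAlgebraic (Subfield.closure (Set.range y)) (v z) :=
      mem_algebraicClosure_iff.mp z.2
    have h2 : IsAlgebraic (Algebra.adjoin ℚ (Set.range y)) (v z) := h1.restrictScalars _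
    exact h2.of_ringHom_of_comp_eq f v hf hv rfl⟩
  have hb : IsTranscendenceBasis ℚ y' := by
    apply Algebra.IsAlgebraic.isTranscendenceBasis_of_lift_le_trdeg_of_finite
    rw [Cardinal.mk_fintype, Cardinal.lift_natCast] at hle ⊢
    rw [Cardinal.nat_le_lift_iff] at hle ⊢
    exact le_trans (by exact_mod_cast hc) hle
  have := hb.1.map' (f := v) hv
  exact this

end

end Pool.Agent.Lib.MP_740d3f_ag
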