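import Pool.Agent.Lib.MP_740d3f_ag.ChainA
import Pool.Agent.Lib.MP_740d3f_ag.FieldA

set_option autoImplicit false

/-! # Chains: rigidity and matching of two-cycles -/

namespace Pool.Agent.Lib.MP_740d3f_ag
open Polynomial
noncomputable section

set_option linter.unusedSectionVars false

variable {K : Type*} [Field K] [IsAlgClosed K] (O : ValuationSubring K)
  [CharZero (IsLocalRing.ResidueField O)]

/-! ### Counting -/

theorem ChainB.countP_add_sum_le {α β : Type*} (s : Multiset α) (P Q₀ : α → Prop)
    [DecidablePred P] [DecidablePred Q₀] (Q : β → α → Prop) [∀ b, DecidablePred (Q b)]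
    (T : Finset β)
    (h : ∀ x ∈ s, (if Q₀ x then 1 else 0) + ∑ b ∈ T, (if Q b x then 1 else 0) ≤
      if P x then 1 else 0) :
    s.countP Q₀ + ∑ b ∈ T, s.countP (Q b) ≤ s.countP P := by
  induction s using Multiset.induction_on with
  | empty => simp
  | cons x s ih =>
    have ih' := ih (fun y hy => h y (Multiset.mem_cons_of_mem hy))
    have hx := h x (Multiset.mem_cons_self x s)
    simp only [Multiset.countP_cons, Finset.sum_add_distrib]
    omega

/-- the set of indices whose point is in the ball attached to the period-two point `p` -/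
def ChainB.Sp {ι : Type*} [Fintype ι] (a w : ι → K) (p : K) : Finset ι :=
  open Classical in Finset.univ.filter (fun i => O.valuation ((p - w i) * omega a w p) ≤ 1)

open Classical in
/-- number of integral period-two points attached to balls contained in `S` -/
def ChainB.L {ι : Type*} [Fintype ι] [DecidableEq ι] (a w : ι → K) (S : Finset ι) : ℕ :=
  (PhiZ a w).roots.countP
    (fun p => mult a w p ∈ O ∧ (ChainB.Sp O a w p).Nonempty ∧ ChainB.Sp O a w p ⊆ S)

/-- `S` is the set of indices of the points in a ball -/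
def ChainB.Cl {ι : Type*} (w : ι → K) (S : Finset ι) : Prop :=
  ∀ i ∈ S, ∀ j ∈ S, ∀ k ∉ S, O.valuation (w i - w j) < O.valuation (w i - w k)

section
variable {ι : Type*} [Fintype ι] [DecidableEq ι]

omit [IsAlgClosed K] [CharZero (IsLocalRing.ResidueField O)] [Fintype ι] [DecidableEq ι] in
theorem ChainB.sub_comm_val (x y : K) : O.valuation (x - y) = O.valuation (y - x) := by
  rw [← Valuation.map_neg, neg_sub]

/-- a good point at a ball: the attached set is the set of indices in the ball -/
theorem ChainB.Sp_eq {τ : Type*} [Fintype τ] [DecidableEq τ] [Nonempty τ]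
    (a w : ι → K) (ha : ∀ i, a i ∈ O) (hg : GenW (fun i => resK O (a i)))
    (hw : Function.Injective w) (z0 r : K) (β : ι → Option τ)
    (A ζ : τ → IsLocalRing.ResidueField O) (hR : Reduces O a w z0 r β A ζ) (p : K)
    (hp : (PhiZ a w).IsRoot p) (hG : GoodAt O A ζ z0 r p) (i : ι) :
    i ∈ ChainB.Sp O a w p ↔ β i ≠ none := by
  classical
  obtain ⟨-, h2⟩ := good_roots O a w ha hg hw z0 r β A ζ hR
  obtain ⟨-, -, h3, -, -, h4, -⟩ := h2 p hp hG
  have hr : O.valuation r ≠ 0 := (Valuation.ne_zero_iff _).2 hR.hr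
  have hrpos : 0 < O.valuation r := zero_lt_iff.2 hr
  have hwpos : O.valuation (omega a w p) ≠ 0 := by
    intro h
    rw [map_mul, h, mul_zero] at h3
    exact zero_ne_one h3
  simp only [ChainB.Sp, Finset.mem_filter, Finset.mem_univ, true_and]
  constructor
  · intro h hn
    have hout := hR.hout i hn
    rw [← ValuationSubring.valuation_le_one_iff, map_div₀, not_le] at hout
    have hlt : O.valuation r < O.valuation (w i - z0) := by
      rwa [one_lt_div₀ hrpos] at hout
    have hin := hG.1
    rw [← ValuationSubring.valuation_le_one_iff, map_div₀, div_le_one₀ hrpos] at hin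
    have h5 : O.valuation (p - w i) = O.valuation (w i - z0) := by
      have : p - w i = (p - z0) - (w i - z0) := by ring
      rw [this]
      exact Valuation.map_sub_eq_of_lt_right _ (hin.trans_lt hlt)
    have h6 : O.valuation (r * omega a w p) < O.valuation ((p - w i) * omega a w p) := by
      rw [map_mul, map_mul, h5]
      exact (mul_lt_mul_iff_left₀ (zero_lt_iff.2 hwpos)).2 hlt
    rw [h3] at h6
    exact absurd h (not_le.2 h6)
  · intro h
    obtain ⟨b, hb⟩ := Option.ne_none_iff_exists'.1 h
    have h5 := (h4 i b hb).1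
    have : O.valuation ((p - w i) * omega a w p) = O.valuation (r * omega a w p) := by
      rw [map_mul, map_mul, h5]
    rw [this, h3]

open Classical in
/-- reduction data at a ball with at least two points -/
theorem ChainB.exists_reduces (a w : ι → K) (hw : Function.Injective w) (S : Finset ι)
    (hS : ChainB.Cl O w S) (h2 : 2 ≤ S.card) :
    ∃ (z0 r : K) (T : Finset (IsLocalRing.ResidueField O)) (β : ι → Option T)
      (A ζ : T → IsLocalRing.ResidueField O),
      Reduces O a w z0 r β A ζ ∧ 2 ≤ T.card ∧ (∀ i, β i ≠ none ↔ i ∈ S) ∧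
      ∀ b, ChainB.Cl O w (Finset.univ.filter (fun i => β i = some b)) := by
  classical
  -- a pair of points at maximal distance
  have hne : S.offDiag.Nonempty := by
    obtain ⟨x, hx, y, hy, hxy⟩ := Finset.one_lt_card.1 (by omega : 1 < S.card)
    exact ⟨(x, y), by simp [hx, hy, hxy]⟩
  obtain ⟨⟨i₀, i₁⟩, hmem, hmax⟩ := Finset.exists_max_image S.offDiag
    (fun x => O.valuation (w x.1 - w x.2)) hne
  rw [Finset.mem_offDiag] at hmem
  obtain ⟨h0, h1, h01⟩ := hmem
  simp only at h0 h1 h01 hmax
  set r : K := w i₁ - w i₀ with hr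
  have hr0 : r ≠ 0 := sub_ne_zero.2 (fun h => h01 (hw h).symm)
  have hrpos : 0 < O.valuation r := zero_lt_iff.2 ((Valuation.ne_zero_iff _).2 hr0)
  have hr' : O.valuation (w i₀ - w i₁) = O.valuation r := ChainB.sub_comm_val O _ _
  have hle : ∀ i ∈ S, ∀ j ∈ S, O.valuation (w i - w j) ≤ O.valuation r := by
    intro i hi j hj
    by_cases hij : i = j
    · subst hij; simp
    · rw [← hr']
      exact hmax (i, j) (by simp [hi, hj, hij])
  have hin : ∀ i, (w i - w i₀) / r ∈ O ↔ i ∈ S := by
    intro i
    rw [← ValuationSubring.valuation_le_one_iff, map_div₀, div_le_one₀ hrpos]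
    constructor
    · intro h
      by_contra hi
      have := hS i₀ h0 i₁ h1 i hi
      rw [hr', ChainB.sub_comm_val O (w i₀)] at this
      exact absurd h (not_le.2 this)
    · intro h
      exact hle i h i₀ h0
  set ρ : ι → IsLocalRing.ResidueField O := fun i => resK O ((w i - w i₀) / r) with hρ
  set T := S.image ρ with hT
  let β : ι → Option T := fun i =>
    if h : i ∈ S then some ⟨ρ i, Finset.mem_image_of_mem ρ h⟩ else none
  have hβS : ∀ i, β i ≠ none ↔ i ∈ S := by
    intro i
    simp only [β]
    split_ifs with h <;> simp [h]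
  have hβ : ∀ i b, β i = some b ↔ i ∈ S ∧ ρ i = b.1 := by
    intro i b
    simp only [β]
    split_ifs with h
    · rw [Option.some_inj, Subtype.ext_iff]; simp [h]
    · simp [h]
  have hρ0 : ρ i₀ = 0 := by simp [hρ, resK_zero]
  have hρ1 : ρ i₁ = 1 := by
    simp only [hρ]
    rw [← hr, div_self hr0, resK_one]
  refine ⟨w i₀, r, T, β, fun b => ∑ i ∈ Finset.univ.filter (fun i => β i = some b), resK O (a i),
    Subtype.val, ⟨hr0, Subtype.val_injective, ?_, ?_, ?_, fun b => rfl⟩, ?_, hβS, ?_⟩
  · intro i b hb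
    rw [hβ] at hb
    exact ⟨(hin i).2 hb.1, hb.2⟩
  · intro i hi
    rw [hin]
    intro h
    exact ((hβS i).2 h) hi
  · rintro ⟨b, hb⟩
    obtain ⟨i, hi, rfl⟩ := Finset.mem_image.1 hb
    exact ⟨i, (hβ i _).2 ⟨hi, rfl⟩⟩
  · have hsub : ({0, 1} : Finset (IsLocalRing.ResidueField O)) ⊆ T := by
      intro x hx
      rw [Finset.mem_insert, Finset.mem_singleton] at hx
      rcases hx with rfl | rfl
      · rw [← hρ0]; exact Finset.mem_image_of_mem ρ h0
      · rw [← hρ1]; exact Finset.mem_image_of_mem ρ h1
    have hc : ({0, 1} : Finset (IsLocalRing.ResidueField O)).card = 2 :=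
      Finset.card_pair zero_ne_one
    rw [← hc]
    exact Finset.card_le_card hsub
  · intro b i hi j hj k hk
    rw [Finset.mem_filter] at hi hj hk
    have hi' := (hβ i b).1 hi.2
    have hj' := (hβ j b).1 hj.2
    have hlt : O.valuation (w i - w j) < O.valuation r := by
      have h5 : ρ i = ρ j := hi'.2.trans hj'.2.symm
      simp only [hρ] at h5
      rw [resK_eq_iff O ((hin i).2 hi'.1) ((hin j).2 hj'.1), ← sub_div, map_div₀,
        div_lt_one₀ hrpos] at h5
      have e : w i - w i₀ - (w j - w i₀) = w i - w j := by ring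
      rwa [e] at h5
    by_cases hkS : k ∈ S
    · have h5 : ρ i ≠ ρ k := by
        intro h
        exact hk ⟨Finset.mem_univ _, (hβ k b).2 ⟨hkS, h.symm.trans hi'.2⟩⟩
      simp only [hρ] at h5
      rw [Ne, resK_eq_iff O ((hin i).2 hi'.1) ((hin k).2 hkS), ← sub_div, map_div₀,
        div_lt_one₀ hrpos, not_lt] at h5
      have e : w i - w i₀ - (w k - w i₀) = w i - w k := by ring
      rw [e] at h5
      exact hlt.trans_le h5
    · exact hS i hi'.1 j hj'.1 k hkS

/-- the number of good points at a ball with reduction data -/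
theorem ChainB.card_good {τ : Type*} [Fintype τ] [DecidableEq τ] [Nonempty τ]
    (a w : ι → K) (ha : ∀ i, a i ∈ O) (hg : GenW (fun i => resK O (a i)))
    (hw : Function.Injective w) (z0 r : K) (β : ι → Option τ)
    (A ζ : τ → IsLocalRing.ResidueField O) (hR : Reduces O a w z0 r β A ζ)
    [DecidablePred (GoodAt O A ζ z0 r)] :
    (PhiZ a w).roots.countP (GoodAt O A ζ z0 r) =
      Fintype.card τ * (Fintype.card τ - 1) := by
  classical
  obtain ⟨h1, -⟩ := good_roots O a w ha hg hw z0 r β A ζ hR
  have h2 := congrArg Multiset.card h1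
  rw [Multiset.card_map] at h2
  have hgA : GenW A := genW_reduced _ hg β hR.hsurj A hR.hA
  have hac : IsAlgClosed (IsLocalRing.ResidueField O) := residueField_isAlgClosed O
  rw [Multiset.countP_eq_card_filter]
  have h3 : (PhiZ A ζ).roots.card = (PhiZ A ζ).natDegree :=
    (IsAlgClosed.splits (PhiZ A ζ)).natDegree_eq_card_roots.symm
  rw [PhiZ_natDegree hgA] at h3
  convert h2.trans h3

/-- counting step at a ball -/
theorem ChainB.L_split {τ : Type*} [Fintype τ] [DecidableEq τ] [Nonempty τ]
    (a w : ι → K) (ha : ∀ i, a i ∈ O) (hg : GenW (fun i => resK O (a i)))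
    (hw : Function.Injective w) (z0 r : K) (β : ι → Option τ)
    (A ζ : τ → IsLocalRing.ResidueField O) (hR : Reduces O a w z0 r β A ζ)
    (hτ : 2 ≤ Fintype.card τ) (S : Finset ι) (hβS : ∀ i, β i ≠ none ↔ i ∈ S) :
    Fintype.card τ * (Fintype.card τ - 1) +
      ∑ b, ChainB.L O a w (Finset.univ.filter (fun i => β i = some b)) ≤ ChainB.L O a w S := by
  classical
  rw [← ChainB.card_good O a w ha hg hw z0 r β A ζ hR]
  unfold ChainB.L
  refine ChainB.countP_add_sum_le _ _ _ (fun (b : τ) p => mult a w p ∈ O ∧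
    (ChainB.Sp O a w p).Nonempty ∧
    ChainB.Sp O a w p ⊆ Finset.univ.filter (fun i => β i = some b)) Finset.univ ?_
  intro p hp
  have hroot : (PhiZ a w).IsRoot p := (mem_roots'.1 hp).2
  have hSsub : ∀ b, Finset.univ.filter (fun i => β i = some b) ⊆ S := by
    intro b i hi
    rw [Finset.mem_filter] at hi
    rw [← hβS, hi.2]
    exact Option.some_ne_none b
  by_cases hG : GoodAt O A ζ z0 r p
  · have hSp : ChainB.Sp O a w p = S := by
      ext i
      rw [ChainB.Sp_eq O a w ha hg hw z0 r β A ζ hR p hroot hG, hβS]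
    have hM := ((good_roots O a w ha hg hw z0 r β A ζ hR).2 p hroot hG).1
    have hSne : S.Nonempty := by
      obtain ⟨b⟩ := (inferInstance : Nonempty τ)
      obtain ⟨i, hi⟩ := hR.hsurj b
      exact ⟨i, (hβS i).1 (by rw [hi]; exact Option.some_ne_none b)⟩
    have hnot : ∀ b : τ, ¬ (mult a w p ∈ O ∧ (ChainB.Sp O a w p).Nonempty ∧
        ChainB.Sp O a w p ⊆ Finset.univ.filter (fun i => β i = some b)) := by
      rintro b ⟨-, -, hsub⟩
      rw [hSp] at hsub
      obtain ⟨b', hb'⟩ := Fintype.exists_ne_of_one_lt_card (by omega) b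
      obtain ⟨i, hi⟩ := hR.hsurj b'
      have : i ∈ S := (hβS i).1 (by rw [hi]; exact Option.some_ne_none b')
      have := (Finset.mem_filter.1 (hsub this)).2
      rw [hi, Option.some_inj] at this
      exact hb' this
    have hP : mult a w p ∈ O ∧ (ChainB.Sp O a w p).Nonempty ∧ ChainB.Sp O a w p ⊆ S :=
      ⟨hM, by rw [hSp]; exact hSne, by rw [hSp]⟩
    rw [if_pos hG, if_pos hP, Finset.sum_eq_zero (fun b _ => if_neg (hnot b))]
    exact le_refl _
  · rw [if_neg hG, zero_add]
    by_cases hex : ∃ b : τ, mult a w p ∈ O ∧ (ChainB.Sp O a w p).Nonempty ∧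
        ChainB.Sp O a w p ⊆ Finset.univ.filter (fun i => β i = some b)
    · obtain ⟨b, hb1, hb2, hb3⟩ := hex
      have hP : mult a w p ∈ O ∧ (ChainB.Sp O a w p).Nonempty ∧ ChainB.Sp O a w p ⊆ S :=
        ⟨hb1, hb2, hb3.trans (hSsub b)⟩
      rw [if_pos hP, Finset.sum_eq_single b]
      · split_ifs <;> omega
      · intro b' _ hb'
        rw [if_neg]
        rintro ⟨-, -, hsub⟩
        obtain ⟨i, hi⟩ := hb2
        have e1 := (Finset.mem_filter.1 (hb3 hi)).2
        have e2 := (Finset.mem_filter.1 (hsub hi)).2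
        rw [e1, Option.some_inj] at e2
        exact hb' e2.symm
      · intro h; exact absurd (Finset.mem_univ b) h
    · push Not at hex
      rw [Finset.sum_eq_zero]
      · exact Nat.zero_le _
      · intro b _
        rw [if_neg]
        rintro ⟨h1, h2, h3⟩
        exact hex b h1 h2 h3

/-- blocks partition the ball -/
theorem ChainB.sum_card {τ : Type*} [Fintype τ] [DecidableEq τ] (β : ι → Option τ)
    (S : Finset ι) (hβS : ∀ i, β i ≠ none ↔ i ∈ S) :
    ∑ b : τ, (Finset.univ.filter (fun i => β i = some b)).card = S.card := by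
  classical
  rw [← Finset.card_biUnion]
  · congr 1
    ext i
    simp only [Finset.mem_biUnion, Finset.mem_univ, true_and, Finset.mem_filter]
    rw [← hβS, Option.ne_none_iff_exists']
  · intro b _ b' _ hbb
    simp only [Function.onFun]
    rw [Finset.disjoint_left]
    intro i hi hi'
    have e1 := (Finset.mem_filter.1 hi).2
    have e2 := (Finset.mem_filter.1 hi').2
    rw [e1, Option.some_inj] at e2
    exact hbb e2

/-- lower bound for the number of integral period-two points attached to sub-balls -/
theorem ChainB.L_lower (a w : ι → K) (ha : ∀ i, a i ∈ O) (hg : GenW (fun i => resK O (a i)))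
    (hw : Function.Injective w) : ∀ (n : ℕ) (S : Finset ι), S.card = n → S.Nonempty →
      ChainB.Cl O w S → 2 * S.card ≤ ChainB.L O a w S + 2 := by
  classical
  intro n
  induction n using Nat.strong_induction_on with
  | _ n ih =>
    intro S hn hne hS
    by_cases h2 : 2 ≤ S.card
    · obtain ⟨z0, r, T, β, A, ζ, hR, hT, hβS, hCl⟩ := ChainB.exists_reduces O a w hw S hS h2
      have hTc : Fintype.card T = T.card := Fintype.card_coe T
      have hTne : Nonempty T := by
        rw [← Fintype.card_pos_iff, hTc]; omega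
      have h3 := ChainB.L_split O a w ha hg hw z0 r β A ζ hR (by omega) S hβS
      have h4 := ChainB.sum_card β S hβS
      have hbne : ∀ b : T, (Finset.univ.filter (fun i => β i = some b)).Nonempty := by
        intro b
        obtain ⟨i, hi⟩ := hR.hsurj b
        exact ⟨i, by simp [hi]⟩
      have hblt : ∀ b : T, (Finset.univ.filter (fun i => β i = some b)).card < S.card := by
        intro b
        apply Finset.card_lt_card
        rw [Finset.ssubset_iff_of_subset]
        · obtain ⟨b', hb'⟩ := Fintype.exists_ne_of_one_lt_card (by omega) b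
          obtain ⟨i, hi⟩ := hR.hsurj b'
          refine ⟨i, (hβS i).1 (by rw [hi]; exact Option.some_ne_none b'), ?_⟩
          rw [Finset.mem_filter, hi, Option.some_inj]
          exact fun h => hb' h.2
        · intro i hi
          rw [Finset.mem_filter] at hi
          rw [← hβS, hi.2]
          exact Option.some_ne_none b
      have h5 : ∑ b : T, 2 * (Finset.univ.filter (fun i => β i = some b)).card ≤
          ∑ b : T, (ChainB.L O a w (Finset.univ.filter (fun i => β i = some b)) + 2) :=
        Finset.sum_le_sum (fun b _ => ih _ (hn ▸ hblt b) _ rfl (hbne b) (hCl b))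
      rw [← Finset.mul_sum, h4, Finset.sum_add_distrib, Finset.sum_const, Finset.card_univ,
        smul_eq_mul] at h5
      obtain ⟨t, ht⟩ : ∃ t, Fintype.card T = t + 2 := ⟨Fintype.card T - 2, by omega⟩
      rw [ht] at h3 h5
      have h6 : (t + 2) * (t + 2 - 1) = t * t + 3 * t + 2 := by
        have : t + 2 - 1 = t + 1 := by omega
        rw [this]; ring
      rw [h6] at h3
      nlinarith [Nat.zero_le (t * t)]
    · have : S.card = 1 := by
        have := hne.card_pos
        omega
      omega

/-- reduction data indexed by an equivalent type -/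
theorem ChainB.reindex {τ τ' : Type*} [Fintype τ] [DecidableEq τ] [Fintype τ'] [DecidableEq τ']
    (a w : ι → K) (z0 r : K) (β : ι → Option τ) (A ζ : τ → IsLocalRing.ResidueField O)
    (hR : Reduces O a w z0 r β A ζ) (e : τ' ≃ τ) :
    Reduces O a w z0 r (fun i => (β i).map e.symm) (A ∘ e) (ζ ∘ e) := by
  have h : ∀ i b, (β i).map e.symm = some b ↔ β i = some (e b) := by
    intro i b
    rw [Option.map_eq_some_iff]
    constructor
    · rintro ⟨c, hc, rfl⟩; rw [hc, Equiv.apply_symm_apply]
    · intro h; exact ⟨_, h, Equiv.symm_apply_apply _ _⟩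
  refine ⟨hR.hr, hR.hζ.comp e.injective, ?_, ?_, ?_, ?_⟩
  · intro i b hb
    exact hR.hin i _ ((h i b).1 hb)
  · intro i hi
    exact hR.hout i (Option.map_eq_none_iff.1 hi)
  · intro b
    obtain ⟨i, hi⟩ := hR.hsurj (e b)
    exact ⟨i, (h i b).2 hi⟩
  · intro b
    change A (e b) = _
    rw [hR.hA (e b)]
    refine Finset.sum_congr ?_ (fun _ _ => rfl)
    ext i
    simp only [Finset.mem_filter, Finset.mem_univ, true_and, h]

/-- equality in the counting bound forces a binary splitting -/
theorem ChainB.step (a w : ι → K) (ha : ∀ i, a i ∈ O) (hg : GenW (fun i => resK O (a i)))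
    (hw : Function.Injective w) (S : Finset ι) (hS : ChainB.Cl O w S) (h2 : 2 ≤ S.card)
    (hL : ChainB.L O a w S + 2 ≤ 2 * S.card) :
    ∃ S₁ S₂ : Finset ι, S₁.Nonempty ∧ S₂.Nonempty ∧ Disjoint S₁ S₂ ∧ S₁ ∪ S₂ = S ∧
      ChainB.Cl O w S₁ ∧ ChainB.Cl O w S₂ ∧ ChainB.L O a w S₁ + 2 ≤ 2 * S₁.card ∧
      ChainB.L O a w S₂ + 2 ≤ 2 * S₂.card ∧
      ∃ p, (PhiZ a w).IsRoot p ∧ mult a w p ∈ O ∧
        resK O (mult a w p) = mu (∑ i ∈ S₁, resK O (a i)) (∑ i ∈ S₂, resK O (a i)) := by
  classical
  obtain ⟨z0, r, T, β, A, ζ, hR, hT, hβS, hCl⟩ := ChainB.exists_reduces O a w hw S hS h2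
  have hTc : Fintype.card T = T.card := Fintype.card_coe T
  have hTne : Nonempty T := by
    rw [← Fintype.card_pos_iff, hTc]; omega
  have h3 := ChainB.L_split O a w ha hg hw z0 r β A ζ hR (by omega) S hβS
  have h4 := ChainB.sum_card β S hβS
  have hbne : ∀ b : T, (Finset.univ.filter (fun i => β i = some b)).Nonempty := by
    intro b
    obtain ⟨i, hi⟩ := hR.hsurj b
    exact ⟨i, by simp [hi]⟩
  have hlow : ∀ b : T, 2 * (Finset.univ.filter (fun i => β i = some b)).card ≤
      ChainB.L O a w (Finset.univ.filter (fun i => β i = some b)) + 2 := fun b =>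
    ChainB.L_lower O a w ha hg hw _ _ rfl (hbne b) (hCl b)
  have h5 : ∑ b : T, 2 * (Finset.univ.filter (fun i => β i = some b)).card ≤
      ∑ b : T, (ChainB.L O a w (Finset.univ.filter (fun i => β i = some b)) + 2) :=
    Finset.sum_le_sum (fun b _ => hlow b)
  rw [← Finset.mul_sum, h4, Finset.sum_add_distrib, Finset.sum_const, Finset.card_univ,
    smul_eq_mul] at h5
  have hT2 : Fintype.card T = 2 := by
    obtain ⟨t, ht⟩ : ∃ t, Fintype.card T = t + 2 := ⟨Fintype.card T - 2, by omega⟩
    rw [ht] at h3 h5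
    have h6 : (t + 2) * (t + 2 - 1) = t * t + 3 * t + 2 := by
      have : t + 2 - 1 = t + 1 := by omega
      rw [this]; ring
    rw [h6] at h3
    have : t = 0 := by
      by_contra h0
      have h7 : 1 ≤ t := Nat.one_le_iff_ne_zero.2 h0
      nlinarith [Nat.mul_le_mul h7 h7]
    omega
  let e : Fin 2 ≃ T := (Fintype.equivFinOfCardEq hT2).symm
  have hR' := ChainB.reindex O a w z0 r β A ζ hR e
  rw [hT2] at h3
  -- sums over `T` are sums over two elements
  have hsum : ∀ f : T → ℕ, ∑ b, f b = f (e 0) + f (e 1) := by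
    intro f
    rw [← Equiv.sum_comp e f, Fin.sum_univ_two]
  rw [hsum] at h3 h4
  have hl0 := hlow (e 0)
  have hl1 := hlow (e 1)
  have he : e 0 ≠ e 1 := fun h => absurd (e.injective h) (by decide)
  refine ⟨Finset.univ.filter (fun i => β i = some (e 0)),
    Finset.univ.filter (fun i => β i = some (e 1)), hbne _, hbne _, ?_, ?_, hCl _, hCl _,
    by omega, by omega, ?_⟩
  · rw [Finset.disjoint_left]
    intro i hi hi'
    have e1 := (Finset.mem_filter.1 hi).2
    have e2 := (Finset.mem_filter.1 hi').2
    rw [e1, Option.some_inj] at e2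
    exact he e2
  · ext i
    rw [Finset.mem_union, Finset.mem_filter, Finset.mem_filter, ← hβS]
    constructor
    · rintro (⟨-, h⟩ | ⟨-, h⟩) <;> rw [h] <;> exact Option.some_ne_none _
    · intro h
      obtain ⟨b, hb⟩ := Option.ne_none_iff_exists'.1 h
      obtain ⟨x, rfl⟩ := e.surjective b
      fin_cases x
      · left; exact ⟨Finset.mem_univ _, hb⟩
      · right; exact ⟨Finset.mem_univ _, hb⟩
  · have hgA : GenW (A ∘ e) := genW_reduced _ hg _ hR'.hsurj _ hR'.hA
    have hcard := ChainB.card_good O a w ha hg hw z0 r _ _ _ hR'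
    rw [Fintype.card_fin] at hcard
    obtain ⟨p, hp, hG⟩ := Multiset.countP_pos.1 (by rw [hcard]; norm_num :
      0 < (PhiZ a w).roots.countP (GoodAt O (A ∘ e) (ζ ∘ e) z0 r))
    have hroot : (PhiZ a w).IsRoot p := (mem_roots'.1 hp).2
    obtain ⟨hM, hres, -⟩ := (good_roots O a w ha hg hw z0 r _ _ _ hR').2 p hroot hG
    refine ⟨p, hroot, hM, ?_⟩
    rw [hres, mult_two _ _ hgA hR'.hζ _ hG.2]
    change mu (A (e 0)) (A (e 1)) = _
    rw [hR.hA (e 0), hR.hA (e 1)]

end

/-! ### Chains -/

/-- residue of the multiplier of a good point at the vertex `j` of a chain -/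
theorem ChainB.res_mult {m : ℕ} (a z : Fin (m + 1) → K) (ha : ∀ i, a i ∈ O)
    (hg : GenW (fun i => resK O (a i))) (hch : IsChain O z) (j : Fin (m + 1)) (hj : j ≠ 0)
    (p : K) (hp : (PhiZ a z).IsRoot p)
    (hG : GoodAt O (cw O a j) ![0, 1] (z 0) (z j - z 0) p) :
    mult a z p ∈ O ∧ resK O (mult a z p) = mu (cw O a j 0) (cw O a j 1) := by
  have hR := chain_reduces O a z hch j hj
  obtain ⟨hM, hres, -⟩ := (good_roots O a z ha hg (chain_injective O z hch) _ _ _ _ _ hR).2 p hp hG
  have hgA : GenW (cw O a j) := genW_reduced _ hg _ hR.hsurj _ hR.hA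
  refine ⟨hM, ?_⟩
  rw [hres, mult_two _ _ hgA hR.hζ _ hG.2]

open Classical in
/-- a chain has at most `2m` integral multipliers -/
theorem ChainB.card_integral_le {m : ℕ} (hm : 1 ≤ m) (a z : Fin (m + 1) → K) (ha : ∀ i, a i ∈ O)
    (hg : GenW (fun i => resK O (a i))) (hch : IsChain O z) :
    (Spec a z).countP (· ∈ O) ≤ 2 * m := by
  have hinj := chain_injective O z hch
  have h1 : (Spec a z).countP (· ∈ O) = (PhiZ a z).roots.countP (fun p => mult a z p ∈ O) := by
    rw [Spec, Multiset.countP_map, Multiset.countP_eq_card_filter]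
  rw [h1]
  have key : ∀ s : Multiset K, (∀ p ∈ s, p ∈ (PhiZ a z).roots) →
      s.countP (fun p => mult a z p ∈ O) ≤
      ∑ j ∈ Finset.univ.erase (0 : Fin (m + 1)),
        s.countP (GoodAt O (cw O a j) ![0, 1] (z 0) (z j - z 0)) := by
    intro s
    induction s using Multiset.induction_on with
    | empty => intro _; simp
    | cons x s ih =>
      intro hs
      have ih' := ih (fun y hy => hs y (Multiset.mem_cons_of_mem hy))
      have hx := hs x (Multiset.mem_cons_self x s)
      simp only [Multiset.countP_cons, Finset.sum_add_distrib]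
      refine add_le_add ih' ?_
      split_ifs with hM
      · obtain ⟨j, hj, hG, -⟩ := chain_integral O hm a z ha hg hch x (mem_roots'.1 hx).2 hM
        have hjmem : j ∈ Finset.univ.erase (0 : Fin (m + 1)) :=
          Finset.mem_erase.2 ⟨hj, Finset.mem_univ _⟩
        calc (1 : ℕ) = if GoodAt O (cw O a j) ![0, 1] (z 0) (z j - z 0) x then 1 else 0 := by
              rw [if_pos hG]
          _ ≤ _ := Finset.single_le_sum (f := fun j =>
              if GoodAt O (cw O a j) ![0, 1] (z 0) (z j - z 0) x then 1 else 0)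
              (fun _ _ => Nat.zero_le _) hjmem
      · exact Nat.zero_le _
  refine (key _ (fun p hp => hp)).trans ?_
  have h2 : ∀ j ∈ Finset.univ.erase (0 : Fin (m + 1)),
      (PhiZ a z).roots.countP (GoodAt O (cw O a j) ![0, 1] (z 0) (z j - z 0)) = 2 := by
    intro j hj
    rw [ChainB.card_good O a z ha hg hinj _ _ _ _ _
      (chain_reduces O a z hch j (Finset.ne_of_mem_erase hj)), Fintype.card_fin]
  rw [Finset.sum_congr rfl h2, Finset.sum_const, Finset.card_erase_of_mem (Finset.mem_univ _),
    Finset.card_univ, Fintype.card_fin, smul_eq_mul]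
  omega

/-- comparing two reduced multipliers with one of a vertex -/
theorem ChainB.part_eq {m : ℕ} (a : Fin (m + 1) → K) (hg : GenW (fun i => resK O (a i)))
    (S₁ S₂ : Finset (Fin (m + 1))) (h1 : S₁.Nonempty) (h2 : S₂.Nonempty) (hd : Disjoint S₁ S₂)
    (j : Fin (m + 1)) (hj : j ≠ 0)
    (h : mu (∑ i ∈ S₁, resK O (a i)) (∑ i ∈ S₂, resK O (a i)) = mu (cw O a j 0) (cw O a j 1)) :
    (S₁ = Finset.univ.filter (fun i => i < j) ∧ S₂ = {j}) ∨
      (S₁ = {j} ∧ S₂ = Finset.univ.filter (fun i => i < j)) := by
  have e0 : cw O a j 0 = ∑ i ∈ Finset.univ.filter (fun i => i < j), resK O (a i) := rfl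
  have e1 : cw O a j 1 = ∑ i ∈ ({j} : Finset (Fin (m + 1))), resK O (a i) := by
    rw [Finset.sum_singleton]; rfl
  rw [e0, e1] at h
  refine hg.part _ _ _ _ h1 h2 ?_ (Finset.singleton_nonempty j) hd ?_ h
  · exact ⟨0, by simp [Fin.pos_iff_ne_zero, hj]⟩
  · rw [Finset.disjoint_singleton_right]; simp

/-- Rigidity: a configuration with the same spectrum as a chain is a chain. -/
theorem chain_rigid {m : ℕ} (hm : 1 ≤ m) (a z z' : Fin (m + 1) → K) (ha : ∀ i, a i ∈ O)
    (hg : GenW (fun i => resK O (a i))) (hz' : Function.Injective z')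
    (hch : IsChain O z) (hs : Spec a z = Spec a z') : IsChain O z' := by
  classical
  -- upper bound
  have hup : ChainB.L O a z' Finset.univ ≤ 2 * m := by
    refine le_trans ?_ (ChainB.card_integral_le O hm a z ha hg hch)
    rw [hs, Spec, Multiset.countP_map, ← Multiset.countP_eq_card_filter]
    unfold ChainB.L
    rw [Multiset.countP_eq_card_filter, Multiset.countP_eq_card_filter]
    exact Multiset.card_le_card (Multiset.monotone_filter_right _ (fun p h => h.1))
  -- all initial segments are balls
  have main : ∀ k : ℕ, k ≤ m → ∀ s : Fin (m + 1), s.val = m - k →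
      ChainB.Cl O z' (Finset.univ.filter (fun i => i ≤ s)) ∧
      ChainB.L O a z' (Finset.univ.filter (fun i => i ≤ s)) ≤ 2 * s.val := by
    intro k
    induction k with
    | zero =>
      intro _ s hs
      have : Finset.univ.filter (fun i => i ≤ s) = Finset.univ := by
        ext i
        simp only [Finset.mem_filter, Finset.mem_univ, true_and, iff_true, Fin.le_def]
        have := i.isLt
        omega
      rw [this]
      refine ⟨fun i _ j _ k hk => absurd (Finset.mem_univ k) hk, ?_⟩
      have hsm : s.val = m := by omega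
      rw [hsm]; exact hup
    | succ k ih =>
      intro hk s hsk
      have hlt : s.val + 1 < m + 1 := by omega
      obtain ⟨hCl, hL⟩ := ih (by omega) ⟨s.val + 1, hlt⟩ (by simp; omega)
      set u : Fin (m + 1) := ⟨s.val + 1, hlt⟩ with hu
      have hcard : (Finset.univ.filter (fun i => i ≤ u)).card = s.val + 2 := by
        have : Finset.univ.filter (fun i => i ≤ u) = Finset.Iic u := by ext i; simp
        rw [this, Fin.card_Iic]
      obtain ⟨S₁, S₂, h1, h2, hd, hun, hC1, hC2, hL1, hL2, p, hp, hM, hres⟩ :=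
        ChainB.step O a z' ha hg hz' _ hCl (by omega) (by
          rw [hcard]
          have hus : u.val = s.val + 1 := rfl
          rw [hus] at hL; omega)
      -- the multiplier occurs in the spectrum of the chain
      have hmem : mult a z' p ∈ Spec a z := by
        rw [hs]
        refine Multiset.mem_map_of_mem _ (mem_roots'.2 ⟨?_, hp⟩)
        exact PhiZ_ne_zero (genW_of_res O a ha hg)
      obtain ⟨p₀, hp₀, hp₀M⟩ := Multiset.mem_map.1 hmem
      obtain ⟨j, hj, -, hj2⟩ := chain_integral O hm a z ha hg hch p₀ (mem_roots'.1 hp₀).2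
        (by rw [hp₀M]; exact hM)
      rw [hp₀M, hres] at hj2
      have hcase := ChainB.part_eq O a hg S₁ S₂ h1 h2 hd j hj hj2
      have hju : j = u := by
        have hU : Finset.univ.filter (fun i => i ≤ u) =
            Finset.univ.filter (fun i => i ≤ j) := by
          rw [← hun]
          rcases hcase with ⟨rfl, rfl⟩ | ⟨rfl, rfl⟩
          · ext i
            simp only [Finset.mem_union, Finset.mem_filter, Finset.mem_univ, true_and,
              Finset.mem_singleton]
            exact le_iff_lt_or_eq.symm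
          · ext i
            simp only [Finset.mem_union, Finset.mem_filter, Finset.mem_univ, true_and,
              Finset.mem_singleton]
            rw [le_iff_lt_or_eq, or_comm]
        apply le_antisymm
        · have : j ∈ Finset.univ.filter (fun i => i ≤ u) := by rw [hU]; simp
          simpa using this
        · have : u ∈ Finset.univ.filter (fun i => i ≤ j) := by rw [← hU]; simp
          simpa using this
      have hseg : Finset.univ.filter (fun i => i < j) = Finset.univ.filter (fun i => i ≤ s) := by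
        ext i
        simp only [Finset.mem_filter, Finset.mem_univ, true_and, hju, Fin.lt_def, Fin.le_def, hu]
        omega
      have hcs : (Finset.univ.filter (fun i => i ≤ s)).card = s.val + 1 := by
        have : Finset.univ.filter (fun i => i ≤ s) = Finset.Iic s := by ext i; simp
        rw [this, Fin.card_Iic]
      rcases hcase with ⟨e1, -⟩ | ⟨-, e2⟩
      · rw [e1, hseg] at hC1 hL1
        exact ⟨hC1, by omega⟩
      · rw [e2, hseg] at hC2 hL2
        exact ⟨hC2, by omega⟩
  intro i j hij
  have hi := i.isLt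
  obtain ⟨hCl, -⟩ := main (m - i.val) (by omega) i (by omega)
  have h0 : (0 : Fin (m + 1)) ∈ Finset.univ.filter (fun x => x ≤ i) := by simp
  have hi' : i ∈ Finset.univ.filter (fun x => x ≤ i) := by simp
  have hj' : j ∉ Finset.univ.filter (fun x => x ≤ i) := by simpa using hij
  have := hCl 0 h0 i hi' j hj'
  rw [ChainB.sub_comm_val O (z' 0), ChainB.sub_comm_val O (z' 0)] at this
  exact this

/-- two chains with the same spectrum: two-cycles at the vertex `j` with equal multipliers -/
theorem chain_match {m : ℕ} (hm : 1 ≤ m) (a z z' : Fin (m + 1) → K) (ha : ∀ i, a i ∈ O)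
    (hg : GenW (fun i => resK O (a i)))
    (hch : IsChain O z) (hch' : IsChain O z') (hs : Spec a z = Spec a z')
    (j : Fin (m + 1)) (hj : j ≠ 0) :
    ∃ p p', (PhiZ a z).IsRoot p ∧ (PhiZ a z').IsRoot p' ∧ mult a z p = mult a z' p' ∧
      GoodAt O (cw O a j) ![0, 1] (z 0) (z j - z 0) p ∧
      GoodAt O (cw O a j) ![0, 1] (z' 0) (z' j - z' 0) p' := by
  classical
  have hR := chain_reduces O a z hch j hj
  have hcard := ChainB.card_good O a z ha hg (chain_injective O z hch) _ _ _ _ _ hR
  rw [Fintype.card_fin] at hcard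
  obtain ⟨p, hp, hG⟩ := Multiset.countP_pos.1 (by rw [hcard]; norm_num :
    0 < (PhiZ a z).roots.countP (GoodAt O (cw O a j) ![0, 1] (z 0) (z j - z 0)))
  have hroot : (PhiZ a z).IsRoot p := (mem_roots'.1 hp).2
  obtain ⟨hM, hres⟩ := ChainB.res_mult O a z ha hg hch j hj p hroot hG
  have hmem : mult a z p ∈ Spec a z' := by
    rw [← hs]
    exact Multiset.mem_map_of_mem _ hp
  obtain ⟨p', hp', hp'M⟩ := Multiset.mem_map.1 hmem
  have hroot' : (PhiZ a z').IsRoot p' := (mem_roots'.1 hp').2
  obtain ⟨j', hj', hG', hres'⟩ := chain_integral O hm a z' ha hg hch' p' hroot'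
    (by rw [hp'M]; exact hM)
  rw [hp'M, hres] at hres'
  have e0 : cw O a j 0 = ∑ i ∈ Finset.univ.filter (fun i => i < j), resK O (a i) := rfl
  have e1 : cw O a j 1 = ∑ i ∈ ({j} : Finset (Fin (m + 1))), resK O (a i) := by
    rw [Finset.sum_singleton]; rfl
  rw [e0, e1] at hres'
  have hcase := ChainB.part_eq O a hg _ _ ⟨0, by simp [Fin.pos_iff_ne_zero, hj]⟩
    (Finset.singleton_nonempty j) (by rw [Finset.disjoint_singleton_right]; simp) j' hj' hres'
  have hjj : j = j' := by
    rcases hcase with ⟨-, h⟩ | ⟨h1, h2⟩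
    · exact Finset.singleton_injective h
    · exfalso
      have h3 : j' < j := by
        have : j' ∈ Finset.univ.filter (fun i => i < j) := by rw [h1]; simp
        simpa using this
      have h4 : j < j' := by
        have : j ∈ Finset.univ.filter (fun i => i < j') := by rw [← h2]; simp
        simpa using this
      exact absurd h3 (not_lt.2 h4.le)
  subst hjj
  exact ⟨p, p', hroot, hroot', hp'M.symm, hG, hG'⟩

end

end Pool.Agent.Lib.MP_740d3f_ag
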