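import Mathlib

set_option autoImplicit false

/-!
# Configurations of fixed points, the dynatomic polynomial and the period-two spectrum

A rational map of degree `N` with a fixed point at infinity and finite fixed points `z i`
(`i : ι`, `card ι = N`) is `f(p) = p - 1 / ω(p)`, `ω(p) = ∑ a i / (p - z i)`, where
`a i = 1 / (1 - multiplier at z i)` and `1 - ∑ a i` is the weight of the point at infinity.
-/

namespace Pool.Agent.Lib.MP_740d3f_ag

open Polynomial

noncomputable section

section Poly

variable {R : Type*} [CommRing R] {ι : Type*} [Fintype ι] [DecidableEq ι]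

/-- the linear polynomial `s_i X - c_i` (zero at `c_i / s_i`, at infinity if `s_i = 0`) -/
def lin (s c : ι → R) (i : ι) : R[X] := C (s i) * X - C (c i)

/-- product of all linear polynomials except the `i`-th -/
def prodE (s c : ι → R) (i : ι) : R[X] := ∏ j ∈ Finset.univ.erase i, lin s c j

/-- numerator of `ω` -/
def Wp (a s c : ι → R) : R[X] := ∑ i, C (a i * s i) * prodE s c i

/-- polynomial whose roots are the preimages of `z_i` different from `z_i` -/
def Gp (a s c : ι → R) (i : ι) : R[X] := Wp a s c - C (s i) * prodE s c i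

/-- the dynatomic polynomial of period two -/
def Phi (a s c : ι → R) : R[X] :=
  ∑ i, C (a i * s i) * prodE s c i * ∏ j ∈ Finset.univ.erase i, Gp a s c j + ∏ j, Gp a s c j

end Poly

section Field

variable {K : Type*} [Field K] {ι : Type*} [Fintype ι] [DecidableEq ι]

/-- `ω(p) = ∑ a_i / (p - z_i)` -/
def omega (a z : ι → K) (p : K) : K := ∑ i, a i / (p - z i)

/-- the coordinate `(z_i - q)/(z_i - p)` where `q = f(p) = p - 1/ω(p)` -/
def Yc (a z : ι → K) (p : K) (i : ι) : K := 1 - 1 / ((p - z i) * omega a z p)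

/-- the multiplier of the two-cycle through `p` -/
def mult (a z : ι → K) (p : K) : K :=
  (∑ i, a i * Yc a z p i ^ 2 + (1 - ∑ i, a i)) * (∑ i, a i / Yc a z p i ^ 2 + (1 - ∑ i, a i))

/-- the polynomial of period-two points of the configuration `z` with weights `a` -/
abbrev PhiZ (a z : ι → K) : K[X] := Phi a 1 z

/-- multiset of the multipliers `(f^2)'(p)` over the period-two points `p` -/
def Spec (a z : ι → K) : Multiset K := (PhiZ a z).roots.map (mult a z)

/-- multiplier of the two-cycle of a quadratic map with fixed point weights `A, B, 1-A-B` -/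
def mu (A B : K) : K := 9 + (1 - 4 * (A * B + (A + B) * (1 - A - B))) / (A * B * (1 - A - B))

/-- genericity of weights -/
structure GenW (a : ι → K) : Prop where
  avoid : ∀ S : Finset ι, S.Nonempty →
    ∑ i ∈ S, a i ≠ 0 ∧ ∑ i ∈ S, a i ≠ 1 ∧ 2 * ∑ i ∈ S, a i ≠ 1 ∧ 3 * ∑ i ∈ S, a i ≠ 1 ∧
      3 * ∑ i ∈ S, a i ≠ 2
  part : ∀ S₁ S₂ T₁ T₂ : Finset ι, S₁.Nonempty → S₂.Nonempty → T₁.Nonempty → T₂.Nonempty →
    Disjoint S₁ S₂ → Disjoint T₁ T₂ →
    mu (∑ i ∈ S₁, a i) (∑ i ∈ S₂, a i) = mu (∑ i ∈ T₁, a i) (∑ i ∈ T₂, a i) →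
    (S₁ = T₁ ∧ S₂ = T₂) ∨ (S₁ = T₂ ∧ S₂ = T₁)

/-- the monic polynomial with root multiset `Spec` -/
def specPoly (a z : ι → K) : K[X] := ((Spec a z).map (fun M => X - C M)).prod

/-- the field generated by the weights and the coefficients of `specPoly` -/
def specField (a z : ι → K) : Subfield K :=
  Subfield.closure (Set.range a ∪ Set.range (specPoly a z).coeff)

/-- normalized configuration `0, x_0, ..., x_{k-1}, 1` -/
def zOf {k : ℕ} (x : Fin k → K) : Fin (k + 2) → K :=
  Fin.cons 0 (Fin.snoc (α := fun _ => K) x 1)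

end Field

section Val

variable {K : Type*} [Field K]

open Classical in
/-- residue map extended by zero to the whole field -/
def resK (O : ValuationSubring K) (x : K) : IsLocalRing.ResidueField O :=
  if h : x ∈ O then IsLocalRing.residue O ⟨x, h⟩ else 0

/-- the configuration is a chain: `|z_1 - z_0| < |z_2 - z_0| < ...` -/
def IsChain (O : ValuationSubring K) {m : ℕ} (z : Fin (m + 1) → K) : Prop :=
  ∀ i j : Fin (m + 1), i < j → O.valuation (z i - z 0) < O.valuation (z j - z 0)

/-- residue-level good position of a period-two point with respect to the ball `(z0, r)` whose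
reduced configuration is `(A, ζ)` -/
def GoodAt (O : ValuationSubring K) {τ : Type*} [Fintype τ] [DecidableEq τ]
    (A ζ : τ → IsLocalRing.ResidueField O) (z0 r p : K) : Prop :=
  (p - z0) / r ∈ O ∧ (PhiZ A ζ).IsRoot (resK O ((p - z0) / r))

/-- hypotheses describing the reduction of the configuration at the ball with centre `z0` and
radius `|r|`: `β i = some b` if `z i` is in the ball with residue `ζ b`, and `β i = none` if
`z i` is outside the ball. -/
structure Reduces (O : ValuationSubring K) {ι τ : Type*} [Fintype ι] [DecidableEq ι]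
    [Fintype τ] [DecidableEq τ] (a z : ι → K) (z0 r : K) (β : ι → Option τ)
    (A ζ : τ → IsLocalRing.ResidueField O) : Prop where
  hr : r ≠ 0
  hζ : Function.Injective ζ
  hin : ∀ i b, β i = some b → (z i - z0) / r ∈ O ∧ resK O ((z i - z0) / r) = ζ b
  hout : ∀ i, β i = none → (z i - z0) / r ∉ O
  hsurj : ∀ b, ∃ i, β i = some b
  hA : ∀ b, A b = ∑ i ∈ Finset.univ.filter (fun i => β i = some b), resK O (a i)

/-- blocks at the vertex `j` of a chain: `i < j` is block `0`, `i = j` is block `1` -/
def cb {m : ℕ} (j i : Fin (m + 1)) : Option (Fin 2) :=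
  if i < j then some 0 else if i = j then some 1 else none

/-- weights at the vertex `j` of a chain -/
def cw (O : ValuationSubring K) {m : ℕ} (a : Fin (m + 1) → K) (j : Fin (m + 1)) :
    Fin 2 → IsLocalRing.ResidueField O :=
  ![∑ i ∈ Finset.univ.filter (fun i => i < j), resK O (a i), resK O (a j)]

/-- `tt z j = (z_j - z_0)/(z_{j+1} - z_0)` -/
def tt {m : ℕ} (z : Fin (m + 1) → K) (j : Fin m) : K := (z j.castSucc - z 0) / (z j.succ - z 0)

end Val

/-- the birationality statement in degree `k+2` -/
def Pst.{u} (k : ℕ) : Prop :=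
  ∀ (Ω : Type u) [Field Ω] [IsAlgClosed Ω] [CharZero Ω] (a : Fin (k + 2) → Ω) (x : Fin k → Ω),
    AlgebraicIndependent ℚ (Sum.elim a x) → ∀ i, x i ∈ specField a (zOf x)

section Maps

variable {K : Type*} [Field K]

/-- fixed points with multiplier `c` of the map `p/q` (finite ones) -/
def FixS (p q : K[X]) (c : K) : Set K :=
  {z : K | q.eval z ≠ 0 ∧ p.eval z = z * q.eval z ∧
    ((derivative p).eval z * q.eval z - p.eval z * (derivative q).eval z) / (q.eval z) ^ 2 = c}

/-- points of exact period two with multiplier `c` of the map `p/q` -/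
def PerS (p q : K[X]) (c : K) : Set K :=
  {z : K | q.eval z ≠ 0 ∧ q.eval (p.eval z / q.eval z) ≠ 0 ∧
    p.eval (p.eval z / q.eval z) / q.eval (p.eval z / q.eval z) = z ∧
    p.eval z / q.eval z ≠ z ∧
    ((derivative p).eval z * q.eval z - p.eval z * (derivative q).eval z) / (q.eval z) ^ 2 *
    (((derivative p).eval (p.eval z / q.eval z) * q.eval (p.eval z / q.eval z)
      - p.eval (p.eval z / q.eval z) * (derivative q).eval (p.eval z / q.eval z))
      / (q.eval (p.eval z / q.eval z)) ^ 2) = c}

/-- the maps `p₁/q₁` and `p₂/q₂` are conjugate by a Moebius map -/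
def ConjM (p₁ q₁ p₂ q₂ : K[X]) : Prop :=
  ∃ a b c e : K, a * e - b * c ≠ 0 ∧
    ∀ z : K, q₁.eval z ≠ 0 → c * z + e ≠ 0 →
      c * (p₁.eval z / q₁.eval z) + e ≠ 0 →
      q₂.eval ((a * z + b) / (c * z + e)) ≠ 0 →
      p₂.eval ((a * z + b) / (c * z + e)) / q₂.eval ((a * z + b) / (c * z + e))
        = (a * (p₁.eval z / q₁.eval z) + b) / (c * (p₁.eval z / q₁.eval z) + e)

/-- the coefficients of `p, q` (degree at most `d`) are algebraically independent over `ℚ` -/
def GenMap [CharZero K] (d : ℕ) (p q : K[X]) : Prop :=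
  p.natDegree ≤ d ∧ q.natDegree ≤ d ∧
  AlgebraicIndependent ℚ (Sum.elim (fun i : Fin (d + 1) => p.coeff i.val)
    (fun i : Fin (d + 1) => q.coeff i.val))

end Maps

end

end Pool.Agent.Lib.MP_740d3f_ag
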