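import Pool.Agent.Lib.MP_740d3f_ag.Defs

set_option autoImplicit false

/-! # Second order expansion of the multiplier for three clusters -/

namespace Pool.Agent.Lib.MP_740d3f_ag
noncomputable section

namespace ExpA

variable {K : Type*} [Field K]

theorem rel3 (l y r k B0 B1 B2 : K) (hl : l ≠ 0) (hy : y ≠ 0) (hr : r ≠ 0)
    (h3 : B0 / l + B1 / y + B2 / r = -k) :
    B0 * (y * r) + B1 * (l * r) + B2 * (l * y) = -(k * (l * y * r)) := by
  field_simp at h3
  linear_combination h3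

theorem relQ (l y r k B0 B1 B2 : K) (hl : l ≠ 0) (hy : y ≠ 0) (hr : r ≠ 0)
    (h1 : B0 + B1 + B2 = 1) (h2 : B0 * l + B1 * y + B2 * r = 0)
    (h3 : B0 / l + B1 / y + B2 / r = -k) :
    (l * y * r) * (B0 / l ^ 2 + B1 / y ^ 2 + B2 / r ^ 2) =
      -((l + y + r) + k * (l * y + l * r + y * r)) := by
  have e : (l * y * r) * (B0 / l ^ 2 + B1 / y ^ 2 + B2 / r ^ 2) =
      (B0 * l + B1 * y + B2 * r) - (l + y + r) * (B0 + B1 + B2) +
      (l * y + l * r + y * r) * (B0 / l + B1 / y + B2 / r) := by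
    field_simp
    ring
  rw [e, h1, h2, h3]
  ring

/-- the exact expansion of `mu` -/
theorem mu_exact (l y r k B0 B1 B2 : K) (hly : l - y ≠ 0) (hlr : l - r ≠ 0) (hyr : y - r ≠ 0)
    (hB0 : B0 ≠ 0) (hB1 : B1 ≠ 0) (hB2 : B2 ≠ 0)
    (h1 : B0 + B1 + B2 = 1)
    (w0 : B0 * ((l - y) * (l - r)) = -(l * (y + r) + k * (l * y * r)))
    (w1 : B1 * ((y - l) * (y - r)) = -(y * (l + r) + k * (l * y * r)))
    (w2 : B2 * ((r - l) * (r - y)) = -(r * (l + y) + k * (l * y * r))) :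
    (l * y * r) * ((l * (y + r) + k * (l * y * r)) * (y * (l + r) + k * (l * y * r)) *
      (r * (l + y) + k * (l * y * r))) * mu B0 B1 =
    ((l + y + r) * (l * y + l * r + y * r) + k * (3 * (l + y + r) * (l * y * r) -
      (l * y + l * r + y * r) ^ 2)) * ((l * (y + r) + k * (l * y * r)) *
      (y * (l + r) + k * (l * y * r)) * (r * (l + y) + k * (l * y * r))) +
    k ^ 2 * ((l * y + l * r + y * r) ^ 4 * (l * y * r)
      - 4 * (l + y + r) * (l * y + l * r + y * r) ^ 2 * (l * y * r) ^ 2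
      + (l + y + r) ^ 2 * (l * y * r) ^ 3 + 6 * (l * y + l * r + y * r) * (l * y * r) ^ 3
      + k * (2 * (l * y + l * r + y * r) ^ 3 * (l * y * r) ^ 2
        - 7 * (l + y + r) * (l * y + l * r + y * r) * (l * y * r) ^ 3 + 9 * (l * y * r) ^ 4)
      + k ^ 2 * ((l * y + l * r + y * r) ^ 2 * (l * y * r) ^ 3
        - 3 * (l + y + r) * (l * y * r) ^ 4)) := by
  set W0 := l * (y + r) + k * (l * y * r) with hW0
  set W1 := y * (l + r) + k * (l * y * r) with hW1
  set W2 := r * (l + y) + k * (l * y * r) with hW2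
  have hB : 1 - B0 - B1 = B2 := by linear_combination -h1
  have hW : W0 * W1 * W2 = B0 * B1 * B2 * ((l - y) ^ 2 * (l - r) ^ 2 * (y - r) ^ 2) := by
    have e0 : W0 = -(B0 * ((l - y) * (l - r))) := by linear_combination w0
    have e1 : W1 = -(B1 * ((y - l) * (y - r))) := by linear_combination w1
    have e2 : W2 = -(B2 * ((r - l) * (r - y))) := by linear_combination w2
    rw [e0, e1, e2]
    ring
  have hmu : W0 * W1 * W2 * mu B0 B1 = 9 * (W0 * W1 * W2) +
      (1 - 4 * (B0 * B1 + B0 * B2 + B1 * B2)) * ((l - y) ^ 2 * (l - r) ^ 2 * (y - r) ^ 2) := by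
    unfold mu
    rw [hB, hW]
    field_simp
    ring
  have hE2 : (B0 * B1 + B0 * B2 + B1 * B2) * ((l - y) ^ 2 * (l - r) ^ 2 * (y - r) ^ 2) =
      -(W0 * W1 * (l - r) * (y - r) + W0 * W2 * (l - y) * (r - y) + W1 * W2 * (y - l) * (r - l)) := by
    have e0 : W0 = -(B0 * ((l - y) * (l - r))) := by linear_combination w0
    have e1 : W1 = -(B1 * ((y - l) * (y - r))) := by linear_combination w1
    have e2 : W2 = -(B2 * ((r - l) * (r - y))) := by linear_combination w2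
    rw [e0, e1, e2]
    ring
  have : (l * y * r) * (W0 * W1 * W2) * mu B0 B1 = (l * y * r) * (9 * (W0 * W1 * W2) +
      ((l - y) ^ 2 * (l - r) ^ 2 * (y - r) ^ 2) - 4 * (-(W0 * W1 * (l - r) * (y - r) +
      W0 * W2 * (l - y) * (r - y) + W1 * W2 * (y - l) * (r - l)))) := by
    linear_combination (l * y * r) * hmu - 4 * (l * y * r) * hE2
  rw [this, hW0, hW1, hW2]
  ring

theorem ident (l y r k B0 B1 B2 m0 m1 m2 s t : K) (hl : l ≠ 0) (hy : y ≠ 0) (hr : r ≠ 0)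
    (hly : l - y ≠ 0) (hlr : l - r ≠ 0) (hyr : y - r ≠ 0)
    (hB0 : B0 ≠ 0) (hB1 : B1 ≠ 0) (hB2 : B2 ≠ 0)
    (h1 : B0 + B1 + B2 = 1) (h2 : B0 * l + B1 * y + B2 * r = 0)
    (h3 : B0 / l + B1 / y + B2 / r = -k)
    (hk : k = m0 / l ^ 3 + m1 / y ^ 3 + m2 / r ^ 3 - t) :
    (l * y * r) * ((l * (y + r) + k * (l * y * r)) * (y * (l + r) + k * (l * y * r)) *
      (r * (l + y) + k * (l * y * r))) *
    (((B0 * l ^ 2 + m0) + (B1 * y ^ 2 + m1) + (B2 * r ^ 2 + m2)) *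
      ((B0 / l ^ 2 + 3 * m0 / l ^ 4) + (B1 / y ^ 2 + 3 * m1 / y ^ 4) +
        (B2 / r ^ 2 + 3 * m2 / r ^ 4) - s) - mu B0 B1 +
      ((1 - 3 * B0) * (l - y) ^ 2 * (l - r) ^ 2 / (l ^ 4 * y * r) * m0 +
       (1 - 3 * B1) * (y - r) ^ 2 * (y - l) ^ 2 / (y ^ 4 * r * l) * m1 +
       (1 - 3 * B2) * (r - l) ^ 2 * (r - y) ^ 2 / (r ^ 4 * l * y) * m2)) =
    ((l * (y + r) + k * (l * y * r)) * (y * (l + r) + k * (l * y * r)) *
      (r * (l + y) + k * (l * y * r))) *
    (-t * (2 * (l * y + l * r + y * r) ^ 2 - 2 * (l + y + r) * (l * y * r)) +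
      s * ((l * y + l * r + y * r) * (l * y * r)) +
      3 * k * (l * y * r) * ((l - y) * (l - r) / l ^ 3 * m0 + (y - r) * (y - l) / y ^ 3 * m1 +
        (r - l) * (r - y) / r ^ 3 * m2) +
      k * k * ((l * y + l * r + y * r) * (l * y * r)) -
      k * (m0 + m1 + m2) * (l * y + l * r + y * r) -
      k * (3 * m0 / l ^ 4 + 3 * m1 / y ^ 4 + 3 * m2 / r ^ 4 - s) * (l * y * r) ^ 2 +
      (m0 + m1 + m2) * (3 * m0 / l ^ 4 + 3 * m1 / y ^ 4 + 3 * m2 / r ^ 4 - s) * (l * y * r)) -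
    k ^ 2 * ((l * y + l * r + y * r) ^ 4 * (l * y * r)
      - 4 * (l + y + r) * (l * y + l * r + y * r) ^ 2 * (l * y * r) ^ 2
      + (l + y + r) ^ 2 * (l * y * r) ^ 3 + 6 * (l * y + l * r + y * r) * (l * y * r) ^ 3
      + k * (2 * (l * y + l * r + y * r) ^ 3 * (l * y * r) ^ 2
        - 7 * (l + y + r) * (l * y + l * r + y * r) * (l * y * r) ^ 3 + 9 * (l * y * r) ^ 4)
      + k ^ 2 * ((l * y + l * r + y * r) ^ 2 * (l * y * r) ^ 3
        - 3 * (l + y + r) * (l * y * r) ^ 4)) := by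
  have h3' := rel3 l y r k B0 B1 B2 hl hy hr h3
  have w0 : B0 * ((l - y) * (l - r)) = -(l * (y + r) + k * (l * y * r)) := by
    linear_combination l * h2 - l * (y + r) * h1 + h3'
  have w1 : B1 * ((y - l) * (y - r)) = -(y * (l + r) + k * (l * y * r)) := by
    linear_combination y * h2 - y * (l + r) * h1 + h3'
  have w2 : B2 * ((r - l) * (r - y)) = -(r * (l + y) + k * (l * y * r)) := by
    linear_combination r * h2 - r * (l + y) * h1 + h3'
  have hP : B0 * l ^ 2 + B1 * y ^ 2 + B2 * r ^ 2 = -(l * y + l * r + y * r) - k * (l * y * r) := by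
    linear_combination (l + y + r) * h2 - (l * y + l * r + y * r) * h1 + h3'
  have hQ := relQ l y r k B0 B1 B2 hl hy hr h1 h2 h3
  have hmu := mu_exact l y r k B0 B1 B2 hly hlr hyr hB0 hB1 hB2 h1 w0 w1 w2
  -- the correction term
  have hT : (l * y * r) * ((1 - 3 * B0) * (l - y) ^ 2 * (l - r) ^ 2 / (l ^ 4 * y * r) * m0 +
       (1 - 3 * B1) * (y - r) ^ 2 * (y - l) ^ 2 / (y ^ 4 * r * l) * m1 +
       (1 - 3 * B2) * (r - l) ^ 2 * (r - y) ^ 2 / (r ^ 4 * l * y) * m2) =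
      ((l - y) * (l - r) + 3 * (l * (y + r) + k * (l * y * r))) * ((l - y) * (l - r)) / l ^ 3 * m0 +
      ((y - r) * (y - l) + 3 * (y * (l + r) + k * (l * y * r))) * ((y - r) * (y - l)) / y ^ 3 * m1 +
      ((r - l) * (r - y) + 3 * (r * (l + y) + k * (l * y * r))) * ((r - l) * (r - y)) / r ^ 3 * m2 := by
    have e0 : (l * y * r) * ((1 - 3 * B0) * (l - y) ^ 2 * (l - r) ^ 2 / (l ^ 4 * y * r) * m0) =
        ((l - y) * (l - r) + 3 * (-(B0 * ((l - y) * (l - r))))) * ((l - y) * (l - r)) / l ^ 3 * m0 := by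
      field_simp
      ring
    have e1 : (l * y * r) * ((1 - 3 * B1) * (y - r) ^ 2 * (y - l) ^ 2 / (y ^ 4 * r * l) * m1) =
        ((y - r) * (y - l) + 3 * (-(B1 * ((y - l) * (y - r))))) * ((y - r) * (y - l)) / y ^ 3 * m1 := by
      field_simp
      ring
    have e2 : (l * y * r) * ((1 - 3 * B2) * (r - l) ^ 2 * (r - y) ^ 2 / (r ^ 4 * l * y) * m2) =
        ((r - l) * (r - y) + 3 * (-(B2 * ((r - l) * (r - y))))) * ((r - l) * (r - y)) / r ^ 3 * m2 := by
      field_simp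
      ring
    rw [mul_add, mul_add, e0, e1, e2, w0, w1, w2]
    ring
  -- the linear identity
  have hL : k * (2 * (l * y + l * r + y * r) ^ 2 - 2 * (l + y + r) * (l * y * r))
      - (m0 + m1 + m2) * (l + y + r)
      - (3 * m0 / l ^ 4 + 3 * m1 / y ^ 4 + 3 * m2 / r ^ 4 - s) * ((l * y + l * r + y * r) * (l * y * r))
      + (((l - y) * (l - r) + 3 * (l * (y + r))) * ((l - y) * (l - r)) / l ^ 3 * m0 +
      ((y - r) * (y - l) + 3 * (y * (l + r))) * ((y - r) * (y - l)) / y ^ 3 * m1 +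
      ((r - l) * (r - y) + 3 * (r * (l + y))) * ((r - l) * (r - y)) / r ^ 3 * m2) =
      -t * (2 * (l * y + l * r + y * r) ^ 2 - 2 * (l + y + r) * (l * y * r)) +
      s * ((l * y + l * r + y * r) * (l * y * r)) := by
    rw [hk]
    field_simp
    ring
  generalize (l * (y + r) + k * (l * y * r)) * (y * (l + r) + k * (l * y * r)) *
      (r * (l + y) + k * (l * y * r)) = S at hmu ⊢
  generalize (l * y + l * r + y * r) ^ 4 * (l * y * r)
      - 4 * (l + y + r) * (l * y + l * r + y * r) ^ 2 * (l * y * r) ^ 2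
      + (l + y + r) ^ 2 * (l * y * r) ^ 3 + 6 * (l * y + l * r + y * r) * (l * y * r) ^ 3
      + k * (2 * (l * y + l * r + y * r) ^ 3 * (l * y * r) ^ 2
        - 7 * (l + y + r) * (l * y + l * r + y * r) * (l * y * r) ^ 3 + 9 * (l * y * r) ^ 4)
      + k ^ 2 * ((l * y + l * r + y * r) ^ 2 * (l * y * r) ^ 3
        - 3 * (l + y + r) * (l * y * r) ^ 4) = Q at hmu ⊢
  linear_combination S * ((B0 * l ^ 2 + B1 * y ^ 2 + B2 * r ^ 2) + (m0 + m1 + m2)) * hQ +
    S * (-((l + y + r) + k * (l * y + l * r + y * r)) +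
      (l * y * r) * (3 * m0 / l ^ 4 + 3 * m1 / y ^ 4 + 3 * m2 / r ^ 4 - s)) * hP - hmu +
    S * hT + S * hL


section val

variable (O : ValuationSubring K)

theorem mem_iff (x : K) : x ∈ O ↔ O.valuation x ≤ 1 := (O.valuation_le_one_iff x).symm

theorem inv_mem_of_unit {x : K} (hx : O.valuation x = 1) : x⁻¹ ∈ O := by
  rw [mem_iff, map_inv₀, hx, inv_one]

theorem mem_of_unit {x : K} (hx : O.valuation x = 1) : x ∈ O := by
  rw [mem_iff, hx]

theorem I_add {ε x y : K} (hx : O.valuation x < O.valuation ε)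
    (hy : O.valuation y < O.valuation ε) : O.valuation (x + y) < O.valuation ε :=
  (O.valuation.map_add x y).trans_lt (max_lt hx hy)

theorem I_sub {ε x y : K} (hx : O.valuation x < O.valuation ε)
    (hy : O.valuation y < O.valuation ε) : O.valuation (x - y) < O.valuation ε :=
  (O.valuation.map_sub x y).trans_lt (max_lt hx hy)

theorem I_mul {ε x y : K} (hx : O.valuation x < O.valuation ε) (hy : y ∈ O) :
    O.valuation (x * y) < O.valuation ε := by
  rw [mem_iff] at hy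
  rw [map_mul]
  exact lt_of_le_of_lt (mul_le_of_le_one_right' hy) hx

theorem M_add {ε x y : K} (hx : O.valuation x ≤ O.valuation ε)
    (hy : O.valuation y ≤ O.valuation ε) : O.valuation (x + y) ≤ O.valuation ε :=
  (O.valuation.map_add x y).trans (max_le hx hy)

theorem M_sub {ε x y : K} (hx : O.valuation x ≤ O.valuation ε)
    (hy : O.valuation y ≤ O.valuation ε) : O.valuation (x - y) ≤ O.valuation ε :=
  (O.valuation.map_sub x y).trans (max_le hx hy)

theorem M_mul {ε x y : K} (hx : O.valuation x ≤ O.valuation ε) (hy : y ∈ O) :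
    O.valuation (x * y) ≤ O.valuation ε := by
  rw [mem_iff] at hy
  rw [map_mul]
  exact (mul_le_of_le_one_right' hy).trans hx

theorem MM {ε x y : K} (h0 : 0 < O.valuation ε) (h1 : O.valuation ε < 1)
    (hx : O.valuation x ≤ O.valuation ε)
    (hy : O.valuation y ≤ O.valuation ε) : O.valuation (x * y) < O.valuation ε := by
  rw [map_mul]
  calc O.valuation x * O.valuation y ≤ O.valuation ε * O.valuation ε := mul_le_mul' hx hy
    _ < O.valuation ε * 1 := by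
        apply mul_lt_mul_of_pos_left h1 h0
    _ = O.valuation ε := mul_one _

theorem I_sum {ε : K} {κ : Type*} (s : Finset κ) (f : κ → K) (h0 : 0 < O.valuation ε)
    (h : ∀ i ∈ s, O.valuation (f i) < O.valuation ε) : O.valuation (∑ i ∈ s, f i) < O.valuation ε := by
  classical
  induction s using Finset.induction_on with
  | empty => simpa using h0
  | insert a s ha ih =>
    rw [Finset.sum_insert ha]
    exact I_add O (h a (Finset.mem_insert_self _ _))
      (ih (fun i hi => h i (Finset.mem_insert_of_mem hi)))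

end val

theorem cluster_sums {κ : Type*} (F : Finset κ) (b Y : κ → K) (B l : K) (hl : l ≠ 0)
    (hY : ∀ i ∈ F, Y i ≠ 0) (hB : B = ∑ i ∈ F, b i) (hm : B * l = ∑ i ∈ F, b i * Y i) :
    (∑ i ∈ F, b i * Y i ^ 2 = B * l ^ 2 + ∑ i ∈ F, b i * (Y i - l) ^ 2) ∧
    (∑ i ∈ F, b i / Y i = B / l + (∑ i ∈ F, b i * (Y i - l) ^ 2) / l ^ 3 -
      ∑ i ∈ F, (Y i - l) ^ 3 * (b i * l⁻¹ ^ 3 * (Y i)⁻¹)) ∧
    (∑ i ∈ F, b i / Y i ^ 2 = B / l ^ 2 + 3 * (∑ i ∈ F, b i * (Y i - l) ^ 2) / l ^ 4 -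
      ∑ i ∈ F, (Y i - l) ^ 3 * (b i * (4 * l + 3 * (Y i - l)) * l⁻¹ ^ 4 * (Y i)⁻¹ ^ 2)) := by
  have h0 : ∑ i ∈ F, b i * (Y i - l) = 0 := by
    simp only [mul_sub, Finset.sum_sub_distrib, ← Finset.sum_mul]
    rw [← hB, ← hm, sub_self]
  refine ⟨?_, ?_, ?_⟩
  · have : ∀ i ∈ F, b i * Y i ^ 2 = b i * l ^ 2 + 2 * l * (b i * (Y i - l)) +
        b i * (Y i - l) ^ 2 := fun i _ => by ring
    rw [Finset.sum_congr rfl this, Finset.sum_add_distrib, Finset.sum_add_distrib,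
      ← Finset.sum_mul, ← Finset.mul_sum, h0, ← hB]
    ring
  · have : ∀ i ∈ F, b i / Y i = b i * l⁻¹ - l⁻¹ ^ 2 * (b i * (Y i - l)) +
        l⁻¹ ^ 3 * (b i * (Y i - l) ^ 2) - (Y i - l) ^ 3 * (b i * l⁻¹ ^ 3 * (Y i)⁻¹) := by
      intro i hi
      have := hY i hi
      field_simp
      ring
    rw [Finset.sum_congr rfl this, Finset.sum_sub_distrib, Finset.sum_add_distrib,
      Finset.sum_sub_distrib, ← Finset.sum_mul, ← Finset.mul_sum, ← Finset.mul_sum, h0, ← hB]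
    field_simp
    ring
  · have : ∀ i ∈ F, b i / Y i ^ 2 = b i * l⁻¹ ^ 2 - 2 * l⁻¹ ^ 3 * (b i * (Y i - l)) +
        3 * l⁻¹ ^ 4 * (b i * (Y i - l) ^ 2) -
        (Y i - l) ^ 3 * (b i * (4 * l + 3 * (Y i - l)) * l⁻¹ ^ 4 * (Y i)⁻¹ ^ 2) := by
      intro i hi
      have := hY i hi
      field_simp
      ring
    rw [Finset.sum_congr rfl this, Finset.sum_sub_distrib, Finset.sum_add_distrib,
      Finset.sum_sub_distrib, ← Finset.sum_mul, ← Finset.mul_sum, ← Finset.mul_sum, h0, ← hB]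
    field_simp
    ring

theorem unit_ne_zero (O : ValuationSubring K) {x : K} (hx : O.valuation x = 1) : x ≠ 0 := by
  rintro rfl
  simp at hx

/-- the valuation estimate for the right hand side of `ident` -/
theorem rhs_small (O : ValuationSubring K) (l y r k S m0 m1 m2 s t ε : K)
    (h0 : 0 < O.valuation ε) (h1 : O.valuation ε < 1)
    (hl : O.valuation l = 1) (hy : O.valuation y = 1) (hr : O.valuation r = 1) (hS : S ∈ O)
    (hm0 : O.valuation m0 ≤ O.valuation ε) (hm1 : O.valuation m1 ≤ O.valuation ε)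
    (hm2 : O.valuation m2 ≤ O.valuation ε) (hs : O.valuation s < O.valuation ε)
    (ht : O.valuation t < O.valuation ε) (hk : k = m0 / l ^ 3 + m1 / y ^ 3 + m2 / r ^ 3 - t) :
    O.valuation (S *
    (-t * (2 * (l * y + l * r + y * r) ^ 2 - 2 * (l + y + r) * (l * y * r)) +
      s * ((l * y + l * r + y * r) * (l * y * r)) +
      3 * k * (l * y * r) * ((l - y) * (l - r) / l ^ 3 * m0 + (y - r) * (y - l) / y ^ 3 * m1 +
        (r - l) * (r - y) / r ^ 3 * m2) +
      k * k * ((l * y + l * r + y * r) * (l * y * r)) -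
      k * (m0 + m1 + m2) * (l * y + l * r + y * r) -
      k * (3 * m0 / l ^ 4 + 3 * m1 / y ^ 4 + 3 * m2 / r ^ 4 - s) * (l * y * r) ^ 2 +
      (m0 + m1 + m2) * (3 * m0 / l ^ 4 + 3 * m1 / y ^ 4 + 3 * m2 / r ^ 4 - s) * (l * y * r)) -
    k ^ 2 * ((l * y + l * r + y * r) ^ 4 * (l * y * r)
      - 4 * (l + y + r) * (l * y + l * r + y * r) ^ 2 * (l * y * r) ^ 2
      + (l + y + r) ^ 2 * (l * y * r) ^ 3 + 6 * (l * y + l * r + y * r) * (l * y * r) ^ 3
      + k * (2 * (l * y + l * r + y * r) ^ 3 * (l * y * r) ^ 2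
        - 7 * (l + y + r) * (l * y + l * r + y * r) * (l * y * r) ^ 3 + 9 * (l * y * r) ^ 4)
      + k ^ 2 * ((l * y + l * r + y * r) ^ 2 * (l * y * r) ^ 3
        - 3 * (l + y + r) * (l * y * r) ^ 4))) < O.valuation ε := by
  have Hl := mem_of_unit O hl
  have Hy := mem_of_unit O hy
  have Hr := mem_of_unit O hr
  have Hl' := inv_mem_of_unit O hl
  have Hy' := inv_mem_of_unit O hy
  have Hr' := inv_mem_of_unit O hr
  have n2 : (2 : K) ∈ O := ofNat_mem O 2
  have n3 : (3 : K) ∈ O := ofNat_mem O 3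
  have n4 : (4 : K) ∈ O := ofNat_mem O 4
  have n6 : (6 : K) ∈ O := ofNat_mem O 6
  have n7 : (7 : K) ∈ O := ofNat_mem O 7
  have n9 : (9 : K) ∈ O := ofNat_mem O 9
  have He3 : l * y * r ∈ O := O.mul_mem _ _ (O.mul_mem _ _ Hl Hy) Hr
  have He2 : l * y + l * r + y * r ∈ O :=
    O.add_mem _ _ (O.add_mem _ _ (O.mul_mem _ _ Hl Hy) (O.mul_mem _ _ Hl Hr)) (O.mul_mem _ _ Hy Hr)
  have He1 : l + y + r ∈ O := O.add_mem _ _ (O.add_mem _ _ Hl Hy) Hr
  have hm : O.valuation (m0 + m1 + m2) ≤ O.valuation ε := M_add O (M_add O hm0 hm1) hm2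
  have hk' : O.valuation k ≤ O.valuation ε := by
    rw [hk]
    have a0 : O.valuation (m0 / l ^ 3) ≤ O.valuation ε := by
      rw [div_eq_mul_inv, ← inv_pow]
      exact M_mul O hm0 (pow_mem Hl' 3)
    have a1 : O.valuation (m1 / y ^ 3) ≤ O.valuation ε := by
      rw [div_eq_mul_inv, ← inv_pow]
      exact M_mul O hm1 (pow_mem Hy' 3)
    have a2 : O.valuation (m2 / r ^ 3) ≤ O.valuation ε := by
      rw [div_eq_mul_inv, ← inv_pow]
      exact M_mul O hm2 (pow_mem Hr' 3)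
    exact M_sub O (M_add O (M_add O a0 a1) a2) ht.le
  have hkO : k ∈ O := by
    rw [mem_iff]
    exact hk'.trans h1.le
  have hn : O.valuation (3 * m0 / l ^ 4 + 3 * m1 / y ^ 4 + 3 * m2 / r ^ 4 - s) ≤
      O.valuation ε := by
    have a0 : O.valuation (3 * m0 / l ^ 4) ≤ O.valuation ε := by
      rw [show 3 * m0 / l ^ 4 = m0 * (3 * l⁻¹ ^ 4) by rw [inv_pow]; ring]
      exact M_mul O hm0 (O.mul_mem _ _ n3 (pow_mem Hl' 4))
    have a1 : O.valuation (3 * m1 / y ^ 4) ≤ O.valuation ε := by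
      rw [show 3 * m1 / y ^ 4 = m1 * (3 * y⁻¹ ^ 4) by rw [inv_pow]; ring]
      exact M_mul O hm1 (O.mul_mem _ _ n3 (pow_mem Hy' 4))
    have a2 : O.valuation (3 * m2 / r ^ 4) ≤ O.valuation ε := by
      rw [show 3 * m2 / r ^ 4 = m2 * (3 * r⁻¹ ^ 4) by rw [inv_pow]; ring]
      exact M_mul O hm2 (O.mul_mem _ _ n3 (pow_mem Hr' 4))
    exact M_sub O (M_add O (M_add O a0 a1) a2) hs.le
  have hG : O.valuation ((l - y) * (l - r) / l ^ 3 * m0 + (y - r) * (y - l) / y ^ 3 * m1 +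
        (r - l) * (r - y) / r ^ 3 * m2) ≤ O.valuation ε := by
    have a0 : O.valuation ((l - y) * (l - r) / l ^ 3 * m0) ≤ O.valuation ε := by
      rw [show (l - y) * (l - r) / l ^ 3 * m0 = m0 * ((l - y) * (l - r) * l⁻¹ ^ 3) by
        rw [inv_pow]; ring]
      exact M_mul O hm0 (O.mul_mem _ _ (O.mul_mem _ _ (sub_mem Hl Hy) (sub_mem Hl Hr))
        (pow_mem Hl' 3))
    have a1 : O.valuation ((y - r) * (y - l) / y ^ 3 * m1) ≤ O.valuation ε := by
      rw [show (y - r) * (y - l) / y ^ 3 * m1 = m1 * ((y - r) * (y - l) * y⁻¹ ^ 3) by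
        rw [inv_pow]; ring]
      exact M_mul O hm1 (O.mul_mem _ _ (O.mul_mem _ _ (sub_mem Hy Hr) (sub_mem Hy Hl))
        (pow_mem Hy' 3))
    have a2 : O.valuation ((r - l) * (r - y) / r ^ 3 * m2) ≤ O.valuation ε := by
      rw [show (r - l) * (r - y) / r ^ 3 * m2 = m2 * ((r - l) * (r - y) * r⁻¹ ^ 3) by
        rw [inv_pow]; ring]
      exact M_mul O hm2 (O.mul_mem _ _ (O.mul_mem _ _ (sub_mem Hr Hl) (sub_mem Hr Hy))
        (pow_mem Hr' 3))
    exact M_add O (M_add O a0 a1) a2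
  have ht' : O.valuation (-t) < O.valuation ε := by rw [Valuation.map_neg]; exact ht
  apply I_sub
  · rw [mul_comm S]
    apply I_mul O _ hS
    apply I_add
    · apply I_sub
      · apply I_sub
        · apply I_add
          · apply I_add
            · apply I_add
              · apply I_mul O ht'
                exact sub_mem (O.mul_mem _ _ n2 (pow_mem He2 2))
                  (O.mul_mem _ _ (O.mul_mem _ _ n2 He1) He3)
              · exact I_mul O hs (O.mul_mem _ _ He2 He3)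
            · rw [show ∀ G : K, 3 * k * (l * y * r) * G = (k * G) * (3 * (l * y * r)) from
                fun G => by ring]
              exact I_mul O (MM O h0 h1 hk' hG) (O.mul_mem _ _ n3 He3)
          · exact I_mul O (MM O h0 h1 hk' hk') (O.mul_mem _ _ He2 He3)
        · exact I_mul O (MM O h0 h1 hk' hm) He2
      · exact I_mul O (MM O h0 h1 hk' hn) (pow_mem He3 2)
    · exact I_mul O (MM O h0 h1 hm hn) He3
  · rw [pow_two k]
    apply I_mul O (MM O h0 h1 hk' hk')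
    repeat' (first | assumption | apply add_mem | apply sub_mem | apply mul_mem | apply pow_mem)

end ExpA

open ExpA in
theorem expansion {K : Type*} [Field K] (O : ValuationSubring K)
    {κ : Type*} [Fintype κ] [DecidableEq κ] (b Y : κ → K) (cl : κ → Fin 3) (B l : Fin 3 → K)
    (ε : K)
    (hb : ∀ i, b i ∈ O) (hY : ∀ i, O.valuation (Y i) = 1)
    (hB : ∀ c, B c = ∑ i ∈ Finset.univ.filter (fun i => cl i = c), b i)
    (hBu : ∀ c, O.valuation (B c) = 1)
    (hl : ∀ c, B c * l c = ∑ i ∈ Finset.univ.filter (fun i => cl i = c), b i * Y i)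
    (hlu : ∀ c, O.valuation (l c) = 1)
    (hne : ∀ c c', c ≠ c' → O.valuation (l c - l c') = 1)
    (h0 : ∑ i, b i = 1) (h1 : ∑ i, b i * Y i = 0) (h2 : ∑ i, b i / Y i = 0)
    (hε : O.valuation ε < 1)
    (hm : ∀ c, O.valuation (∑ i ∈ Finset.univ.filter (fun i => cl i = c), b i * (Y i - l c) ^ 2)
      ≤ O.valuation ε)
    (hδ : ∀ i, O.valuation (Y i - l (cl i)) ^ 3 < O.valuation ε) :
    O.valuation ((∑ i, b i * Y i ^ 2) * (∑ i, b i / Y i ^ 2) - mu (B 0) (B 1)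
      + ∑ c, (1 - 3 * B c) * (l c - l (c + 1)) ^ 2 * (l c - l (c + 2)) ^ 2 /
          (l c ^ 4 * l (c + 1) * l (c + 2)) *
          ∑ i ∈ Finset.univ.filter (fun i => cl i = c), b i * (Y i - l c) ^ 2)
      < O.valuation ε := by
  have hne0 : 0 < O.valuation ε := by
    have : Nonempty κ := by
      by_contra hcon
      rw [not_nonempty_iff] at hcon
      simp at h0
    obtain ⟨i⟩ := this
    exact lt_of_le_of_lt zero_le (hδ i)
  have hF : ∀ g : κ → K, ∑ i, g i = ∑ i ∈ Finset.univ.filter (fun i => cl i = 0), g i +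
      ∑ i ∈ Finset.univ.filter (fun i => cl i = 1), g i +
      ∑ i ∈ Finset.univ.filter (fun i => cl i = 2), g i := by
    intro g
    rw [← Finset.sum_fiberwise Finset.univ cl g, Fin.sum_univ_three]
  have hYne : ∀ i, Y i ≠ 0 := fun i => unit_ne_zero O (hY i)
  have hlne : ∀ c, l c ≠ 0 := fun c => unit_ne_zero O (hlu c)
  have hYO : ∀ i, Y i ∈ O := fun i => mem_of_unit O (hY i)
  have hlO : ∀ c, l c ∈ O := fun c => mem_of_unit O (hlu c)
  have cs := fun c => cluster_sums (Finset.univ.filter (fun i => cl i = c)) b Y (B c) (l c)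
    (hlne c) (fun i _ => hYne i) (hB c) (hl c)
  have hτ : ∀ c, O.valuation (∑ i ∈ Finset.univ.filter (fun i => cl i = c),
      (Y i - l c) ^ 3 * (b i * (l c)⁻¹ ^ 3 * (Y i)⁻¹)) < O.valuation ε := by
    intro c
    apply I_sum O _ _ hne0
    intro i hi
    rw [Finset.mem_filter] at hi
    apply I_mul
    · have := hδ i
      rw [hi.2] at this
      rwa [map_pow]
    · exact O.mul_mem _ _ (O.mul_mem _ _ (hb i) (pow_mem (inv_mem_of_unit O (hlu c)) 3))
        (inv_mem_of_unit O (hY i))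
  have hσ : ∀ c, O.valuation (∑ i ∈ Finset.univ.filter (fun i => cl i = c),
      (Y i - l c) ^ 3 * (b i * (4 * l c + 3 * (Y i - l c)) * (l c)⁻¹ ^ 4 * (Y i)⁻¹ ^ 2)) <
      O.valuation ε := by
    intro c
    apply I_sum O _ _ hne0
    intro i hi
    rw [Finset.mem_filter] at hi
    apply I_mul
    · have := hδ i
      rw [hi.2] at this
      rwa [map_pow]
    · exact O.mul_mem _ _ (O.mul_mem _ _ (O.mul_mem _ _ (hb i)
        (O.add_mem _ _ (O.mul_mem _ _ (ofNat_mem O 4) (hlO c))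
          (O.mul_mem _ _ (ofNat_mem O 3) (sub_mem (hYO i) (hlO c)))))
        (pow_mem (inv_mem_of_unit O (hlu c)) 4)) (pow_mem (inv_mem_of_unit O (hY i)) 2)
  set mm : Fin 3 → K := fun c => ∑ i ∈ Finset.univ.filter (fun i => cl i = c),
    b i * (Y i - l c) ^ 2 with hmm
  set τ : Fin 3 → K := fun c => ∑ i ∈ Finset.univ.filter (fun i => cl i = c),
      (Y i - l c) ^ 3 * (b i * (l c)⁻¹ ^ 3 * (Y i)⁻¹) with hτdef
  set σ : Fin 3 → K := fun c => ∑ i ∈ Finset.univ.filter (fun i => cl i = c),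
      (Y i - l c) ^ 3 * (b i * (4 * l c + 3 * (Y i - l c)) * (l c)⁻¹ ^ 4 * (Y i)⁻¹ ^ 2) with hσdef
  set t := τ 0 + τ 1 + τ 2 with ht
  set s := σ 0 + σ 1 + σ 2 with hs
  set k := mm 0 / l 0 ^ 3 + mm 1 / l 1 ^ 3 + mm 2 / l 2 ^ 3 - t with hk
  have hsum1 : B 0 + B 1 + B 2 = 1 := by
    rw [hB 0, hB 1, hB 2, ← hF, h0]
  have hsum2 : B 0 * l 0 + B 1 * l 1 + B 2 * l 2 = 0 := by
    rw [hl 0, hl 1, hl 2, ← hF, h1]
  have hsum3 : B 0 / l 0 + B 1 / l 1 + B 2 / l 2 = -k := by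
    have := h2
    rw [hF, (cs 0).2.1, (cs 1).2.1, (cs 2).2.1] at this
    rw [hk, ht]
    linear_combination this
  have hid := ident (l 0) (l 1) (l 2) k (B 0) (B 1) (B 2) (mm 0) (mm 1) (mm 2) s t
    (hlne 0) (hlne 1) (hlne 2) (unit_ne_zero O (hne 0 1 (by decide)))
    (unit_ne_zero O (hne 0 2 (by decide))) (unit_ne_zero O (hne 1 2 (by decide)))
    (unit_ne_zero O (hBu 0)) (unit_ne_zero O (hBu 1)) (unit_ne_zero O (hBu 2))
    hsum1 hsum2 hsum3 rfl
  have h3' := rel3 (l 0) (l 1) (l 2) k (B 0) (B 1) (B 2) (hlne 0) (hlne 1) (hlne 2) hsum3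
  have w0 : l 0 * (l 1 + l 2) + k * (l 0 * l 1 * l 2) = -(B 0 * ((l 0 - l 1) * (l 0 - l 2))) := by
    linear_combination l 0 * hsum2 - l 0 * (l 1 + l 2) * hsum1 + h3'
  have w1 : l 1 * (l 0 + l 2) + k * (l 0 * l 1 * l 2) = -(B 1 * ((l 1 - l 0) * (l 1 - l 2))) := by
    linear_combination l 1 * hsum2 - l 1 * (l 0 + l 2) * hsum1 + h3'
  have w2 : l 2 * (l 0 + l 1) + k * (l 0 * l 1 * l 2) = -(B 2 * ((l 2 - l 0) * (l 2 - l 1))) := by
    linear_combination l 2 * hsum2 - l 2 * (l 0 + l 1) * hsum1 + h3'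
  have hS : O.valuation ((l 0 * (l 1 + l 2) + k * (l 0 * l 1 * l 2)) *
      (l 1 * (l 0 + l 2) + k * (l 0 * l 1 * l 2)) *
      (l 2 * (l 0 + l 1) + k * (l 0 * l 1 * l 2))) = 1 := by
    rw [w0, w1, w2]
    simp only [map_mul, Valuation.map_neg, hBu, hne 0 1 (by decide), hne 0 2 (by decide),
      hne 1 0 (by decide), hne 1 2 (by decide), hne 2 0 (by decide), hne 2 1 (by decide), mul_one]
  have hsmall := rhs_small O (l 0) (l 1) (l 2) k _ (mm 0) (mm 1) (mm 2) s t ε hne0 hε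
    (hlu 0) (hlu 1) (hlu 2) (mem_of_unit O hS) (hm 0) (hm 1) (hm 2)
    (I_add O (I_add O (hσ 0) (hσ 1)) (hσ 2)) (I_add O (I_add O (hτ 0) (hτ 1)) (hτ 2)) rfl
  rw [← hid, map_mul, map_mul, hS, map_mul, map_mul, hlu, hlu, hlu] at hsmall
  simp only [one_mul, mul_one] at hsmall
  convert hsmall using 2
  rw [hF (fun i => b i * Y i ^ 2), hF (fun i => b i / Y i ^ 2), (cs 0).1, (cs 1).1, (cs 2).1,
    (cs 0).2.2, (cs 1).2.2, (cs 2).2.2, Fin.sum_univ_three]
  have e0 : (0 : Fin 3) + 1 = 1 := rfl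
  have e1 : (0 : Fin 3) + 2 = 2 := rfl
  have e2 : (1 : Fin 3) + 1 = 2 := rfl
  have e3 : (1 : Fin 3) + 2 = 0 := rfl
  have e4 : (2 : Fin 3) + 1 = 0 := rfl
  have e5 : (2 : Fin 3) + 2 = 1 := rfl
  rw [e0, e1, e2, e3, e4, e5, hs]
  ring

end

end Pool.Agent.Lib.MP_740d3f_ag
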