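import Pool.Agent.Lib.MP_740d3f_ag.ChainB
import Pool.Agent.Lib.MP_740d3f_ag.ExpandA

set_option autoImplicit false

/-! # Edge lengths of monotone chains are determined by the spectrum -/

namespace Pool.Agent.Lib.MP_740d3f_ag
noncomputable section

section aux

variable {K : Type*} [Field K] (O : ValuationSubring K)

theorem ExpandB.mem_of_val {x : K} (h : O.valuation x ≤ 1) : x ∈ O :=
  (O.valuation_le_one_iff x).1 h

theorem ExpandB.val_of_mem {x : K} (h : x ∈ O) : O.valuation x ≤ 1 :=
  (O.valuation_le_one_iff x).2 h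

/-- weighted mean of quantities with the same residue -/
theorem ExpandB.mean_res {κ : Type*} (S : Finset κ) (b Y : κ → K) (B l : K)
    (y : IsLocalRing.ResidueField O)
    (hb : ∀ i ∈ S, b i ∈ O) (hY : ∀ i ∈ S, Y i ∈ O) (hy : ∀ i ∈ S, resK O (Y i) = y)
    (hB : B = ∑ i ∈ S, b i) (hBu : O.valuation B = 1) (hl : B * l = ∑ i ∈ S, b i * Y i) :
    l ∈ O ∧ resK O l = y := by
  have hB0 : B ≠ 0 := by
    intro h
    rw [h, map_zero] at hBu
    exact zero_ne_one hBu
  have hs : (∑ i ∈ S, b i * Y i) ∈ O := sum_mem fun i hi => mul_mem (hb i hi) (hY i hi)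
  have hl' : l = (∑ i ∈ S, b i * Y i) / B := by
    rw [← hl]; field_simp
  have hBr : resK O B = ∑ i ∈ S, resK O (b i) := by
    rw [hB, resK_sum O S b hb]
  have hBO : B ∈ O := ExpandB.mem_of_val O hBu.le
  have hBr0 : resK O B ≠ 0 := (resK_ne_zero_iff O hBO).2 hBu
  refine ⟨?_, ?_⟩
  · apply ExpandB.mem_of_val
    rw [hl', map_div₀, hBu, div_one]
    exact ExpandB.val_of_mem O hs
  · rw [hl', resK_div O hs hBu, resK_sum O S _ (fun i hi => mul_mem (hb i hi) (hY i hi))]
    have : ∀ i ∈ S, resK O (b i * Y i) = resK O (b i) * y := fun i hi => by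
      rw [resK_mul O (hb i hi) (hY i hi), hy i hi]
    rw [Finset.sum_congr rfl this, ← Finset.sum_mul, ← hBr]
    field_simp

/-- second moment of a cluster with one dominant element -/
theorem ExpandB.var_val {κ : Type*} [DecidableEq κ] (S : Finset κ) (b Y : κ → K) (c l B D : K)
    (i₀ : κ) (hi₀ : i₀ ∈ S)
    (hb : ∀ i ∈ S, b i ∈ O) (hB : B = ∑ i ∈ S, b i) (hBu : O.valuation B = 1)
    (hl : B * l = ∑ i ∈ S, b i * Y i) (hD : D = Y i₀ - c) (hD0 : D ≠ 0)
    (hlt : ∀ i ∈ S, i ≠ i₀ → O.valuation (Y i - c) < O.valuation D)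
    (hb0 : O.valuation (b i₀) = 1) (hb1 : O.valuation (B - b i₀) = 1) :
    O.valuation (∑ i ∈ S, b i * (Y i - l) ^ 2) = O.valuation D ^ 2 ∧
      ∀ i ∈ S, O.valuation (Y i - l) ≤ O.valuation D := by
  have hB0 : B ≠ 0 := by
    intro h
    rw [h, map_zero] at hBu
    exact zero_ne_one hBu
  have hBO : B ∈ O := ExpandB.mem_of_val O hBu.le
  have hBr0 : resK O B ≠ 0 := (resK_ne_zero_iff O hBO).2 hBu
  have hvD : 0 < O.valuation D := by
    rw [zero_lt_iff]
    exact (Valuation.ne_zero_iff _).2 hD0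
  let d : κ → K := fun i => (Y i - c) / D
  have hd0 : d i₀ = 1 := by
    simp only [d]
    rw [← hD, div_self hD0]
  have hdl : ∀ i ∈ S, i ≠ i₀ → O.valuation (d i) < 1 := by
    intro i hi hne
    simp only [d]
    rw [map_div₀, div_lt_one₀ hvD]
    exact hlt i hi hne
  have hdO : ∀ i ∈ S, d i ∈ O := by
    intro i hi
    by_cases h : i = i₀
    · rw [h, hd0]; exact one_mem O
    · exact ExpandB.mem_of_val O (hdl i hi h).le
  have hdr : ∀ i ∈ S, resK O (d i) = if i = i₀ then 1 else 0 := by
    intro i hi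
    by_cases h : i = i₀
    · rw [if_pos h, h, hd0, resK_one]
    · rw [if_neg h]
      exact (resK_eq_zero_iff O (hdO i hi)).2 (hdl i hi h)
  have hYd : ∀ i, Y i = c + D * d i := by
    intro i
    simp only [d]
    field_simp
    ring
  have hs1O : (∑ i ∈ S, b i * d i) ∈ O := sum_mem fun i hi => mul_mem (hb i hi) (hdO i hi)
  have hs2O : (∑ i ∈ S, b i * d i ^ 2) ∈ O :=
    sum_mem fun i hi => mul_mem (hb i hi) (pow_mem (hdO i hi) 2)
  have hs1 : resK O (∑ i ∈ S, b i * d i) = resK O (b i₀) := by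
    rw [resK_sum O S _ (fun i hi => mul_mem (hb i hi) (hdO i hi))]
    have : ∀ i ∈ S, resK O (b i * d i) = if i = i₀ then resK O (b i) else 0 := fun i hi => by
      rw [resK_mul O (hb i hi) (hdO i hi), hdr i hi]
      split_ifs <;> simp
    rw [Finset.sum_congr rfl this, Finset.sum_ite_eq' S i₀, if_pos hi₀]
  have hs2 : resK O (∑ i ∈ S, b i * d i ^ 2) = resK O (b i₀) := by
    rw [resK_sum O S _ (fun i hi => mul_mem (hb i hi) (pow_mem (hdO i hi) 2))]
    have : ∀ i ∈ S, resK O (b i * d i ^ 2) = if i = i₀ then resK O (b i) else 0 := fun i hi => by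
      rw [resK_mul O (hb i hi) (pow_mem (hdO i hi) 2), resK_pow O (hdO i hi), hdr i hi]
      split_ifs <;> simp
    rw [Finset.sum_congr rfl this, Finset.sum_ite_eq' S i₀, if_pos hi₀]
  set s1 := ∑ i ∈ S, b i * d i with hs1def
  set s2 := ∑ i ∈ S, b i * d i ^ 2 with hs2def
  have hlc : l = c + D * (s1 / B) := by
    have h1 : B * l = B * c + D * s1 := by
      rw [hl, hs1def, hB, Finset.sum_mul, Finset.mul_sum, ← Finset.sum_add_distrib]
      refine Finset.sum_congr rfl fun i _ => ?_
      rw [hYd i]; ring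
    field_simp
    linear_combination h1
  have hsum : ∑ i ∈ S, b i * (Y i - l) ^ 2 = D ^ 2 * (s2 - s1 ^ 2 / B) := by
    have h1 : ∀ i ∈ S, b i * (Y i - l) ^ 2 =
        D ^ 2 * (b i * d i ^ 2) - 2 * D ^ 2 * (s1 / B) * (b i * d i)
          + D ^ 2 * (s1 / B) ^ 2 * b i := by
      intro i _
      rw [hYd i, hlc]; ring
    rw [Finset.sum_congr rfl h1, Finset.sum_add_distrib, Finset.sum_sub_distrib,
      ← Finset.mul_sum, ← Finset.mul_sum, ← Finset.mul_sum, ← hs1def, ← hs2def, ← hB]
    field_simp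
    ring
  have hb0O : b i₀ ∈ O := hb i₀ hi₀
  have hb0r : resK O (b i₀) ≠ 0 := (resK_ne_zero_iff O hb0O).2 hb0
  have hb1r : resK O B - resK O (b i₀) ≠ 0 := by
    rw [← resK_sub O hBO hb0O]
    exact (resK_ne_zero_iff O (sub_mem hBO hb0O)).2 hb1
  have hs1B : s1 / B ∈ O := by
    apply ExpandB.mem_of_val
    rw [map_div₀, hBu, div_one]
    exact ExpandB.val_of_mem O hs1O
  have hqO : s1 ^ 2 / B ∈ O := by
    apply ExpandB.mem_of_val
    rw [map_div₀, hBu, div_one]
    exact ExpandB.val_of_mem O (pow_mem hs1O 2)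
  have hunit : O.valuation (s2 - s1 ^ 2 / B) = 1 := by
    rw [← resK_ne_zero_iff O (sub_mem hs2O hqO), resK_sub O hs2O hqO,
      resK_div O (pow_mem hs1O 2) hBu, resK_pow O hs1O, hs1, hs2]
    have : resK O (b i₀) - resK O (b i₀) ^ 2 / resK O B =
        resK O (b i₀) * (resK O B - resK O (b i₀)) / resK O B := by
      field_simp
    rw [this]
    exact div_ne_zero (mul_ne_zero hb0r hb1r) hBr0
  refine ⟨?_, ?_⟩
  · rw [hsum, map_mul, map_pow, hunit, mul_one]
  · intro i hi
    have : Y i - l = D * (d i - s1 / B) := by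
      rw [hYd i, hlc]; ring
    rw [this, map_mul]
    calc O.valuation D * O.valuation (d i - s1 / B) ≤ O.valuation D * 1 :=
          mul_le_mul_right (ExpandB.val_of_mem O (sub_mem (hdO i hi) hs1B)) _
      _ = O.valuation D := mul_one _

end aux


section key0

variable {K : Type*} [Field K] (O : ValuationSubring K)

/-- valuation of the edge parameter, `0` beyond the end of the chain -/
def ExpandB.vv {m : ℕ} (z : Fin (m + 1) → K) (k : ℕ) : O.ValueGroup :=
  if h : k < m then O.valuation (tt z ⟨k, h⟩) else 0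

theorem ExpandB.vv_lt {m : ℕ} (z : Fin (m + 1) → K) (k : ℕ) (h : k < m) :
    ExpandB.vv O z k = O.valuation (tt z ⟨k, h⟩) := by
  unfold ExpandB.vv; rw [dif_pos h]

theorem ExpandB.vv_ge {m : ℕ} (z : Fin (m + 1) → K) (k : ℕ) (h : ¬ k < m) :
    ExpandB.vv O z k = 0 := by
  unfold ExpandB.vv; rw [dif_neg h]

theorem ExpandB.vv_lt_one {m : ℕ} (z : Fin (m + 1) → K) (hch : IsChain O z) (k : ℕ) :
    ExpandB.vv O z k < 1 := by
  by_cases h : k < m
  · rw [ExpandB.vv_lt O z k h]
    unfold tt
    have h1 := hch (Fin.castSucc ⟨k, h⟩) (Fin.succ ⟨k, h⟩) (Fin.castSucc_lt_succ)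
    rw [map_div₀, div_lt_one₀ (lt_of_le_of_lt zero_le h1)]
    exact h1
  · rw [ExpandB.vv_ge O z k h]; exact zero_lt_one

theorem ExpandB.vv_ne_zero {m : ℕ} (z : Fin (m + 1) → K) (hch : IsChain O z) (k : ℕ)
    (hk : k ≠ 0) (h : k < m) : ExpandB.vv O z k ≠ 0 := by
  rw [ExpandB.vv_lt O z k h, Valuation.ne_zero_iff]
  unfold tt
  have h1 := hch (Fin.castSucc ⟨k, h⟩) (Fin.succ ⟨k, h⟩) (Fin.castSucc_lt_succ)
  have h0 : (0 : Fin (m + 1)) < Fin.castSucc ⟨k, h⟩ := by
    rw [Fin.lt_def]
    simpa using Nat.pos_of_ne_zero hk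
  have h2 := hch 0 (Fin.castSucc ⟨k, h⟩) h0
  refine div_ne_zero ?_ ?_
  · intro h3
    rw [h3, sub_self] at h2
    simp at h2
  · intro h3
    rw [h3] at h1
    simp at h1

theorem ExpandB.vv_zero {m : ℕ} (z : Fin (m + 1) → K) : ExpandB.vv O z 0 = 0 := by
  by_cases h : 0 < m
  · rw [ExpandB.vv_lt O z 0 h]
    unfold tt
    have : (Fin.castSucc ⟨0, h⟩ : Fin (m + 1)) = 0 := rfl
    rw [this, sub_self, zero_div, map_zero]
  · exact ExpandB.vv_ge O z 0 h

/-- the weights of the cluster decomposition at the vertex `j` -/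
def ExpandB.bb {m : ℕ} (a : Fin (m + 1) → K) (o : Option (Fin (m + 1))) : K :=
  o.elim (1 - ∑ i, a i) a

def ExpandB.yy {m : ℕ} (a z : Fin (m + 1) → K) (p : K) (o : Option (Fin (m + 1))) : K :=
  o.elim 1 (Yc a z p)

def ExpandB.cl {m : ℕ} (j : Fin (m + 1)) (o : Option (Fin (m + 1))) : Fin 3 :=
  o.elim 2 (fun i => if i < j then 0 else if i = j then 1 else 2)

def ExpandB.SS {m : ℕ} (j : Fin (m + 1)) (c : Fin 3) : Finset (Option (Fin (m + 1))) :=
  Finset.univ.filter (fun o => ExpandB.cl j o = c)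

theorem ExpandB.mem_SS0 {m : ℕ} (j : Fin (m + 1)) (o : Option (Fin (m + 1))) :
    o ∈ ExpandB.SS j 0 ↔ ∃ i, o = some i ∧ i < j := by
  unfold ExpandB.SS ExpandB.cl
  rw [Finset.mem_filter]
  cases o with
  | none => simp
  | some i =>
    simp only [Finset.mem_univ, true_and, Option.elim_some, Option.some.injEq]
    constructor
    · intro h
      refine ⟨i, rfl, ?_⟩
      by_contra hlt
      rw [if_neg hlt] at h
      split_ifs at h <;> simp at h
    · rintro ⟨i', rfl, h⟩
      rw [if_pos h]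

theorem ExpandB.mem_SS1 {m : ℕ} (j : Fin (m + 1)) (o : Option (Fin (m + 1))) :
    o ∈ ExpandB.SS j 1 ↔ o = some j := by
  unfold ExpandB.SS ExpandB.cl
  rw [Finset.mem_filter]
  cases o with
  | none => simp
  | some i =>
    simp only [Finset.mem_univ, true_and, Option.elim_some, Option.some.injEq]
    constructor
    · intro h
      by_contra hne
      by_cases hlt : i < j
      · rw [if_pos hlt] at h; simp at h
      · rw [if_neg hlt, if_neg hne] at h; simp at h
    · rintro rfl
      rw [if_neg (lt_irrefl _), if_pos rfl]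

theorem ExpandB.mem_SS2 {m : ℕ} (j : Fin (m + 1)) (o : Option (Fin (m + 1))) :
    o ∈ ExpandB.SS j 2 ↔ o = none ∨ ∃ i, o = some i ∧ j < i := by
  unfold ExpandB.SS ExpandB.cl
  rw [Finset.mem_filter]
  cases o with
  | none => simp
  | some i =>
    simp only [Finset.mem_univ, true_and, Option.elim_some, Option.some.injEq, reduceCtorEq,
      false_or]
    constructor
    · intro h
      refine ⟨i, rfl, ?_⟩
      by_contra hlt
      rcases lt_or_eq_of_le (not_lt.1 hlt) with h1 | h1
      · rw [if_pos h1] at h; simp at h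
      · rw [if_neg (by rw [h1]; exact lt_irrefl _), if_pos h1] at h; simp at h
    · rintro ⟨i', rfl, h⟩
      rw [if_neg (not_lt.2 h.le), if_neg h.ne']

theorem ExpandB.SS0_eq {m : ℕ} (j : Fin (m + 1)) (f : Option (Fin (m + 1)) → K) :
    ∑ o ∈ ExpandB.SS j 0, f o = ∑ i ∈ Finset.univ.filter (fun i => i < j), f (some i) := by
  unfold ExpandB.SS
  rw [Finset.sum_filter, Finset.sum_filter, Fintype.sum_option]
  have h1 : ExpandB.cl j none = 2 := rfl
  rw [h1, if_neg (by decide), zero_add]
  refine Finset.sum_congr rfl fun i _ => ?_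
  have h2 : ExpandB.cl j (some i) = 0 ↔ i < j := by
    have := ExpandB.mem_SS0 j (some i)
    unfold ExpandB.SS at this
    simpa using this
  simp only [h2]

theorem ExpandB.SS1_eq {m : ℕ} (j : Fin (m + 1)) (f : Option (Fin (m + 1)) → K) :
    ∑ o ∈ ExpandB.SS j 1, f o = f (some j) := by
  have : ExpandB.SS j 1 = {some j} := by
    ext o
    rw [ExpandB.mem_SS1, Finset.mem_singleton]
  rw [this, Finset.sum_singleton]

theorem ExpandB.SS2_eq {m : ℕ} (j : Fin (m + 1)) (f : Option (Fin (m + 1)) → K) :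
    ∑ o ∈ ExpandB.SS j 2, f o =
      f none + ∑ i ∈ Finset.univ.filter (fun i => j < i), f (some i) := by
  unfold ExpandB.SS
  rw [Finset.sum_filter, Finset.sum_filter, Fintype.sum_option]
  have h1 : ExpandB.cl j none = 2 := rfl
  rw [h1, if_pos rfl]
  congr 1
  refine Finset.sum_congr rfl fun i _ => ?_
  have h2 : ExpandB.cl j (some i) = 2 ↔ j < i := by
    have := ExpandB.mem_SS2 j (some i)
    unfold ExpandB.SS at this
    simpa using this
  simp only [h2]

theorem ExpandB.sum_split {m : ℕ} (j : Fin (m + 1)) (f : Fin (m + 1) → K) :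
    ∑ i, f i = ∑ i ∈ Finset.univ.filter (fun i => i ≤ j), f i
      + ∑ i ∈ Finset.univ.filter (fun i => j < i), f i := by
  rw [← Finset.sum_filter_add_sum_filter_not Finset.univ (fun i => i ≤ j)]
  simp only [not_le]

end key0


section key

variable {K : Type*} [Field K] [IsAlgClosed K] (O : ValuationSubring K)
  [CharZero (IsLocalRing.ResidueField O)]

omit [IsAlgClosed K] [CharZero (IsLocalRing.ResidueField O)] in
theorem ExpandB.unit_sums {ι : Type*} [Fintype ι] [DecidableEq ι] (a : ι → K)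
    (ha : ∀ i, a i ∈ O) (hg : GenW (fun i => resK O (a i))) (S : Finset ι) (hS : S.Nonempty) :
    O.valuation (∑ i ∈ S, a i) = 1 ∧ O.valuation (1 - ∑ i ∈ S, a i) = 1 ∧
    O.valuation (1 - 3 * ∑ i ∈ S, a i) = 1 ∧
    O.valuation (1 - 3 * (1 - ∑ i ∈ S, a i)) = 1 := by
  have hSO : (∑ i ∈ S, a i) ∈ O := sum_mem fun i _ => ha i
  have h1O : (1 : K) ∈ O := one_mem O
  have h3 : resK O (3 : K) = 3 := by
    have := resK_natCast O 3
    simpa using this
  have h3O : (3 : K) ∈ O := by
    have : ((3 : ℕ) : K) ∈ O := natCast_mem O 3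
    simpa only [Nat.cast_ofNat] using this
  have hr : resK O (∑ i ∈ S, a i) = ∑ i ∈ S, resK O (a i) := resK_sum O S _ fun i _ => ha i
  obtain ⟨h1, h2, _, h4, h5⟩ := hg.avoid S hS
  rw [← hr] at h1 h2 h4 h5
  have hA : (1 - ∑ i ∈ S, a i) ∈ O := sub_mem h1O hSO
  refine ⟨(resK_ne_zero_iff O hSO).1 h1, ?_, ?_, ?_⟩
  · rw [← resK_ne_zero_iff O hA, resK_sub O h1O hSO, resK_one]
    exact sub_ne_zero.2 (Ne.symm h2)
  · rw [← resK_ne_zero_iff O (sub_mem h1O (mul_mem h3O hSO)),
      resK_sub O h1O (mul_mem h3O hSO), resK_mul O h3O hSO, resK_one, h3]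
    exact sub_ne_zero.2 (Ne.symm h4)
  · rw [← resK_ne_zero_iff O (sub_mem h1O (mul_mem h3O hA)),
      resK_sub O h1O (mul_mem h3O hA), resK_mul O h3O hA, resK_sub O h1O hSO, resK_one, h3]
    intro h
    apply h5
    linear_combination h

/-- comparison of the multiplier at a vertex with the reduced multiplier -/
theorem ExpandB.key {m : ℕ} (a z : Fin (m + 1) → K) (ha : ∀ i, a i ∈ O)
    (hg : GenW (fun i => resK O (a i))) (hch : IsChain O z) (j : Fin (m + 1)) (hj : j ≠ 0)
    (p : K) (hp : (PhiZ a z).IsRoot p)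
    (hgood : GoodAt O (cw O a j) ![0, 1] (z 0) (z j - z 0) p)
    (hnz : ¬ (ExpandB.vv O z ((j : ℕ) - 1) = 0 ∧ ExpandB.vv O z j = 0)) :
    O.valuation (mult a z p - mu (∑ i ∈ Finset.univ.filter (fun i => i < j), a i) (a j))
      ≤ (max (ExpandB.vv O z ((j : ℕ) - 1)) (ExpandB.vv O z j)) ^ 2 ∧
    (ExpandB.vv O z ((j : ℕ) - 1) ≠ ExpandB.vv O z j →
      O.valuation (mult a z p - mu (∑ i ∈ Finset.univ.filter (fun i => i < j), a i) (a j))
        = (max (ExpandB.vv O z ((j : ℕ) - 1)) (ExpandB.vv O z j)) ^ 2) := by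
  have hz := chain_injective O z hch
  have hR := chain_reduces O a z hch j hj
  obtain ⟨_, hgr⟩ := good_roots O a z ha hg hz (z 0) (z j - z 0) (cb j) (cw O a j) ![0, 1] hR
  obtain ⟨hMO, hMr, hrw, hrw', hYu, hin, hout⟩ := hgr p hp hgood
  set P := resK O ((p - z 0) / (z j - z 0)) with hP
  have hgv : GenW (cw O a j) :=
    genW_reduced (fun i => resK O (a i)) hg (cb j) hR.hsurj (cw O a j) hR.hA
  have hPr : (PhiZ (cw O a j) ![0, 1]).IsRoot P := hgood.2
  have hPne := root_ne hgv hR.hζ P hPr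
  have hPw := root_omega hgv hR.hζ P hPr
  have hyv0 := root_Y hgv hR.hζ P hPr
  have hyv1 : ∀ b, Yc (cw O a j) ![0, 1] P b ≠ 1 := fun b => Y_ne_one _ _ P b (hPne b) hPw
  have hy01 : Yc (cw O a j) ![0, 1] P 0 ≠ Yc (cw O a j) ![0, 1] P 1 := by
    intro h
    have := Y_injective _ _ hR.hζ P hPne hPw h
    exact absurd this (by decide)
  set yv := Yc (cw O a j) ![0, 1] P with hyv
  have hj0 : (0 : Fin (m + 1)) < j := Fin.pos_of_ne_zero hj
  have hcb0 : ∀ i, i < j → cb j i = some 0 := fun i hi => by unfold cb; rw [if_pos hi]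
  have hcb1 : cb j j = some 1 := by
    unfold cb; rw [if_neg (lt_irrefl _), if_pos rfl]
  have hcb2 : ∀ i, j < i → cb j i = none := fun i hi => by
    unfold cb; rw [if_neg (not_lt.2 hi.le), if_neg hi.ne']
  have hr0 : z j - z 0 ≠ 0 := hR.hr
  have hvr0 : O.valuation (z j - z 0) ≠ 0 := (Valuation.ne_zero_iff _).2 hr0
  have hpz : ∀ i, p - z i ≠ 0 := fun i => sub_ne_zero.2 (root_ne (genW_of_res O a ha hg) hz p hp i)
  have hw0 : omega a z p ≠ 0 := root_omega (genW_of_res O a ha hg) hz p hp
  have hvw : O.valuation (z j - z 0) * O.valuation (omega a z p) = 1 := by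
    rw [← map_mul]; exact hrw
  have hvp : ∀ i, i ≤ j → O.valuation (p - z i) = O.valuation (z j - z 0) := by
    intro i hi
    rcases lt_or_eq_of_le hi with h | h
    · exact (hin i 0 (hcb0 i h)).1
    · rw [h]; exact (hin j 1 hcb1).1
  have hvw' : O.valuation (omega a z p) = (O.valuation (z j - z 0))⁻¹ :=
    eq_inv_of_mul_eq_one_right hvw
  have hdiff0 : ∀ i, i ≤ j → O.valuation (Yc a z p i - Yc a z p 0) =
      O.valuation (z i - z 0) / O.valuation (z j - z 0) := by
    intro i hi
    have h1 : Yc a z p i - Yc a z p 0 = (z 0 - z i) / ((p - z 0) * (p - z i) * omega a z p) := by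
      unfold Yc
      have := hpz i
      have := hpz 0
      field_simp
      ring
    rw [h1, map_div₀, map_mul, map_mul, hvp 0 hj0.le, hvp i hi, hvw',
      Valuation.map_sub_swap]
    congr 1
    field_simp
  have hvp' : ∀ i, j < i → O.valuation (p - z i) = O.valuation (z i - z 0) := by
    intro i hi
    have h1 : p - z i = -(z i - z 0) + (p - z 0) := by ring
    have h2 : O.valuation (p - z 0) < O.valuation (-(z i - z 0)) := by
      rw [Valuation.map_neg, hvp 0 hj0.le]
      exact hch j i hi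
    rw [h1, Valuation.map_add_eq_of_lt_left _ h2, Valuation.map_neg]
  have hdiff1 : ∀ i, j < i → O.valuation (Yc a z p i - 1) =
      O.valuation (z j - z 0) / O.valuation (z i - z 0) := by
    intro i hi
    have h1 : Yc a z p i - 1 = -(1 / ((p - z i) * omega a z p)) := by
      unfold Yc; ring
    rw [h1, Valuation.map_neg, map_div₀, map_mul, map_one, hvp' i hi, hvw', one_div, mul_inv,
      inv_inv, mul_comm, div_eq_mul_inv]
  -- weights
  have hS0 : (Finset.univ.filter (fun i : Fin (m + 1) => i < j)).Nonempty :=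
    ⟨0, by simp [hj0]⟩
  have hS1 : (Finset.univ.filter (fun i : Fin (m + 1) => i ≤ j)).Nonempty :=
    ⟨0, by simp⟩
  obtain ⟨hu0, _, hu03, _⟩ := ExpandB.unit_sums O a ha hg _ hS0
  obtain ⟨_, hu2, _, hu23⟩ := ExpandB.unit_sums O a ha hg _ hS1
  obtain ⟨hu1, _, _, _⟩ := ExpandB.unit_sums O a ha hg {j} (Finset.singleton_nonempty j)
  rw [Finset.sum_singleton] at hu1
  set b := ExpandB.bb a with hbdef
  set Y := ExpandB.yy a z p with hYdef
  let B : Fin 3 → K := fun c => ∑ o ∈ ExpandB.SS j c, b o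
  let l : Fin 3 → K := fun c => (∑ o ∈ ExpandB.SS j c, b o * Y o) / B c
  have hB0 : B 0 = ∑ i ∈ Finset.univ.filter (fun i => i < j), a i := by
    simp only [B]
    rw [ExpandB.SS0_eq]
    rfl
  have hB1 : B 1 = a j := by
    simp only [B]
    rw [ExpandB.SS1_eq]
    rfl
  have hB2 : B 2 = 1 - ∑ i ∈ Finset.univ.filter (fun i => i ≤ j), a i := by
    simp only [B]
    rw [ExpandB.SS2_eq]
    have h1 : b none = 1 - ∑ i, a i := rfl
    have h2 : ∀ i, b (some i) = a i := fun i => rfl
    simp only [h1, h2]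
    rw [ExpandB.sum_split j a]
    ring
  have hBu : ∀ c, O.valuation (B c) = 1 := by
    intro c
    fin_cases c
    · show O.valuation (B 0) = 1
      rw [hB0]; exact hu0
    · show O.valuation (B 1) = 1
      rw [hB1]; exact hu1
    · show O.valuation (B 2) = 1
      rw [hB2]; exact hu2
  have hBne : ∀ c, B c ≠ 0 := fun c h => by
    have := hBu c
    rw [h, map_zero] at this
    exact zero_ne_one this
  have hl : ∀ c, B c * l c = ∑ o ∈ ExpandB.SS j c, b o * Y o := by
    intro c
    simp only [l]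
    have := hBne c
    field_simp
  have hbO : ∀ o, b o ∈ O := by
    intro o
    cases o with
    | none => exact sub_mem (one_mem O) (sum_mem fun i _ => ha i)
    | some i => exact ha i
  have hYv : ∀ o, O.valuation (Y o) = 1 := by
    intro o
    cases o with
    | none => exact map_one _
    | some i => exact hYu i
  have hYO : ∀ o, Y o ∈ O := fun o => ExpandB.mem_of_val O (hYv o).le
  -- residues of the means
  let yr : Fin 3 → IsLocalRing.ResidueField O := ![yv 0, yv 1, 1]
  have hYr : ∀ c, ∀ o ∈ ExpandB.SS j c, resK O (Y o) = yr c := by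
    intro c o ho
    fin_cases c
    · obtain ⟨i, rfl, hi⟩ := (ExpandB.mem_SS0 j o).1 ho
      exact (hin i 0 (hcb0 i hi)).2
    · obtain rfl := (ExpandB.mem_SS1 j o).1 ho
      exact (hin j 1 hcb1).2
    · rcases (ExpandB.mem_SS2 j o).1 ho with rfl | ⟨i, rfl, hi⟩
      · exact resK_one O
      · exact hout i (hcb2 i hi)
  have hlr : ∀ c, l c ∈ O ∧ resK O (l c) = yr c := fun c =>
    ExpandB.mean_res O (ExpandB.SS j c) b Y (B c) (l c) (yr c) (fun o _ => hbO o)
      (fun o _ => hYO o) (hYr c) rfl (hBu c) (hl c)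
  have hlu : ∀ c, O.valuation (l c) = 1 := by
    intro c
    rw [← resK_ne_zero_iff O (hlr c).1, (hlr c).2]
    fin_cases c
    · exact hyv0 0
    · exact hyv0 1
    · exact one_ne_zero
  have hne : ∀ c c', c ≠ c' → O.valuation (l c - l c') = 1 := by
    intro c c' hcc
    rw [← resK_ne_zero_iff O (sub_mem (hlr c).1 (hlr c').1), resK_sub O (hlr c).1 (hlr c').1,
      (hlr c).2, (hlr c').2, sub_ne_zero]
    fin_cases c <;> fin_cases c'
    · exact absurd rfl hcc
    · exact hy01
    · exact hyv1 0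
    · exact hy01.symm
    · exact absurd rfl hcc
    · exact hyv1 1
    · exact (hyv1 0).symm
    · exact (hyv1 1).symm
    · exact absurd rfl hcc

  -- cluster on the left
  have hL : O.valuation (∑ o ∈ ExpandB.SS j 0, b o * (Y o - l 0) ^ 2) =
      ExpandB.vv O z ((j : ℕ) - 1) ^ 2 ∧
      ∀ o ∈ ExpandB.SS j 0, O.valuation (Y o - l 0) ≤ ExpandB.vv O z ((j : ℕ) - 1) := by
    have hjpos : 0 < (j : ℕ) := by
      have := hj0
      rwa [Fin.lt_def] at this
    by_cases hj1 : (j : ℕ) - 1 = 0
    · have hY0 : ∀ o ∈ ExpandB.SS j 0, Y o = Y (some 0) := by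
        intro o ho
        obtain ⟨i, rfl, hi⟩ := (ExpandB.mem_SS0 j o).1 ho
        have hi' : (i : ℕ) < j := hi
        have : i = 0 := by
          apply Fin.ext
          show (i : ℕ) = 0
          omega
        rw [this]
      have hl0 : l 0 = Y (some 0) := by
        apply mul_left_cancel₀ (hBne 0)
        rw [hl 0, Finset.sum_mul]
        exact Finset.sum_congr rfl fun o ho => by rw [hY0 o ho]
      have hd : ∀ o ∈ ExpandB.SS j 0, Y o - l 0 = 0 := fun o ho => by
        rw [hl0, hY0 o ho, sub_self]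
      rw [hj1, ExpandB.vv_zero]
      refine ⟨?_, fun o ho => by rw [hd o ho, map_zero]⟩
      rw [Finset.sum_eq_zero (fun o ho => by rw [hd o ho]; ring), map_zero]
      simp
    · have hjlt : (j : ℕ) - 1 < m := by have := j.2; omega
      let k : Fin (m + 1) := ⟨(j : ℕ) - 1, by omega⟩
      have hkj : k < j := by
        rw [Fin.lt_def]; show (j : ℕ) - 1 < j; omega
      have hk0 : (0 : Fin (m + 1)) < k := by
        rw [Fin.lt_def]; show (0 : ℕ) < (j : ℕ) - 1; omega
      have hvv : ExpandB.vv O z ((j : ℕ) - 1) =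
          O.valuation (z k - z 0) / O.valuation (z j - z 0) := by
        rw [ExpandB.vv_lt O z _ hjlt]
        unfold tt
        have e1 : (Fin.castSucc ⟨(j : ℕ) - 1, hjlt⟩ : Fin (m + 1)) = k := rfl
        have e2 : (Fin.succ ⟨(j : ℕ) - 1, hjlt⟩ : Fin (m + 1)) = j := by
          apply Fin.ext
          show (j : ℕ) - 1 + 1 = j
          omega
        rw [e1, e2, map_div₀]
      have hD : O.valuation (Y (some k) - Y (some 0)) = ExpandB.vv O z ((j : ℕ) - 1) := by
        rw [hvv]; exact hdiff0 k hkj.le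
      have hvv0 : ExpandB.vv O z ((j : ℕ) - 1) ≠ 0 := ExpandB.vv_ne_zero O z hch _ hj1 hjlt
      have hSk : (Finset.univ.filter (fun i : Fin (m + 1) => i < k)).Nonempty :=
        ⟨0, by simp [hk0]⟩
      have hsplit : B 0 - b (some k) = ∑ i ∈ Finset.univ.filter (fun i => i < k), a i := by
        rw [hB0]
        have h1 : Finset.univ.filter (fun i => i < j) =
            insert k (Finset.univ.filter (fun i => i < k)) := by
          ext i
          simp only [Finset.mem_filter, Finset.mem_univ, true_and, Finset.mem_insert, Fin.lt_def,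
            Fin.ext_iff]
          show (i : ℕ) < j ↔ (i : ℕ) = (j : ℕ) - 1 ∨ (i : ℕ) < (j : ℕ) - 1
          omega
        rw [h1, Finset.sum_insert (by simp)]
        show a k + _ - a k = _
        ring
      have := ExpandB.var_val O (ExpandB.SS j 0) b Y (Y (some 0)) (l 0) (B 0)
        (Y (some k) - Y (some 0)) (some k) ((ExpandB.mem_SS0 j _).2 ⟨k, rfl, hkj⟩)
        (fun o _ => hbO o) rfl (hBu 0) (hl 0) rfl
        (by
          intro h
          rw [h, map_zero] at hD
          exact hvv0 hD.symm)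
        (by
          intro o ho hne
          obtain ⟨i, rfl, hi⟩ := (ExpandB.mem_SS0 j o).1 ho
          rw [hD, hvv]
          have h1 : O.valuation (Y (some i) - Y (some 0)) =
            O.valuation (z i - z 0) / O.valuation (z j - z 0) := hdiff0 i hi.le
          rw [h1]
          have hik : i < k := by
            have h2 : i ≠ k := fun h => hne (by rw [h])
            have h3 : (i : ℕ) ≠ (j : ℕ) - 1 := fun h => h2 (Fin.ext h)
            have h4 : (i : ℕ) < j := hi
            rw [Fin.lt_def]; show (i : ℕ) < (j : ℕ) - 1; omega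
          exact div_lt_div_of_pos_right (hch i k hik) (zero_lt_iff.2 hvr0))
        (by
          obtain ⟨h1, _⟩ := ExpandB.unit_sums O a ha hg {k} (Finset.singleton_nonempty k)
          rw [Finset.sum_singleton] at h1
          exact h1)
        (by
          rw [hsplit]
          exact (ExpandB.unit_sums O a ha hg _ hSk).1)
      rw [hD] at this
      exact this
  -- middle cluster
  have hM1 : ∀ o ∈ ExpandB.SS j 1, Y o - l 1 = 0 := by
    intro o ho
    obtain rfl := (ExpandB.mem_SS1 j o).1 ho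
    have h1 := hl 1
    rw [ExpandB.SS1_eq] at h1
    have h2 : B 1 = b (some j) := by
      simp only [B]; rw [ExpandB.SS1_eq]
    rw [h2] at h1
    have h3 : b (some j) ≠ 0 := by rw [← h2]; exact hBne 1
    rw [mul_left_cancel₀ h3 h1, sub_self]
  -- cluster on the right
  have hRt : O.valuation (∑ o ∈ ExpandB.SS j 2, b o * (Y o - l 2) ^ 2) =
      ExpandB.vv O z j ^ 2 ∧
      ∀ o ∈ ExpandB.SS j 2, O.valuation (Y o - l 2) ≤ ExpandB.vv O z j := by
    by_cases hjm : (j : ℕ) < m
    · let k : Fin (m + 1) := ⟨(j : ℕ) + 1, by omega⟩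
      have hkj : j < k := by
        rw [Fin.lt_def]; show (j : ℕ) < (j : ℕ) + 1; omega
      have hk0' : O.valuation (z k - z 0) ≠ 0 := by
        have h1 := hch j k hkj
        exact (lt_of_le_of_lt zero_le h1).ne'
      have hvv : ExpandB.vv O z j =
          O.valuation (z j - z 0) / O.valuation (z k - z 0) := by
        rw [ExpandB.vv_lt O z _ hjm]
        unfold tt
        have e1 : (Fin.castSucc ⟨(j : ℕ), hjm⟩ : Fin (m + 1)) = j := rfl
        have e2 : (Fin.succ ⟨(j : ℕ), hjm⟩ : Fin (m + 1)) = k := rfl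
        rw [e1, e2, map_div₀]
      have hD : O.valuation (Y (some k) - 1) = ExpandB.vv O z j := by
        rw [hvv]; exact hdiff1 k hkj
      have hvv0 : ExpandB.vv O z j ≠ 0 := by
        rw [hvv]; exact div_ne_zero hvr0 hk0'
      have hSk : (Finset.univ.filter (fun i : Fin (m + 1) => i ≤ k)).Nonempty :=
        ⟨0, by simp⟩
      have hsplit : B 2 - b (some k) = 1 - ∑ i ∈ Finset.univ.filter (fun i => i ≤ k), a i := by
        rw [hB2]
        have h1 : Finset.univ.filter (fun i => i ≤ k) =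
            insert k (Finset.univ.filter (fun i => i ≤ j)) := by
          ext i
          simp only [Finset.mem_filter, Finset.mem_univ, true_and, Finset.mem_insert, Fin.le_def,
            Fin.ext_iff]
          show (i : ℕ) ≤ (j : ℕ) + 1 ↔ (i : ℕ) = (j : ℕ) + 1 ∨ (i : ℕ) ≤ j
          omega
        rw [h1, Finset.sum_insert (by simp [hkj])]
        show 1 - _ - a k = 1 - (a k + _)
        ring
      have := ExpandB.var_val O (ExpandB.SS j 2) b Y 1 (l 2) (B 2)
        (Y (some k) - 1) (some k) ((ExpandB.mem_SS2 j _).2 (Or.inr ⟨k, rfl, hkj⟩))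
        (fun o _ => hbO o) rfl (hBu 2) (hl 2) rfl
        (by
          intro h
          rw [h, map_zero] at hD
          exact hvv0 hD.symm)
        (by
          intro o ho hne
          rcases (ExpandB.mem_SS2 j o).1 ho with rfl | ⟨i, rfl, hi⟩
          · have h1 : Y none - 1 = 0 := sub_self _
            rw [h1, map_zero, hD]
            exact zero_lt_iff.2 hvv0
          · rw [hD, hvv]
            have h1 : O.valuation (Y (some i) - 1) =
              O.valuation (z j - z 0) / O.valuation (z i - z 0) := hdiff1 i hi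
            rw [h1]
            have hik : k < i := by
              have h2 : i ≠ k := fun h => hne (by rw [h])
              have h3 : (i : ℕ) ≠ (j : ℕ) + 1 := fun h => h2 (Fin.ext h)
              have h4 : (j : ℕ) < i := hi
              rw [Fin.lt_def]; show (j : ℕ) + 1 < (i : ℕ); omega
            exact div_lt_div_of_pos_left (zero_lt_iff.2 hvr0) (zero_lt_iff.2 hk0')
              (hch k i hik))
        (by
          obtain ⟨h1, _⟩ := ExpandB.unit_sums O a ha hg {k} (Finset.singleton_nonempty k)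
          rw [Finset.sum_singleton] at h1
          exact h1)
        (by
          rw [hsplit]
          exact (ExpandB.unit_sums O a ha hg _ hSk).2.1)
      rw [hD] at this
      exact this
    · have hY0 : ∀ o ∈ ExpandB.SS j 2, Y o = 1 := by
        intro o ho
        rcases (ExpandB.mem_SS2 j o).1 ho with rfl | ⟨i, rfl, hi⟩
        · rfl
        · exfalso
          have h4 : (j : ℕ) < i := hi
          have := i.2
          omega
      have hl0 : l 2 = 1 := by
        apply mul_left_cancel₀ (hBne 2)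
        rw [hl 2, mul_one]
        exact Finset.sum_congr rfl fun o ho => by rw [hY0 o ho, mul_one]
      have hd : ∀ o ∈ ExpandB.SS j 2, Y o - l 2 = 0 := fun o ho => by
        rw [hl0, hY0 o ho, sub_self]
      rw [ExpandB.vv_ge O z _ hjm]
      refine ⟨?_, fun o ho => by rw [hd o ho, map_zero]⟩
      rw [Finset.sum_eq_zero (fun o ho => by rw [hd o ho]; ring), map_zero]
      simp
  -- the size of the expansion parameter
  set vL := ExpandB.vv O z ((j : ℕ) - 1) with hvL
  set vR := ExpandB.vv O z (j : ℕ) with hvR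
  have hvL1 : vL < 1 := ExpandB.vv_lt_one O z hch _
  have hvR1 : vR < 1 := ExpandB.vv_lt_one O z hch _
  set v := max vL vR with hv
  have hv1 : v < 1 := max_lt hvL1 hvR1
  have hv0 : v ≠ 0 := by
    intro h
    apply hnz
    constructor
    · exact le_antisymm (h ▸ le_max_left _ _) zero_le
    · exact le_antisymm (h ▸ le_max_right _ _) zero_le
  have hvpos : 0 < v := zero_lt_iff.2 hv0
  obtain ⟨t, ht⟩ : ∃ t : K, O.valuation t = v := O.valuation_surjective v
  have hεv : O.valuation (t ^ 2) = v ^ 2 := by rw [map_pow, ht]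
  have hv2 : v ^ 2 < 1 := pow_lt_one₀ zero_le hv1 (by norm_num)
  have hv2pos : 0 < v ^ 2 := pow_pos hvpos 2
  have hv3 : v ^ 3 < v ^ 2 := pow_lt_pow_right_of_lt_one₀ hvpos hv1 (by norm_num)
  have hmO : ∀ c, O.valuation (∑ o ∈ ExpandB.SS j c, b o * (Y o - l c) ^ 2) ≤ v ^ 2 := by
    intro c
    fin_cases c
    · show O.valuation (∑ o ∈ ExpandB.SS j 0, b o * (Y o - l 0) ^ 2) ≤ v ^ 2
      rw [hL.1]
      exact pow_le_pow_left₀ zero_le (le_max_left _ _) 2
    · show O.valuation (∑ o ∈ ExpandB.SS j 1, b o * (Y o - l 1) ^ 2) ≤ v ^ 2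
      rw [Finset.sum_eq_zero (fun o ho => by rw [hM1 o ho]; ring), map_zero]
      exact zero_le
    · show O.valuation (∑ o ∈ ExpandB.SS j 2, b o * (Y o - l 2) ^ 2) ≤ v ^ 2
      rw [hRt.1]
      exact pow_le_pow_left₀ zero_le (le_max_right _ _) 2
  have hδ : ∀ o, O.valuation (Y o - l (ExpandB.cl j o)) ^ 3 < v ^ 2 := by
    intro o
    have h1 : O.valuation (Y o - l (ExpandB.cl j o)) ≤ v := by
      have ho : o ∈ ExpandB.SS j (ExpandB.cl j o) := by
        unfold ExpandB.SS
        simp
      generalize ExpandB.cl j o = c at ho ⊢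
      fin_cases c
      · exact (hL.2 o ho).trans (le_max_left _ _)
      · have h2 := hM1 o ho
        show O.valuation (Y o - l 1) ≤ v
        rw [h2, map_zero]; exact zero_le
      · exact (hRt.2 o ho).trans (le_max_right _ _)
    exact lt_of_le_of_lt (pow_le_pow_left₀ zero_le h1 3) hv3
  have hb1 : ∑ o, b o = 1 := by
    rw [Fintype.sum_option]
    show (1 - ∑ i, a i) + ∑ i, a i = 1
    ring
  have hbY : ∑ o, b o * Y o = 0 := by
    rw [Fintype.sum_option]
    have := sum_aY (a := a) (z := z) (p := p)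
      (root_ne (genW_of_res O a ha hg) hz p hp) hw0
    show (1 - ∑ i, a i) * 1 + ∑ i, a i * Yc a z p i = 0
    linear_combination this
  have hbYi : ∑ o, b o / Y o = 0 := by
    rw [Fintype.sum_option]
    have := root_sum_inv (genW_of_res O a ha hg) hz p hp
    show (1 - ∑ i, a i) / 1 + ∑ i, a i / Yc a z p i = 0
    linear_combination this
  have hX := expansion O b Y (ExpandB.cl j) B l (t ^ 2) hbO hYv (fun c => rfl) hBu
    (fun c => hl c) hlu hne hb1 hbY hbYi (by rw [hεv]; exact hv2)
    (fun c => by rw [hεv]; exact hmO c) (fun o => by rw [hεv]; exact hδ o)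
  have hmult : (∑ o, b o * Y o ^ 2) * (∑ o, b o / Y o ^ 2) = mult a z p := by
    rw [Fintype.sum_option, Fintype.sum_option]
    unfold mult
    show ((1 - ∑ i, a i) * 1 ^ 2 + ∑ i, a i * Yc a z p i ^ 2) *
      ((1 - ∑ i, a i) / 1 ^ 2 + ∑ i, a i / Yc a z p i ^ 2) = _
    ring
  rw [hmult, hB0, hB1, hεv] at hX
  set Q := mult a z p - mu (∑ i ∈ Finset.univ.filter (fun i => i < j), a i) (a j) with hQ
  rw [Fin.sum_univ_three] at hX
  have hm1 : ∑ i ∈ Finset.univ.filter (fun i => ExpandB.cl j i = 1), b i * (Y i - l 1) ^ 2 = 0 :=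
    Finset.sum_eq_zero (fun o ho => by
      have h1 : o ∈ ExpandB.SS j 1 := ho
      rw [hM1 o h1]; ring)
  rw [hm1, mul_zero, add_zero] at hX
  set mL := ∑ i ∈ Finset.univ.filter (fun i => ExpandB.cl j i = 0), b i * (Y i - l 0) ^ 2 with hmL
  set mR := ∑ i ∈ Finset.univ.filter (fun i => ExpandB.cl j i = 2), b i * (Y i - l 2) ^ 2 with hmR
  have hmLv : O.valuation mL = vL ^ 2 := hL.1
  have hmRv : O.valuation mR = vR ^ 2 := hRt.1
  set c0 := (1 - 3 * B 0) * (l 0 - l (0 + 1)) ^ 2 * (l 0 - l (0 + 2)) ^ 2 /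
          (l 0 ^ 4 * l (0 + 1) * l (0 + 2)) with hc0
  set c2 := (1 - 3 * B 2) * (l 2 - l (2 + 1)) ^ 2 * (l 2 - l (2 + 2)) ^ 2 /
          (l 2 ^ 4 * l (2 + 1) * l (2 + 2)) with hc2
  have hc0v : O.valuation c0 = 1 := by
    rw [hc0]
    simp only [map_div₀, map_mul, map_pow, hlu, hne 0 (0 + 1) (by decide),
      hne 0 (0 + 2) (by decide), one_pow, mul_one, div_one]
    rw [hB0]; exact hu03
  have hc2v : O.valuation c2 = 1 := by
    rw [hc2]
    simp only [map_div₀, map_mul, map_pow, hlu, hne 2 (2 + 1) (by decide),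
      hne 2 (2 + 2) (by decide), one_pow, mul_one, div_one]
    rw [hB2]; exact hu23
  have h0v : O.valuation (c0 * mL) = vL ^ 2 := by rw [map_mul, hc0v, one_mul, hmLv]
  have h2v : O.valuation (c2 * mR) = vR ^ 2 := by rw [map_mul, hc2v, one_mul, hmRv]
  have hQeq : Q = (Q + (c0 * mL + c2 * mR)) - (c0 * mL + c2 * mR) := by ring
  have hle : O.valuation (c0 * mL + c2 * mR) ≤ v ^ 2 := by
    refine (Valuation.map_add _ _ _).trans (max_le ?_ ?_)
    · rw [h0v]; exact pow_le_pow_left₀ zero_le (le_max_left _ _) 2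
    · rw [h2v]; exact pow_le_pow_left₀ zero_le (le_max_right _ _) 2
  refine ⟨?_, ?_⟩
  · rw [hQeq]
    exact (Valuation.map_sub _ _ _).trans (max_le hX.le hle)
  · intro hnevv
    have hs : O.valuation (c0 * mL + c2 * mR) = v ^ 2 := by
      rcases lt_or_gt_of_ne hnevv with h | h
      · have h3 : vL ^ 2 < vR ^ 2 := pow_lt_pow_left₀ h zero_le (by norm_num)
        rw [Valuation.map_add_eq_of_lt_right _ (by rw [h0v, h2v]; exact h3), h2v, hv,
          max_eq_right h.le]
      · have h3 : vR ^ 2 < vL ^ 2 := pow_lt_pow_left₀ h zero_le (by norm_num)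
        rw [Valuation.map_add_eq_of_lt_left _ (by rw [h0v, h2v]; exact h3), h0v, hv,
          max_eq_left h.le]
    rw [hQeq, Valuation.map_sub_eq_of_lt_right _ (by rw [hs]; exact hX), hs]


omit [IsAlgClosed K] [CharZero (IsLocalRing.ResidueField O)] in
theorem ExpandB.hnz {m : ℕ} (hm2 : 2 ≤ m) (z : Fin (m + 1) → K) (hch : IsChain O z) (j : ℕ)
    (hj : 1 ≤ j) (hjm : j ≤ m) :
    ¬ (ExpandB.vv O z (j - 1) = 0 ∧ ExpandB.vv O z j = 0) := by
  rintro ⟨h1, h2⟩
  by_cases h : j - 1 = 0
  · exact ExpandB.vv_ne_zero O z hch j (by omega) (by omega) h2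
  · exact ExpandB.vv_ne_zero O z hch (j - 1) h (by omega) h1

theorem ExpandB.both {m : ℕ} (hm2 : 2 ≤ m) (a z z' : Fin (m + 1) → K) (ha : ∀ i, a i ∈ O)
    (hg : GenW (fun i => resK O (a i)))
    (hch : IsChain O z) (hch' : IsChain O z') (hs : Spec a z = Spec a z')
    (j : ℕ) (hj : 1 ≤ j) (hjm : j ≤ m) :
    ∃ q : O.ValueGroup,
      (q ≤ (max (ExpandB.vv O z (j - 1)) (ExpandB.vv O z j)) ^ 2 ∧
        (ExpandB.vv O z (j - 1) ≠ ExpandB.vv O z j →
          q = (max (ExpandB.vv O z (j - 1)) (ExpandB.vv O z j)) ^ 2)) ∧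
      (q ≤ (max (ExpandB.vv O z' (j - 1)) (ExpandB.vv O z' j)) ^ 2 ∧
        (ExpandB.vv O z' (j - 1) ≠ ExpandB.vv O z' j →
          q = (max (ExpandB.vv O z' (j - 1)) (ExpandB.vv O z' j)) ^ 2)) := by
  let J : Fin (m + 1) := ⟨j, by omega⟩
  have hJ : J ≠ 0 := by
    intro h
    have := congrArg Fin.val h
    have h2 : j = 0 := this
    omega
  obtain ⟨p, p', hp, hp', hM, hG, hG'⟩ :=
    chain_match O (by omega) a z z' ha hg hch hch' hs J hJ
  refine ⟨O.valuation (mult a z p -
    mu (∑ i ∈ Finset.univ.filter (fun i => i < J), a i) (a J)), ?_, ?_⟩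
  · exact ExpandB.key O a z ha hg hch J hJ p hp hG (ExpandB.hnz O hm2 z hch j hj hjm)
  · rw [hM]
    exact ExpandB.key O a z' ha hg hch' J hJ p' hp' hG' (ExpandB.hnz O hm2 z' hch' j hj hjm)

end key

variable {K : Type*} [Field K] [IsAlgClosed K] (O : ValuationSubring K)
  [CharZero (IsLocalRing.ResidueField O)]

/-- edge lengths are determined by the spectrum for monotone chains -/
theorem chain_val_eq {m : ℕ} (hm : 1 ≤ m) (a z z' : Fin (m + 1) → K) (ha : ∀ i, a i ∈ O)
    (hg : GenW (fun i => resK O (a i)))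
    (hch : IsChain O z) (hch' : IsChain O z') (hs : Spec a z = Spec a z')
    (hmono : (∀ i j : Fin m, (i : ℕ) ≠ 0 → i < j → O.valuation (tt z i) < O.valuation (tt z j)) ∨
      (∀ i j : Fin m, (i : ℕ) ≠ 0 → i < j → O.valuation (tt z j) < O.valuation (tt z i))) :
    ∀ j : Fin m, O.valuation (tt z' j) = O.valuation (tt z j) := by
  have hinj : ∀ x y : O.ValueGroup, x ^ 2 = y ^ 2 → x = y := fun x y h =>
    (pow_left_inj₀ zero_le zero_le (by norm_num)).1 h
  have main : ∀ k : ℕ, k < m → ExpandB.vv O z' k = ExpandB.vv O z k := by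
    rcases Nat.lt_or_ge m 2 with hm2 | hm2
    · intro k hk
      have : k = 0 := by omega
      rw [this, ExpandB.vv_zero, ExpandB.vv_zero]
    have hboth := ExpandB.both O hm2 a z z' ha hg hch hch' hs
    rcases hmono with hmono | hmono
    · -- increasing
      have hinc : ∀ k, 1 ≤ k → k < m → ExpandB.vv O z (k - 1) < ExpandB.vv O z k := by
        intro k hk hkm
        by_cases h : k - 1 = 0
        · rw [h, ExpandB.vv_zero]
          exact zero_lt_iff.2 (ExpandB.vv_ne_zero O z hch k (by omega) hkm)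
        · rw [ExpandB.vv_lt O z (k - 1) (by omega), ExpandB.vv_lt O z k hkm]
          exact hmono ⟨k - 1, by omega⟩ ⟨k, hkm⟩ h (by
            rw [Fin.lt_def]; show k - 1 < k; omega)
      intro k
      induction k with
      | zero => intro _; rw [ExpandB.vv_zero, ExpandB.vv_zero]
      | succ k ih =>
        intro hk
        have ih' := ih (by omega)
        obtain ⟨q, ⟨_, h2⟩, h3, h4⟩ := hboth (k + 1) (by omega) hk.le
        have hlt := hinc (k + 1) (by omega) hk
        rw [Nat.add_sub_cancel] at h2 h3 h4 hlt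
        have hq := h2 hlt.ne
        rw [max_eq_right hlt.le] at hq
        have hlt' : ExpandB.vv O z' k < ExpandB.vv O z' (k + 1) := by
          by_contra hcon
          rw [max_eq_left (not_lt.1 hcon), ih', hq] at h3
          exact absurd (pow_lt_pow_left₀ hlt zero_le (by norm_num)) (not_lt.2 h3)
        have hq' := h4 hlt'.ne
        rw [max_eq_right hlt'.le, hq] at hq'
        exact (hinj _ _ hq').symm
    · -- decreasing
      have hdec : ∀ k, 1 ≤ k → k < m → ExpandB.vv O z (k + 1) < ExpandB.vv O z k := by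
        intro k hk hkm
        by_cases h : k + 1 < m
        · rw [ExpandB.vv_lt O z (k + 1) h, ExpandB.vv_lt O z k hkm]
          exact hmono ⟨k, hkm⟩ ⟨k + 1, h⟩ (by show k ≠ 0; omega) (by
            rw [Fin.lt_def]; show k < k + 1; omega)
        · rw [ExpandB.vv_ge O z (k + 1) h]
          exact zero_lt_iff.2 (ExpandB.vv_ne_zero O z hch k (by omega) hkm)
      have hdown : ∀ d k, k + d = m → 1 ≤ k → ExpandB.vv O z' k = ExpandB.vv O z k := by
        intro d
        induction d with
        | zero =>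
          intro k hk _
          rw [ExpandB.vv_ge O z' k (by omega), ExpandB.vv_ge O z k (by omega)]
        | succ d ih =>
          intro k hk hk1
          have ih' := ih (k + 1) (by omega) (by omega)
          obtain ⟨q, ⟨_, h2⟩, h3, h4⟩ := hboth (k + 1) (by omega) (by omega)
          have hlt := hdec k hk1 (by omega)
          rw [Nat.add_sub_cancel] at h2 h3 h4
          have hq := h2 hlt.ne'
          rw [max_eq_left hlt.le] at hq
          have hlt' : ExpandB.vv O z' (k + 1) < ExpandB.vv O z' k := by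
            by_contra hcon
            rw [max_eq_right (not_lt.1 hcon), ih', hq] at h3
            exact absurd (pow_lt_pow_left₀ hlt zero_le (by norm_num)) (not_lt.2 h3)
          have hq' := h4 hlt'.ne'
          rw [max_eq_left hlt'.le, hq] at hq'
          exact (hinj _ _ hq').symm
      intro k hk
      by_cases h : k = 0
      · rw [h, ExpandB.vv_zero, ExpandB.vv_zero]
      · exact hdown (m - k) k (by omega) (by omega)
  intro j
  have := main j j.2
  rw [ExpandB.vv_lt O z' j j.2, ExpandB.vv_lt O z j j.2] at this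
  exact this

end

end Pool.Agent.Lib.MP_740d3f_ag
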