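import Pool.Agent.Lib.MP_740d3f_ag.Red
import Pool.Agent.Lib.MP_740d3f_ag.ExpandA

set_option autoImplicit false

/-! # Second order comparison at the vertex `{0,1}` -/

namespace Pool.Agent.Lib.MP_740d3f_ag
noncomputable section

section HR

variable {K : Type*} [Field K]

/-- `x` is integral with residue `c` -/
structure ExpandC.HasRes (O : ValuationSubring K) (x : K) (c : IsLocalRing.ResidueField O) :
    Prop where
  mem : x ∈ O
  res : resK O x = c

variable {O : ValuationSubring K} {x y : K} {c d : IsLocalRing.ResidueField O}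

theorem ExpandC.HasRes.add (hx : ExpandC.HasRes O x c) (hy : ExpandC.HasRes O y d) :
    ExpandC.HasRes O (x + y) (c + d) :=
  ⟨O.add_mem _ _ hx.mem hy.mem, by rw [resK_add O hx.mem hy.mem, hx.res, hy.res]⟩

theorem ExpandC.HasRes.sub (hx : ExpandC.HasRes O x c) (hy : ExpandC.HasRes O y d) :
    ExpandC.HasRes O (x - y) (c - d) :=
  ⟨sub_mem hx.mem hy.mem, by rw [resK_sub O hx.mem hy.mem, hx.res, hy.res]⟩

theorem ExpandC.HasRes.mul (hx : ExpandC.HasRes O x c) (hy : ExpandC.HasRes O y d) :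
    ExpandC.HasRes O (x * y) (c * d) :=
  ⟨O.mul_mem _ _ hx.mem hy.mem, by rw [resK_mul O hx.mem hy.mem, hx.res, hy.res]⟩

theorem ExpandC.HasRes.pow (hx : ExpandC.HasRes O x c) (n : ℕ) :
    ExpandC.HasRes O (x ^ n) (c ^ n) :=
  ⟨pow_mem hx.mem n, by rw [resK_pow O hx.mem, hx.res]⟩

theorem ExpandC.HasRes.val (hx : ExpandC.HasRes O x c) (hc : c ≠ 0) : O.valuation x = 1 :=
  (resK_ne_zero_iff O hx.mem).mp (by rw [hx.res]; exact hc)

theorem ExpandC.HasRes.val_lt (hx : ExpandC.HasRes O x 0) : O.valuation x < 1 :=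
  (resK_eq_zero_iff O hx.mem).mp hx.res

theorem ExpandC.HasRes.div (hx : ExpandC.HasRes O x c) (hy : ExpandC.HasRes O y d) (hd : d ≠ 0) :
    ExpandC.HasRes O (x / y) (c / d) := by
  have h := hy.val hd
  refine ⟨?_, by rw [resK_div O hx.mem h, hx.res, hy.res]⟩
  rw [← O.valuation_le_one_iff, map_div₀, h, div_one]
  exact (O.valuation_le_one_iff _).mpr hx.mem

theorem ExpandC.HasRes.sum {ι : Type*} (S : Finset ι) (f : ι → K)
    (g : ι → IsLocalRing.ResidueField O) (h : ∀ i ∈ S, ExpandC.HasRes O (f i) (g i)) :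
    ExpandC.HasRes O (∑ i ∈ S, f i) (∑ i ∈ S, g i) :=
  ⟨sum_mem fun i hi => (h i hi).mem, by
    rw [resK_sum O S f fun i hi => (h i hi).mem]
    exact Finset.sum_congr rfl fun i hi => (h i hi).res⟩

theorem ExpandC.hasRes_one (O : ValuationSubring K) : ExpandC.HasRes O 1 1 :=
  ⟨O.one_mem, resK_one O⟩

theorem ExpandC.hasRes_zero (O : ValuationSubring K) : ExpandC.HasRes O 0 0 :=
  ⟨O.zero_mem, resK_zero O⟩

theorem ExpandC.hasRes_nat (O : ValuationSubring K) (n : ℕ) : ExpandC.HasRes O (n : K) n :=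
  ⟨natCast_mem O n, resK_natCast O n⟩

theorem ExpandC.hasRes_self (hx : x ∈ O) : ExpandC.HasRes O x (resK O x) := ⟨hx, rfl⟩

theorem ExpandC.hasRes_of_lt (hx : O.valuation x < 1) : ExpandC.HasRes O x 0 := by
  have hm : x ∈ O := (O.valuation_le_one_iff _).mp hx.le
  exact ⟨hm, (resK_eq_zero_iff O hm).mpr hx⟩

end HR

theorem ExpandC.moment {k ι : Type*} [Field k] (S : Finset ι) (α U : ι → k) (W AR S0 : k)
    (hW : W ≠ 0) (hAR : AR ≠ 0) (hS : ∑ i ∈ S, α i + S0 = AR) :
    ∑ i ∈ S, α i * (U i / W - (∑ i ∈ S, α i * (U i / W)) / AR) ^ 2 +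
      S0 * ((∑ i ∈ S, α i * (U i / W)) / AR) ^ 2 =
    (AR * ∑ i ∈ S, α i * U i ^ 2 - (∑ i ∈ S, α i * U i) ^ 2) / (AR * W ^ 2) := by
  have h1 : ∑ i ∈ S, α i * (U i / W) = (∑ i ∈ S, α i * U i) / W := by
    rw [Finset.sum_div]
    exact Finset.sum_congr rfl fun i _ => by ring
  rw [h1]
  generalize hs : ∑ i ∈ S, α i * U i = s
  have h2 : ∑ i ∈ S, α i * (U i / W - s / W / AR) ^ 2 =
      (∑ i ∈ S, α i * U i ^ 2) / W ^ 2 - 2 * s / (W ^ 2 * AR) * s +
        (∑ i ∈ S, α i) * (s / W / AR) ^ 2 := by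
    rw [Finset.sum_div, ← hs, Finset.mul_sum, hs, Finset.sum_mul, ← Finset.sum_sub_distrib,
      ← Finset.sum_add_distrib]
    refine Finset.sum_congr rfl fun i _ => ?_
    field_simp
    ring
  have h3 : S0 = AR - ∑ i ∈ S, α i := by rw [← hS]; ring
  rw [h2, h3]
  field_simp
  ring

/-- the leading coefficient is the same for the two points of the two-cycle -/
theorem ExpandC.symm {k : Type*} [Field k] (a ζ : Fin 2 → k) (hg : GenW a)
    (hζ : Function.Injective ζ) (P P' : k) (hP : (PhiZ a ζ).IsRoot P)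
    (hP' : (PhiZ a ζ).IsRoot P') :
    (1 - Yc a ζ P 0) ^ 2 * (1 - Yc a ζ P 1) ^ 2 /
      (Yc a ζ P 0 * Yc a ζ P 1 * omega a ζ P ^ 2) =
    (1 - Yc a ζ P' 0) ^ 2 * (1 - Yc a ζ P' 1) ^ 2 /
      (Yc a ζ P' 0 * Yc a ζ P' 1 * omega a ζ P' ^ 2) := by
  obtain ⟨hq, hw, hY, -, hne⟩ := root_partner a ζ hg hζ P hP
  have h0 := PhiZ_ne_zero (z := ζ) hg
  have hdeg : (PhiZ a ζ).natDegree = 2 := by rw [PhiZ_natDegree hg]; simp
  have hcase : P' = P ∨ P' = P - 1 / omega a ζ P := by
    classical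
    by_contra hcon
    push Not at hcon
    have hsub : ({P', P, P - 1 / omega a ζ P} : Finset k) ⊆ (PhiZ a ζ).roots.toFinset := by
      intro x hx
      simp only [Finset.mem_insert, Finset.mem_singleton] at hx
      rw [Multiset.mem_toFinset, Polynomial.mem_roots h0]
      rcases hx with h | h | h
      · rw [h]; exact hP'
      · rw [h]; exact hP
      · rw [h]; exact hq
    have h1 := Finset.card_le_card hsub
    have h2 : ({P', P, P - 1 / omega a ζ P} : Finset k).card = 3 := by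
      rw [Finset.card_insert_of_notMem, Finset.card_insert_of_notMem, Finset.card_singleton]
      · simp only [Finset.mem_singleton]; exact fun h => hne h.symm
      · simp only [Finset.mem_insert, Finset.mem_singleton, not_or]; exact hcon
    have h3 := (Multiset.toFinset_card_le (PhiZ a ζ).roots).trans (Polynomial.card_roots' _)
    omega
  rcases hcase with h | h
  · rw [h]
  · have hy0 := root_Y hg hζ P hP 0
    have hy1 := root_Y hg hζ P hP 1
    have hw0 := root_omega hg hζ P hP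
    rw [h, hw, hY, hY]
    field_simp
    ring

theorem ExpandC.forall3 {p : Fin 3 → Prop} (h0 : p 0) (h1 : p 1) (h2 : p 2) : ∀ c, p c := by
  intro c
  fin_cases c
  · exact h0
  · exact h1
  · exact h2

/-- clusters of the points (with infinity) at the vertex `{0, 1}` -/
def ExpandC.cl {m : ℕ} : Option (Fin (m + 3)) → Fin 3
  | some i => if i = 0 then 0 else if i = 1 then 1 else 2
  | none => 2

/-- blocks of the points at the vertex `{0, 1}` -/
def ExpandC.bl {m : ℕ} (i : Fin (m + 3)) : Option (Fin 2) :=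
  if i = 0 then some 0 else if i = 1 then some 1 else none

theorem ExpandC.two_le {m : ℕ} (i : Fin (m + 3)) : 2 ≤ i ↔ ¬ i = 0 ∧ ¬ i = 1 := by
  rw [Fin.le_def, Fin.ext_iff, Fin.ext_iff, Fin.val_two, Fin.val_zero, Fin.val_one]
  omega

theorem ExpandC.one_ne_zero {m : ℕ} : (1 : Fin (m + 3)) ≠ 0 := by
  rw [Ne, Fin.ext_iff, Fin.val_zero, Fin.val_one]; omega

theorem ExpandC.sum_zero {K : Type*} [Field K] {m : ℕ} (f : Option (Fin (m + 3)) → K) :
    ∑ i ∈ Finset.univ.filter (fun i => ExpandC.cl i = 0), f i = f (some 0) := by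
  have : Finset.univ.filter (fun i : Option (Fin (m + 3)) => ExpandC.cl i = 0) = {some 0} := by
    ext i
    simp only [Finset.mem_filter, Finset.mem_univ, true_and, Finset.mem_singleton]
    cases i with
    | none => simp [ExpandC.cl]
    | some i =>
      by_cases h0 : i = 0
      · simp [ExpandC.cl, h0]
      · by_cases h1 : i = 1
        · simp [ExpandC.cl, h1]
        · simp [ExpandC.cl, h0, h1]
  rw [this, Finset.sum_singleton]

theorem ExpandC.sum_one {K : Type*} [Field K] {m : ℕ} (f : Option (Fin (m + 3)) → K) :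
    ∑ i ∈ Finset.univ.filter (fun i => ExpandC.cl i = 1), f i = f (some 1) := by
  have : Finset.univ.filter (fun i : Option (Fin (m + 3)) => ExpandC.cl i = 1) = {some 1} := by
    ext i
    simp only [Finset.mem_filter, Finset.mem_univ, true_and, Finset.mem_singleton]
    cases i with
    | none => simp [ExpandC.cl]
    | some i =>
      by_cases h0 : i = 0
      · simp [ExpandC.cl, h0, ExpandC.one_ne_zero.symm]
      · by_cases h1 : i = 1
        · simp [ExpandC.cl, h1]
        · simp [ExpandC.cl, h0, h1]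
  rw [this, Finset.sum_singleton]

theorem ExpandC.sum_two {K : Type*} [Field K] {m : ℕ} (f : Option (Fin (m + 3)) → K) :
    ∑ i ∈ Finset.univ.filter (fun i => ExpandC.cl i = 2), f i =
      ∑ i ∈ Finset.univ.filter (fun i : Fin (m + 3) => 2 ≤ i), f (some i) + f none := by
  rw [Finset.sum_filter, Fintype.sum_option, Finset.sum_filter, add_comm]
  congr 1
  refine Finset.sum_congr rfl fun i _ => ?_
  have : ExpandC.cl (some i) = 2 ↔ 2 ≤ i := by
    rw [ExpandC.two_le]
    by_cases h0 : i = 0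
    · simp [ExpandC.cl, h0]
    · by_cases h1 : i = 1
      · simp [ExpandC.cl, h1]
      · simp [ExpandC.cl, h0, h1]
  simp only [this]

theorem ExpandC.sum_all {K : Type*} [Field K] {m : ℕ} (f : Fin (m + 3) → K) :
    ∑ i, f i = f 0 + f 1 + ∑ i ∈ Finset.univ.filter (fun i : Fin (m + 3) => 2 ≤ i), f i := by
  have h1 : (Finset.univ : Finset (Fin (m + 3))) =
      insert 0 (insert 1 (Finset.univ.filter (fun i : Fin (m + 3) => 2 ≤ i))) := by
    ext i
    simp only [Finset.mem_univ, Finset.mem_insert, Finset.mem_filter, true_and, true_iff,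
      ExpandC.two_le]
    tauto
  conv_lhs => rw [h1]
  rw [Finset.sum_insert, Finset.sum_insert, add_assoc]
  · simp [ExpandC.two_le]
  · simp [ExpandC.two_le, ExpandC.one_ne_zero.symm]

theorem ExpandC.reduces {K : Type*} [Field K] (O : ValuationSubring K) {m : ℕ}
    (a z : Fin (m + 3) → K) (hz : Function.Injective z)
    (h1 : O.valuation (z 1 - z 0) < O.valuation (z 2 - z 0))
    (h2 : ∀ j, 2 ≤ j → O.valuation (z 2 - z 0) ≤ O.valuation (z j - z 0)) :
    Reduces O a z (z 0) (z 1 - z 0) ExpandC.bl ![resK O (a 0), resK O (a 1)] ![0, 1] where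
  hr := sub_ne_zero.mpr (hz.ne ExpandC.one_ne_zero)
  hζ := by
    intro i j h
    fin_cases i <;> fin_cases j <;> simp at h ⊢
  hin := by
    intro i b hb
    have hd : z 1 - z 0 ≠ 0 := sub_ne_zero.mpr (hz.ne ExpandC.one_ne_zero)
    unfold ExpandC.bl at hb
    split_ifs at hb with h0 h1
    · obtain rfl : b = 0 := by simpa using hb.symm
      rw [h0, sub_self, zero_div]
      exact ⟨O.zero_mem, resK_zero O⟩
    · obtain rfl : b = 1 := by simpa using hb.symm
      rw [h1, div_self hd]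
      exact ⟨O.one_mem, resK_one O⟩
  hout := by
    intro i hi h
    unfold ExpandC.bl at hi
    split_ifs at hi with h0 h0'
    have h3 := h2 i ((ExpandC.two_le i).mpr ⟨h0, h0'⟩)
    rw [← O.valuation_le_one_iff, map_div₀, div_le_one₀] at h
    · exact absurd (h1.trans_le h3) (not_lt.mpr h)
    · rw [zero_lt_iff, Valuation.ne_zero_iff]
      exact sub_ne_zero.mpr (hz.ne ExpandC.one_ne_zero)
  hsurj := by
    intro b
    fin_cases b
    · exact ⟨0, by simp [ExpandC.bl]⟩
    · exact ⟨1, by simp [ExpandC.bl]⟩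
  hA := by
    intro b
    have h0 : (Finset.univ.filter (fun i : Fin (m + 3) => ExpandC.bl i = some 0)) = {0} := by
      ext i
      simp only [Finset.mem_filter, Finset.mem_univ, true_and, Finset.mem_singleton]
      unfold ExpandC.bl
      split_ifs with h0 h1 <;> simp [h0]
    have h1 : (Finset.univ.filter (fun i : Fin (m + 3) => ExpandC.bl i = some 1)) = {1} := by
      ext i
      simp only [Finset.mem_filter, Finset.mem_univ, true_and, Finset.mem_singleton]
      unfold ExpandC.bl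
      split_ifs with h0 h1
      · simp [h0, ExpandC.one_ne_zero.symm]
      · simp [h1]
      · simp [h1]
    fin_cases b
    · simp [h0]
    · simp [h1]

variable {K : Type*} [Field K] [IsAlgClosed K] (O : ValuationSubring K)
  [CharZero (IsLocalRing.ResidueField O)]

/-- second order term of the multiplier at the vertex `{0, 1}` -/
theorem ExpandC.single {m : ℕ} (a z : Fin (m + 3) → K) (ha : ∀ i, a i ∈ O)
    (hg : GenW (fun i => resK O (a i))) (hz : Function.Injective z)
    (h1 : O.valuation (z 1 - z 0) < O.valuation (z 2 - z 0))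
    (h2 : ∀ j, 2 ≤ j → O.valuation (z 2 - z 0) ≤ O.valuation (z j - z 0))
    (p P : K) (P' : IsLocalRing.ResidueField O) (AF : Fin 2 → IsLocalRing.ResidueField O)
    (hAF : AF = ![resK O (a 0), resK O (a 1)])
    (hp : (PhiZ a z).IsRoot p)
    (hgood : GoodAt O AF ![0, 1] (z 0) (z 1 - z 0) p)
    (hP : P = (p - z 0) / (z 1 - z 0)) (hP' : P' = resK O P) :
    ExpandC.HasRes O ((mult a z p - mu (a 0) (a 1)) / ((z 1 - z 0) / (z 2 - z 0)) ^ 2)
      (-((1 - 3 * (1 - resK O (a 0) - resK O (a 1))) / (1 - resK O (a 0) - resK O (a 1)) *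
        ((1 - resK O (a 0) - resK O (a 1)) *
        (∑ j ∈ Finset.univ.filter (fun j => 2 ≤ j), resK O (a j) *
          resK O ((z 2 - z 0) / (z j - z 0)) ^ 2)
        - (∑ j ∈ Finset.univ.filter (fun j => 2 ≤ j), resK O (a j) *
          resK O ((z 2 - z 0) / (z j - z 0))) ^ 2) *
        ((1 - Yc AF ![0, 1] P' 0) ^ 2 * (1 - Yc AF ![0, 1] P' 1) ^ 2 /
        (Yc AF ![0, 1] P' 0 * Yc AF ![0, 1] P' 1 * omega AF ![0, 1] P' ^ 2)))) := by
  have hd1 : z 1 - z 0 ≠ 0 := sub_ne_zero.mpr (hz.ne ExpandC.one_ne_zero)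
  have hR := ExpandC.reduces O a z hz h1 h2
  rw [← hAF] at hR
  have hgK : GenW a := genW_of_res O a ha hg
  have hgA : GenW AF := genW_reduced (fun i => resK O (a i)) hg ExpandC.bl hR.hsurj AF hR.hA
  have hroot : (PhiZ AF ![0, 1]).IsRoot P' := by
    rw [hP', hP]; exact hgood.2
  obtain ⟨-, hall⟩ := good_roots O a z ha hg hz (z 0) (z 1 - z 0) ExpandC.bl AF ![0, 1] hR
  obtain ⟨-, -, hwv, hwr, hYv, hYin, hYout⟩ := hall p hp hgood
  have h21 : (2 : Fin (m + 3)) ≠ 0 := ((ExpandC.two_le 2).mp le_rfl).1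
  have hd2 : z 2 - z 0 ≠ 0 := sub_ne_zero.mpr (hz.ne h21)
  have hdi : ∀ i, 2 ≤ i → z i - z 0 ≠ 0 := fun i hi =>
    sub_ne_zero.mpr (hz.ne ((ExpandC.two_le i).mp hi).1)
  obtain ⟨t, ht⟩ : ∃ t, t = (z 1 - z 0) / (z 2 - z 0) := ⟨_, rfl⟩
  have ht0 : t ≠ 0 := by rw [ht]; exact div_ne_zero hd1 hd2
  have hv2 : O.valuation (z 2 - z 0) ≠ 0 := (Valuation.ne_zero_iff _).mpr hd2
  have htv : O.valuation t < 1 := by
    rw [ht, map_div₀]
    exact (div_lt_one₀ (zero_lt_iff.mpr hv2)).mpr h1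
  have htr := ExpandC.hasRes_of_lt htv
  have hw : omega a z p ≠ 0 := root_omega hgK hz p hp
  have hpz := root_ne hgK hz p hp
  have hPr : ExpandC.HasRes O P P' := ⟨by rw [hP]; exact hgood.1, hP'.symm⟩
  have hinj : Function.Injective (![0, 1] : Fin 2 → IsLocalRing.ResidueField O) := hR.hζ
  have hW0 : omega AF ![0, 1] P' ≠ 0 := root_omega hgA hinj P' hroot
  have hWr : ExpandC.HasRes O ((z 1 - z 0) * omega a z p) (omega AF ![0, 1] P') := by
    refine ⟨(O.valuation_le_one_iff _).mp hwv.le, ?_⟩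
    rw [hwr, hP', hP]
  have hur : ∀ i, 2 ≤ i → ExpandC.HasRes O ((z 2 - z 0) / (z i - z 0))
      (resK O ((z 2 - z 0) / (z i - z 0))) := by
    intro i hi
    refine ExpandC.hasRes_self ((O.valuation_le_one_iff _).mp ?_)
    rw [map_div₀]
    exact (div_le_one₀ (zero_lt_iff.mpr ((Valuation.ne_zero_iff _).mpr (hdi i hi)))).mpr (h2 i hi)
  obtain ⟨v, hv⟩ : ∃ v : Fin (m + 3) → K, v = fun i => (Yc a z p i - 1) / t := ⟨_, rfl⟩
  have hYv' : ∀ i, Yc a z p i = 1 + t * v i := fun i => by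
    rw [hv]; field_simp; ring
  have hvr : ∀ i, 2 ≤ i → ExpandC.HasRes O (v i)
      (resK O ((z 2 - z 0) / (z i - z 0)) / omega AF ![0, 1] P') := by
    intro i hi
    have hu := hur i hi
    have hden := hWr.mul ((ExpandC.hasRes_one O).sub ((htr.mul hPr).mul hu))
    have hne : omega AF ![0, 1] P' * (1 - 0 * P' * resK O ((z 2 - z 0) / (z i - z 0))) ≠ 0 := by
      rw [zero_mul, zero_mul, sub_zero, mul_one]; exact hW0
    have hq := hu.div hden hne
    have e1 : v i = (z 2 - z 0) / (z i - z 0) / ((z 1 - z 0) * omega a z p *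
        (1 - t * P * ((z 2 - z 0) / (z i - z 0)))) := by
      have hi0 := hdi i hi
      have hpi := sub_ne_zero.mpr (hpz i)
      have e2 : 1 - t * P * ((z 2 - z 0) / (z i - z 0)) = -(p - z i) / (z i - z 0) := by
        rw [ht, hP]; field_simp; ring
      rw [e2, hv]
      simp only [Yc]
      rw [ht]
      field_simp
      ring
    rw [zero_mul, zero_mul, sub_zero, mul_one] at hq
    rw [e1]; exact hq
  have har : ∀ i, ExpandC.HasRes O (a i) (resK O (a i)) := fun i => ExpandC.hasRes_self (ha i)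
  have hAR0 : 1 - resK O (a 0) - resK O (a 1) ≠ 0 := by
    have := (hgA.avoid Finset.univ Finset.univ_nonempty).2.1
    rw [Fin.sum_univ_two, hAF] at this
    simp only [Matrix.cons_val_zero, Matrix.cons_val_one] at this
    intro h; exact this (by linear_combination -h)
  obtain ⟨AR, hAR⟩ : ∃ AR, AR = 1 - resK O (a 0) - resK O (a 1) := ⟨_, rfl⟩
  rw [← hAR] at hAR0 ⊢
  obtain ⟨B2, hB2⟩ : ∃ B2, B2 = 1 - a 0 - a 1 := ⟨_, rfl⟩
  have hB2r : ExpandC.HasRes O B2 AR := by
    rw [hB2, hAR]; exact ((ExpandC.hasRes_one O).sub (har 0)).sub (har 1)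
  have hB20 : B2 ≠ 0 := fun h => by
    have := hB2r.val hAR0
    rw [h, map_zero] at this
    exact zero_ne_one this
  have hS0r : ExpandC.HasRes O (1 - ∑ i, a i) (1 - ∑ i, resK O (a i)) :=
    (ExpandC.hasRes_one O).sub (ExpandC.HasRes.sum _ _ _ fun i _ => har i)
  have hsplit := ExpandC.sum_all a
  have hsplit' := ExpandC.sum_all (fun i => resK O (a i))
  have hsumv : ExpandC.HasRes O (∑ i ∈ Finset.univ.filter (fun i : Fin (m + 3) => 2 ≤ i),
      a i * v i) (∑ i ∈ Finset.univ.filter (fun i : Fin (m + 3) => 2 ≤ i),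
      resK O (a i) * (resK O ((z 2 - z 0) / (z i - z 0)) / omega AF ![0, 1] P')) :=
    ExpandC.HasRes.sum _ _ _ fun i hi => (har i).mul (hvr i (Finset.mem_filter.mp hi).2)
  obtain ⟨e, he⟩ : ∃ e, e = (∑ i ∈ Finset.univ.filter (fun i : Fin (m + 3) => 2 ≤ i),
      a i * v i) / B2 := ⟨_, rfl⟩
  obtain ⟨E, hE⟩ : ∃ E, E = (∑ i ∈ Finset.univ.filter (fun i : Fin (m + 3) => 2 ≤ i),
      resK O (a i) * (resK O ((z 2 - z 0) / (z i - z 0)) / omega AF ![0, 1] P')) / AR := ⟨_, rfl⟩
  have her : ExpandC.HasRes O e E := by rw [he, hE]; exact hsumv.div hB2r hAR0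
  have hl2r : ExpandC.HasRes O (1 + t * e) 1 := by
    have := (ExpandC.hasRes_one O).add (htr.mul her)
    rw [zero_mul, add_zero] at this
    exact this
  have hYr0 : ExpandC.HasRes O (Yc a z p 0) (Yc AF ![0, 1] P' 0) := by
    refine ⟨(O.valuation_le_one_iff _).mp (hYv 0).le, ?_⟩
    rw [(hYin 0 0 (by simp [ExpandC.bl])).2, hP', hP]
  have hYr1 : ExpandC.HasRes O (Yc a z p 1) (Yc AF ![0, 1] P' 1) := by
    refine ⟨(O.valuation_le_one_iff _).mp (hYv 1).le, ?_⟩
    rw [(hYin 1 1 (by simp [ExpandC.bl])).2, hP', hP]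
  have hpzA := root_ne hgA hinj P' hroot
  have hY0ne := root_Y hgA hinj P' hroot 0
  have hY1ne := root_Y hgA hinj P' hroot 1
  have hY01 : Yc AF ![0, 1] P' 0 ≠ Yc AF ![0, 1] P' 1 := fun h =>
    absurd (Y_injective AF ![0, 1] hinj P' hpzA hW0 h) (by decide)
  have hY0one := Y_ne_one AF ![0, 1] P' 0 (hpzA 0) hW0
  have hY1one := Y_ne_one AF ![0, 1] P' 1 (hpzA 1) hW0
  have ha0 := (avoid_single hg 0).1
  have ha1 := (avoid_single hg 1).1
  have hlt : ∀ {x : K}, x ∈ O → O.valuation x ≤ 1 := fun h => (O.valuation_le_one_iff _).mpr h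
  have hYl : ∀ i, 2 ≤ i → Yc a z p i - (1 + t * e) = t * (v i - e) := fun i _ => by
    rw [hYv']; ring
  have hve : ∀ i, 2 ≤ i → O.valuation (v i - e) ≤ 1 := fun i hi =>
    hlt ((hvr i hi).sub her).mem
  have htpos : 0 < O.valuation t := zero_lt_iff.mpr ((Valuation.ne_zero_iff _).mpr ht0)
  -- the second moment of the third cluster
  obtain ⟨mR, hmR⟩ : ∃ mR, mR = ∑ i ∈ Finset.univ.filter (fun i : Fin (m + 3) => 2 ≤ i),
      a i * (v i - e) ^ 2 + (1 - ∑ i, a i) * e ^ 2 := ⟨_, rfl⟩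
  have hmom : ∑ i ∈ Finset.univ.filter (fun i : Fin (m + 3) => 2 ≤ i),
      a i * (Yc a z p i - (1 + t * e)) ^ 2 + (1 - ∑ i, a i) * (1 - (1 + t * e)) ^ 2 =
      t ^ 2 * mR := by
    rw [hmR, mul_add, Finset.mul_sum]
    congr 1
    · refine Finset.sum_congr rfl fun i hi => ?_
      rw [hYl i (Finset.mem_filter.mp hi).2]; ring
    · ring
  have hmRr : ExpandC.HasRes O mR ((AR * (∑ j ∈ Finset.univ.filter (fun j => 2 ≤ j),
          resK O (a j) * resK O ((z 2 - z 0) / (z j - z 0)) ^ 2)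
        - (∑ j ∈ Finset.univ.filter (fun j => 2 ≤ j), resK O (a j) *
          resK O ((z 2 - z 0) / (z j - z 0))) ^ 2) / (AR * omega AF ![0, 1] P' ^ 2)) := by
    have h3 := ExpandC.moment (Finset.univ.filter (fun i : Fin (m + 3) => 2 ≤ i))
      (fun i => resK O (a i)) (fun j => resK O ((z 2 - z 0) / (z j - z 0)))
      (omega AF ![0, 1] P') AR (1 - ∑ i, resK O (a i)) hW0 hAR0
      (by rw [hsplit', hAR]; ring)
    rw [← hE] at h3
    rw [← h3, hmR]
    refine ExpandC.HasRes.add (ExpandC.HasRes.sum _ _ _ fun i hi => ?_) (hS0r.mul (her.pow 2))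
    exact (har i).mul (((hvr i (Finset.mem_filter.mp hi).2).sub her).pow 2)
  have hexp := expansion O (κ := Option (Fin (m + 3))) (fun o => o.elim (1 - ∑ i, a i) a)
    (fun o => o.elim 1 (Yc a z p)) ExpandC.cl ![a 0, a 1, B2]
    ![Yc a z p 0, Yc a z p 1, 1 + t * e] (t ^ 2) ?_ ?_ ?_ ?_ ?_ ?_ ?_ ?_ ?_ ?_ ?_ ?_ ?_
  · have i1 : (2 : Fin 3) + 1 = 0 := rfl
    have i2 : (2 : Fin 3) + 2 = 1 := rfl
    have i3 : (1 : Fin 3) + 1 = 2 := rfl
    have i4 : (1 : Fin 3) + 2 = 0 := rfl
    rw [Fin.sum_univ_three, ExpandC.sum_zero, ExpandC.sum_one, ExpandC.sum_two,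
      Fintype.sum_option, Fintype.sum_option] at hexp
    simp only [Option.elim, i1, i2, i3, i4, Matrix.cons_val] at hexp
    rw [hmom, sub_self, sub_self] at hexp
    have hM : O.valuation (mult a z p - mu (a 0) (a 1) +
        (1 - 3 * B2) * (1 + t * e - Yc a z p 0) ^ 2 * (1 + t * e - Yc a z p 1) ^ 2 /
          ((1 + t * e) ^ 4 * Yc a z p 0 * Yc a z p 1) * (t ^ 2 * mR)) < O.valuation (t ^ 2) := by
      have e1 : mult a z p = ((1 - ∑ i, a i) * 1 ^ 2 + ∑ i, a i * Yc a z p i ^ 2) *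
          ((1 - ∑ i, a i) / 1 ^ 2 + ∑ i, a i / Yc a z p i ^ 2) := by
        unfold mult; ring
      rw [e1]
      convert hexp using 2
      ring
    have hd : O.valuation ((mult a z p - mu (a 0) (a 1)) / t ^ 2 +
        (1 - 3 * B2) * (1 + t * e - Yc a z p 0) ^ 2 * (1 + t * e - Yc a z p 1) ^ 2 /
          ((1 + t * e) ^ 4 * Yc a z p 0 * Yc a z p 1) * mR) < 1 := by
      have e1 : (mult a z p - mu (a 0) (a 1)) / t ^ 2 +
        (1 - 3 * B2) * (1 + t * e - Yc a z p 0) ^ 2 * (1 + t * e - Yc a z p 1) ^ 2 /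
          ((1 + t * e) ^ 4 * Yc a z p 0 * Yc a z p 1) * mR = (mult a z p - mu (a 0) (a 1) +
        (1 - 3 * B2) * (1 + t * e - Yc a z p 0) ^ 2 * (1 + t * e - Yc a z p 1) ^ 2 /
          ((1 + t * e) ^ 4 * Yc a z p 0 * Yc a z p 1) * (t ^ 2 * mR)) / t ^ 2 := by
        field_simp
      rw [e1, map_div₀]
      exact (div_lt_one₀ (by rw [map_pow]; exact pow_pos htpos 2)).mpr hM
    have h3r : ExpandC.HasRes O (3 : K) 3 := by
      have := ExpandC.hasRes_nat O 3
      exact_mod_cast this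
    have hC := (((((ExpandC.hasRes_one O).sub (h3r.mul hB2r)).mul ((hl2r.sub hYr0).pow 2)).mul
      ((hl2r.sub hYr1).pow 2)).div (((hl2r.pow 4).mul hYr0).mul hYr1)
      (by rw [one_pow, one_mul]; exact mul_ne_zero hY0ne hY1ne)).mul hmRr
    have hfin := (ExpandC.hasRes_of_lt hd).sub hC
    rw [add_sub_cancel_right, ht] at hfin
    convert hfin using 1
    generalize (∑ j ∈ Finset.univ.filter (fun j : Fin (m + 3) => 2 ≤ j),
          resK O (a j) * resK O ((z 2 - z 0) / (z j - z 0)) ^ 2) = x1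
    generalize (∑ j ∈ Finset.univ.filter (fun j : Fin (m + 3) => 2 ≤ j), resK O (a j) *
          resK O ((z 2 - z 0) / (z j - z 0))) = x2
    field_simp
    ring
  · intro o
    cases o with
    | none => exact hS0r.mem
    | some i => exact ha i
  · intro o
    cases o with
    | none => simp
    | some i => exact hYv i
  · refine ExpandC.forall3 ?_ ?_ ?_
    · rw [ExpandC.sum_zero]; rfl
    · rw [ExpandC.sum_one]; rfl
    · rw [ExpandC.sum_two]
      simp only [Option.elim, hB2, hsplit, Matrix.cons_val]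
      ring
  · refine ExpandC.forall3 ?_ ?_ ?_
    · exact (har 0).val ha0
    · exact (har 1).val ha1
    · exact hB2r.val hAR0
  · refine ExpandC.forall3 ?_ ?_ ?_
    · rw [ExpandC.sum_zero]; rfl
    · rw [ExpandC.sum_one]; rfl
    · rw [ExpandC.sum_two]
      simp only [Option.elim]
      have h3 : ∑ i ∈ Finset.univ.filter (fun i : Fin (m + 3) => 2 ≤ i), a i * Yc a z p i =
          ∑ i ∈ Finset.univ.filter (fun i : Fin (m + 3) => 2 ≤ i), a i +
          t * ∑ i ∈ Finset.univ.filter (fun i : Fin (m + 3) => 2 ≤ i), a i * v i := by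
        rw [Finset.mul_sum, ← Finset.sum_add_distrib]
        refine Finset.sum_congr rfl fun i _ => ?_
        rw [hYv']; ring
      have h4 : B2 * e = ∑ i ∈ Finset.univ.filter (fun i : Fin (m + 3) => 2 ≤ i), a i * v i := by
        rw [he]; field_simp
      rw [h3, ← h4, hsplit]
      simp only [Matrix.cons_val]
      linear_combination hB2
  · refine ExpandC.forall3 ?_ ?_ ?_
    · exact hYv 0
    · exact hYv 1
    · exact hl2r.val _root_.one_ne_zero
  · intro c c' hcc
    have k01 : O.valuation (Yc a z p 0 - Yc a z p 1) = 1 :=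
      (hYr0.sub hYr1).val (sub_ne_zero.mpr hY01)
    have k02 : O.valuation (Yc a z p 0 - (1 + t * e)) = 1 :=
      (hYr0.sub hl2r).val (sub_ne_zero.mpr hY0one)
    have k12 : O.valuation (Yc a z p 1 - (1 + t * e)) = 1 :=
      (hYr1.sub hl2r).val (sub_ne_zero.mpr hY1one)
    have hs : ∀ x y : K, O.valuation (x - y) = 1 → O.valuation (y - x) = 1 := fun x y h => by
      rw [← Valuation.map_neg, neg_sub]; exact h
    fin_cases c <;> fin_cases c'
    · exact absurd rfl hcc
    · exact k01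
    · exact k02
    · exact hs _ _ k01
    · exact absurd rfl hcc
    · exact k12
    · exact hs _ _ k02
    · exact hs _ _ k12
    · exact absurd rfl hcc
  · rw [Fintype.sum_option]
    simp
  · rw [Fintype.sum_option]
    have := sum_aY (a := a) hpz hw
    simp only [Option.elim]
    linear_combination this
  · rw [Fintype.sum_option]
    have := root_sum_inv hgK hz p hp
    simp only [Option.elim]
    linear_combination this
  · rw [map_pow]
    exact pow_lt_one₀ zero_le htv two_ne_zero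
  · refine ExpandC.forall3 ?_ ?_ ?_
    · rw [ExpandC.sum_zero]; simp
    · rw [ExpandC.sum_one]; simp
    · rw [ExpandC.sum_two]
      simp only [Option.elim, Matrix.cons_val]
      rw [hmom, map_mul]
      exact mul_le_of_le_one_right' (hlt hmRr.mem)
  · intro o
    have key : ∀ x : K, O.valuation x ≤ 1 → O.valuation (t * x) ^ 3 < O.valuation (t ^ 2) := by
      intro x hx
      rw [map_mul, map_pow, mul_pow]
      calc O.valuation t ^ 3 * O.valuation x ^ 3 ≤ O.valuation t ^ 3 * 1 := by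
            gcongr
            exact pow_le_one₀ zero_le hx
        _ = O.valuation t ^ 2 * O.valuation t := by rw [mul_one, pow_succ]
        _ < O.valuation t ^ 2 * 1 := by
            exact mul_lt_mul_of_pos_left htv (pow_pos htpos 2)
        _ = O.valuation t ^ 2 := mul_one _
    cases o with
    | none =>
      have := key (-e) (by rw [Valuation.map_neg]; exact hlt her.mem)
      simp only [Option.elim, ExpandC.cl, Matrix.cons_val]
      have e1 : 1 - (1 + t * e) = t * (-e) := by ring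
      rw [e1]; exact this
    | some i =>
      have hz3 := key 0 (by simp)
      rw [mul_zero] at hz3
      simp only [Option.elim, ExpandC.cl]
      split_ifs with h0 h1
      · rw [h0]; simp only [Matrix.cons_val]; rw [sub_self]; exact hz3
      · rw [h1]; simp only [Matrix.cons_val]; rw [sub_self]; exact hz3
      · have hi := (ExpandC.two_le i).mpr ⟨h0, h1⟩
        simp only [Matrix.cons_val]
        rw [hYl i hi]
        exact key _ (hve i hi)

theorem ratio_sq {m : ℕ} (a z z' : Fin (m + 3) → K) (ha : ∀ i, a i ∈ O)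
    (hg : GenW (fun i => resK O (a i))) (hz : Function.Injective z) (hz' : Function.Injective z')
    (h1 : O.valuation (z 1 - z 0) < O.valuation (z 2 - z 0))
    (h1' : O.valuation (z' 1 - z' 0) < O.valuation (z' 2 - z' 0))
    (h2 : ∀ j, 2 ≤ j → O.valuation (z 2 - z 0) ≤ O.valuation (z j - z 0))
    (h2' : ∀ j, 2 ≤ j → O.valuation (z' 2 - z' 0) ≤ O.valuation (z' j - z' 0))
    (hu : ∀ j, 2 ≤ j → resK O ((z 2 - z 0) / (z j - z 0)) = resK O ((z' 2 - z' 0) / (z' j - z' 0)))
    (hw : (1 - resK O (a 0) - resK O (a 1)) *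
        (∑ j ∈ Finset.univ.filter (fun j => 2 ≤ j), resK O (a j) *
          resK O ((z 2 - z 0) / (z j - z 0)) ^ 2)
        - (∑ j ∈ Finset.univ.filter (fun j => 2 ≤ j), resK O (a j) *
          resK O ((z 2 - z 0) / (z j - z 0))) ^ 2 ≠ 0)
    (p p' : K) (hp : (PhiZ a z).IsRoot p) (hp' : (PhiZ a z').IsRoot p')
    (hM : mult a z p = mult a z' p')
    (hgood : GoodAt O ![resK O (a 0), resK O (a 1)] ![0, 1] (z 0) (z 1 - z 0) p)
    (hgood' : GoodAt O ![resK O (a 0), resK O (a 1)] ![0, 1] (z' 0) (z' 1 - z' 0) p') :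
    O.valuation ((((z' 1 - z' 0) / (z' 2 - z' 0)) / ((z 1 - z 0) / (z 2 - z 0))) ^ 2 - 1) < 1 := by
  have hR := ExpandC.reduces O a z hz h1 h2
  have hgA : GenW ![resK O (a 0), resK O (a 1)] :=
    genW_reduced (fun i => resK O (a i)) hg ExpandC.bl hR.hsurj _ hR.hA
  have hA := ExpandC.single O a z ha hg hz h1 h2 p _ _ _ rfl hp hgood rfl rfl
  have hA' := ExpandC.single O a z' ha hg hz' h1' h2' p' _ _ _ rfl hp' hgood' rfl rfl
  have hsym := ExpandC.symm ![resK O (a 0), resK O (a 1)] ![0, 1] hgA hR.hζ _ _ hgood.2 hgood'.2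
  have hu1 : ∑ j ∈ Finset.univ.filter (fun j : Fin (m + 3) => 2 ≤ j), resK O (a j) *
      resK O ((z 2 - z 0) / (z j - z 0)) = ∑ j ∈ Finset.univ.filter
      (fun j : Fin (m + 3) => 2 ≤ j), resK O (a j) * resK O ((z' 2 - z' 0) / (z' j - z' 0)) :=
    Finset.sum_congr rfl fun j hj => by rw [hu j (Finset.mem_filter.mp hj).2]
  have hu2 : ∑ j ∈ Finset.univ.filter (fun j : Fin (m + 3) => 2 ≤ j), resK O (a j) *
      resK O ((z 2 - z 0) / (z j - z 0)) ^ 2 = ∑ j ∈ Finset.univ.filter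
      (fun j : Fin (m + 3) => 2 ≤ j), resK O (a j) *
      resK O ((z' 2 - z' 0) / (z' j - z' 0)) ^ 2 :=
    Finset.sum_congr rfl fun j hj => by rw [hu j (Finset.mem_filter.mp hj).2]
  rw [← hu1, ← hu2, ← hsym, ← hM] at hA'
  obtain ⟨c, hc⟩ : ∃ c, c = (-((1 - 3 * (1 - resK O (a 0) - resK O (a 1))) /
        (1 - resK O (a 0) - resK O (a 1)) *
        ((1 - resK O (a 0) - resK O (a 1)) *
        (∑ j ∈ Finset.univ.filter (fun j => 2 ≤ j), resK O (a j) *
          resK O ((z 2 - z 0) / (z j - z 0)) ^ 2)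
        - (∑ j ∈ Finset.univ.filter (fun j => 2 ≤ j), resK O (a j) *
          resK O ((z 2 - z 0) / (z j - z 0))) ^ 2) *
        ((1 - Yc ![resK O (a 0), resK O (a 1)] ![0, 1] (resK O ((p - z 0) / (z 1 - z 0))) 0) ^ 2 *
        (1 - Yc ![resK O (a 0), resK O (a 1)] ![0, 1] (resK O ((p - z 0) / (z 1 - z 0))) 1) ^ 2 /
        (Yc ![resK O (a 0), resK O (a 1)] ![0, 1] (resK O ((p - z 0) / (z 1 - z 0))) 0 *
        Yc ![resK O (a 0), resK O (a 1)] ![0, 1] (resK O ((p - z 0) / (z 1 - z 0))) 1 *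
        omega ![resK O (a 0), resK O (a 1)] ![0, 1]
          (resK O ((p - z 0) / (z 1 - z 0))) ^ 2)))) := ⟨_, rfl⟩
  rw [← hc] at hA hA'
  have hav := hgA.avoid Finset.univ Finset.univ_nonempty
  rw [Fin.sum_univ_two] at hav
  simp only [Matrix.cons_val_zero, Matrix.cons_val_one] at hav
  have hroot := hgood.2
  have hpA := root_ne hgA hR.hζ _ hroot
  have hwA := root_omega hgA hR.hζ _ hroot
  have hc0 : c ≠ 0 := by
    rw [hc]
    refine neg_ne_zero.mpr (mul_ne_zero (mul_ne_zero (div_ne_zero ?_ ?_) hw)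
      (div_ne_zero (mul_ne_zero (pow_ne_zero _ ?_) (pow_ne_zero _ ?_))
        (mul_ne_zero (mul_ne_zero ?_ ?_) (pow_ne_zero _ hwA))))
    · intro h; exact hav.2.2.2.2 (by linear_combination h)
    · intro h; exact hav.2.1 (by linear_combination -h)
    · exact sub_ne_zero.mpr (Y_ne_one _ _ _ _ (hpA 0) hwA).symm
    · exact sub_ne_zero.mpr (Y_ne_one _ _ _ _ (hpA 1) hwA).symm
    · exact root_Y hgA hR.hζ _ hroot 0
    · exact root_Y hgA hR.hζ _ hroot 1
  have hq := hA.div hA' hc0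
  rw [div_self hc0] at hq
  have h21 : (2 : Fin (m + 3)) ≠ 0 := ((ExpandC.two_le 2).mp le_rfl).1
  have e1 := sub_ne_zero.mpr (hz.ne (ExpandC.one_ne_zero (m := m)))
  have e2 := sub_ne_zero.mpr (hz.ne h21)
  have e1' := sub_ne_zero.mpr (hz'.ne (ExpandC.one_ne_zero (m := m)))
  have e2' := sub_ne_zero.mpr (hz'.ne h21)
  have hM0 : mult a z p - mu (a 0) (a 1) ≠ 0 := by
    intro h
    have := hA.val hc0
    rw [h, zero_div, map_zero] at this
    exact zero_ne_one this
  have e3 : (mult a z p - mu (a 0) (a 1)) / ((z 1 - z 0) / (z 2 - z 0)) ^ 2 /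
      ((mult a z p - mu (a 0) (a 1)) / ((z' 1 - z' 0) / (z' 2 - z' 0)) ^ 2) =
      (((z' 1 - z' 0) / (z' 2 - z' 0)) / ((z 1 - z 0) / (z 2 - z 0))) ^ 2 := by
    field_simp
  rw [e3] at hq
  have := hq.sub (ExpandC.hasRes_one O)
  rw [sub_self] at this
  exact this.val_lt

end

end Pool.Agent.Lib.MP_740d3f_ag
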