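import Pool.Agent.Lib.MP_740d3f_ag.Defs

set_option autoImplicit false

/-! # Field theory, part B: valuations and automorphisms -/

namespace Pool.Agent.Lib.MP_740d3f_ag
noncomputable section

private theorem FieldB.mul_lt {K : Type*} [Field K] (O : ValuationSubring K) {x y : K} (hx : x ∈ O)
    (hy : O.valuation y < 1) : O.valuation (x * y) < 1 := by
  rw [map_mul]
  have h1 : O.valuation x ≤ 1 := (O.valuation_le_one_iff _).mpr hx
  calc O.valuation x * O.valuation y ≤ 1 * O.valuation y := mul_le_mul_left h1 _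
    _ = O.valuation y := one_mul _
    _ < 1 := hy

private theorem FieldB.val_of_mem {Ω : Type*} [Field Ω] (k₀ : Subfield Ω)
    (O : ValuationSubring Ω) (hO : ∀ x ∈ k₀, x ∈ O) (x : Ω) (hx : x ∈ k₀) (hx0 : x ≠ 0) :
    O.valuation x = 1 := by
  have h1 : O.valuation x ≤ 1 := (O.valuation_le_one_iff _).mpr (hO x hx)
  have h2 : O.valuation x⁻¹ ≤ 1 := (O.valuation_le_one_iff _).mpr (hO _ (k₀.inv_mem hx))
  rw [map_inv₀] at h2
  have h3 : O.valuation x ≠ 0 := by simpa using hx0
  exact le_antisymm h1 ((inv_le_one₀ (zero_lt_iff.mpr h3)).mp h2)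

private theorem FieldB.closure_eq {Ω : Type*} [Field Ω] (k₀ : Subfield Ω) (s : Set Ω) :
    Subfield.closure ((k₀ : Set Ω) ∪ s) = (IntermediateField.adjoin k₀ s).toSubfield := by
  have : Set.range (algebraMap k₀ Ω) = (k₀ : Set Ω) := by
    ext x; constructor
    · rintro ⟨y, rfl⟩; exact y.2
    · intro hx; exact ⟨⟨x, hx⟩, rfl⟩
  rw [← this]
  rfl

open MvPolynomial in
private theorem FieldB.small_sub {Ω : Type*} [Field Ω] (k₀ : Subfield Ω) {ι : Type*} (t : ι → Ω)
    (O : ValuationSubring Ω) (hO : ∀ x ∈ k₀, x ∈ O) (ht : ∀ j, O.valuation (t j) < 1)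
    (P : MvPolynomial ι k₀) :
    O.valuation (aeval t P - (constantCoeff P : k₀)) < 1 := by
  induction P using MvPolynomial.induction_on with
  | C a =>
    have : aeval t (C a) - ((constantCoeff (C a : MvPolynomial ι k₀) : k₀) : Ω) = 0 := by
      rw [aeval_C, constantCoeff_C]
      exact sub_self _
    rw [this]
    simp
  | add p q hp hq =>
    have : aeval t (p + q) - ((constantCoeff (p + q) : k₀) : Ω)
        = (aeval t p - (constantCoeff p : k₀)) + (aeval t q - (constantCoeff q : k₀)) := by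
      simp only [map_add]
      push_cast
      ring
    rw [this]
    exact O.valuation.map_add_lt hp hq
  | mul_X p i hp =>
    have h1 : aeval t p ∈ O := by
      have h2 : aeval t p = (aeval t p - (constantCoeff p : k₀)) + (constantCoeff p : k₀) := by ring
      rw [h2]
      exact O.add_mem _ _ (O.mem_of_valuation_le_one _ hp.le) (hO _ (constantCoeff p).2)
    have h3 : aeval t (p * X i) - ((constantCoeff (p * X i) : k₀) : Ω) = aeval t p * t i := by
      simp
    rw [h3]
    exact FieldB.mul_lt O h1 (ht i)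

open MvPolynomial in
private theorem FieldB.exists_num_den {Ω : Type*} [Field Ω] (k₀ : Subfield Ω) {ι : Type*} (t : ι → Ω)
    (ht : AlgebraicIndependent k₀ t) (ν : Ω)
    (hν : ν ∈ Subfield.closure ((k₀ : Set Ω) ∪ Set.range t)) :
    ∃ F G : MvPolynomial ι k₀, IsRelPrime F G ∧ G ≠ 0 ∧ ν = aeval t F / aeval t G := by
  rw [FieldB.closure_eq] at hν
  obtain ⟨F, G, hFG⟩ := (IntermediateField.mem_adjoin_range_iff k₀ t ν).mp hν
  by_cases hG : G = 0
  · refine ⟨0, 1, isRelPrime_one_right, one_ne_zero, ?_⟩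
    rw [hFG, hG]; simp
  · obtain ⟨F', G', c, hrel, hF, hG'⟩ := UniqueFactorizationMonoid.exists_reduced_factors' F G hG
    have hG0 : G' ≠ 0 := by
      rintro rfl
      apply hG
      rw [← hG', mul_zero]
    have hc0 : c ≠ 0 := by
      rintro rfl
      apply hG
      rw [← hG', zero_mul]
    refine ⟨F', G', hrel, hG0, ?_⟩
    rw [hFG, ← hF, ← hG', map_mul, map_mul]
    have hc : aeval t c ≠ 0 := by
      intro h
      exact hc0 ((injective_iff_map_eq_zero _).mp ht c h)
    rw [mul_div_mul_left _ _ hc]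

/-- composite valuation ring -/
private def FieldB.cmp {K : Type*} [Field K] (O₁ : ValuationSubring K)
    (V : ValuationSubring (IsLocalRing.ResidueField O₁)) : ValuationSubring K :=
  ValuationSubring.ofSubring
    (Subring.map O₁.subtype (Subring.comap (IsLocalRing.residue O₁) V.toSubring)) (by
      intro x
      rcases O₁.mem_or_inv_mem x with hx | hx
      · by_cases hu : IsUnit (⟨x, hx⟩ : O₁)
        · obtain ⟨u, hu'⟩ := hu
          rcases V.mem_or_inv_mem (IsLocalRing.residue O₁ ⟨x, hx⟩) with h | h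
          · exact Or.inl ⟨⟨x, hx⟩, h, rfl⟩
          · right
            refine ⟨(u⁻¹ : O₁ˣ), ?_, ?_⟩
            · change IsLocalRing.residue O₁ ((u⁻¹ : O₁ˣ) : O₁) ∈ V
              have h1 : IsLocalRing.residue O₁ ((u⁻¹ : O₁ˣ) : O₁)
                  = (IsLocalRing.residue O₁ ⟨x, hx⟩)⁻¹ := by
                rw [← hu']
                have := map_units_inv (IsLocalRing.residue O₁) u
                exact this
              rw [h1]; exact h
            · have h2 : ((u⁻¹ : O₁ˣ) : O₁) * ⟨x, hx⟩ = 1 := by rw [← hu']; simp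
              have h3 : (((u⁻¹ : O₁ˣ) : O₁) : K) * x = 1 := by
                have := congrArg (Subtype.val) h2
                exact this
              exact eq_inv_of_mul_eq_one_left h3
        · left
          refine ⟨⟨x, hx⟩, ?_, rfl⟩
          change IsLocalRing.residue O₁ ⟨x, hx⟩ ∈ V
          have : IsLocalRing.residue O₁ ⟨x, hx⟩ = 0 := by
            rw [IsLocalRing.residue_eq_zero_iff]
            exact hu
          rw [this]
          exact V.zero_mem
      · by_cases hu : IsUnit (⟨x⁻¹, hx⟩ : O₁)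
        · obtain ⟨u, hu'⟩ := hu
          rcases V.mem_or_inv_mem (IsLocalRing.residue O₁ ⟨x⁻¹, hx⟩) with h | h
          · exact Or.inr ⟨⟨x⁻¹, hx⟩, h, rfl⟩
          · left
            refine ⟨(u⁻¹ : O₁ˣ), ?_, ?_⟩
            · change IsLocalRing.residue O₁ ((u⁻¹ : O₁ˣ) : O₁) ∈ V
              have h1 : IsLocalRing.residue O₁ ((u⁻¹ : O₁ˣ) : O₁)
                  = (IsLocalRing.residue O₁ ⟨x⁻¹, hx⟩)⁻¹ := by
                rw [← hu']
                have := map_units_inv (IsLocalRing.residue O₁) u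
                exact this
              rw [h1]; exact h
            · have h2 : ((u⁻¹ : O₁ˣ) : O₁) * ⟨x⁻¹, hx⟩ = 1 := by rw [← hu']; simp
              have h3 : (((u⁻¹ : O₁ˣ) : O₁) : K) * x⁻¹ = 1 := by
                have := congrArg (Subtype.val) h2
                exact this
              have h4 := eq_inv_of_mul_eq_one_left h3
              rw [inv_inv] at h4
              exact h4
        · right
          refine ⟨⟨x⁻¹, hx⟩, ?_, rfl⟩
          change IsLocalRing.residue O₁ ⟨x⁻¹, hx⟩ ∈ V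
          have : IsLocalRing.residue O₁ ⟨x⁻¹, hx⟩ = 0 := by
            rw [IsLocalRing.residue_eq_zero_iff]
            exact hu
          rw [this]
          exact V.zero_mem)

private theorem FieldB.mem_cmp {K : Type*} [Field K] (O₁ : ValuationSubring K)
    (V : ValuationSubring (IsLocalRing.ResidueField O₁)) (x : K) :
    x ∈ FieldB.cmp O₁ V ↔ ∃ h : x ∈ O₁, IsLocalRing.residue O₁ ⟨x, h⟩ ∈ V := by
  constructor
  · rintro ⟨⟨y, hy⟩, hy', rfl⟩
    exact ⟨hy, hy'⟩
  · rintro ⟨h, h'⟩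
    exact ⟨⟨x, h⟩, h', rfl⟩

private theorem FieldB.cmp_le {K : Type*} [Field K] (O₁ : ValuationSubring K)
    (V : ValuationSubring (IsLocalRing.ResidueField O₁)) : FieldB.cmp O₁ V ≤ O₁ := by
  intro x hx
  exact ((FieldB.mem_cmp O₁ V x).mp hx).1

private theorem FieldB.lt_of_le {K : Type*} [Field K] {O O₁ : ValuationSubring K} (h : O ≤ O₁)
    {x : K} (hx : O₁.valuation x < 1) : O.valuation x < 1 :=
  ValuationSubring.nonunits_le_nonunits.mpr h hx

private theorem FieldB.cmp_lt {K : Type*} [Field K] (O₁ : ValuationSubring K)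
    (V : ValuationSubring (IsLocalRing.ResidueField O₁)) (x : K) (h : x ∈ O₁)
    (hV : V.valuation (IsLocalRing.residue O₁ ⟨x, h⟩) < 1) :
    (FieldB.cmp O₁ V).valuation x < 1 := by
  rw [← ValuationSubring.mem_nonunits_iff, ValuationSubring.mem_nonunits_iff_or]
  by_contra hcon
  push Not at hcon
  obtain ⟨hx0, hx1⟩ := hcon
  obtain ⟨h2, h3⟩ := (FieldB.mem_cmp O₁ V _).mp hx1
  have h4 : (⟨x, h⟩ : O₁) * ⟨x⁻¹, h2⟩ = 1 := Subtype.ext (mul_inv_cancel₀ hx0)
  have h5 := congrArg (IsLocalRing.residue O₁) h4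
  rw [map_mul, map_one] at h5
  have h6 := FieldB.mul_lt V h3 hV
  rw [mul_comm, h5, map_one] at h6
  exact lt_irrefl _ h6

/-- first step: a valuation ring with `t` in the maximal ideal, containing a field over which `t`
is transcendental -/
private theorem FieldB.exists_step {Ω : Type*} [Field Ω] (F : Subfield Ω) (t : Ω)
    (ht : Transcendental F t) : ∃ O : ValuationSubring Ω, (∀ x ∈ F, x ∈ O) ∧ O.valuation t < 1 := by
  have ht0 : t ≠ 0 := by
    rintro rfl
    exact ht isAlgebraic_zero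
  have key : Ideal.span {(⟨t, Algebra.subset_adjoin rfl⟩ : Algebra.adjoin F {t})} ≠ ⊤ := by
    intro h
    rw [Ideal.span_singleton_eq_top] at h
    obtain ⟨u, hu⟩ := h.exists_right_inv
    obtain ⟨q, hq⟩ := (Algebra.adjoin_mem_exists_aeval F t u.2)
    have h1 : t * (u : Ω) = 1 := congrArg Subtype.val hu
    rw [← hq] at h1
    have h2 : Polynomial.aeval t (Polynomial.X * q - 1) = 0 := by
      rw [map_sub, map_mul, Polynomial.aeval_X, map_one, h1, sub_self]
    have h3 : Polynomial.X * q - 1 = 0 := by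
      by_contra hne
      exact ht ⟨_, hne, h2⟩
    have h4 := congrArg (Polynomial.eval 0) h3
    simp at h4
  obtain ⟨V, hV1, hV2⟩ := Ideal.image_subset_nonunits_valuationSubring
    (A := (Algebra.adjoin F {t}).toSubring) _ key
  refine ⟨V, fun x hx => hV1 ((Algebra.adjoin F {t}).algebraMap_mem ⟨x, hx⟩), ?_⟩
  exact hV2 ⟨_, Ideal.subset_span rfl, rfl⟩

private theorem FieldB.exists_step' {Ω : Type*} [Field Ω] (k₀ : Subfield Ω) {r : ℕ}
    (t : Fin (r + 1) → Ω) (ht : AlgebraicIndependent k₀ t) :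
    ∃ O₁ : ValuationSubring Ω,
      (∀ x ∈ Subfield.closure ((k₀ : Set Ω) ∪ t '' {j | j ≠ 0}), x ∈ O₁) ∧
      O₁.valuation (t 0) < 1 := by
  apply FieldB.exists_step
  rw [FieldB.closure_eq]
  have h1 : Transcendental (Algebra.adjoin k₀ (t '' {j | j ≠ 0})) (t 0) :=
    ht.transcendental_adjoin (by simp)
  have h2 : Transcendental (IntermediateField.adjoin k₀ (t '' {j | j ≠ 0})) (t 0) :=
    IntermediateField.transcendental_adjoin_iff.mpr h1
  exact h2

/-- residue map on a ring mapping into the valuation ring -/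
private def FieldB.res {A Ω : Type*} [CommRing A] [Field Ω] (O : ValuationSubring Ω) (i : A →+* Ω)
    (h : ∀ a, i a ∈ O) : A →+* IsLocalRing.ResidueField O :=
  (IsLocalRing.residue O).comp
    { toFun := fun a => ⟨i a, h a⟩
      map_one' := Subtype.ext (map_one i)
      map_mul' := fun a b => Subtype.ext (map_mul i a b)
      map_zero' := Subtype.ext (map_zero i)
      map_add' := fun a b => Subtype.ext (map_add i a b) }

private theorem FieldB.res_apply {A Ω : Type*} [CommRing A] [Field Ω] (O : ValuationSubring Ω)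
    (i : A →+* Ω) (h : ∀ a, i a ∈ O) (a : A) :
    FieldB.res O i h a = IsLocalRing.residue O ⟨i a, h a⟩ := rfl

private theorem FieldB.exists_val_main.{u} {r : ℕ}
    (IH : ∀ {Ω : Type u} [Field Ω] (k₀ : Subfield Ω)
      (t : Fin r → Ω) (_ : AlgebraicIndependent k₀ t),
      ∃ O : ValuationSubring Ω, (∀ x ∈ k₀, x ∈ O) ∧
        (∀ i j, i < j → O.valuation (t i) < O.valuation (t j)) ∧
        ∀ j, O.valuation (t j) < 1)
    {Ω : Type u} [Field Ω] (k₀ : Subfield Ω) (t : Fin (r + 1) → Ω)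
    (ht : AlgebraicIndependent k₀ t) :
    ∃ O O₁ : ValuationSubring Ω, O ≤ O₁ ∧ (∀ x ∈ k₀, x ∈ O) ∧
      (∀ x ∈ Subfield.closure ((k₀ : Set Ω) ∪ t '' {j | j ≠ 0}), x ∈ O₁) ∧
      O₁.valuation (t 0) < 1 ∧ (∀ i j, i < j → O.valuation (t i) < O.valuation (t j)) ∧
      ∀ j, O.valuation (t j) < 1 := by
  obtain ⟨O₁, hO₁, h0⟩ := FieldB.exists_step' k₀ t ht
  have hO₁' : ∀ x ∈ Subfield.closure ((k₀ : Set Ω) ∪ t '' {j | j ≠ 0}), x ∈ O₁ := hO₁
  rw [FieldB.closure_eq] at hO₁
  set F := IntermediateField.adjoin k₀ (t '' {j | j ≠ 0}) with hF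
  have hFO : ∀ a : F, algebraMap F Ω a ∈ O₁ := fun a => hO₁ _ a.2
  have hkF : ∀ a : k₀, algebraMap k₀ Ω a ∈ O₁ := fun a => hO₁ _ (F.algebraMap_mem a)
  let ψ := FieldB.res O₁ (algebraMap F Ω) hFO
  let φ := FieldB.res O₁ (algebraMap k₀ Ω) hkF
  let K₀ : Subfield (IsLocalRing.ResidueField O₁) := φ.fieldRange
  have htF : ∀ j : Fin r, t j.succ ∈ F := fun j =>
    IntermediateField.subset_adjoin _ _ ⟨j.succ, Fin.succ_ne_zero j, rfl⟩
  let tF : Fin r → F := fun j => ⟨t j.succ, htF j⟩
  have htF' : AlgebraicIndependent k₀ tF := by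
    have h1 : AlgebraicIndependent k₀ (fun j : Fin r => t j.succ) :=
      ht.comp _ (Fin.succ_injective r)
    have h2 := (F.val.algebraicIndependent_iff (x := tF) F.val.injective)
    exact h2.mp h1
  have hres : AlgebraicIndependent K₀ (ψ ∘ tF) := by
    refine htF'.ringHom_of_comp_eq (f := φ.rangeRestrictField) (g := ψ)
      (by rintro ⟨y, x, rfl⟩; exact ⟨x, rfl⟩) ψ.injective ?_
    ext a
    rfl
  obtain ⟨V, hV1, hV2, hV3⟩ := IH K₀ (ψ ∘ tF) hres
  have hmem : ∀ j : Fin r, t j.succ ∈ O₁ := fun j => hO₁ _ (htF j)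
  have hψ : ∀ j : Fin r, (ψ ∘ tF) j = IsLocalRing.residue O₁ ⟨t j.succ, hmem j⟩ := fun j => rfl
  have hle : FieldB.cmp O₁ V ≤ O₁ := FieldB.cmp_le O₁ V
  have htne : ∀ j, t j ≠ 0 := fun j => ht.ne_zero j
  have hO₁u : ∀ j : Fin r, O₁.valuation (t j.succ) = 1 := fun j =>
    FieldB.val_of_mem _ O₁ hO₁' _ (Subfield.subset_closure
      (Or.inr ⟨j.succ, Fin.succ_ne_zero j, rfl⟩)) (htne _)
  have hlt : ∀ x y : Ω, y ≠ 0 → (FieldB.cmp O₁ V).valuation (x / y) < 1 →
      (FieldB.cmp O₁ V).valuation x < (FieldB.cmp O₁ V).valuation y := by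
    intro x y hy hxy
    rw [map_div₀] at hxy
    have hy' : (FieldB.cmp O₁ V).valuation y ≠ 0 := by simpa using hy
    exact (div_lt_one₀ (zero_lt_iff.mpr hy')).mp hxy
  refine ⟨FieldB.cmp O₁ V, O₁, hle, ?_, hO₁', h0, ?_, ?_⟩
  · intro x hx
    rw [FieldB.mem_cmp]
    refine ⟨hkF ⟨x, hx⟩, ?_⟩
    exact hV1 _ ⟨⟨x, hx⟩, rfl⟩
  · intro i j hij
    apply hlt _ _ (htne j)
    obtain ⟨j, rfl⟩ := Fin.exists_succ_eq.mpr (Fin.ne_zero_of_lt hij)
    rcases Fin.eq_zero_or_eq_succ i with rfl | ⟨i, rfl⟩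
    · apply FieldB.lt_of_le hle
      rw [map_div₀, hO₁u, div_one]
      exact h0
    · have hij' : i < j := Fin.succ_lt_succ_iff.mp hij
      have hdiv : t i.succ / t j.succ ∈ O₁ := by
        apply O₁.mem_of_valuation_le_one
        rw [map_div₀, hO₁u, hO₁u, div_one]
      apply FieldB.cmp_lt O₁ V _ hdiv
      have h1 : (⟨t i.succ / t j.succ, hdiv⟩ : O₁) * ⟨t j.succ, hmem j⟩ = ⟨t i.succ, hmem i⟩ :=
        Subtype.ext (div_mul_cancel₀ _ (htne _))
      have h2 := congrArg (fun z => V.valuation (IsLocalRing.residue O₁ z)) h1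
      simp only [map_mul] at h2
      have h3 := hV2 i j hij'
      rw [hψ, hψ, ← h2] at h3
      by_contra hcon
      push Not at hcon
      have h4 : V.valuation (IsLocalRing.residue O₁ ⟨t j.succ, hmem j⟩)
          ≤ V.valuation (IsLocalRing.residue O₁ ⟨t i.succ / t j.succ, hdiv⟩) *
            V.valuation (IsLocalRing.residue O₁ ⟨t j.succ, hmem j⟩) := by
        calc V.valuation (IsLocalRing.residue O₁ ⟨t j.succ, hmem j⟩)
            = 1 * V.valuation (IsLocalRing.residue O₁ ⟨t j.succ, hmem j⟩) := (one_mul _).symm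
          _ ≤ _ := mul_le_mul_left hcon _
      exact absurd h3 (not_lt.mpr h4)
  · intro j
    rcases Fin.eq_zero_or_eq_succ j with rfl | ⟨j, rfl⟩
    · exact FieldB.lt_of_le hle h0
    · exact FieldB.cmp_lt O₁ V _ (hmem j) (hV3 j)

private theorem FieldB.exists_val_aux.{u} (r : ℕ) : ∀ {Ω : Type u} [Field Ω] (k₀ : Subfield Ω)
    (t : Fin r → Ω) (_ : AlgebraicIndependent k₀ t),
    ∃ O : ValuationSubring Ω, (∀ x ∈ k₀, x ∈ O) ∧
      (∀ i j, i < j → O.valuation (t i) < O.valuation (t j)) ∧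
      ∀ j, O.valuation (t j) < 1 := by
  induction r with
  | zero =>
    intro Ω _ k₀ t _
    exact ⟨⊤, fun x _ => ValuationSubring.mem_top x, fun i => i.elim0, fun i => i.elim0⟩
  | succ r ih =>
    intro Ω _ k₀ t ht
    obtain ⟨O, O₁, _, h1, _, _, h2, h3⟩ := FieldB.exists_val_main ih k₀ t ht
    exact ⟨O, h1, h2, h3⟩

theorem exists_val {Ω : Type*} [Field Ω] (k₀ : Subfield Ω) {r : ℕ} (t : Fin (r + 1) → Ω)
    (ht : AlgebraicIndependent k₀ t) :
    ∃ O O₁ : ValuationSubring Ω, O ≤ O₁ ∧ (∀ x ∈ k₀, x ∈ O) ∧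
      (∀ x ∈ Subfield.closure ((k₀ : Set Ω) ∪ t '' {j | j ≠ 0}), x ∈ O₁) ∧
      O₁.valuation (t 0) < 1 ∧ (∀ i j, i < j → O.valuation (t i) < O.valuation (t j)) ∧
      ∀ j, O.valuation (t j) < 1 :=
  FieldB.exists_val_main (FieldB.exists_val_aux r) k₀ t ht

open MvPolynomial in
theorem transfer {Ω : Type*} [Field Ω] (k₀ : Subfield Ω) {r : ℕ} (t : Fin r → Ω)
    (ht : AlgebraicIndependent k₀ t) (ν : Ω)
    (hν : ν ∈ Subfield.closure ((k₀ : Set Ω) ∪ Set.range t))
    (h1 : ∀ O : ValuationSubring Ω, (∀ x ∈ k₀, x ∈ O) → (∀ j, O.valuation (t j) < 1) → ν ∈ O)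
    (O' : ValuationSubring Ω) (hO' : ∀ x ∈ k₀, x ∈ O') (ht' : ∀ j, O'.valuation (t j) < 1)
    (h2 : O'.valuation (ν - 1) < 1)
    (O : ValuationSubring Ω) (hO : ∀ x ∈ k₀, x ∈ O) (htO : ∀ j, O.valuation (t j) < 1) :
    O.valuation (ν - 1) < 1 := by
  obtain ⟨F, G, hrel, hG0, hFG⟩ := FieldB.exists_num_den k₀ t ht ν hν
  have hinj : Function.Injective (aeval t : MvPolynomial (Fin r) k₀ →ₐ[k₀] Ω) := ht
  have hGt : aeval t G ≠ 0 := by
    intro h
    exact hG0 ((injective_iff_map_eq_zero _).mp hinj G h)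
  by_cases hg : constantCoeff G = 0
  · exfalso
    -- find a valuation ring not containing ν
    have hν0 : ν ≠ 0 := by
      rintro rfl
      have hF0 : aeval t F = 0 := by
        rcases div_eq_zero_iff.mp hFG.symm with h | h
        · exact h
        · exact absurd h hGt
      have hF0' : F = 0 := (injective_iff_map_eq_zero _).mp hinj F hF0
      rw [hF0'] at hrel
      have : IsUnit G := isRelPrime_zero_left.mp hrel
      have h3 := this.map (constantCoeff (R := k₀) (σ := Fin r))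
      rw [hg] at h3
      exact not_isUnit_zero h3
    let _ : Algebra (MvPolynomial (Fin r) k₀) Ω := (aeval t).toRingHom.toAlgebra
    have halg : ∀ p, algebraMap (MvPolynomial (Fin r) k₀) Ω p = aeval t p := fun p => rfl
    let _ : Invertible ν⁻¹ := invertibleOfNonzero (inv_ne_zero hν0)
    let I : Ideal (MvPolynomial (Fin r) k₀) := RingHom.ker (constantCoeff (R := k₀) (σ := Fin r))
    have hI : I ≠ ⊤ := by
      intro h
      have h3 : (1 : MvPolynomial (Fin r) k₀) ∈ I := by rw [h]; trivial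
      rw [RingHom.mem_ker, map_one] at h3
      exact one_ne_zero h3
    have key : (I.map (algebraMap (MvPolynomial (Fin r) k₀)
        (Algebra.adjoin (MvPolynomial (Fin r) k₀) {ν⁻¹}))
        ⊔ Ideal.span {⟨ν⁻¹, Algebra.subset_adjoin rfl⟩}) ≠ ⊤ := by
      intro h
      obtain ⟨p, hp1, hp2⟩ :=
        Algebra.exists_aeval_invOf_eq_zero_of_idealMap_adjoin_sup_span_eq_top ν⁻¹ I hI h
      rw [invOf_eq_inv, inv_inv, Polynomial.aeval_def, hFG] at hp2
      have hp3 := Polynomial.scaleRoots_eval₂_eq_zero_of_eval₂_div_eq_zero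
        (f := algebraMap (MvPolynomial (Fin r) k₀) Ω) hinj hp2 (mem_nonZeroDivisors_of_ne_zero hG0)
      have hp4 : (Polynomial.scaleRoots p G).IsRoot F := by
        rw [Polynomial.eval₂_hom] at hp3
        exact (injective_iff_map_eq_zero _).mp hinj _ hp3
      have hp5 : G ∣ (Polynomial.scaleRoots p G).coeff p.natDegree * F ^ p.natDegree := by
        refine Polynomial.dvd_term_of_isRoot_of_dvd_terms _ hp4 ?_
        intro j hj
        rw [Polynomial.coeff_scaleRoots]
        rcases lt_or_gt_of_ne hj with h | h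
        · refine (dvd_mul_of_dvd_right ?_ _).mul_right _
          exact dvd_pow_self G (by omega)
        · rw [Polynomial.coeff_eq_zero_of_natDegree_lt h]
          simp
      rw [Polynomial.coeff_scaleRoots_natDegree] at hp5
      have hp6 : G ∣ p.leadingCoeff := by
        have h6 : IsRelPrime G (F ^ p.natDegree) := (hrel.symm).pow_right
        exact h6.dvd_of_dvd_mul_right hp5
      obtain ⟨c, hc⟩ := hp6
      have h7 : constantCoeff (p.leadingCoeff - 1) = 0 := hp1
      rw [hc, map_sub, map_mul, hg, zero_mul, map_one, zero_sub, neg_eq_zero] at h7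
      exact one_ne_zero h7
    obtain ⟨V, hV1, hV2⟩ := Ideal.image_subset_nonunits_valuationSubring
      (A := (Algebra.adjoin (MvPolynomial (Fin r) k₀) {ν⁻¹}).toSubring) _ key
    have hVmem : ∀ p : MvPolynomial (Fin r) k₀, aeval t p ∈ V := fun p =>
      hV1 ((Algebra.adjoin (MvPolynomial (Fin r) k₀) {ν⁻¹}).algebraMap_mem p)
    have hVI : ∀ p : MvPolynomial (Fin r) k₀, constantCoeff p = 0 → V.valuation (aeval t p) < 1 := by
      intro p hp
      have h3 : algebraMap (MvPolynomial (Fin r) k₀)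
          (Algebra.adjoin (MvPolynomial (Fin r) k₀) {ν⁻¹}) p ∈
          (I.map (algebraMap (MvPolynomial (Fin r) k₀)
          (Algebra.adjoin (MvPolynomial (Fin r) k₀) {ν⁻¹}))
          ⊔ Ideal.span {⟨ν⁻¹, Algebra.subset_adjoin rfl⟩}) :=
        Ideal.mem_sup_left (Ideal.mem_map_of_mem _ hp)
      exact hV2 ⟨_, h3, rfl⟩
    have hVν : V.valuation ν⁻¹ < 1 := by
      have h3 : (⟨ν⁻¹, Algebra.subset_adjoin rfl⟩ : Algebra.adjoin (MvPolynomial (Fin r) k₀) {ν⁻¹}) ∈
          (I.map (algebraMap (MvPolynomial (Fin r) k₀)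
          (Algebra.adjoin (MvPolynomial (Fin r) k₀) {ν⁻¹}))
          ⊔ Ideal.span {⟨ν⁻¹, Algebra.subset_adjoin rfl⟩}) :=
        Ideal.mem_sup_right (Ideal.subset_span rfl)
      exact hV2 ⟨_, h3, rfl⟩
    have h4 := h1 V (fun x hx => by
      have := hVmem (C ⟨x, hx⟩)
      rwa [aeval_C] at this) (fun j => by
      have := hVI (X j) (by simp)
      rwa [aeval_X] at this)
    have h5 := FieldB.mul_lt V h4 hVν
    rw [mul_inv_cancel₀ hν0, map_one] at h5
    exact lt_irrefl _ h5
  · -- ν is congruent to f(0)/g(0)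
    set c : k₀ := constantCoeff F / constantCoeff G with hc
    have hgu : ∀ O : ValuationSubring Ω, (∀ x ∈ k₀, x ∈ O) → (∀ j, O.valuation (t j) < 1) →
        O.valuation (ν - c) < 1 := by
      intro O hO ht
      have hG1 := FieldB.small_sub k₀ t O hO ht G
      have hF1 := FieldB.small_sub k₀ t O hO ht F
      have hg' : ((constantCoeff G : k₀) : Ω) ≠ 0 := by
        intro h
        exact hg (by exact_mod_cast h)
      have hg1 := FieldB.val_of_mem k₀ O hO _ (constantCoeff G).2 hg'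
      have hG2 : O.valuation (aeval t G) = 1 := by
        have : aeval t G = (aeval t G - (constantCoeff G : k₀)) + (constantCoeff G : k₀) := by ring
        rw [this, O.valuation.map_add_eq_of_lt_right (by rw [hg1]; exact hG1)]
        exact hg1
      have e1 : ν - c = ((aeval t F - (constantCoeff F : k₀))
          - c * (aeval t G - (constantCoeff G : k₀))) / aeval t G := by
        have e2 : (c : Ω) * (constantCoeff G : k₀) = (constantCoeff F : k₀) := by
          rw [hc]
          push_cast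
          field_simp
        rw [hFG]
        field_simp
        rw [← e2]
        ring
      rw [e1, map_div₀, hG2, div_one]
      refine O.valuation.map_sub_lt hF1 ?_
      exact FieldB.mul_lt O (hO _ c.2) hG1
    have hc1 : (c : Ω) - 1 = 0 := by
      by_contra hne
      have h3 := FieldB.val_of_mem k₀ O' hO' _ (k₀.sub_mem c.2 k₀.one_mem) hne
      have h4 := hgu O' hO' ht'
      have e : (c : Ω) - 1 = (ν - 1) - (ν - c) := by ring
      have h5 : O'.valuation ((c : Ω) - 1) < 1 := by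
        rw [e]; exact O'.valuation.map_sub_lt h2 h4
      rw [h3] at h5
      exact lt_irrefl _ h5
    have h6 := hgu O hO htO
    have e : ν - 1 = ν - c := by
      have : (c : Ω) = 1 := by linear_combination hc1
      rw [this]
    rw [e]
    exact h6

/-- elements which are units of every valuation ring containing `k₀` are algebraic over `k₀` -/
theorem isAlgebraic_of_units {Ω : Type*} [Field Ω] (k₀ : Subfield Ω) (x : Ω)
    (h : ∀ O : ValuationSubring Ω, (∀ y ∈ k₀, y ∈ O) → x ∈ O) : IsAlgebraic k₀ x := by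
  have h1 : x ∈ (⨅ V : {V : ValuationSubring Ω // (k₀ : Set Ω) ⊆ V.toSubring}, V.1.toSubring) := by
    rw [Subring.mem_iInf]
    intro V
    exact h V.1 V.2
  rw [iInf_valuationSubring_superset] at h1
  have h2 : IsIntegral (Subring.closure (k₀ : Set Ω)) x := h1
  obtain ⟨p, hp, hpx⟩ := h2
  have hle : Subring.closure (k₀ : Set Ω) ≤ k₀.toSubring := Subring.closure_le.mpr fun y hy => hy
  apply IsIntegral.isAlgebraic
  refine ⟨p.map (Subring.inclusion hle), hp.map _, ?_⟩
  rw [Polynomial.eval₂_map]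
  exact hpx

open MvPolynomial in
private theorem FieldB.scale_one {Ω : Type*} [Field Ω] [IsAlgClosed Ω] [CharZero Ω] (E : Subfield Ω)
    (x : Ω) (hx : Transcendental E x) : ∃ σ : Ω ≃ₐ[E] Ω, σ x = 2 * x := by
  classical
  have hs : AlgebraicIndepOn E id ({x} : Set Ω) := by
    unfold AlgebraicIndepOn
    rw [algebraicIndependent_singleton_iff ⟨x, rfl⟩]
    exact hx
  obtain ⟨B, hxB, hB⟩ := exists_isTranscendenceBasis_superset hs
  have hxB' : x ∈ B := hxB rfl
  set v : B → Ω := Subtype.val with hv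
  have _ := IsAlgClosed.isAlgClosure_of_transcendence_basis v hB
  let c : B → E := fun b => if (b : Ω) = x then 2 else 1
  have hc : ∀ b, c b ≠ 0 := by
    intro b
    simp only [c]
    split_ifs
    · exact two_ne_zero
    · exact one_ne_zero
  let τ : MvPolynomial B E ≃ₐ[E] MvPolynomial B E :=
    AlgEquiv.ofAlgHom (aeval fun b => C (c b) * X b) (aeval fun b => C (c b)⁻¹ * X b)
      (by
        ext b
        simp only [AlgHom.coe_comp, Function.comp_apply, aeval_X, map_mul, AlgHom.coe_id, id,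
          algHom_C, algebraMap_eq]
        rw [← mul_assoc, ← map_mul, inv_mul_cancel₀ (hc b), map_one, one_mul])
      (by
        ext b
        simp only [AlgHom.coe_comp, Function.comp_apply, aeval_X, map_mul, AlgHom.coe_id, id,
          algHom_C, algebraMap_eq]
        rw [← mul_assoc, ← map_mul, mul_inv_cancel₀ (hc b), map_one, one_mul])
  let e : Algebra.adjoin E (Set.range v) ≃ₐ[E] Algebra.adjoin E (Set.range v) :=
    (hB.1.aevalEquiv.symm.trans τ).trans hB.1.aevalEquiv
  let σ := IsAlgClosure.equivOfEquiv Ω Ω e.toRingEquiv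
  have hσ : ∀ a : Algebra.adjoin E (Set.range v), σ (a : Ω) = (e a : Ω) := fun a =>
    IsAlgClosure.equivOfEquiv_algebraMap Ω Ω e.toRingEquiv a
  refine ⟨AlgEquiv.ofRingEquiv (f := σ) ?_, ?_⟩
  · intro a
    have := hσ (algebraMap E _ a)
    rw [e.commutes] at this
    exact this
  · have h1 : x = ((hB.1.aevalEquiv (X ⟨x, hxB'⟩) : Algebra.adjoin E (Set.range v)) : Ω) := by
      have h2 := hB.1.algebraMap_aevalEquiv (X ⟨x, hxB'⟩)
      rw [aeval_X] at h2
      exact h2.symm
    change σ x = 2 * x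
    conv_lhs => rw [h1]
    rw [hσ]
    have h2 : e (hB.1.aevalEquiv (X ⟨x, hxB'⟩)) = hB.1.aevalEquiv (τ (X ⟨x, hxB'⟩)) := by
      simp [e]
    rw [h2]
    have h3 : τ (X ⟨x, hxB'⟩) = C (c ⟨x, hxB'⟩) * X ⟨x, hxB'⟩ := by
      simp [τ]
    have h4 : c ⟨x, hxB'⟩ = 2 := by simp [c]
    rw [h3, h4]
    have h5 := AlgebraicIndependent.algebraMap_aevalEquiv hB.1 (C 2 * X ⟨x, hxB'⟩)
    have h6 : algebraMap (Algebra.adjoin E (Set.range v)) Ω (hB.1.aevalEquiv (C 2 * X ⟨x, hxB'⟩))
      = ((hB.1.aevalEquiv (C 2 * X ⟨x, hxB'⟩) : Algebra.adjoin E (Set.range v)) : Ω) := rfl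
    rw [← h6, h5, map_mul, aeval_C, aeval_X, map_ofNat]

theorem exists_scale {Ω : Type*} [Field Ω] [IsAlgClosed Ω] [CharZero Ω] (E : Subfield Ω)
    {ι : Type*} [Finite ι] (t : ι → Ω)
    (h : Algebra.IsAlgebraic (Subfield.closure ((E : Set Ω) ∪ Set.range t)) Ω)
    (hna : ¬ Algebra.IsAlgebraic E Ω) :
    ∃ (σ : Ω ≃ₐ[E] Ω) (i : ι), t i ≠ 0 ∧ σ (t i) = 2 * t i := by
  by_cases hall : ∀ i, IsAlgebraic E (t i)
  · exfalso
    apply hna
    rw [FieldB.closure_eq] at h
    have h1 : Algebra.IsAlgebraic E (IntermediateField.adjoin E (Set.range t)) := by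
      refine IntermediateField.isAlgebraic_adjoin ?_
      rintro _ ⟨i, rfl⟩
      exact (hall i).isIntegral
    have h2 : Algebra.IsAlgebraic (IntermediateField.adjoin E (Set.range t)) Ω := h
    exact Algebra.IsAlgebraic.trans E (IntermediateField.adjoin E (Set.range t)) Ω
  · push Not at hall
    obtain ⟨i, hi⟩ := hall
    obtain ⟨σ, hσ⟩ := FieldB.scale_one E (t i) hi
    refine ⟨σ, i, ?_, hσ⟩
    intro h0
    apply hi
    rw [h0]
    exact isAlgebraic_zero

theorem mem_of_fixed {Ω : Type*} [Field Ω] [IsAlgClosed Ω] [CharZero Ω] (E : Subfield Ω)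
    (h : Algebra.IsAlgebraic E Ω) (y : Ω) (hy : ∀ σ : Ω ≃ₐ[E] Ω, σ y = y) : y ∈ E := by
  have _ : IsAlgClosure E Ω := ⟨inferInstance, h⟩
  have _ : IsGalois E Ω := ⟨⟩
  obtain ⟨z, hz⟩ := (InfiniteGalois.mem_range_algebraMap_iff_fixed (k := E) y).mpr hy
  rw [← hz]
  exact z.2

open Polynomial in
private theorem FieldB.reps {Ω : Type*} [Field Ω] [IsAlgClosed Ω] [CharZero Ω] (E : Subfield Ω)
    (h : Algebra.IsAlgebraic E Ω) (t : Ω) :
    ∃ S : Finset (Ω ≃ₐ[E] Ω), (∀ σ : Ω ≃ₐ[E] Ω, ∃ ρ ∈ S, ρ t = σ t) ∧ S.Nonempty ∧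
      (minpoly E t).map (algebraMap E Ω) = ∏ ρ ∈ S, (X - C (ρ t)) := by
  classical
  have _ : IsAlgClosure E Ω := ⟨inferInstance, h⟩
  have halg : IsAlgebraic E t := h.isAlgebraic t
  have hmono : ((minpoly E t).map (algebraMap E Ω)).Monic := (minpoly.monic halg.isIntegral).map _
  have hsep : (minpoly E t).Separable := (minpoly.irreducible halg.isIntegral).separable
  set R : Finset Ω := ((minpoly E t).map (algebraMap E Ω)).roots.toFinset with hR
  have hnodup : ((minpoly E t).map (algebraMap E Ω)).roots.Nodup :=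
    Polynomial.nodup_roots (hsep.map)
  have hex : ∀ y : Ω, y ∈ R → ∃ σ : Ω ≃ₐ[E] Ω, σ t = y := by
    intro y hy
    rw [hR, Multiset.mem_toFinset, Polynomial.mem_roots hmono.ne_zero, IsRoot.def,
      eval_map_algebraMap] at hy
    exact minpoly.exists_algEquiv_of_root' halg hy
  choose! g hg using hex
  have hmemR : ∀ σ : Ω ≃ₐ[E] Ω, σ t ∈ R := by
    intro σ
    rw [hR, Multiset.mem_toFinset, Polynomial.mem_roots hmono.ne_zero, IsRoot.def,
      eval_map_algebraMap]
    have := minpoly.aeval E t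
    rw [show σ t = (σ : Ω →ₐ[E] Ω) t from rfl, Polynomial.aeval_algHom_apply, this, map_zero]
  refine ⟨R.image g, fun σ => ⟨g (σ t), Finset.mem_image_of_mem _ (hmemR σ), hg _ (hmemR σ)⟩,
    ⟨g t, Finset.mem_image_of_mem _ ?_⟩, ?_⟩
  · have := hmemR (AlgEquiv.refl)
    simpa using this
  · rw [Finset.prod_image]
    · have h1 : ∏ y ∈ R, (X - C (g y t)) = ∏ y ∈ R, (X - C y) :=
        Finset.prod_congr rfl fun y hy => by rw [hg y hy]
      rw [h1, hR]
      have h2 := (IsAlgClosed.splits ((minpoly E t).map (algebraMap E Ω))).eq_prod_roots_of_monic hmono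
      conv_lhs => rw [h2]
      rw [Finset.prod_multiset_map_count]
      refine Finset.prod_congr rfl fun y hy => ?_
      rw [Multiset.count_eq_one_of_mem hnodup (Multiset.mem_toFinset.mp hy), pow_one]
    · intro y hy y' hy' hyy
      have : g y t = g y' t := by rw [hyy]
      rwa [hg y hy, hg y' hy'] at this

open Polynomial in
/-- the norm-like element `∏ (1 + σ(t)/t)/2` over the conjugates lies in any field containing
`E` and `t`, and its value is tied to the individual factors -/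
theorem exists_nu {Ω : Type*} [Field Ω] [IsAlgClosed Ω] [CharZero Ω] (E L : Subfield Ω)
    (hEL : E ≤ L) (h : Algebra.IsAlgebraic E Ω) (t : Ω) (ht : t ∈ L) (ht0 : t ≠ 0) :
    ∃ ν ∈ L, ∃ S : Finset (Ω ≃ₐ[E] Ω), (∀ σ : Ω ≃ₐ[E] Ω, ∃ ρ ∈ S, ρ t = σ t) ∧
      ν = ∏ ρ ∈ S, ((1 + ρ t / t) / 2) := by
  obtain ⟨S, hS1, _, hS2⟩ := FieldB.reps E h t
  refine ⟨_, ?_, S, hS1, rfl⟩
  have h1 : ∏ ρ ∈ S, ((1 + ρ t / t) / 2) = ((minpoly E t).map (algebraMap E Ω)).eval (-t)
      / (-(2 * t)) ^ S.card := by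
    rw [hS2, eval_prod, ← Finset.prod_const, ← Finset.prod_div_distrib]
    refine Finset.prod_congr rfl fun ρ _ => ?_
    rw [eval_sub, eval_X, eval_C]
    field_simp
    ring
  rw [h1]
  refine L.div_mem ?_ (L.pow_mem (L.neg_mem (L.mul_mem (ofNat_mem L 2) ht)) _)
  rw [eval_map]
  have h2 : ∀ p : Polynomial E, Polynomial.eval₂ (algebraMap E Ω) (-t) p ∈ L := by
    intro p
    rw [Polynomial.eval₂_eq_sum_range]
    exact L.sum_mem fun i _ => L.mul_mem (hEL (p.coeff i).2) (L.pow_mem (L.neg_mem ht) _)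
  exact h2 _

open Polynomial in
theorem delta {Ω : Type*} [Field Ω] [IsAlgClosed Ω] [CharZero Ω] (k₀ E : Subfield Ω)
    (hk : k₀ ≤ E) {r : ℕ} (t : Fin (r + 1) → Ω) (ht : AlgebraicIndependent k₀ t)
    (hE : E ≤ Subfield.closure ((k₀ : Set Ω) ∪ Set.range t))
    (halg : Algebra.IsAlgebraic E Ω) (O₁ : ValuationSubring Ω)
    (hf : ∀ x ∈ Subfield.closure ((k₀ : Set Ω) ∪ t '' {j | j ≠ 0}), x ∈ O₁)
    (h0 : O₁.valuation (t 0) < 1)
    (hσ : ∀ σ : Ω ≃ₐ[E] Ω, O₁.valuation (σ (t 0) / t 0 - 1) < 1 ∧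
      ∀ j, j ≠ 0 → O₁.valuation (σ (t j) - t j) < 1) :
    ∀ j, t j ∈ E := by
  classical
  have ht0 : t 0 ≠ 0 := ht.ne_zero 0
  set F₁ := Subfield.closure ((k₀ : Set Ω) ∪ t '' {j | j ≠ 0}) with hF₁
  have hkO : ∀ x ∈ k₀, x ∈ O₁ := fun x hx => hf x (Subfield.subset_closure (Or.inl hx))
  have htO : ∀ j, t j ∈ O₁ := by
    intro j
    by_cases hj : j = 0
    · rw [hj]; exact O₁.mem_of_valuation_le_one _ h0.le
    · exact hf _ (Subfield.subset_closure (Or.inr ⟨j, hj, rfl⟩))
  -- the good set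
  have main : ∀ (σ : Ω ≃ₐ[E] Ω) (y : Ω), y ∈ Subfield.closure ((k₀ : Set Ω) ∪ Set.range t) →
      y ≠ 0 → O₁.valuation (σ y / y - 1) < 1 := by
    intro σ
    -- subring `T`
    let T : Subring Ω :=
      { carrier := {c | c ∈ O₁ ∧ O₁.valuation (σ c - c) < 1}
        mul_mem' := by
          rintro a b ⟨ha, ha'⟩ ⟨hb, hb'⟩
          refine ⟨O₁.mul_mem _ _ ha hb, ?_⟩
          have hσa : σ a ∈ O₁ := by
            have : σ a = (σ a - a) + a := by ring
            rw [this]
            exact O₁.add_mem _ _ (O₁.mem_of_valuation_le_one _ ha'.le) ha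
          have e : σ (a * b) - a * b = σ a * (σ b - b) + b * (σ a - a) := by
            rw [map_mul]; ring
          rw [e]
          exact O₁.valuation.map_add_lt (FieldB.mul_lt O₁ hσa hb') (FieldB.mul_lt O₁ hb ha')
        one_mem' := ⟨O₁.one_mem, by simp⟩
        add_mem' := by
          rintro a b ⟨ha, ha'⟩ ⟨hb, hb'⟩
          refine ⟨O₁.add_mem _ _ ha hb, ?_⟩
          have e : σ (a + b) - (a + b) = (σ a - a) + (σ b - b) := by
            rw [map_add]; ring
          rw [e]
          exact O₁.valuation.map_add_lt ha' hb'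
        zero_mem' := ⟨O₁.zero_mem, by simp⟩
        neg_mem' := by
          rintro a ⟨ha, ha'⟩
          refine ⟨O₁.neg_mem _ ha, ?_⟩
          have e : σ (-a) - (-a) = -(σ a - a) := by
            rw [map_neg]; ring
          rw [e, Valuation.map_neg]
          exact ha' }
    have hTinv : ∀ c ∈ T, O₁.valuation c = 1 → c⁻¹ ∈ T := by
      rintro c ⟨hc, hc'⟩ hc1
      have hc0 : c ≠ 0 := by
        rintro rfl
        simp at hc1
      have hci : c⁻¹ ∈ O₁ := by
        apply O₁.mem_of_valuation_le_one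
        rw [map_inv₀, hc1, inv_one]
      have hσc : O₁.valuation (σ c) = 1 := by
        have e : σ c = (σ c - c) + c := by ring
        rw [e, O₁.valuation.map_add_eq_of_lt_right (by rw [hc1]; exact hc'), hc1]
      have hσc0 : σ c ≠ 0 := by
        intro h
        rw [h] at hσc
        simp at hσc
      refine ⟨hci, ?_⟩
      have e : σ c⁻¹ - c⁻¹ = (-(c⁻¹ * (σ c)⁻¹)) * (σ c - c) := by
        rw [map_inv₀]
        field_simp
        ring
      rw [e]
      refine FieldB.mul_lt O₁ ?_ hc'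
      refine O₁.neg_mem _ (O₁.mul_mem _ _ hci (O₁.mem_of_valuation_le_one _ ?_))
      rw [map_inv₀, hσc, inv_one]
    have hF₁u : ∀ c ∈ F₁, c ≠ 0 → O₁.valuation c = 1 := fun c hc hc0 =>
      FieldB.val_of_mem F₁ O₁ hf c hc hc0
    have hF₁T : ∀ c ∈ F₁, c ∈ T := by
      intro c hc
      induction hc using Subfield.closure_induction with
      | mem x hx =>
        rcases hx with hx | ⟨j, hj, rfl⟩
        · refine ⟨hkO x hx, ?_⟩
          have : σ x = x := σ.commutes (⟨x, hk hx⟩ : E)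
          rw [this, sub_self, map_zero]
          exact zero_lt_one
        · exact ⟨htO j, (hσ σ).2 j hj⟩
      | one => exact T.one_mem
      | add x y _ _ hx hy => exact T.add_mem hx hy
      | neg x _ hx => exact T.neg_mem hx
      | inv x hx' hx =>
        by_cases hx0 : x = 0
        · rw [hx0, inv_zero]; exact T.zero_mem
        · exact hTinv x hx (hF₁u x hx' hx0)
      | mul x y _ _ hx hy => exact T.mul_mem hx hy
    have ht0T : t 0 ∈ T := by
      refine ⟨htO 0, ?_⟩
      have e : σ (t 0) - t 0 = t 0 * (σ (t 0) / t 0 - 1) := by field_simp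
      rw [e]
      exact FieldB.mul_lt O₁ (htO 0) (hσ σ).1
    have hPT : ∀ P : Polynomial F₁, aeval (t 0) P ∈ T := by
      intro P
      rw [aeval_eq_sum_range]
      refine T.sum_mem fun i _ => ?_
      rw [Algebra.smul_def]
      exact T.mul_mem (hF₁T _ (P.coeff i).2) (T.pow_mem ht0T _)
    -- good elements
    have hgood_mul : ∀ a b : Ω, a ≠ 0 → b ≠ 0 → O₁.valuation (σ a / a - 1) < 1 →
        O₁.valuation (σ b / b - 1) < 1 → O₁.valuation (σ (a * b) / (a * b) - 1) < 1 := by
      intro a b ha hb h1 h2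
      have hx : σ a / a ∈ O₁ := by
        have : σ a / a = (σ a / a - 1) + 1 := by ring
        rw [this]
        exact O₁.add_mem _ _ (O₁.mem_of_valuation_le_one _ h1.le) O₁.one_mem
      have e : σ (a * b) / (a * b) - 1 = (σ a / a) * (σ b / b - 1) + (σ a / a - 1) := by
        rw [map_mul]
        field_simp
        ring
      rw [e]
      exact O₁.valuation.map_add_lt (FieldB.mul_lt O₁ hx h2) h1
    have hgood_inv : ∀ a : Ω, a ≠ 0 → O₁.valuation (σ a / a - 1) < 1 →
        O₁.valuation (σ a⁻¹ / a⁻¹ - 1) < 1 := by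
      intro a ha h1
      have hx : O₁.valuation (σ a / a) = 1 := by
        have e : σ a / a = (σ a / a - 1) + 1 := by ring
        rw [e, O₁.valuation.map_add_eq_of_lt_right (by rw [map_one]; exact h1), map_one]
      have hσa : σ a ≠ 0 := by simpa using ha
      have e : σ a⁻¹ / a⁻¹ - 1 = (-(σ a / a)⁻¹) * (σ a / a - 1) := by
        rw [map_inv₀]
        field_simp
        ring
      rw [e]
      refine FieldB.mul_lt O₁ (O₁.neg_mem _ (O₁.mem_of_valuation_le_one _ ?_)) h1
      rw [map_inv₀, hx, inv_one]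
    have hgood_pow : ∀ n : ℕ, O₁.valuation (σ (t 0 ^ n) / (t 0 ^ n) - 1) < 1 := by
      intro n
      induction n with
      | zero => simp
      | succ n ih =>
        rw [pow_succ]
        exact hgood_mul _ _ (pow_ne_zero _ ht0) ht0 ih (hσ σ).1
    have hgood_poly : ∀ P : Polynomial F₁, P ≠ 0 → aeval (t 0) P ≠ 0 ∧
        O₁.valuation (σ (aeval (t 0) P) / (aeval (t 0) P) - 1) < 1 := by
      intro P hP
      obtain ⟨Q, hPQ, hQ⟩ := Polynomial.exists_eq_pow_rootMultiplicity_mul_and_not_dvd P hP 0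
      set n := P.rootMultiplicity 0 with hn
      rw [map_zero, sub_zero] at hPQ hQ
      have hQ0 : Q.coeff 0 ≠ 0 := by
        intro h
        exact hQ (Polynomial.X_dvd_iff.mpr h)
      have hQt : aeval (t 0) Q = (Q.coeff 0 : F₁) + t 0 * aeval (t 0) (divX Q) := by
        conv_lhs => rw [← divX_mul_X_add Q]
        rw [map_add, map_mul, aeval_X, aeval_C]
        change _ + ((Q.coeff 0 : F₁) : Ω) = _
        ring
      have hQ1 : O₁.valuation (aeval (t 0) Q) = 1 := by
        have h1 : O₁.valuation ((Q.coeff 0 : F₁) : Ω) = 1 :=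
          hF₁u _ (Q.coeff 0).2 (by exact_mod_cast hQ0)
        have h2 : O₁.valuation (t 0 * aeval (t 0) (divX Q)) < 1 := by
          rw [mul_comm]
          exact FieldB.mul_lt O₁ (hPT _).1 h0
        rw [hQt, O₁.valuation.map_add_eq_of_lt_left (by rw [h1]; exact h2), h1]
      have hQne : aeval (t 0) Q ≠ 0 := by
        intro h
        rw [h] at hQ1
        simp at hQ1
      have hQgood : O₁.valuation (σ (aeval (t 0) Q) / (aeval (t 0) Q) - 1) < 1 := by
        have e : σ (aeval (t 0) Q) / (aeval (t 0) Q) - 1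
            = (aeval (t 0) Q)⁻¹ * (σ (aeval (t 0) Q) - aeval (t 0) Q) := by
          field_simp
        rw [e]
        refine FieldB.mul_lt O₁ (O₁.mem_of_valuation_le_one _ ?_) (hPT Q).2
        rw [map_inv₀, hQ1, inv_one]
      have hPt : aeval (t 0) P = t 0 ^ n * aeval (t 0) Q := by
        conv_lhs => rw [hPQ]
        rw [map_mul, map_pow, aeval_X]
      rw [hPt]
      exact ⟨mul_ne_zero (pow_ne_zero _ ht0) hQne,
        hgood_mul _ _ (pow_ne_zero _ ht0) hQne (hgood_pow n) hQgood⟩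
    intro y hy hy0
    have hy1 : y ∈ IntermediateField.adjoin F₁ ({t 0} : Set Ω) := by
      have hle : Subfield.closure ((k₀ : Set Ω) ∪ Set.range t)
          ≤ (IntermediateField.adjoin F₁ ({t 0} : Set Ω)).toSubfield := by
        rw [Subfield.closure_le]
        rintro x (hx | ⟨j, rfl⟩)
        · exact (IntermediateField.adjoin F₁ ({t 0} : Set Ω)).algebraMap_mem
            ⟨x, Subfield.subset_closure (Or.inl hx)⟩
        · by_cases hj : j = 0
          · rw [hj]
            exact IntermediateField.subset_adjoin F₁ _ rfl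
          · exact (IntermediateField.adjoin F₁ ({t 0} : Set Ω)).algebraMap_mem
              ⟨t j, Subfield.subset_closure (Or.inr ⟨j, hj, rfl⟩)⟩
      exact hle hy
    obtain ⟨P, Q, hPQ⟩ := (IntermediateField.mem_adjoin_simple_iff F₁ y).mp hy1
    have hP : P ≠ 0 := by
      rintro rfl
      apply hy0
      rw [hPQ]; simp
    have hQ : Q ≠ 0 := by
      rintro rfl
      apply hy0
      rw [hPQ]; simp
    obtain ⟨hP1, hP2⟩ := hgood_poly P hP
    obtain ⟨hQ1, hQ2⟩ := hgood_poly Q hQ
    have e : y = aeval (t 0) P * (aeval (t 0) Q)⁻¹ := by rw [hPQ, div_eq_mul_inv]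
    rw [e]
    exact hgood_mul _ _ hP1 (inv_ne_zero hQ1) hP2 (hgood_inv _ hQ1 hQ2)
  -- conclusion
  intro j
  by_contra hj
  have hjL : t j ∈ Subfield.closure ((k₀ : Set Ω) ∪ Set.range t) :=
    Subfield.subset_closure (Or.inr ⟨j, rfl⟩)
  obtain ⟨S, _, hSne, hS⟩ := FieldB.reps E halg (t j)
  have hsum : ∑ ρ ∈ S, ρ (t j) ∈ E := by
    have h1 : ((minpoly E (t j)).map (algebraMap E Ω)).nextCoeff = -∑ ρ ∈ S, ρ (t j) := by
      rw [hS, Polynomial.prod_X_sub_C_nextCoeff]
    rw [Polynomial.nextCoeff_map_eq] at h1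
    have h2 : ∑ ρ ∈ S, ρ (t j) = -(((minpoly E (t j)).nextCoeff : E) : Ω) := by
      rw [eq_neg_iff_add_eq_zero, add_comm, ← eq_neg_iff_add_eq_zero]
      exact h1
    rw [h2]
    exact E.neg_mem (minpoly E (t j)).nextCoeff.2
  have hcard : (S.card : Ω) ≠ 0 := by
    exact_mod_cast hSne.card_pos.ne'
  set c : Ω := (∑ ρ ∈ S, ρ (t j)) / S.card with hc
  have hcE : c ∈ E := E.div_mem hsum (natCast_mem E _)
  set y := t j - c with hy
  have hy0 : y ≠ 0 := by
    intro h
    apply hj
    have : t j = c := by rw [hy] at h; linear_combination h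
    rw [this]; exact hcE
  have hyL : y ∈ Subfield.closure ((k₀ : Set Ω) ∪ Set.range t) := Subfield.sub_mem _ hjL (hE hcE)
  have hsum0 : ∑ ρ ∈ S, ρ y = 0 := by
    have h1 : ∀ ρ ∈ S, ρ y = ρ (t j) - c := by
      intro ρ _
      rw [hy, map_sub]
      congr 1
      exact ρ.commutes (⟨c, hcE⟩ : E)
    rw [Finset.sum_congr rfl h1, Finset.sum_sub_distrib, Finset.sum_const, nsmul_eq_mul, hc]
    field_simp
    ring
  have h1 : -(S.card : Ω) = ∑ ρ ∈ S, (ρ y / y - 1) := by
    rw [Finset.sum_sub_distrib, ← Finset.sum_div, hsum0]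
    simp
  have h2 : O₁.valuation (-(S.card : Ω)) < 1 := by
    rw [h1]
    exact O₁.valuation.map_sum_lt one_ne_zero fun ρ _ => main ρ y hyL hy0
  rw [Valuation.map_neg, FieldB.val_of_mem k₀ O₁ hkO _ (natCast_mem k₀ _) hcard] at h2
  exact lt_irrefl _ h2

end

end Pool.Agent.Lib.MP_740d3f_ag
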