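import Pool.Agent.Lib.MP_740d3f_ag.Basic
import Pool.Agent.Lib.MP_740d3f_ag.FieldA
import Pool.Agent.Lib.MP_740d3f_ag.FieldB

set_option autoImplicit false

/-! # Field theory, part C: the field of the spectrum -/

namespace Pool.Agent.Lib.MP_740d3f_ag
noncomputable section

open Polynomial in
theorem FieldC.specPoly_map {K L : Type*} [Field K] [Field L] [IsAlgClosed K] {ι : Type*}
    [Fintype ι] [DecidableEq ι] (f : K →+* L) (a z : ι → K) :
    specPoly (fun i => f (a i)) (fun i => f (z i)) = (specPoly a z).map f := by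
  unfold specPoly
  rw [Spec_map, Multiset.map_map, Polynomial.map_multiset_prod, Multiset.map_map]
  congr 1
  refine Multiset.map_congr rfl fun M _ => ?_
  simp

theorem FieldC.specField_map {K L : Type*} [Field K] [Field L] [IsAlgClosed K] {ι : Type*}
    [Fintype ι] [DecidableEq ι] (f : K →+* L) (a z : ι → K) :
    specField (fun i => f (a i)) (fun i => f (z i)) = (specField a z).map f := by
  unfold specField
  rw [RingHom.map_field_closure, Set.image_union, ← Set.range_comp, ← Set.range_comp,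
    FieldC.specPoly_map]
  congr 2
  congr 1
  funext n
  simp [Polynomial.coeff_map]

theorem FieldC.zOf_map {K L : Type*} [Field K] [Field L] (f : K →+* L) {k : ℕ} (x : Fin k → K) :
    (fun i => f (zOf x i)) = zOf (fun i => f (x i)) := by
  funext i
  unfold zOf
  refine Fin.cases ?_ (fun j => ?_) i
  · simp
  · simp only [Fin.cons_succ]
    refine Fin.lastCases ?_ (fun l => ?_) j
    · simp
    · simp

/-- roots of `specPoly` give back the spectrum -/
theorem FieldC.Spec_eq_of_specPoly {K : Type*} [Field K] {ι ι' : Type*} [Fintype ι]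
    [DecidableEq ι] [Fintype ι'] [DecidableEq ι'] {a z : ι → K} {a' z' : ι' → K}
    (h : specPoly a z = specPoly a' z') : Spec a z = Spec a' z' := by
  have h1 := Polynomial.roots_multiset_prod_X_sub_C (Spec a z)
  have h2 := Polynomial.roots_multiset_prod_X_sub_C (Spec a' z')
  unfold specPoly at h
  rw [← h1, ← h2, h]

theorem FieldC.a_mem {K : Type*} [Field K] {ι : Type*} [Fintype ι]
    [DecidableEq ι] (a z : ι → K) (i : ι) : a i ∈ specField a z :=
  Subfield.subset_closure (Or.inl ⟨i, rfl⟩)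

theorem FieldC.coeff_mem {K : Type*} [Field K] {ι : Type*} [Fintype ι]
    [DecidableEq ι] (a z : ι → K) (n : ℕ) : (specPoly a z).coeff n ∈ specField a z :=
  Subfield.subset_closure (Or.inr ⟨n, rfl⟩)

/-- the algebraic closure inside `Ω` of the field generated by a family, with the lifts -/
theorem FieldC.exists_closure.{u} {Ω : Type u} [Field Ω] [IsAlgClosed Ω] [CharZero Ω]
    (s : Set Ω) : ∃ (Ω₀ : Type u) (_ : Field Ω₀) (_ : IsAlgClosed Ω₀) (_ : CharZero Ω₀)
      (v : Ω₀ →+* Ω), (∀ y ∈ Subfield.closure s, ∃ y₀, v y₀ = y) ∧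
      ∀ y₀, IsAlgebraic (Subfield.closure s) (v y₀) := by
  refine ⟨algebraicClosure (Subfield.closure s) Ω, inferInstance, ?_, inferInstance,
    algebraMap _ Ω, ?_, ?_⟩
  · exact IsAlgClosure.isAlgClosed (Subfield.closure s)
  · intro y hy
    exact ⟨algebraMap (Subfield.closure s) (algebraicClosure (Subfield.closure s) Ω) ⟨y, hy⟩, rfl⟩
  · intro y₀
    have := y₀.2
    rw [mem_algebraicClosure_iff] at this
    exact this

/-- `Pst k` may be checked when `Ω` is algebraic over the field generated by the data -/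
theorem pst_of_algebraic.{u} (k : ℕ)
    (h : ∀ (Ω : Type u) [Field Ω] [IsAlgClosed Ω] [CharZero Ω] (a : Fin (k + 2) → Ω)
      (x : Fin k → Ω), AlgebraicIndependent ℚ (Sum.elim a x) →
      Algebra.IsAlgebraic (Subfield.closure (Set.range a ∪ Set.range x)) Ω →
      ∀ i, x i ∈ specField a (zOf x)) : Pst.{u} k := by
  intro Ω _ _ _ a x hax i
  obtain ⟨Ω₀, _, _, _, v, hv1, hv2⟩ := FieldC.exists_closure (Set.range a ∪ Set.range x)
  have ha : ∀ i, ∃ y, v y = a i := fun i => hv1 _ (Subfield.subset_closure (Or.inl ⟨i, rfl⟩))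
  have hx : ∀ i, ∃ y, v y = x i := fun i => hv1 _ (Subfield.subset_closure (Or.inr ⟨i, rfl⟩))
  choose a₀ ha₀ using ha
  choose x₀ hx₀ using hx
  have hae : (fun i => v (a₀ i)) = a := funext ha₀
  have hxe : (fun i => v (x₀ i)) = x := funext hx₀
  have hind : AlgebraicIndependent ℚ (Sum.elim a₀ x₀) := by
    apply AlgebraicIndependent.of_comp v.toRatAlgHom
    have : (v.toRatAlgHom : Ω₀ → Ω) ∘ Sum.elim a₀ x₀ = Sum.elim a x := by
      funext j
      rcases j with j | j
      · exact ha₀ j
      · exact hx₀ j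
    rw [this]
    exact hax
  have halg : Algebra.IsAlgebraic (Subfield.closure (Set.range a₀ ∪ Set.range x₀)) Ω₀ := by
    have hmap : (Subfield.closure (Set.range a₀ ∪ Set.range x₀)).map v =
        Subfield.closure (Set.range a ∪ Set.range x) := by
      rw [RingHom.map_field_closure, Set.image_union, ← Set.range_comp, ← Set.range_comp]
      congr 2
      · congr 1
      · congr 1
    have hmem : ∀ y : Subfield.closure (Set.range a₀ ∪ Set.range x₀),
        v y ∈ Subfield.closure (Set.range a ∪ Set.range x) := by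
      intro y
      rw [← hmap]
      exact ⟨y, y.2, rfl⟩
    let f : Subfield.closure (Set.range a₀ ∪ Set.range x₀) →+*
        Subfield.closure (Set.range a ∪ Set.range x) :=
      (v.comp (Subfield.subtype _)).codRestrict _ hmem
    have hf : Function.Surjective f := by
      rintro ⟨y, hy⟩
      have hy' := hy
      rw [← hmap] at hy'
      obtain ⟨y₀, hy₀, rfl⟩ := hy'
      exact ⟨⟨y₀, hy₀⟩, rfl⟩
    refine ⟨fun y => ?_⟩
    exact (hv2 y).of_ringHom_of_comp_eq f v hf v.injective (by ext y; rfl)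
  have key := h Ω₀ a₀ x₀ hind halg i
  have h2 : v (x₀ i) ∈ (specField a₀ (zOf x₀)).map v := ⟨x₀ i, key, rfl⟩
  rw [← FieldC.specField_map, FieldC.zOf_map, hae, hxe, hx₀] at h2
  exact h2

/-- an automorphism fixing the field of the spectrum preserves the spectrum -/
theorem spec_of_fixed {Ω : Type*} [Field Ω] [IsAlgClosed Ω] {ι : Type*} [Fintype ι]
    [DecidableEq ι] (a z : ι → Ω) (σ : Ω ≃ₐ[specField a z] Ω) :
    Spec a (fun i => σ (z i)) = Spec a z := by
  have hfix : ∀ y ∈ specField a z, σ y = y := fun y hy => σ.commutes ⟨y, hy⟩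
  have h1 := FieldC.specPoly_map (σ : Ω →+* Ω) a z
  have h2 : (fun i => (σ : Ω →+* Ω) (a i)) = a := funext fun i => hfix _ (FieldC.a_mem a z i)
  rw [h2] at h1
  apply FieldC.Spec_eq_of_specPoly
  refine h1.trans ?_
  ext n
  rw [Polynomial.coeff_map]
  exact hfix _ (FieldC.coeff_mem a z n)

/-- the field of the spectrum lies in the field of the data -/
theorem specField_le {Ω : Type*} [Field Ω] [IsAlgClosed Ω] [CharZero Ω] {ι : Type*} [Fintype ι]
    [DecidableEq ι] (a z : ι → Ω)
    (h : Algebra.IsAlgebraic (Subfield.closure (Set.range a ∪ Set.range z)) Ω) :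
    specField a z ≤ Subfield.closure (Set.range a ∪ Set.range z) := by
  unfold specField
  rw [Subfield.closure_le]
  rintro y (⟨i, rfl⟩ | ⟨n, rfl⟩)
  · exact Subfield.subset_closure (Or.inl ⟨i, rfl⟩)
  · refine mem_of_fixed _ h _ fun σ => ?_
    have hfix : ∀ y ∈ Subfield.closure (Set.range a ∪ Set.range z), σ y = y :=
      fun y hy => σ.commutes ⟨y, hy⟩
    have h1 := FieldC.specPoly_map (σ : Ω →+* Ω) a z
    have h2 : (fun i => (σ : Ω →+* Ω) (a i)) = a :=
      funext fun i => hfix _ (Subfield.subset_closure (Or.inl ⟨i, rfl⟩))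
    have h3 : (fun i => (σ : Ω →+* Ω) (z i)) = z :=
      funext fun i => hfix _ (Subfield.subset_closure (Or.inr ⟨i, rfl⟩))
    rw [h2, h3] at h1
    have h4 := congrArg (fun p => Polynomial.coeff p n) h1
    simp only [Polynomial.coeff_map] at h4
    exact h4.symm

/-- the field of the spectrum is algebraic over the field of the data -/
theorem FieldC.specField_isAlgebraic {Ω : Type*} [Field Ω] [IsAlgClosed Ω] [CharZero Ω]
    {ι : Type*} [Fintype ι] [DecidableEq ι] (a z : ι → Ω) (y : Ω) (hy : y ∈ specField a z) :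
    IsAlgebraic (Subfield.closure (Set.range a ∪ Set.range z)) y := by
  obtain ⟨Ω₀, _, _, _, v, hv1, hv2⟩ := FieldC.exists_closure (Set.range a ∪ Set.range z)
  have ha : ∀ i, ∃ y, v y = a i := fun i => hv1 _ (Subfield.subset_closure (Or.inl ⟨i, rfl⟩))
  have hz : ∀ i, ∃ y, v y = z i := fun i => hv1 _ (Subfield.subset_closure (Or.inr ⟨i, rfl⟩))
  choose a₀ ha₀ using ha
  choose z₀ hz₀ using hz
  have hae : (fun i => v (a₀ i)) = a := funext ha₀
  have hze : (fun i => v (z₀ i)) = z := funext hz₀
  have h1 := FieldC.specField_map v a₀ z₀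
  rw [hae, hze] at h1
  rw [h1] at hy
  obtain ⟨y₀, -, rfl⟩ := hy
  exact hv2 y₀

/-- extension of homomorphisms to algebraic extensions -/
theorem FieldC.exists_hom_ext {L Ω₀ Ω : Type*} [Field L] [Field Ω₀] [Algebra L Ω₀]
    [Algebra.IsAlgebraic L Ω₀] [Field Ω] [IsAlgClosed Ω] (φ : L →+* Ω) :
    ∃ σ : Ω₀ →+* Ω, ∀ x : L, σ (algebraMap L Ω₀ x) = φ x := by
  let := φ.toAlgebra
  exact ⟨((IsAlgClosed.lift : Ω₀ →ₐ[L] Ω) : Ω₀ →+* Ω), fun x =>
    AlgHom.commutes (IsAlgClosed.lift : Ω₀ →ₐ[L] Ω) x⟩

/-- an algebraically independent family can be mapped to any other one -/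
theorem FieldC.exists_hom_adjoin {F E ι : Type*} [Field F] [Field E] [Algebra F E]
    (x x' : ι → E) (hx : AlgebraicIndependent F x) (hx' : AlgebraicIndependent F x') :
    ∃ φ : IntermediateField.adjoin F (Set.range x) →ₐ[F] E,
      ∀ i (h : x i ∈ IntermediateField.adjoin F (Set.range x)), φ ⟨x i, h⟩ = x' i := by
  refine ⟨(IntermediateField.val (IntermediateField.adjoin F (Set.range x'))).comp
      ((hx'.aevalEquivField : _ →ₐ[F] _).comp hx.reprField), fun i h => ?_⟩
  have h1 : hx.reprField ⟨x i, h⟩ =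
      algebraMap (MvPolynomial ι F) (FractionRing (MvPolynomial ι F)) (MvPolynomial.X i) := by
    unfold AlgebraicIndependent.reprField
    show hx.aevalEquivField.symm ⟨x i, h⟩ = _
    rw [AlgEquiv.symm_apply_eq]
    apply Subtype.ext
    rw [hx.aevalEquivField_algebraMap_apply_coe]
    simp
  show ((hx'.aevalEquivField (hx.reprField ⟨x i, h⟩) :
    IntermediateField.adjoin F (Set.range x')) : E) = x' i
  rw [h1, hx'.aevalEquivField_algebraMap_apply_coe]
  simp

/-- an algebraically independent family can be mapped to any other one, on an algebraically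
closed field of definition -/
theorem FieldC.exists_hom.{u} {Ω : Type u} [Field Ω] [IsAlgClosed Ω] [CharZero Ω] {ι : Type*}
    (x x' : ι → Ω) (hx : AlgebraicIndependent ℚ x) (hx' : AlgebraicIndependent ℚ x') :
    ∃ (Ω₀ : Type u) (_ : Field Ω₀) (_ : IsAlgClosed Ω₀) (_ : CharZero Ω₀)
      (v σ : Ω₀ →+* Ω) (x₀ : ι → Ω₀), (∀ i, v (x₀ i) = x i) ∧ (∀ i, σ (x₀ i) = x' i) := by
  obtain ⟨φ, hφ⟩ := FieldC.exists_hom_adjoin x x' hx hx'
  have hL : ∀ i, x i ∈ IntermediateField.adjoin ℚ (Set.range x) :=
    fun i => IntermediateField.subset_adjoin ℚ _ ⟨i, rfl⟩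
  obtain ⟨σ, hσ⟩ := FieldC.exists_hom_ext
    (Ω₀ := algebraicClosure (IntermediateField.adjoin ℚ (Set.range x)) Ω) φ.toRingHom
  refine ⟨algebraicClosure (IntermediateField.adjoin ℚ (Set.range x)) Ω, inferInstance,
    IsAlgClosure.isAlgClosed (IntermediateField.adjoin ℚ (Set.range x)), inferInstance,
    algebraMap _ Ω, σ, fun i => algebraMap (IntermediateField.adjoin ℚ (Set.range x)) _
      ⟨x i, hL i⟩, fun i => rfl, fun i => ?_⟩
  rw [hσ]
  exact hφ i (hL i)

theorem uniq.{u} {k : ℕ} (hP : Pst.{u} k) {Ω : Type u} [Field Ω] [IsAlgClosed Ω] [CharZero Ω]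
    (a : Fin (k + 2) → Ω) (x x' : Fin k → Ω) (hgen : AlgebraicIndependent ℚ (Sum.elim a x))
    (hs : Spec a (zOf x) = Spec a (zOf x')) : x = x' := by
  have hpoly : specPoly a (zOf x) = specPoly a (zOf x') := by
    unfold specPoly
    rw [hs]
  have hfield : specField a (zOf x) = specField a (zOf x') := by
    unfold specField
    rw [hpoly]
  have hmem := hP Ω a x hgen
  -- `(a, x')` is algebraically independent
  have hclos : Subfield.closure (Set.range a ∪ Set.range (zOf x')) ≤
      Subfield.closure (Set.range (Sum.elim a x')) := by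
    rw [Subfield.closure_le]
    rintro y (⟨i, rfl⟩ | ⟨i, rfl⟩)
    · exact Subfield.subset_closure ⟨Sum.inl i, rfl⟩
    · unfold zOf
      refine Fin.cases ?_ (fun j => ?_) i
      · simp
      · simp only [Fin.cons_succ]
        refine Fin.lastCases ?_ (fun l => ?_) j
        · simp
        · simp only [Fin.snoc_castSucc]
          exact Subfield.subset_closure ⟨Sum.inr l, rfl⟩
  have hgen' : AlgebraicIndependent ℚ (Sum.elim a x') := by
    refine algInd_of_isAlgebraic le_rfl (Sum.elim a x) (Sum.elim a x') hgen ?_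
    rintro (i | i)
    · have : a i ∈ Subfield.closure (Set.range (Sum.elim a x')) :=
        Subfield.subset_closure ⟨Sum.inl i, rfl⟩
      exact isAlgebraic_algebraMap (⟨a i, this⟩ : Subfield.closure (Set.range (Sum.elim a x')))
    · have h1 := hmem i
      rw [hfield] at h1
      have h2 := FieldC.specField_isAlgebraic a (zOf x') (x i) h1
      have h3 := h2.ringHom_of_comp_eq (Subfield.inclusion hclos) (RingHom.id Ω)
        (RingHom.injective _) (by ext y; rfl)
      exact h3
  obtain ⟨Ω₀, _, _, _, v, σ, w, hv, hσ⟩ := FieldC.exists_hom _ _ hgen hgen'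
  set a₀ : Fin (k + 2) → Ω₀ := fun i => w (Sum.inl i) with ha₀
  set x₀ : Fin k → Ω₀ := fun i => w (Sum.inr i) with hx₀
  have hva : (fun i => v (a₀ i)) = a := funext fun i => hv (Sum.inl i)
  have hvx : (fun i => v (x₀ i)) = x := funext fun i => hv (Sum.inr i)
  have hσa : (fun i => σ (a₀ i)) = a := funext fun i => hσ (Sum.inl i)
  have hσx : (fun i => σ (x₀ i)) = x' := funext fun i => hσ (Sum.inr i)
  have h1 := FieldC.specPoly_map v a₀ (zOf x₀)
  have h2 := FieldC.specPoly_map σ a₀ (zOf x₀)
  rw [FieldC.zOf_map, hva, hvx] at h1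
  rw [FieldC.zOf_map, hσa, hσx] at h2
  have h3 : (specPoly a₀ (zOf x₀)).map v = (specPoly a₀ (zOf x₀)).map σ := by
    rw [← h1, ← h2, hpoly]
  have heq : specField a₀ (zOf x₀) ≤ v.eqLocusField σ := by
    unfold specField
    rw [Subfield.closure_le]
    rintro y (⟨i, rfl⟩ | ⟨n, rfl⟩)
    · show v (a₀ i) = σ (a₀ i)
      rw [congrFun hva i, congrFun hσa i]
    · show v _ = σ _
      have := congrArg (fun p => Polynomial.coeff p n) h3
      simpa only [Polynomial.coeff_map] using this
  funext i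
  have h4 : x i ∈ (specField a₀ (zOf x₀)).map v := by
    rw [← FieldC.specField_map, FieldC.zOf_map, hva, hvx]
    exact hmem i
  obtain ⟨y, hy, hyx⟩ := h4
  have h5 : y = x₀ i := v.injective (by rw [hyx]; exact (congrFun hvx i).symm)
  subst h5
  have h6 : v (x₀ i) = σ (x₀ i) := heq hy
  rw [← congrFun hvx i, ← congrFun hσx i]
  exact h6

end

end Pool.Agent.Lib.MP_740d3f_ag
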