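import Pool.Agent.Lib.MP_740d3f_ag.Defs

set_option autoImplicit false

/-! # Ultraproduct reduction of the frozen statement to algebraically closed generic data -/

namespace Pool.Agent.Lib.MP_740d3f_ag
open Polynomial
noncomputable section

namespace Los

variable {I : Type} (φ : Ultrafilter I)

/-- the ultrapower of `ℂ` -/
abbrev Gm : Type := Filter.Germ (φ : Filter I) ℂ

/-- the quotient map -/
def gm : (I → ℂ) →+* Gm φ := Filter.Germ.coeRingHom (φ : Filter I)

theorem gm_surj : Function.Surjective (gm φ) := by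
  intro x
  induction x using Filter.Germ.inductionOn with
  | _ f => exact ⟨f, rfl⟩

theorem gm_eq (f g : I → ℂ) : gm φ f = gm φ g ↔ ∀ᶠ j in (φ : Filter I), f j = g j :=
  Filter.Germ.coe_eq

theorem gm_div (f g : I → ℂ) : gm φ (fun j => f j / g j) = gm φ f / gm φ g := rfl

theorem gm_mul (f g : I → ℂ) : gm φ (fun j => f j * g j) = gm φ f * gm φ g := rfl

theorem gm_sub (f g : I → ℂ) : gm φ (fun j => f j - g j) = gm φ f - gm φ g := rfl

theorem gm_add (f g : I → ℂ) : gm φ (fun j => f j + g j) = gm φ f + gm φ g := rfl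

theorem gm_pow (f : I → ℂ) (n : ℕ) : gm φ (fun j => f j ^ n) = gm φ f ^ n :=
  map_pow (gm φ) f n

theorem gm_zero : gm φ (fun _ => 0) = 0 := map_zero (gm φ)

theorem gm_one : gm φ (fun _ => 1) = 1 := map_one (gm φ)

theorem gm_eq_zero (f : I → ℂ) : gm φ f = 0 ↔ ∀ᶠ j in (φ : Filter I), f j = 0 := by
  rw [← gm_zero, gm_eq]

theorem gm_ne_zero (f : I → ℂ) : gm φ f ≠ 0 ↔ ∀ᶠ j in (φ : Filter I), f j ≠ 0 := by
  rw [Ne, gm_eq_zero, ← Ultrafilter.eventually_not]

theorem gm_ne (f g : I → ℂ) : gm φ f ≠ gm φ g ↔ ∀ᶠ j in (φ : Filter I), f j ≠ g j := by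
  rw [Ne, gm_eq, ← Ultrafilter.eventually_not]

/-- polynomial over the ultrapower from a family of polynomials of degree at most `N` -/
def gpoly (N : ℕ) (F : I → ℂ[X]) : (Gm φ)[X] :=
  ∑ i ∈ Finset.range (N + 1), C (gm φ (fun j => (F j).coeff i)) * X ^ i

theorem gpoly_natDegree (N : ℕ) (F : I → ℂ[X]) : (gpoly φ N F).natDegree ≤ N := by
  unfold gpoly
  apply Polynomial.natDegree_sum_le_of_forall_le
  intro i hi
  rw [Finset.mem_range] at hi
  exact (Polynomial.natDegree_C_mul_X_pow_le _ _).trans (by omega)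

theorem gpoly_coeff (N : ℕ) (F : I → ℂ[X]) (hF : ∀ j, (F j).natDegree ≤ N) (i : ℕ) :
    (gpoly φ N F).coeff i = gm φ (fun j => (F j).coeff i) := by
  unfold gpoly
  rw [Polynomial.finsetSum_coeff]
  simp only [Polynomial.coeff_C_mul_X_pow]
  rw [Finset.sum_ite_eq]
  split_ifs with h
  · rfl
  · rw [Finset.mem_range] at h
    rw [eq_comm, gm_eq_zero]
    apply Filter.Eventually.of_forall
    intro j
    exact Polynomial.coeff_eq_zero_of_natDegree_lt (by have := hF j; omega)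

theorem gpoly_eval (N : ℕ) (F : I → ℂ[X]) (hF : ∀ j, (F j).natDegree ≤ N) (x : I → ℂ) :
    (gpoly φ N F).eval (gm φ x) = gm φ (fun j => (F j).eval (x j)) := by
  unfold gpoly
  rw [Polynomial.eval_finsetSum]
  have : (fun j => (F j).eval (x j)) =
      ∑ i ∈ Finset.range (N + 1), (fun j => (F j).coeff i) * x ^ i := by
    funext j
    rw [Polynomial.eval_eq_sum_range' (Nat.lt_succ_of_le (hF j))]
    rw [Finset.sum_apply]
    rfl
  rw [this, map_sum]
  apply Finset.sum_congr rfl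
  intro i _
  rw [map_mul, map_pow]
  simp

theorem gpoly_derivative (N : ℕ) (F : I → ℂ[X]) (hF : ∀ j, (F j).natDegree ≤ N) :
    derivative (gpoly φ N F) = gpoly φ N (fun j => derivative (F j)) := by
  have hF' : ∀ j, (derivative (F j)).natDegree ≤ N := fun j =>
    (Polynomial.natDegree_derivative_le _).trans ((Nat.sub_le _ _).trans (hF j))
  ext i
  rw [Polynomial.coeff_derivative, gpoly_coeff φ N F hF, gpoly_coeff φ N _ hF']
  have : (fun j => (derivative (F j)).coeff i) =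
      (fun j => (F j).coeff (i + 1)) * ((i : I → ℂ) + 1) := by
    funext j
    rw [Polynomial.coeff_derivative]
    rfl
  rw [this, map_mul, map_add, map_natCast, map_one]

theorem gpoly_derivative_eval (N : ℕ) (F : I → ℂ[X]) (hF : ∀ j, (F j).natDegree ≤ N) (x : I → ℂ) :
    (derivative (gpoly φ N F)).eval (gm φ x) = gm φ (fun j => (derivative (F j)).eval (x j)) := by
  have hF' : ∀ j, (derivative (F j)).natDegree ≤ N := fun j =>
    (Polynomial.natDegree_derivative_le _).trans ((Nat.sub_le _ _).trans (hF j))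
  rw [gpoly_derivative φ N F hF, gpoly_eval φ N _ hF']

instance isAlgClosed : IsAlgClosed (Gm φ) := by
  apply IsAlgClosed.of_exists_root
  intro p hp hirr
  have hdeg : p.natDegree ≠ 0 := by
    intro h
    exact hirr.natDegree_pos.ne' h
  choose c hc using fun i => gm_surj φ (p.coeff i)
  -- representatives
  let F : I → ℂ[X] := fun j => X ^ p.natDegree +
    ∑ i ∈ Finset.range p.natDegree, C (c i j) * X ^ i
  have hlt : ∀ j, (∑ i ∈ Finset.range p.natDegree, C (c i j) * X ^ i).degree < (p.natDegree : WithBot ℕ) := by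
    intro j
    apply lt_of_le_of_lt (Polynomial.degree_sum_le _ _)
    rw [Finset.sup_lt_iff (WithBot.bot_lt_coe _)]
    intro i hi
    rw [Finset.mem_range] at hi
    exact lt_of_le_of_lt (Polynomial.degree_C_mul_X_pow_le _ _) (by exact_mod_cast hi)
  have hFdeg : ∀ j, (F j).degree = p.natDegree := by
    intro j
    rw [Polynomial.degree_add_eq_left_of_degree_lt]
    · rw [Polynomial.degree_X_pow]
    · rw [Polynomial.degree_X_pow]; exact hlt j
  have hFn : ∀ j, (F j).natDegree ≤ p.natDegree := fun j =>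
    (Polynomial.natDegree_eq_of_degree_eq_some (hFdeg j)).le
  have hroot : ∀ j, ∃ x : ℂ, (F j).eval x = 0 := by
    intro j
    have := IsAlgClosed.exists_root (F j) (by
      rw [hFdeg j]; exact_mod_cast hdeg)
    exact this
  choose x hx using hroot
  have hpF : p = gpoly φ p.natDegree F := by
    ext i
    rw [gpoly_coeff φ _ F hFn]
    rcases lt_trichotomy i p.natDegree with h | h | h
    · rw [← hc]
      congr 1
      funext j
      simp only [F, Polynomial.coeff_add, Polynomial.finsetSum_coeff,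
        Polynomial.coeff_C_mul_X_pow, Polynomial.coeff_X_pow]
      rw [Finset.sum_ite_eq, if_neg h.ne, if_pos (Finset.mem_range.2 h), zero_add]
    · rw [h, hp.coeff_natDegree, ← gm_one φ]
      congr 1
      funext j
      simp only [F, Polynomial.coeff_add, Polynomial.finsetSum_coeff,
        Polynomial.coeff_C_mul_X_pow, Polynomial.coeff_X_pow]
      rw [Finset.sum_ite_eq, if_pos trivial, if_neg (by simp), add_zero]
    · rw [Polynomial.coeff_eq_zero_of_natDegree_lt h, eq_comm, gm_eq_zero]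
      exact Filter.Eventually.of_forall fun j =>
        Polynomial.coeff_eq_zero_of_natDegree_lt (lt_of_le_of_lt (hFn j) h)
  refine ⟨gm φ x, ?_⟩
  rw [hpF, gpoly_eval φ _ F hFn, gm_eq_zero]
  exact Filter.Eventually.of_forall hx

instance charZero : CharZero (Gm φ) := by
  refine ⟨fun m n h => ?_⟩
  have h' : gm φ (fun _ => (m : ℂ)) = gm φ (fun _ => (n : ℂ)) := h
  rw [gm_eq] at h'
  obtain ⟨_, hj⟩ := h'.exists
  exact_mod_cast hj

/-- internal sets -/
def Internal (S : I → Set ℂ) (T : Set (Gm φ)) : Prop :=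
  ∀ x : I → ℂ, gm φ x ∈ T ↔ ∀ᶠ j in (φ : Filter I), x j ∈ S j

theorem Internal.ncard {S : I → Set ℂ} {T : Set (Gm φ)} (h : Internal φ S T) (hT : T.Finite) :
    ∀ᶠ j in (φ : Filter I), (S j).ncard = T.ncard := by
  obtain ⟨n, hn⟩ : ∃ n, T.ncard = n := ⟨_, rfl⟩
  have hcard : Nat.card T = n := by rw [← hn]; rfl
  have : Finite T := hT
  let e : Fin n ≃ T := (Finite.equivFinOfCardEq hcard).symm
  choose x hx using fun i : Fin n => gm_surj φ (e i : Gm φ)
  have h1 : ∀ i, ∀ᶠ j in (φ : Filter I), x i j ∈ S j := by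
    intro i
    rw [← h (x i), hx i]
    exact (e i).2
  have h2 : ∀ i k, i ≠ k → ∀ᶠ j in (φ : Filter I), x i j ≠ x k j := by
    intro i k hik
    rw [← gm_ne, hx i, hx k]
    intro heq
    exact hik (e.injective (Subtype.ext heq))
  have h3 : ∀ᶠ j in (φ : Filter I), ∀ y ∈ S j, ∃ i, y = x i j := by
    by_contra hcon
    rw [← Ultrafilter.eventually_not] at hcon
    have : ∀ j, ∃ y : ℂ, (¬ ∀ y ∈ S j, ∃ i, y = x i j) → y ∈ S j ∧ ∀ i, y ≠ x i j := by
      intro j
      by_cases hj : ¬ ∀ y ∈ S j, ∃ i, y = x i j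
      · push Not at hj
        obtain ⟨y, hy, hy'⟩ := hj
        exact ⟨y, fun _ => ⟨hy, hy'⟩⟩
      · exact ⟨0, fun h => absurd h hj⟩
    choose y hy using this
    have hyT : gm φ y ∈ T := by
      rw [h y]
      exact hcon.mono fun j hj => (hy j hj).1
    obtain ⟨i, hi⟩ : ∃ i, e i = ⟨gm φ y, hyT⟩ := ⟨e.symm ⟨gm φ y, hyT⟩, by simp⟩
    have hi' : gm φ (x i) = gm φ y := by rw [hx i, hi]
    rw [gm_eq] at hi'
    obtain ⟨j, hj1, hj2⟩ := (hi'.and hcon).exists
    exact (hy j hj2).2 i hj1.symm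
  have h2' : ∀ᶠ j in (φ : Filter I), ∀ i k, i ≠ k → x i j ≠ x k j := by
    rw [Filter.eventually_all]
    intro i
    rw [Filter.eventually_all]
    intro k
    by_cases hik : i = k
    · exact Filter.Eventually.of_forall fun _ h => absurd hik h
    · exact (h2 i k hik).mono fun _ h _ => h
  have h1' : ∀ᶠ j in (φ : Filter I), ∀ i, x i j ∈ S j := by
    rw [Filter.eventually_all]
    exact h1
  filter_upwards [h1', h2', h3] with j hj1 hj2 hj3
  have hS : S j = Set.range (fun i => x i j) := by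
    ext y
    constructor
    · intro hy
      obtain ⟨i, hi⟩ := hj3 y hy
      exact ⟨i, hi.symm⟩
    · rintro ⟨i, rfl⟩
      exact hj1 i
  have hinj : Function.Injective (fun i => x i j) := by
    intro i k hik
    by_contra hne
    exact hj2 i k hne hik
  rw [hn, hS, Set.ncard_range_of_injective hinj]
  simp

section transfer

variable {N : ℕ} {p q : I → ℂ[X]} (hp : ∀ j, (p j).natDegree ≤ N) (hq : ∀ j, (q j).natDegree ≤ N)

include hp hq

theorem internal_fix (c : I → ℂ) :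
    Internal φ (fun j => FixS (p j) (q j) (c j)) (FixS (gpoly φ N p) (gpoly φ N q) (gm φ c)) := by
  intro x
  simp only [FixS, Set.mem_ofPred_eq]
  rw [gpoly_eval φ N p hp, gpoly_eval φ N q hq, gpoly_derivative_eval φ N p hp,
    gpoly_derivative_eval φ N q hq, ← gm_mul, ← gm_mul, ← gm_mul, ← gm_sub, ← gm_pow, ← gm_div,
    gm_ne_zero, gm_eq, gm_eq, Filter.eventually_and, Filter.eventually_and]

theorem internal_per (c : I → ℂ) :
    Internal φ (fun j => PerS (p j) (q j) (c j)) (PerS (gpoly φ N p) (gpoly φ N q) (gm φ c)) := by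
  intro x
  simp only [PerS, Set.mem_ofPred_eq]
  rw [gpoly_eval φ N p hp, gpoly_eval φ N q hq, gpoly_derivative_eval φ N p hp,
    gpoly_derivative_eval φ N q hq, ← gm_div]
  rw [gpoly_eval φ N p hp, gpoly_eval φ N q hq, gpoly_derivative_eval φ N p hp,
    gpoly_derivative_eval φ N q hq]
  simp only [← gm_div, ← gm_mul, ← gm_sub, ← gm_pow]
  rw [gm_ne_zero, gm_ne_zero, gm_eq, gm_ne, gm_eq, Filter.eventually_and, Filter.eventually_and,
    Filter.eventually_and, Filter.eventually_and]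

end transfer

theorem conj_transfer {N : ℕ} {p₁ q₁ p₂ q₂ : I → ℂ[X]} (hp₁ : ∀ j, (p₁ j).natDegree ≤ N)
    (hq₁ : ∀ j, (q₁ j).natDegree ≤ N) (hp₂ : ∀ j, (p₂ j).natDegree ≤ N)
    (hq₂ : ∀ j, (q₂ j).natDegree ≤ N)
    (h : ConjM (gpoly φ N p₁) (gpoly φ N q₁) (gpoly φ N p₂) (gpoly φ N q₂)) :
    ∃ j, ConjM (p₁ j) (q₁ j) (p₂ j) (q₂ j) := by
  by_contra hcon
  push Not at hcon
  obtain ⟨a, b, c, e, hne, h⟩ := h
  obtain ⟨a, rfl⟩ := gm_surj φ a
  obtain ⟨b, rfl⟩ := gm_surj φ b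
  obtain ⟨c, rfl⟩ := gm_surj φ c
  obtain ⟨e, rfl⟩ := gm_surj φ e
  have hne' : ∀ᶠ j in (φ : Filter I), a j * e j - b j * c j ≠ 0 := by
    rw [← gm_ne_zero, gm_sub, gm_mul, gm_mul]
    exact hne
  have hz : ∀ j, ∃ z : ℂ, a j * e j - b j * c j ≠ 0 →
      ((q₁ j).eval z ≠ 0 ∧ c j * z + e j ≠ 0 ∧
      c j * ((p₁ j).eval z / (q₁ j).eval z) + e j ≠ 0 ∧
      (q₂ j).eval ((a j * z + b j) / (c j * z + e j)) ≠ 0 ∧
      (p₂ j).eval ((a j * z + b j) / (c j * z + e j)) /
        (q₂ j).eval ((a j * z + b j) / (c j * z + e j))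
        ≠ (a j * ((p₁ j).eval z / (q₁ j).eval z) + b j) /
          (c j * ((p₁ j).eval z / (q₁ j).eval z) + e j)) := by
    intro j
    by_cases hj : a j * e j - b j * c j ≠ 0
    · have := hcon j
      unfold ConjM at this
      push Not at this
      obtain ⟨z, h1, h2, h3, h4, h5⟩ := this (a j) (b j) (c j) (e j) hj
      exact ⟨z, fun _ => ⟨h1, h2, h3, h4, h5⟩⟩
    · exact ⟨0, fun h => absurd h hj⟩
  choose z hz using hz
  have H := h (gm φ z)
  rw [gpoly_eval φ N q₁ hq₁, gpoly_eval φ N p₁ hp₁] at H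
  simp only [← gm_div, ← gm_mul, ← gm_add] at H
  rw [gpoly_eval φ N q₂ hq₂, gpoly_eval φ N p₂ hp₂] at H
  simp only [← gm_div] at H
  rw [gm_ne_zero, gm_ne_zero, gm_ne_zero, gm_ne_zero, gm_eq] at H
  have := H (hne'.mono fun j hj => (hz j hj).1) (hne'.mono fun j hj => (hz j hj).2.1)
    (hne'.mono fun j hj => (hz j hj).2.2.1) (hne'.mono fun j hj => (hz j hj).2.2.2.1)
  obtain ⟨j, hj1, hj2⟩ := (this.and hne').exists
  exact (hz j hj2).2.2.2.2 hj1

theorem aeval_gm {σ : Type} (v : σ → I → ℂ) (Q : MvPolynomial σ ℚ) :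
    MvPolynomial.aeval (fun s => gm φ (v s)) Q =
      gm φ (fun j => MvPolynomial.aeval (fun s => v s j) Q) := by
  induction Q using MvPolynomial.induction_on with
  | C a =>
    simp only [MvPolynomial.aeval_C]
    have : (fun _ : I => algebraMap ℚ ℂ a) = algebraMap ℚ (I → ℂ) a := rfl
    rw [this]
    have h2 : (gm φ).comp (algebraMap ℚ (I → ℂ)) = algebraMap ℚ (Gm φ) := Subsingleton.elim _ _
    rw [← h2]
    rfl
  | add p q hp hq => simp only [map_add, hp, hq]; rfl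
  | mul_X p s hp => simp only [map_mul, hp, MvPolynomial.aeval_X]; rfl

/-- an ultrafilter on the nonzero polynomials containing all sets of multiples -/
theorem exists_ultrafilter {σ : Type} :
    ∃ φ : Ultrafilter {P : MvPolynomial σ ℂ // P ≠ 0},
      ∀ Q : MvPolynomial σ ℂ, Q ≠ 0 → ∀ᶠ P in (φ : Filter {P : MvPolynomial σ ℂ // P ≠ 0}),
        Q ∣ P.1 := by
  let f : {P : MvPolynomial σ ℂ // P ≠ 0} → Filter {P : MvPolynomial σ ℂ // P ≠ 0} :=
    fun Q => Filter.principal {P | Q.1 ∣ P.1}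
  have : Nonempty {P : MvPolynomial σ ℂ // P ≠ 0} := ⟨⟨1, one_ne_zero⟩⟩
  have hne : (⨅ Q, f Q).NeBot := by
    apply Filter.iInf_neBot_of_directed'
    · intro Q₁ Q₂
      refine ⟨⟨Q₁.1 * Q₂.1, mul_ne_zero Q₁.2 Q₂.2⟩, ?_, ?_⟩
      · simp only [f, ge_iff_le, Filter.principal_mono]
        intro P hP
        exact (Dvd.intro _ rfl).trans hP
      · simp only [f, ge_iff_le, Filter.principal_mono]
        intro P hP
        exact (Dvd.intro_left _ rfl).trans hP
    · intro Q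
      rw [Filter.principal_neBot_iff]
      exact ⟨Q, dvd_refl _⟩
  refine ⟨Ultrafilter.of (⨅ Q, f Q), ?_⟩
  intro Q hQ
  have h1 : (Ultrafilter.of (⨅ Q, f Q) : Filter _) ≤ f ⟨Q, hQ⟩ :=
    (Ultrafilter.of_le _).trans (iInf_le f ⟨Q, hQ⟩)
  exact h1 (Filter.mem_principal_self _)

theorem algInd {σ : Type} (φ : Ultrafilter {P : MvPolynomial σ ℂ // P ≠ 0})
    (hφ : ∀ Q : MvPolynomial σ ℂ, Q ≠ 0 →
      ∀ᶠ P in (φ : Filter {P : MvPolynomial σ ℂ // P ≠ 0}), Q ∣ P.1)
    (v : σ → {P : MvPolynomial σ ℂ // P ≠ 0} → ℂ)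
    (hv : ∀ P : {P : MvPolynomial σ ℂ // P ≠ 0}, MvPolynomial.eval (fun s => v s P) P.1 ≠ 0) :
    AlgebraicIndependent ℚ (fun s => gm φ (v s)) := by
  rw [algebraicIndependent_iff]
  intro Q hQ
  by_contra hne
  rw [aeval_gm, gm_eq_zero] at hQ
  have hne' : MvPolynomial.map (algebraMap ℚ ℂ) Q ≠ 0 := by
    intro h
    apply hne
    exact MvPolynomial.map_injective _ (algebraMap ℚ ℂ).injective (by rw [h, map_zero])
  obtain ⟨P, hP1, hP2⟩ := (hQ.and (hφ _ hne')).exists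
  apply hv P
  obtain ⟨R, hR⟩ := hP2
  rw [hR, map_mul, MvPolynomial.eval_map]
  have : MvPolynomial.eval₂ (algebraMap ℚ ℂ) (fun s => v s P) Q = 0 := hP1
  rw [this, zero_mul]

end Los

open Los in
theorem frozen_of_thmV
    (hV : ∀ (Ω : Type) [Field Ω] [IsAlgClosed Ω] [CharZero Ω] (d : ℕ), 2 ≤ d →
      ∀ p₁ q₁ p₂ q₂ : Polynomial Ω, GenMap d p₁ q₁ → GenMap d p₂ q₂ →
      (∀ c, (FixS p₁ q₁ c).ncard = (FixS p₂ q₂ c).ncard) →
      (∀ c, (PerS p₁ q₁ c).ncard = (PerS p₂ q₂ c).ncard) → ConjM p₁ q₁ p₂ q₂)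
    (hF : ∀ (Ω : Type) [Field Ω] [IsAlgClosed Ω] [CharZero Ω] (d : ℕ), 2 ≤ d →
      ∀ p q : Polynomial Ω, GenMap d p q → ∀ c, (FixS p q c).Finite ∧ (PerS p q c).Finite) :
    ∀ d : ℕ, 2 ≤ d →
      ∃ P : MvPolynomial (Fin (d + 1) ⊕ Fin (d + 1)) ℂ, P ≠ 0 ∧
        ∀ p₁ q₁ p₂ q₂ : Polynomial ℂ,
          IsCoprime p₁ q₁ → max p₁.natDegree q₁.natDegree = d →
          IsCoprime p₂ q₂ → max p₂.natDegree q₂.natDegree = d →
          MvPolynomial.eval (Sum.elim (fun i : Fin (d + 1) => p₁.coeff i.val)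
            (fun i : Fin (d + 1) => q₁.coeff i.val)) P ≠ 0 →
          MvPolynomial.eval (Sum.elim (fun i : Fin (d + 1) => p₂.coeff i.val)
            (fun i : Fin (d + 1) => q₂.coeff i.val)) P ≠ 0 →
          (∀ c : ℂ, Set.ncard (FixS p₁ q₁ c) = Set.ncard (FixS p₂ q₂ c)) →
          (∀ c : ℂ, Set.ncard (PerS p₁ q₁ c) = Set.ncard (PerS p₂ q₂ c)) →
          ConjM p₁ q₁ p₂ q₂ := by
  intro d hd
  by_contra hcon
  push Not at hcon
  choose! p₁ q₁ p₂ q₂ hcop₁ hdeg₁ hcop₂ hdeg₂ hev₁ hev₂ hfix hper hnot using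
    fun P : {P : MvPolynomial (Fin (d + 1) ⊕ Fin (d + 1)) ℂ // P ≠ 0} => hcon P.1 P.2
  obtain ⟨φ, hφ⟩ := exists_ultrafilter (σ := Fin (d + 1) ⊕ Fin (d + 1))
  have hp₁ : ∀ j, (p₁ j).natDegree ≤ d := fun j => (le_max_left _ _).trans (hdeg₁ j).le
  have hq₁ : ∀ j, (q₁ j).natDegree ≤ d := fun j => (le_max_right _ _).trans (hdeg₁ j).le
  have hp₂ : ∀ j, (p₂ j).natDegree ≤ d := fun j => (le_max_left _ _).trans (hdeg₂ j).le
  have hq₂ : ∀ j, (q₂ j).natDegree ≤ d := fun j => (le_max_right _ _).trans (hdeg₂ j).le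
  have hgen : ∀ (p q : {P : MvPolynomial (Fin (d + 1) ⊕ Fin (d + 1)) ℂ // P ≠ 0} → ℂ[X]),
      (∀ j, (p j).natDegree ≤ d) → (∀ j, (q j).natDegree ≤ d) →
      (∀ j, MvPolynomial.eval (Sum.elim (fun i : Fin (d + 1) => (p j).coeff i.val)
            (fun i : Fin (d + 1) => (q j).coeff i.val)) j.1 ≠ 0) →
      GenMap d (gpoly φ d p) (gpoly φ d q) := by
    intro p q hp hq hev
    refine ⟨gpoly_natDegree φ d p, gpoly_natDegree φ d q, ?_⟩
    have := algInd φ hφ (fun s j => Sum.elim (fun i : Fin (d + 1) => (p j).coeff i.val)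
            (fun i : Fin (d + 1) => (q j).coeff i.val) s) hev
    have heq : Sum.elim (fun i : Fin (d + 1) => (gpoly φ d p).coeff i.val)
        (fun i : Fin (d + 1) => (gpoly φ d q).coeff i.val) =
        fun s => gm φ (fun j => Sum.elim (fun i : Fin (d + 1) => (p j).coeff i.val)
            (fun i : Fin (d + 1) => (q j).coeff i.val) s) := by
      funext s
      rcases s with s | s
      · simp only [Sum.elim_inl]
        rw [gpoly_coeff φ d p hp]
      · simp only [Sum.elim_inr]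
        rw [gpoly_coeff φ d q hq]
    rw [heq]
    exact this
  have hg₁ := hgen p₁ q₁ hp₁ hq₁ hev₁
  have hg₂ := hgen p₂ q₂ hp₂ hq₂ hev₂
  have hconj := hV (Gm φ) d hd _ _ _ _ hg₁ hg₂ (by
    intro c
    obtain ⟨c, rfl⟩ := gm_surj φ c
    have e1 := (internal_fix φ hp₁ hq₁ c).ncard φ (hF (Gm φ) d hd _ _ hg₁ _).1
    have e2 := (internal_fix φ hp₂ hq₂ c).ncard φ (hF (Gm φ) d hd _ _ hg₂ _).1
    obtain ⟨j, hj1, hj2⟩ := (e1.and e2).exists
    rw [← hj1, ← hj2]
    exact hfix j (c j)) (by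
    intro c
    obtain ⟨c, rfl⟩ := gm_surj φ c
    have e1 := (internal_per φ hp₁ hq₁ c).ncard φ (hF (Gm φ) d hd _ _ hg₁ _).2
    have e2 := (internal_per φ hp₂ hq₂ c).ncard φ (hF (Gm φ) d hd _ _ hg₂ _).2
    obtain ⟨j, hj1, hj2⟩ := (e1.and e2).exists
    rw [← hj1, ← hj2]
    exact hper j (c j))
  obtain ⟨j, hj⟩ := conj_transfer φ hp₁ hq₁ hp₂ hq₂ hconj
  exact hnot j hj

end

end Pool.Agent.Lib.MP_740d3f_ag
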