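import Pool.Agent.Lib.MP_740d3f_ag.ExpandB
import Pool.Agent.Lib.MP_740d3f_ag.ExpandC
import Pool.Agent.Lib.MP_740d3f_ag.FieldC

set_option autoImplicit false

/-! # Generic injectivity for normalized configurations -/

namespace Pool.Agent.Lib.MP_740d3f_ag
noncomputable section

namespace Main

section val

variable {K : Type*} [Field K] {O O₁ : ValuationSubring K}

theorem le_iff {x y : K} (hy : y ≠ 0) :
    O.valuation x ≤ O.valuation y ↔ x / y ∈ O := by
  rw [← ValuationSubring.valuation_le_one_iff, map_div₀, div_le_one₀]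
  exact zero_lt_iff.mpr ((Valuation.ne_zero_iff _).mpr hy)

theorem le_coarse (hO : O ≤ O₁) {x y : K} (h : O.valuation x ≤ O.valuation y) :
    O₁.valuation x ≤ O₁.valuation y := by
  by_cases hy : y = 0
  · subst hy
    rw [map_zero, le_zero_iff, Valuation.zero_iff] at h
    rw [h]
  · rw [le_iff hy] at h ⊢
    exact hO h

theorem eq_coarse (hO : O ≤ O₁) {x y : K} (h : O.valuation x = O.valuation y) :
    O₁.valuation x = O₁.valuation y :=
  le_antisymm (le_coarse hO h.le) (le_coarse hO h.ge)

theorem one_coarse (hO : O ≤ O₁) {x : K} (h : O.valuation x = 1) : O₁.valuation x = 1 := by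
  have : O.valuation x = O.valuation 1 := by rw [h, map_one]
  rw [eq_coarse hO this, map_one]

theorem lt_of_coarse (hO : O ≤ O₁) {x y : K} (h : O₁.valuation x < O₁.valuation y) :
    O.valuation x < O.valuation y := by
  by_contra hc
  exact absurd (le_coarse hO (not_lt.mp hc)) (not_le.mpr h)

theorem lt_one_of_coarse (hO : O ≤ O₁) {x : K} (h : O₁.valuation x < 1) :
    O.valuation x < 1 := by
  have : O₁.valuation x < O₁.valuation 1 := by rw [map_one]; exact h
  have := lt_of_coarse hO this
  rwa [map_one] at this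

theorem mem_iff {x : K} : x ∈ O ↔ O.valuation x ≤ 1 :=
  (ValuationSubring.valuation_le_one_iff O x).symm

theorem unit_of_subfield (k : Subfield K) (h : ∀ x ∈ k, x ∈ O) {x : K} (hx : x ∈ k)
    (h0 : x ≠ 0) : O.valuation x = 1 := by
  refine le_antisymm (mem_iff.mp (h x hx)) ?_
  have h1 := mem_iff.mp (h x⁻¹ (k.inv_mem hx))
  rw [map_inv₀] at h1
  have h2 : 0 < O.valuation x := zero_lt_iff.mpr ((Valuation.ne_zero_iff _).mpr h0)
  exact (inv_le_one₀ h2).mp h1

theorem sub_lt {x y : K} {g : O.ValueGroup} (hx : O.valuation x < g) (hy : O.valuation y < g) :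
    O.valuation (x - y) < g := Valuation.map_sub_lt _ hx hy

/-- if `|x - y| < |y|` then `|x| = |y|` -/
theorem eq_of_sub_lt {x y : K} (h : O.valuation (x - y) < O.valuation y) :
    O.valuation x = O.valuation y := by
  have : x = (x - y) + y := by ring
  rw [this]
  exact Valuation.map_add_eq_of_lt_right _ h

end val


section algebraicIndependence

variable {Ω : Type*} [Field Ω] [CharZero Ω] {n k : ℕ}

theorem algInd_left {ι κ : Type*} {a : ι → Ω} {x : κ → Ω}
    (h : AlgebraicIndependent ℚ (Sum.elim a x)) : AlgebraicIndependent ℚ a := by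
  have := h.comp Sum.inl Sum.inl_injective
  simpa using this

theorem zOf_zero {K : Type*} [Field K] (x : Fin k → K) : zOf x 0 = 0 := by
  simp [zOf]

theorem zOf_last {K : Type*} [Field K] (x : Fin k → K) : zOf x (Fin.last (k + 1)) = 1 := by
  unfold zOf
  rw [← Fin.succ_last, Fin.cons_succ, Fin.snoc_last]

theorem zOf_mid {K : Type*} [Field K] (x : Fin k → K) (i : Fin k) :
    zOf x i.castSucc.succ = x i := by
  unfold zOf
  rw [Fin.cons_succ, Fin.snoc_castSucc]

theorem zOf_map {K L : Type*} [Field K] [Field L] (f : K →+* L) (x : Fin k → K) :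
    (fun i => f (zOf x i)) = zOf (fun i => f (x i)) := by
  funext i
  refine Fin.cases ?_ (fun j => ?_) i
  · simp [zOf]
  · refine Fin.lastCases ?_ (fun l => ?_) j
    · rw [Fin.succ_last, zOf_last, zOf_last, map_one]
    · rw [zOf_mid, zOf_mid]

/-- the generic configuration is injective -/
theorem zOf_injective {a : Fin n → Ω} {x : Fin k → Ω}
    (h : AlgebraicIndependent ℚ (Sum.elim a x)) : Function.Injective (zOf x) := by
  have hx : AlgebraicIndependent ℚ x := by
    have := h.comp Sum.inr Sum.inr_injective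
    simpa using this
  have hx0 : ∀ i, x i ≠ 0 := fun i => hx.ne_zero i
  have hx1 : ∀ i, x i ≠ 1 := fun i h1 => by
    have ht := hx.transcendental i
    rw [h1] at ht
    exact ht isAlgebraic_one
  intro i j hij
  induction i using Fin.cases with
  | zero =>
    induction j using Fin.cases with
    | zero => rfl
    | succ j =>
      exfalso
      induction j using Fin.lastCases with
      | last => rw [Fin.succ_last, zOf_zero, zOf_last] at hij; exact zero_ne_one hij
      | cast j => rw [zOf_zero, zOf_mid] at hij; exact hx0 j hij.symm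
  | succ i =>
    induction j using Fin.cases with
    | zero =>
      exfalso
      induction i using Fin.lastCases with
      | last => rw [Fin.succ_last, zOf_zero, zOf_last] at hij; exact one_ne_zero hij
      | cast j => rw [zOf_zero, zOf_mid] at hij; exact hx0 j hij
    | succ j =>
      congr 1
      induction i using Fin.lastCases with
      | last =>
        induction j using Fin.lastCases with
        | last => rfl
        | cast j =>
          exfalso; rw [Fin.succ_last, zOf_last, zOf_mid] at hij; exact hx1 j hij.symm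
      | cast i =>
        induction j using Fin.lastCases with
        | last => exfalso; rw [Fin.succ_last, zOf_last, zOf_mid] at hij; exact hx1 i hij
        | cast j =>
          rw [zOf_mid, zOf_mid] at hij
          rw [hx.injective hij]

theorem isAlgebraic_of_le {K : Type*} [Field K] {F F' : Subfield K} (h : F ≤ F')
    (hF : Algebra.IsAlgebraic F K) : Algebra.IsAlgebraic F' K := by
  constructor
  intro y
  obtain ⟨p, hp0, hp⟩ := hF.isAlgebraic y
  refine ⟨p.map (Subfield.inclusion h), ?_, ?_⟩
  · rwa [Polynomial.map_ne_zero_iff (Subfield.inclusion h).injective]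
  · rw [Polynomial.aeval_def, Polynomial.eval₂_map]
    exact hp

/-- generic weights have generic residues -/
theorem genW_res (O : ValuationSubring Ω) {a : Fin n → Ω} (h : AlgebraicIndependent ℚ a)
    (hO : ∀ y ∈ Subfield.closure (Set.range a), y ∈ O) :
    CharZero (IsLocalRing.ResidueField O) ∧ GenW (fun i => resK O (a i)) ∧ ∀ i, a i ∈ O := by
  have hc := residueField_charZero O _ hO
  refine ⟨hc, ?_, fun i => hO _ (Subfield.subset_closure ⟨i, rfl⟩)⟩
  exact genW_of_algebraicIndependent _
    (algInd_residue O _ hO a (fun i => Subfield.subset_closure ⟨i, rfl⟩) h)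

end algebraicIndependence


section one

variable {Ω : Type*} [Field Ω] [IsAlgClosed Ω] (O : ValuationSubring Ω)
  [CharZero (IsLocalRing.ResidueField O)]

theorem chain3 {u v w : Ω} (h1 : v ≠ u) (h2 : O.valuation (v - u) < O.valuation (w - u)) :
    IsChain O ![u, v, w] := by
  have h0 : O.valuation (u - u) < O.valuation (v - u) := by
    rw [sub_self, map_zero]
    exact zero_lt_iff.mpr ((Valuation.ne_zero_iff _).mpr (sub_ne_zero.mpr h1))
  intro i j hij
  have h3 := h0.trans h2
  fin_cases i <;> fin_cases j <;> simp_all [Fin.lt_def]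

theorem inj3 {u v w : Ω} (h1 : u ≠ v) (h2 : u ≠ w) (h3 : v ≠ w) :
    Function.Injective ![u, v, w] := by
  intro i j h
  fin_cases i <;> fin_cases j <;> simp_all

/-- three points: comparison of the edge of a chain -/
theorem three_edge (a : Fin 3 → Ω) (ha : ∀ i, a i ∈ O) (hg : GenW (fun i => resK O (a i)))
    {u v w v' : Ω} {u' w' : Ω} (h1 : v ≠ u)
    (h2 : O.valuation (v - u) < O.valuation (w - u))
    (h1' : u' ≠ v') (h2' : u' ≠ w') (h3' : v' ≠ w')
    (hs : Spec a ![u, v, w] = Spec a ![u', v', w']) :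
    O.valuation ((v' - u') / (w' - u')) = O.valuation ((v - u) / (w - u)) := by
  have hch := chain3 O h1 h2
  have hch' := chain_rigid O (m := 2) (by norm_num) a _ _ ha hg (inj3 h1' h2' h3') hch hs
  have := chain_val_eq O (m := 2) (by norm_num) a _ _ ha hg hch hch' hs (by
    left
    intro i j hi hij
    fin_cases i <;> fin_cases j <;> simp_all [Fin.lt_def]) 1
  simpa [tt] using this

theorem spec_perm (a z z' : Fin 3 → Ω) (e : Fin 3 ≃ Fin 3) (hs : Spec a z = Spec a z') :
    Spec (a ∘ e) (z ∘ e) = Spec (a ∘ e) (z' ∘ e) := by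
  rw [Spec_reindex, Spec_reindex, hs]

theorem genW_comp {K : Type*} [Field K] {ι ι' : Type*} [Fintype ι] [DecidableEq ι] [Fintype ι']
    [DecidableEq ι'] (e : ι' ≃ ι) (a : ι → K) (h : GenW a) : GenW (a ∘ e) := by
  have hs : ∀ S : Finset ι', ∑ i ∈ S, (a ∘ e) i = ∑ i ∈ S.map e.toEmbedding, a i := fun S => by
    rw [Finset.sum_map]; rfl
  constructor
  · intro S hS
    rw [hs]
    exact h.avoid _ (by simpa using hS)
  · intro S₁ S₂ T₁ T₂ h1 h2 h3 h4 h5 h6 h7
    rw [hs, hs, hs, hs] at h7
    have := h.part _ _ _ _ (by simpa using h1) (by simpa using h2) (by simpa using h3)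
      (by simpa using h4) (by simpa using h5) (by simpa using h6) h7
    simpa [Finset.map_inj] using this

theorem one_A (a : Fin 3 → Ω) (ha : ∀ i, a i ∈ O) (hg : GenW (fun i => resK O (a i)))
    {y y' : Ω} (h0 : y ≠ 0) (h0' : y' ≠ 0) (h1' : y' ≠ 1)
    (hs : Spec a ![0, y, 1] = Spec a ![0, y', 1]) (h : O.valuation y < 1) :
    O.valuation y' = O.valuation y := by
  have := three_edge O a ha hg (u := 0) (v := y) (w := 1) (u' := 0) (v' := y') (w' := 1)
    h0 (by simpa using h) h0'.symm zero_ne_one h1' hs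
  simpa using this

theorem one_B (a : Fin 3 → Ω) (ha : ∀ i, a i ∈ O) (hg : GenW (fun i => resK O (a i)))
    {y y' : Ω} (h0' : y' ≠ 0) (h1' : y' ≠ 1)
    (hs : Spec a ![0, y, 1] = Spec a ![0, y', 1]) (h : 1 < O.valuation y) :
    O.valuation y' = O.valuation y := by
  have hs' := spec_perm a _ _ (Equiv.swap 1 2) hs
  have e1 : ∀ y : Ω, (![0, y, 1] : Fin 3 → Ω) ∘ (Equiv.swap 1 2 : Fin 3 ≃ Fin 3) = ![0, 1, y] := by
    intro y; funext i; fin_cases i <;> rfl
  rw [e1, e1] at hs'
  have := three_edge O (a ∘ (Equiv.swap 1 2 : Fin 3 ≃ Fin 3)) (fun i => ha _)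
    (genW_comp (Equiv.swap 1 2 : Fin 3 ≃ Fin 3) _ hg) (u := 0) (v := 1) (w := y)
    (u' := 0) (v' := 1) (w' := y')
    one_ne_zero (by simpa using h) zero_ne_one h0'.symm h1'.symm hs'
  simpa using this

theorem one_C (a : Fin 3 → Ω) (ha : ∀ i, a i ∈ O) (hg : GenW (fun i => resK O (a i)))
    {y y' : Ω} (h1 : y ≠ 1) (h0' : y' ≠ 0) (h1' : y' ≠ 1)
    (hs : Spec a ![0, y, 1] = Spec a ![0, y', 1]) (h : O.valuation (y - 1) < 1) :
    O.valuation (y' - 1) = O.valuation (y - 1) := by
  have hs' := spec_perm a _ _ (Equiv.swap 0 2) hs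
  have e1 : ∀ y : Ω, (![0, y, 1] : Fin 3 → Ω) ∘ (Equiv.swap 0 2 : Fin 3 ≃ Fin 3) = ![1, y, 0] := by
    intro y; funext i; fin_cases i <;> rfl
  rw [e1, e1] at hs'
  have := three_edge O (a ∘ (Equiv.swap 0 2 : Fin 3 ≃ Fin 3)) (fun i => ha _)
    (genW_comp (Equiv.swap 0 2 : Fin 3 ≃ Fin 3) _ hg) (u := 1) (v := y) (w := 0)
    (u' := 1) (v' := y') (w' := 0)
    h1 (by simpa using h) h1'.symm one_ne_zero h0' hs'
  simpa using this

theorem one_D (a : Fin 3 → Ω) (ha : ∀ i, a i ∈ O) (hg : GenW (fun i => resK O (a i)))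
    {y y' : Ω} (h0 : y ≠ 0) (h1 : y ≠ 1) (h0' : y' ≠ 0) (h1' : y' ≠ 1)
    (hs : Spec a ![0, y, 1] = Spec a ![0, y', 1]) :
    O.valuation y' = O.valuation y ∧ O.valuation (y' - 1) = O.valuation (y - 1) := by
  have hy : O.valuation y' = O.valuation y := by
    rcases lt_trichotomy (O.valuation y) 1 with h | h | h
    · exact one_A O a ha hg h0 h0' h1' hs h
    · rcases lt_trichotomy (O.valuation y') 1 with h' | h' | h'
      · exact (one_A O a ha hg h0' h0 h1 hs.symm h').symm
      · rw [h, h']
      · exact (one_B O a ha hg h0 h1 hs.symm h').symm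
    · exact one_B O a ha hg h0' h1' hs h
  refine ⟨hy, ?_⟩
  have key : ∀ t : Ω, 1 < O.valuation (t - 1) →
      1 < O.valuation t ∧ O.valuation (t - 1) = O.valuation t := by
    intro t ht
    have h2 : 1 < O.valuation t := by
      by_contra hc
      have h3 : O.valuation (t - 1) ≤ 1 := by
        have := Valuation.map_sub O.valuation t 1
        rw [map_one] at this
        exact this.trans (max_le (not_lt.mp hc) le_rfl)
      exact absurd ht (not_lt.mpr h3)
    refine ⟨h2, ?_⟩
    apply eq_of_sub_lt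
    have : t - 1 - t = -1 := by ring
    rw [this, Valuation.map_neg, map_one]; exact h2
  have key2 : ∀ t : Ω, 1 < O.valuation t → O.valuation (t - 1) = O.valuation t := by
    intro t ht
    apply eq_of_sub_lt
    have : t - 1 - t = -1 := by ring
    rw [this, Valuation.map_neg, map_one]; exact ht
  rcases lt_trichotomy (O.valuation (y - 1)) 1 with h | h | h
  · exact one_C O a ha hg h1 h0' h1' hs h
  · rcases lt_trichotomy (O.valuation (y' - 1)) 1 with h' | h' | h'
    · exact (one_C O a ha hg h1' h0 h1 hs.symm h').symm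
    · rw [h, h']
    · obtain ⟨h3, h4⟩ := key y' h'
      rw [h4, hy]
      rw [hy] at h3
      exact (key2 y h3).symm
  · obtain ⟨h3, h4⟩ := key y h
    rw [h4, ← hy]
    rw [← hy] at h3
    exact key2 y' h3

end one

end Main

open Main in
theorem pst_one.{u} : Pst.{u} 1 := by
  apply pst_of_algebraic
  intro Ω _ _ _ a x hgen halg i
  have hi : i = 0 := Subsingleton.elim _ _
  subst hi
  have hz : ∀ y : Fin 1 → Ω, zOf y = ![0, y 0, 1] := by
    intro y; funext i; fin_cases i
    · exact zOf_zero y
    · exact zOf_mid y 0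
    · exact zOf_last y
  have hinj := zOf_injective hgen
  have hx0 : x 0 ≠ 0 := fun h => by
    have h1 : zOf x 1 = zOf x 0 := by rw [hz]; simpa using h
    exact absurd (hinj h1) (by decide)
  have hx1 : x 0 ≠ 1 := fun h => by
    have h1 : zOf x 1 = zOf x 2 := by rw [hz]; simpa using h
    exact absurd (hinj h1) (by decide)
  have hfix : ∀ σ : Ω ≃ₐ[specField a (zOf x)] Ω, σ (x 0) = x 0 := by
    intro σ
    have hzz : ∀ f : Ω → Ω, f 0 = 0 → f 1 = 1 → (fun i => f (zOf x i)) = ![0, f (x 0), 1] := by
      intro f h0 h1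
      rw [hz]; funext i; fin_cases i <;> simp [h0, h1]
    have hs : Spec a ![0, σ (x 0), 1] = Spec a ![0, x 0, 1] :=
      (congrArg (Spec a) (hzz σ (map_zero σ) (map_one σ))).symm.trans
        ((spec_of_fixed a (zOf x) σ).trans (congrArg (Spec a) (hz x)))
    have h0' : σ (x 0) ≠ 0 := fun h => hx0 (by simpa using h)
    have h1' : σ (x 0) ≠ 1 := fun h => hx1 (by
      apply σ.injective; rw [h, map_one])
    have hval : ∀ O : ValuationSubring Ω, (∀ y ∈ Subfield.closure (Set.range a), y ∈ O) →
        O.valuation (σ (x 0)) = O.valuation (x 0) ∧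
        O.valuation (σ (x 0) - 1) = O.valuation (x 0 - 1) := by
      intro O hO
      obtain ⟨hc, hg, ha⟩ := genW_res O (algInd_left hgen) hO
      exact one_D O a ha hg hx0 hx1 h0' h1' hs.symm
    have h2 : IsAlgebraic (Subfield.closure (Set.range a)) (σ (x 0) / x 0) := by
      refine isAlgebraic_of_units _ _ fun O hO => ?_
      rw [← le_iff hx0]; exact (hval O hO).1.le
    have h3 : IsAlgebraic (Subfield.closure (Set.range a)) ((σ (x 0) - 1) / (x 0 - 1)) := by
      refine isAlgebraic_of_units _ _ fun O hO => ?_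
      rw [← le_iff (sub_ne_zero.mpr hx1)]; exact (hval O hO).2.le
    have htr : Transcendental (Subfield.closure (Set.range a)) (x 0) :=
      (algInd_over_closure a x hgen).transcendental 0
    set α := σ (x 0) / x 0 with hα
    set β := (σ (x 0) - 1) / (x 0 - 1) with hβ
    have h4 : x 0 * (α - β) = 1 - β := by
      have h5 : α * x 0 = σ (x 0) := by rw [hα]; field_simp
      have h6 : β * (x 0 - 1) = σ (x 0) - 1 := by
        rw [hβ]; exact div_mul_cancel₀ _ (sub_ne_zero.mpr hx1)
      linear_combination h5 - h6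
    by_cases hαβ : α = β
    · rw [hαβ, sub_self, mul_zero] at h4
      have h7 : α = 1 := by rw [hαβ]; linear_combination h4
      rw [hα, div_eq_one_iff_eq hx0] at h7
      exact h7
    · exfalso
      apply htr
      have h8 : x 0 = (1 - β) / (α - β) := by
        rw [eq_div_iff (sub_ne_zero.mpr hαβ)]; exact h4
      rw [h8]
      rw [div_eq_mul_inv]
      exact (isAlgebraic_one.sub h3).mul (h2.sub h3).inv
  have hE : Algebra.IsAlgebraic (specField a (zOf x)) Ω := by
    by_contra hna
    have hle : Subfield.closure (Set.range a ∪ Set.range x) ≤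
        Subfield.closure ((specField a (zOf x) : Set Ω) ∪ Set.range x) := by
      apply Subfield.closure_mono
      apply Set.union_subset_union_left
      exact Set.subset_union_left.trans Subfield.subset_closure
    obtain ⟨σ, i, hi, h⟩ := exists_scale (specField a (zOf x)) x
      (isAlgebraic_of_le hle halg) hna
    have hi0 : i = 0 := Subsingleton.elim _ _
    subst hi0
    rw [hfix σ] at h
    exact hi (by linear_combination -h)
  exact mem_of_fixed _ hE _ hfix

namespace Main

section succ

variable {Ω : Type*} [Field Ω]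

/-- the edge parameters of the normalized configuration -/
def TT {k : ℕ} (x : Fin (k + 1) → Ω) (j : Fin (k + 1)) : Ω := tt (m := k + 2) (zOf x) j.succ

theorem tt_eq {m : ℕ} (z : Fin (m + 1) → Ω) (h0 : z 0 = 0) (j : Fin m) (h : z j.succ ≠ 0) :
    z j.castSucc = tt z j * z j.succ := by
  unfold tt
  rw [h0, sub_zero, sub_zero, div_mul_cancel₀ _ h]

theorem isChain_of_tt (O : ValuationSubring Ω) {m : ℕ} (z : Fin (m + 1) → Ω)
    (hz : Function.Injective z) (h0 : z 0 = 0)
    (h : ∀ i : Fin m, (i : ℕ) ≠ 0 → O.valuation (tt z i) < 1) : IsChain O z := by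
  have hne : ∀ i : Fin m, z i.succ ≠ 0 := fun i h1 => by
    rw [← h0] at h1; exact Fin.succ_ne_zero i (hz h1)
  have hmono : StrictMono (fun i => O.valuation (z i)) := by
    rw [Fin.strictMono_iff_lt_succ]
    intro i
    by_cases hi : (i : ℕ) = 0
    · have h2 : z i.castSucc = 0 := by
        rw [← h0]; congr 1; ext; simpa using hi
      show O.valuation (z i.castSucc) < O.valuation (z i.succ)
      rw [h2, map_zero]
      exact zero_lt_iff.mpr ((Valuation.ne_zero_iff _).mpr (hne i))
    · show O.valuation (z i.castSucc) < O.valuation (z i.succ)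
      rw [tt_eq z h0 i (hne i), map_mul]
      have h3 : 0 < O.valuation (z i.succ) :=
        zero_lt_iff.mpr ((Valuation.ne_zero_iff _).mpr (hne i))
      calc _ < 1 * O.valuation (z i.succ) := mul_lt_mul_of_pos_right (h i hi) h3
        _ = _ := one_mul _
  intro i j hij
  rw [h0, sub_zero, sub_zero]
  exact hmono hij

theorem val_eq_of_tt (O : ValuationSubring Ω) {m : ℕ} (z z' : Fin (m + 1) → Ω)
    (hz : Function.Injective z) (hz' : Function.Injective z') (h0 : z 0 = 0) (h0' : z' 0 = 0)
    (h1 : z (Fin.last m) = 1) (h1' : z' (Fin.last m) = 1)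
    (h : ∀ j : Fin m, O.valuation (tt z' j) = O.valuation (tt z j)) (i : Fin (m + 1)) :
    O.valuation (z' i) = O.valuation (z i) := by
  induction i using Fin.reverseInduction with
  | last => rw [h1, h1']
  | cast i ih =>
    have hne : z i.succ ≠ 0 := fun h2 => by
      rw [← h0] at h2; exact Fin.succ_ne_zero i (hz h2)
    have hne' : z' i.succ ≠ 0 := fun h2 => by
      rw [← h0'] at h2; exact Fin.succ_ne_zero i (hz' h2)
    rw [tt_eq z h0 i hne, tt_eq z' h0' i hne', map_mul, map_mul, h, ih]

theorem TT_eq {k : ℕ} (x : Fin (k + 1) → Ω) (j : Fin (k + 1)) :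
    TT x j = x j / zOf x j.succ.succ := by
  unfold TT tt
  rw [zOf_zero, sub_zero, sub_zero]
  congr 1
  rw [← Fin.succ_castSucc]
  exact zOf_mid x j

theorem map_TT {L : Type*} [Field L] (f : Ω →+* L) {k : ℕ} (x : Fin (k + 1) → Ω)
    (j : Fin (k + 1)) : TT (fun i => f (x i)) j = f (TT x j) := by
  rw [TT_eq, TT_eq, map_div₀, ← zOf_map]

/-- `x i ∈ F` if all edge parameters `T_j`, `j ≥ i`, are in `F` -/
theorem mem_of_TT {k : ℕ} (x : Fin (k + 1) → Ω) (F : Subfield Ω)
    (hx0 : ∀ i, zOf x (Fin.succ i) ≠ 0) (i : Fin (k + 1)) :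
    (∀ j, i ≤ j → TT x j ∈ F) → zOf x i.castSucc.succ ∈ F := by
  induction i using Fin.reverseInduction with
  | last =>
    intro h
    have h1 := h (Fin.last k) le_rfl
    rw [TT_eq, Fin.succ_last, Fin.succ_last, zOf_last, div_one] at h1
    rw [zOf_mid]; exact h1
  | cast i ih =>
    intro h
    have h1 := h i.castSucc le_rfl
    have h2 := ih (fun j hj => h j (le_trans (Fin.castSucc_le_succ i) hj))
    rw [zOf_mid]
    rw [TT_eq] at h1
    have h3 : i.castSucc.succ.succ = i.succ.castSucc.succ := by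
      rw [Fin.succ_castSucc]
    rw [h3] at h1
    have h4 : x i.castSucc = x i.castSucc / zOf x i.succ.castSucc.succ *
        zOf x i.succ.castSucc.succ := by
      rw [div_mul_cancel₀ _ (hx0 _)]
    rw [h4]
    exact F.mul_mem h1 h2

variable [CharZero Ω] {k : ℕ} {a : Fin (k + 3) → Ω} {x : Fin (k + 1) → Ω}

theorem closure_TT (hx0 : ∀ i, zOf x (Fin.succ i) ≠ 0) :
    Subfield.closure ((Subfield.closure (Set.range a) : Set Ω) ∪ Set.range (TT x)) =
      Subfield.closure (Set.range a ∪ Set.range x) := by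
  apply le_antisymm
  · rw [Subfield.closure_le]
    refine Set.union_subset ?_ ?_
    · exact SetLike.coe_subset_coe.mpr (Subfield.closure_mono Set.subset_union_left)
    · rintro _ ⟨j, rfl⟩
      rw [TT_eq]
      refine Subfield.div_mem _ (Subfield.subset_closure (Or.inr ⟨j, rfl⟩)) ?_
      induction j using Fin.lastCases with
      | last => rw [Fin.succ_last, Fin.succ_last, zOf_last]; exact Subfield.one_mem _
      | cast j =>
        have h3 : j.castSucc.succ.succ = j.succ.castSucc.succ := by rw [Fin.succ_castSucc]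
        rw [h3, zOf_mid]
        exact Subfield.subset_closure (Or.inr ⟨_, rfl⟩)
  · rw [Subfield.closure_le]
    refine Set.union_subset ?_ ?_
    · rintro _ ⟨j, rfl⟩
      exact Subfield.subset_closure (Or.inl (Subfield.subset_closure ⟨j, rfl⟩))
    · rintro _ ⟨j, rfl⟩
      rw [← zOf_mid x j]
      exact mem_of_TT x _ hx0 j fun l _ => Subfield.subset_closure (Or.inr ⟨l, rfl⟩)

theorem algInd_TT (hgen : AlgebraicIndependent ℚ (Sum.elim a x)) :
    AlgebraicIndependent ℚ (Sum.elim a (TT x)) := by
  have hinj := zOf_injective hgen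
  have hx0 : ∀ i, zOf x (Fin.succ i) ≠ 0 := fun i h => by
    rw [← zOf_zero x] at h; exact Fin.succ_ne_zero i (hinj h)
  refine algInd_of_isAlgebraic le_rfl _ _ hgen ?_
  have hle : Subfield.closure (Set.range a ∪ Set.range x) ≤
      Subfield.closure (Set.range (Sum.elim a (TT x))) := by
    rw [← closure_TT hx0, Set.Sum.elim_range, Subfield.closure_le]
    refine Set.union_subset ?_ ?_
    · exact SetLike.coe_subset_coe.mpr (Subfield.closure_mono Set.subset_union_left)
    · exact Set.subset_union_right.trans Subfield.subset_closure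
  rintro (i | i)
  · exact isAlgebraic_algebraMap (⟨a i, hle (Subfield.subset_closure (Or.inl ⟨i, rfl⟩))⟩ :
      Subfield.closure (Set.range (Sum.elim a (TT x))))
  · exact isAlgebraic_algebraMap (⟨x i, hle (Subfield.subset_closure (Or.inr ⟨i, rfl⟩))⟩ :
      Subfield.closure (Set.range (Sum.elim a (TT x))))

end succ

open Classical in
theorem filt_eq {K : Type*} [Field K] (O₁ : ValuationSubring K) {ι : Type*} [Fintype ι]
    [DecidableEq ι] (a z : ι → K) :
    ((PhiZ a z).roots.filter (fun p => mult a z p ∈ O₁)).map (fun p => resK O₁ (mult a z p)) =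
      ((Spec a z).filter (fun M => M ∈ O₁)).map (resK O₁) := by
  unfold Spec
  rw [Multiset.filter_map, Multiset.map_map]
  rfl

/-- the index equivalence for the high part at the vertex `1` -/
def eHigh (k : ℕ) : Fin (k + 2) ≃ Option {i : Fin (k + 3) // 1 < i} :=
  (finSuccEquiv (k + 1)).trans (Equiv.optionCongr
    { toFun := fun i => ⟨i.succ.succ, by
        rw [Fin.lt_def]; simp⟩
      invFun := fun i => ⟨i.1.1 - 2, by
        have h1 := i.1.2
        have h2 : (1 : Fin (k + 3)).1 < i.1.1 := i.2
        simp at h2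
        omega⟩
      left_inv := fun i => by ext; simp
      right_inv := fun i => by
        have h2 : (1 : Fin (k + 3)).1 < i.1.1 := i.2
        simp at h2
        apply Subtype.ext; ext
        simp
        omega })

theorem eHigh_zero (k : ℕ) : eHigh k 0 = none := by simp [eHigh]

theorem eHigh_succ (k : ℕ) (i : Fin (k + 1)) :
    eHigh k i.succ = some ⟨i.succ.succ, by rw [Fin.lt_def]; simp⟩ := by
  simp [eHigh]

/-- the index equivalence for the low part at the last but one vertex -/
def eLow (k : ℕ) : Fin (k + 2) ≃ {i : Fin (k + 3) // i ≤ (Fin.last (k + 1)).castSucc} where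
  toFun := fun i => ⟨i.castSucc, by
    rw [Fin.le_def]; simp; omega⟩
  invFun := fun i => ⟨i.1.1, by
    have h := i.2
    rw [Fin.le_def] at h
    simp at h; omega⟩
  left_inv := fun i => by ext; simp
  right_inv := fun i => by apply Subtype.ext; ext; simp

section res

variable {Ω : Type*} [Field Ω] [CharZero Ω] {k : ℕ} {a : Fin (k + 3) → Ω} {x : Fin (k + 1) → Ω}

/-- weights of the high part -/
def aHigh (a : Fin (k + 3) → Ω) : Fin (k + 2) → Ω :=
  Fin.cons (∑ i ∈ Finset.univ.filter (fun i => i ≤ 1), a i) (fun i => a i.succ.succ)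

theorem sum_le_one (a : Fin (k + 3) → Ω) :
    ∑ i ∈ Finset.univ.filter (fun i => i ≤ 1), a i = a 0 + a 1 := by
  have : (Finset.univ.filter (fun i : Fin (k + 3) => i ≤ 1)) = {0, 1} := by
    ext i
    have h1 : ((1 : Fin (k + 3)) : ℕ) = 1 := rfl
    have h0 : ((0 : Fin (k + 3)) : ℕ) = 0 := rfl
    simp only [Finset.mem_filter, Finset.mem_univ, true_and, Finset.mem_insert,
      Finset.mem_singleton, Fin.le_def, Fin.ext_iff, h1, h0]
    omega
  rw [this, Finset.sum_pair]
  intro h
  rw [Fin.ext_iff] at h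
  simp at h

theorem algInd_high (hgen : AlgebraicIndependent ℚ (Sum.elim a x)) :
    AlgebraicIndependent ℚ (Sum.elim (aHigh a) (fun i : Fin k => x i.succ)) := by
  let a' : Fin (k + 3) → Ω := Fin.cons (a 0 + a 1) (fun i => a i.succ)
  have h1 : AlgebraicIndependent ℚ (Sum.elim a' x) := by
    refine algInd_of_isAlgebraic le_rfl _ _ hgen ?_
    have hmem : ∀ y ∈ Set.range (Sum.elim a x),
        y ∈ Subfield.closure (Set.range (Sum.elim a' x)) := by
      rintro _ ⟨(i | i), rfl⟩
      · have hs : ∀ i : Fin (k + 2), a i.succ ∈ Subfield.closure (Set.range (Sum.elim a' x)) :=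
          fun i => Subfield.subset_closure ⟨Sum.inl i.succ, by simp [a']⟩
        induction i using Fin.cases with
        | zero =>
          have h2 : a 0 = (a 0 + a 1) - a 1 := by ring
          show a 0 ∈ _
          rw [h2]
          refine Subfield.sub_mem _ (Subfield.subset_closure ⟨Sum.inl 0, by simp [a']⟩) ?_
          exact hs 0
        | succ i => exact hs i
      · exact Subfield.subset_closure ⟨Sum.inr i, rfl⟩
    intro i
    exact isAlgebraic_algebraMap (⟨Sum.elim a x i, hmem _ ⟨i, rfl⟩⟩ :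
      Subfield.closure (Set.range (Sum.elim a' x)))
  let φ : Fin (k + 2) ⊕ Fin k → Fin (k + 3) ⊕ Fin (k + 1) :=
    Sum.elim (fun i => Fin.cases (Sum.inl 0) (fun j => Sum.inl j.succ.succ) i)
      (fun i => Sum.inr i.succ)
  have hφ : Function.Injective φ := by
    rintro (i | i) (j | j) h
    · induction i using Fin.cases with
      | zero =>
        induction j using Fin.cases with
        | zero => rfl
        | succ j =>
          have h' : (Sum.inl 0 : Fin (k + 3) ⊕ Fin (k + 1)) = Sum.inl j.succ.succ := h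
          exact absurd (Sum.inl_injective h').symm (Fin.succ_ne_zero _)
      | succ i =>
        induction j using Fin.cases with
        | zero =>
          have h' : (Sum.inl i.succ.succ : Fin (k + 3) ⊕ Fin (k + 1)) = Sum.inl 0 := h
          exact absurd (Sum.inl_injective h') (Fin.succ_ne_zero _)
        | succ j =>
          have h' : (Sum.inl i.succ.succ : Fin (k + 3) ⊕ Fin (k + 1)) = Sum.inl j.succ.succ := h
          have h'' := Fin.succ_injective _ (Fin.succ_injective _ (Sum.inl_injective h'))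
          rw [h'']
    · induction i using Fin.cases with
      | zero => simp [φ] at h
      | succ i => simp [φ] at h
    · induction j using Fin.cases with
      | zero => simp [φ] at h
      | succ i => simp [φ] at h
    · have h' : (Sum.inr i.succ : Fin (k + 3) ⊕ Fin (k + 1)) = Sum.inr j.succ := h
      rw [Fin.succ_injective _ (Sum.inr_injective h')]
  have h2 := h1.comp φ hφ
  convert h2 using 1
  funext i
  rcases i with i | i
  · induction i using Fin.cases with
    | zero => simp [φ, aHigh, a', sum_le_one]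
    | succ i => simp [φ, aHigh, a']
  · simp [φ]

theorem algInd_low (hgen : AlgebraicIndependent ℚ (Sum.elim a x)) :
    AlgebraicIndependent ℚ (Sum.elim (fun i : Fin (k + 2) => a i.castSucc)
      (fun i : Fin k => x i.castSucc / x (Fin.last k))) := by
  let x'' : Fin (k + 1) → Ω := Fin.snoc (α := fun _ => Ω)
    (fun i : Fin k => x i.castSucc / x (Fin.last k)) (x (Fin.last k))
  have hx0 : x (Fin.last k) ≠ 0 := by
    have := hgen.ne_zero (Sum.inr (Fin.last k))
    simpa using this
  have h1 : AlgebraicIndependent ℚ (Sum.elim a x'') := by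
    refine algInd_of_isAlgebraic le_rfl _ _ hgen ?_
    have hmem : ∀ y ∈ Set.range (Sum.elim a x),
        y ∈ Subfield.closure (Set.range (Sum.elim a x'')) := by
      rintro _ ⟨(i | i), rfl⟩
      · exact Subfield.subset_closure ⟨Sum.inl i, rfl⟩
      · have hl : x (Fin.last k) ∈ Subfield.closure (Set.range (Sum.elim a x'')) :=
          Subfield.subset_closure ⟨Sum.inr (Fin.last k), by simp [x'']⟩
        induction i using Fin.lastCases with
        | last => exact hl
        | cast i =>
          have h2 : x i.castSucc = (x i.castSucc / x (Fin.last k)) * x (Fin.last k) := by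
            rw [div_mul_cancel₀ _ hx0]
          show x i.castSucc ∈ _
          rw [h2]
          exact Subfield.mul_mem _
            (Subfield.subset_closure ⟨Sum.inr i.castSucc, by simp [x'']⟩) hl
    intro i
    exact isAlgebraic_algebraMap (⟨Sum.elim a x i, hmem _ ⟨i, rfl⟩⟩ :
      Subfield.closure (Set.range (Sum.elim a x'')))
  let φ : Fin (k + 2) ⊕ Fin k → Fin (k + 3) ⊕ Fin (k + 1) :=
    Sum.map Fin.castSucc Fin.castSucc
  have hφ : Function.Injective φ :=
    Function.Injective.sumMap (Fin.castSucc_injective _) (Fin.castSucc_injective _)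
  have h2 := h1.comp φ hφ
  convert h2 using 1
  funext i
  rcases i with i | i
  · simp [φ]
  · simp [φ, x'']

end res

section cases

universe u

variable {Ω : Type u} [Field Ω] [IsAlgClosed Ω] [CharZero Ω] {k : ℕ}
  {a : Fin (k + 3) → Ω} {x x' : Fin (k + 1) → Ω}

theorem exists_ss {i : Fin (k + 3)} (h : 1 < i) : ∃ l : Fin (k + 1), i = l.succ.succ := by
  have h2 : (1 : Fin (k + 3)).1 < i.1 := h
  have h1 : ((1 : Fin (k + 3)) : ℕ) = 1 := rfl
  rw [h1] at h2
  refine ⟨⟨i.1 - 2, by omega⟩, ?_⟩
  ext; simp; omega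

theorem chain_of_TT (O : ValuationSubring Ω) (hinj : Function.Injective (zOf x))
    (hT : ∀ j, O.valuation (TT x j) < 1) : IsChain (m := k + 2) O (zOf x) := by
  refine isChain_of_tt O _ hinj (zOf_zero x) fun i hi => ?_
  have : i = (i.pred (fun h => hi (by rw [h]; rfl))).succ := (Fin.succ_pred _ _).symm
  rw [this]
  exact hT _

theorem hmono_TT (O : ValuationSubring Ω)
    (hmono : ∀ i j, i < j → O.valuation (TT x i) < O.valuation (TT x j)) :
    ∀ i j : Fin (k + 2), (i : ℕ) ≠ 0 → i < j →
      O.valuation (tt (m := k + 2) (zOf x) i) < O.valuation (tt (m := k + 2) (zOf x) j) := by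
  intro i j hi hij
  have hi' : i ≠ 0 := fun h => hi (by rw [h]; rfl)
  have hj' : j ≠ 0 := fun h => by rw [h] at hij; exact absurd hij (Fin.not_lt_zero i)
  have h1 := hmono (i.pred hi') (j.pred hj') (by simpa using hij)
  unfold TT at h1
  rwa [Fin.succ_pred, Fin.succ_pred] at h1

theorem hanti_TT (O : ValuationSubring Ω)
    (hmono : ∀ i j, i < j → O.valuation (TT x j) < O.valuation (TT x i)) :
    ∀ i j : Fin (k + 2), (i : ℕ) ≠ 0 → i < j →
      O.valuation (tt (m := k + 2) (zOf x) j) < O.valuation (tt (m := k + 2) (zOf x) i) := by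
  intro i j hi hij
  have hi' : i ≠ 0 := fun h => hi (by rw [h]; rfl)
  have hj' : j ≠ 0 := fun h => by rw [h] at hij; exact absurd hij (Fin.not_lt_zero i)
  have h1 := hmono (i.pred hi') (j.pred hj') (by simpa using hij)
  unfold TT at h1
  rwa [Fin.succ_pred, Fin.succ_pred] at h1

open Classical in
/-- equality of the high parts of the coarse spectrum at the vertex `1` -/
theorem high_part (O O₁ : ValuationSubring Ω) (hle : O ≤ O₁)
    [CharZero (IsLocalRing.ResidueField O)] [CharZero (IsLocalRing.ResidueField O₁)]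
    (ha : ∀ i, a i ∈ O) (hg : GenW (fun i => resK O (a i)))
    (hch : IsChain (m := k + 2) O (zOf x)) (hch' : IsChain (m := k + 2) O (zOf x'))
    (hu : ∀ l : Fin (k + 1), O₁.valuation (zOf x l.succ.succ) = 1)
    (hu' : ∀ l : Fin (k + 1), O₁.valuation (zOf x' l.succ.succ) = 1)
    (h1 : O₁.valuation (zOf x 1) < 1) (h1' : O₁.valuation (zOf x' 1) < 1)
    (hs : Spec a (zOf x) = Spec a (zOf x')) :
    Spec (fun i => resK O₁ (aHigh a i)) (zOf (fun i : Fin k => resK O₁ (x i.succ))) =
      Spec (fun i => resK O₁ (aHigh a i)) (zOf (fun i : Fin k => resK O₁ (x' i.succ))) := by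
  have key : ∀ y : Fin (k + 1) → Ω, IsChain (m := k + 2) O (zOf y) →
      (∀ l : Fin (k + 1), O₁.valuation (zOf y l.succ.succ) = 1) → O₁.valuation (zOf y 1) < 1 →
      ((Spec a (zOf y)).filter (fun M => M ∈ O₁)).map (resK O₁) =
        Spec (fun i : {i : Fin (k + 3) // i ≤ 1} => resK O₁ (a i))
          (fun i => if i.1 = 0 then 0 else 1) +
        Spec (fun i => resK O₁ (aHigh a i)) (zOf (fun i : Fin k => resK O₁ (y i.succ))) := by
    intro y hch hu h1
    have hc := coarse_spec (m := k + 2) O O₁ hle a (zOf y) ha hg hch 1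
      (by rw [Fin.lt_def]; exact Nat.zero_lt_one)
      (by rw [Fin.lt_def]; show 1 < k + 2; omega)
      (by
        intro i hi0 hi1
        have : i = 1 := by
          rw [Fin.le_def] at hi1
          have h2 : (i : ℕ) ≤ 1 := hi1
          have h3 : (i : ℕ) ≠ 0 := fun h => hi0 (Fin.ext h)
          apply Fin.ext
          show (i : ℕ) = 1
          omega
        rw [this])
      (by
        intro i hi
        obtain ⟨l, rfl⟩ := exists_ss hi
        rw [zOf_zero, sub_zero, sub_zero, hu l, zOf_last, map_one])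
      (by rw [zOf_zero, sub_zero, sub_zero, zOf_last, map_one]; exact h1)
    rw [filt_eq] at hc
    rw [hc]
    have hz1 : zOf y 1 ≠ 0 := by
      have := (chain_dist (m := k + 2) O (zOf y) hch 0 1
        (by rw [Fin.lt_def]; exact Nat.zero_lt_one)).2
      rwa [zOf_zero] at this
    refine congrArg₂ (· + ·) ?_ ?_
    · refine congrArg (Spec _) ?_
      funext i
      rcases i with ⟨i, hi⟩
      by_cases hi0 : i = 0
      · subst hi0
        simp only [sub_self, zero_div, if_true]
        exact resK_zero O₁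
      · have : i = 1 := by
          rw [Fin.le_def] at hi
          have h2 : (i : ℕ) ≤ 1 := hi
          have h3 : (i : ℕ) ≠ 0 := fun h => hi0 (Fin.ext h)
          apply Fin.ext
          show (i : ℕ) = 1
          omega
        subst this
        simp only [if_neg hi0, zOf_zero, sub_zero, div_self hz1]
        exact resK_one O₁
    · rw [← Spec_reindex (eHigh k)]
      refine congrArg₂ Spec ?_ ?_
      · funext i
        induction i using Fin.cases with
        | zero =>
          simp only [Function.comp_apply, eHigh_zero, Option.elim_none, aHigh, Fin.cons_zero]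
        | succ i =>
          simp only [Function.comp_apply, eHigh_succ, Option.elim_some, aHigh, Fin.cons_succ]
      · funext i
        induction i using Fin.cases with
        | zero =>
          simp only [Function.comp_apply, eHigh_zero, Option.elim_none]
          rw [zOf_zero]
        | succ i =>
          simp only [Function.comp_apply, eHigh_succ, Option.elim_some, zOf_zero, sub_zero]
          rw [zOf_last, div_one]
          induction i using Fin.lastCases with
          | last => rw [Fin.succ_last, Fin.succ_last, zOf_last, zOf_last]; exact resK_one O₁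
          | cast j =>
            rw [zOf_mid, Fin.succ_castSucc, zOf_mid]
  have e1 := key x hch hu h1
  have e2 := key x' hch' hu' h1'
  rw [hs, e2] at e1
  exact (add_left_cancel e1).symm


open Classical in
/-- equality of the low parts of the coarse spectrum at the last but one vertex -/
theorem low_part (O O₁ : ValuationSubring Ω) (hle : O ≤ O₁)
    [CharZero (IsLocalRing.ResidueField O)] [CharZero (IsLocalRing.ResidueField O₁)]
    (ha : ∀ i, a i ∈ O) (hg : GenW (fun i => resK O (a i)))
    (hch : IsChain (m := k + 2) O (zOf x)) (hch' : IsChain (m := k + 2) O (zOf x'))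
    (hu : ∀ l : Fin (k + 1), O₁.valuation (zOf x l.castSucc.succ) =
      O₁.valuation (zOf x (Fin.last k).castSucc.succ))
    (hu' : ∀ l : Fin (k + 1), O₁.valuation (zOf x' l.castSucc.succ) =
      O₁.valuation (zOf x' (Fin.last k).castSucc.succ))
    (h1 : O₁.valuation (zOf x (Fin.last k).castSucc.succ) < 1)
    (h1' : O₁.valuation (zOf x' (Fin.last k).castSucc.succ) < 1)
    (hs : Spec a (zOf x) = Spec a (zOf x')) :
    Spec (fun i : Fin (k + 2) => resK O₁ (a i.castSucc))
        (zOf (fun i : Fin k => resK O₁ (x i.castSucc / x (Fin.last k)))) =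
      Spec (fun i : Fin (k + 2) => resK O₁ (a i.castSucc))
        (zOf (fun i : Fin k => resK O₁ (x' i.castSucc / x' (Fin.last k)))) := by
  have hj : ((Fin.last k).castSucc.succ : Fin (k + 3)) = (Fin.last (k + 1)).castSucc := by
    rw [Fin.succ_castSucc, Fin.succ_last]
  have key : ∀ y : Fin (k + 1) → Ω, IsChain (m := k + 2) O (zOf y) →
      (∀ l : Fin (k + 1), O₁.valuation (zOf y l.castSucc.succ) =
        O₁.valuation (zOf y (Fin.last k).castSucc.succ)) →
      O₁.valuation (zOf y (Fin.last k).castSucc.succ) < 1 →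
      ((Spec a (zOf y)).filter (fun M => M ∈ O₁)).map (resK O₁) =
        Spec (fun i : Fin (k + 2) => resK O₁ (a i.castSucc))
          (zOf (fun i : Fin k => resK O₁ (y i.castSucc / y (Fin.last k)))) +
        Spec (fun o : Option {i : Fin (k + 3) // (Fin.last (k + 1)).castSucc < i} =>
            o.elim (resK O₁ (∑ i ∈ Finset.univ.filter
              (fun i => i ≤ (Fin.last (k + 1)).castSucc), a i))
              (fun i => resK O₁ (a i)))
          (fun o => o.elim 0 (fun i => 1)) := by
    intro y hch hu h1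
    have hc := coarse_spec (m := k + 2) O O₁ hle a (zOf y) ha hg hch (Fin.last (k + 1)).castSucc
      (by rw [Fin.lt_def]; simp)
      (by rw [Fin.lt_def]; simp)
      (by
        intro i hi0 hi1
        obtain ⟨l, rfl⟩ : ∃ l : Fin (k + 1), i = l.castSucc.succ := by
          rw [Fin.le_def] at hi1
          simp at hi1
          have h3 : (i : ℕ) ≠ 0 := fun h => hi0 (Fin.ext h)
          refine ⟨⟨i.1 - 1, by omega⟩, ?_⟩
          ext; simp; omega
        rw [zOf_zero, sub_zero, sub_zero, hu l, hj])
      (by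
        intro i hi
        have : i = Fin.last (k + 2) := by
          rw [Fin.lt_def] at hi
          simp at hi
          ext; simp; omega
        rw [this])
      (by rw [zOf_zero, sub_zero, sub_zero, zOf_last, map_one, ← hj]; exact h1)
    rw [filt_eq] at hc
    rw [hc]
    have hyl : y (Fin.last k) ≠ 0 := by
      have := (chain_dist (m := k + 2) O (zOf y) hch 0 (Fin.last k).castSucc.succ
        (by rw [Fin.lt_def]; simp)).2
      rwa [zOf_zero, zOf_mid] at this
    refine congrArg₂ (· + ·) ?_ ?_
    · rw [← Spec_reindex (eLow k)]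
      refine congrArg (Spec _) ?_
      funext i
      simp only [Function.comp_apply, eLow, Equiv.coe_fn_mk, zOf_zero, sub_zero]
      rw [← hj, zOf_mid]
      induction i using Fin.cases with
      | zero => rw [Fin.castSucc_zero, zOf_zero, zOf_zero, zero_div]; exact resK_zero O₁
      | succ i =>
        rw [← Fin.succ_castSucc, zOf_mid]
        induction i using Fin.lastCases with
        | last => rw [Fin.succ_last, zOf_last, div_self hyl]; exact resK_one O₁
        | cast j => rw [zOf_mid]
    · refine congrArg (Spec _) ?_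
      funext o
      rcases o with _ | ⟨i, hi⟩
      · rfl
      · have : i = Fin.last (k + 2) := by
          rw [Fin.lt_def] at hi
          simp at hi
          ext; simp; omega
        subst this
        simp only [Option.elim_some, zOf_zero, sub_zero]
        rw [zOf_last, div_one]; exact resK_one O₁
  have e1 := key x hch hu h1
  have e2 := key x' hch' hu' h1'
  rw [hs, e2] at e1
  exact (add_right_cancel e1).symm

theorem x_ne_zero (hinj : Function.Injective (zOf x)) (i : Fin (k + 2)) :
    zOf x (Fin.succ i) ≠ 0 := fun h => by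
  rw [← zOf_zero x] at h; exact Fin.succ_ne_zero i (hinj h)

theorem TT_zero_mul (hinj : Function.Injective (zOf x)) :
    zOf x 1 = TT x 0 * zOf x (Fin.succ (Fin.succ 0)) := by
  have h := TT_eq x 0
  have h1 : zOf x 1 = x 0 := zOf_mid x 0
  rw [h, h1, div_mul_cancel₀ _ (x_ne_zero hinj _)]

/-- step (II): the smallest parameter degenerates -/
theorem caseII (hP : Pst.{u} k) (hgen : AlgebraicIndependent ℚ (Sum.elim a x))
    (O O₁ : ValuationSubring Ω) (hle : O ≤ O₁)
    (hO : ∀ y ∈ Subfield.closure (Set.range a), y ∈ O)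
    (hF : ∀ y ∈ Subfield.closure ((Subfield.closure (Set.range a) : Set Ω) ∪
      TT x '' {j | j ≠ 0}), y ∈ O₁)
    (h0 : O₁.valuation (TT x 0) < 1)
    (hmono : ∀ i j, i < j → O.valuation (TT x i) < O.valuation (TT x j))
    (hT : ∀ j, O.valuation (TT x j) < 1)
    (hinj' : Function.Injective (zOf x')) (hs : Spec a (zOf x) = Spec a (zOf x')) :
    IsChain (m := k + 2) O (zOf x) ∧ IsChain (m := k + 2) O (zOf x') ∧
    (∀ i, O.valuation (zOf x' i) = O.valuation (zOf x i)) ∧
    (∀ l : Fin (k + 1), O₁.valuation (zOf x l.succ.succ) = 1) ∧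
    (∀ i : Fin k, resK O₁ (x' i.succ) = resK O₁ (x i.succ)) := by
  have hinj := zOf_injective hgen
  obtain ⟨hc, hg, ha⟩ := genW_res O (algInd_left hgen) hO
  have hc₁ := residueField_charZero O₁ _ hF
  have hac := residueField_isAlgClosed O₁
  have hch := chain_of_TT O hinj hT
  have hch' := chain_rigid O (m := k + 2) (by omega) a _ _ ha hg hinj' hch hs
  have hval := chain_val_eq O (m := k + 2) (by omega) a _ _ ha hg hch hch' hs
    (Or.inl (hmono_TT O hmono))
  have hv := val_eq_of_tt O (m := k + 2) _ _ hinj hinj' (zOf_zero x) (zOf_zero x')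
    (zOf_last x) (zOf_last x') hval
  have hmem : ∀ i : Fin (k + 1), i ≠ 0 → zOf x i.castSucc.succ ∈
      Subfield.closure ((Subfield.closure (Set.range a) : Set Ω) ∪ TT x '' {j | j ≠ 0}) := by
    intro i hi
    refine mem_of_TT x _ (x_ne_zero hinj) i fun j hj => ?_
    refine Subfield.subset_closure (Or.inr ⟨j, ?_, rfl⟩)
    rintro rfl
    exact hi (le_antisymm hj (Fin.zero_le i))
  have hu : ∀ l : Fin (k + 1), O₁.valuation (zOf x l.succ.succ) = 1 := by
    intro l
    induction l using Fin.lastCases with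
    | last => rw [Fin.succ_last, Fin.succ_last, zOf_last, map_one]
    | cast j =>
      refine unit_of_subfield _ hF ?_ (x_ne_zero hinj _)
      rw [Fin.succ_castSucc]
      exact hmem _ (Fin.succ_ne_zero j)
  have hu' : ∀ l : Fin (k + 1), O₁.valuation (zOf x' l.succ.succ) = 1 := fun l => by
    rw [eq_coarse hle (hv _), hu]
  have h1 : O₁.valuation (zOf x 1) < 1 := by
    rw [TT_zero_mul hinj, map_mul, hu, mul_one]; exact h0
  have h1' : O₁.valuation (zOf x' 1) < 1 := by rw [eq_coarse hle (hv _)]; exact h1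
  have hsp := high_part O O₁ hle ha hg hch hch' hu hu' h1 h1' hs
  refine ⟨hch, hch', hv, hu, ?_⟩
  have hgen' := algInd_residue O₁ _ hF
    (Sum.elim (aHigh a) (fun i : Fin k => x i.succ)) (by
      rintro (i | i)
      · induction i using Fin.cases with
        | zero =>
          simp only [Sum.elim_inl, aHigh, Fin.cons_zero]
          refine Subfield.sum_mem _ fun i _ => ?_
          exact Subfield.subset_closure (Or.inl (Subfield.subset_closure ⟨i, rfl⟩))
        | succ i =>
          simp only [Sum.elim_inl, aHigh, Fin.cons_succ]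
          exact Subfield.subset_closure (Or.inl (Subfield.subset_closure ⟨_, rfl⟩))
      · simp only [Sum.elim_inr]
        have := hmem i.succ (Fin.succ_ne_zero i)
        rwa [zOf_mid] at this) (algInd_high hgen)
  have hgen'' : AlgebraicIndependent ℚ (Sum.elim (fun i => resK O₁ (aHigh a i))
      (fun i : Fin k => resK O₁ (x i.succ))) := by
    convert hgen' using 1
    funext i
    rcases i with i | i <;> rfl
  have := uniq hP _ _ _ hgen'' hsp
  intro i
  exact (congrFun this i).symm

/-- step (III): the parameter next to `1` degenerates -/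
theorem caseIII (hk : 1 ≤ k) (hP : Pst.{u} k) (hgen : AlgebraicIndependent ℚ (Sum.elim a x))
    (O O₁ : ValuationSubring Ω) (hle : O ≤ O₁)
    (hO : ∀ y ∈ Subfield.closure (Set.range a), y ∈ O)
    (hF : ∀ y ∈ Subfield.closure ((Subfield.closure (Set.range a) : Set Ω) ∪
      TT x '' {j | j ≠ Fin.last k}), y ∈ O₁)
    (h0 : O₁.valuation (TT x (Fin.last k)) < 1)
    (hmono : ∀ i j, i < j → O.valuation (TT x j) < O.valuation (TT x i))
    (hT : ∀ j, O.valuation (TT x j) < 1)
    (hinj' : Function.Injective (zOf x')) (hs : Spec a (zOf x) = Spec a (zOf x')) :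
    O₁.valuation (TT x 0) = 1 ∧ O₁.valuation (TT x' 0 / TT x 0 - 1) < 1 := by
  have hinj := zOf_injective hgen
  obtain ⟨hc, hg, ha⟩ := genW_res O (algInd_left hgen) hO
  have hc₁ := residueField_charZero O₁ _ hF
  have hac := residueField_isAlgClosed O₁
  have hch := chain_of_TT O hinj hT
  have hch' := chain_rigid O (m := k + 2) (by omega) a _ _ ha hg hinj' hch hs
  have hval := chain_val_eq O (m := k + 2) (by omega) a _ _ ha hg hch hch' hs
    (Or.inr (hanti_TT O hmono))
  have hv := val_eq_of_tt O (m := k + 2) _ _ hinj hinj' (zOf_zero x) (zOf_zero x')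
    (zOf_last x) (zOf_last x') hval
  have hxl : x (Fin.last k) ≠ 0 := by
    have := x_ne_zero hinj (Fin.last k).castSucc
    rwa [zOf_mid] at this
  have hxl' : x' (Fin.last k) ≠ 0 := by
    have := x_ne_zero hinj' (Fin.last k).castSucc
    rwa [zOf_mid] at this
  have hxi : ∀ i, x i ≠ 0 := fun i => by
    have := x_ne_zero hinj i.castSucc
    rwa [zOf_mid] at this
  have hxi' : ∀ i, x' i ≠ 0 := fun i => by
    have := x_ne_zero hinj' i.castSucc
    rwa [zOf_mid] at this
  have hmem : ∀ i : Fin (k + 1), x i / x (Fin.last k) ∈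
      Subfield.closure ((Subfield.closure (Set.range a) : Set Ω) ∪
        TT x '' {j | j ≠ Fin.last k}) := by
    intro i
    induction i using Fin.reverseInduction with
    | last => rw [div_self hxl]; exact Subfield.one_mem _
    | cast i ih =>
      have h1 : TT x i.castSucc ∈ Subfield.closure
          ((Subfield.closure (Set.range a) : Set Ω) ∪ TT x '' {j | j ≠ Fin.last k}) :=
        Subfield.subset_closure (Or.inr ⟨_, (Fin.castSucc_lt_last i).ne, rfl⟩)
      rw [TT_eq, Fin.succ_castSucc, zOf_mid] at h1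
      have h2 : x i.castSucc / x (Fin.last k) =
          x i.castSucc / x i.succ * (x i.succ / x (Fin.last k)) := by
        have := hxi i.succ
        field_simp
      rw [h2]
      exact Subfield.mul_mem _ h1 ih
  have hu0 : ∀ i : Fin (k + 1), O₁.valuation (x i / x (Fin.last k)) = 1 := fun i =>
    unit_of_subfield _ hF (hmem i) (div_ne_zero (hxi i) hxl)
  have hu1 : ∀ i : Fin (k + 1), O₁.valuation (x i) = O₁.valuation (x (Fin.last k)) := fun i => by
    have := hu0 i
    rw [map_div₀] at this
    have h2 : O₁.valuation (x (Fin.last k)) ≠ 0 := (Valuation.ne_zero_iff _).mpr hxl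
    exact (div_eq_one_iff_eq h2).mp this
  have hvx : ∀ i : Fin (k + 1), O₁.valuation (x' i) = O₁.valuation (x i) := fun i => by
    have := eq_coarse hle (hv i.castSucc.succ)
    rwa [zOf_mid, zOf_mid] at this
  have hl1 : O₁.valuation (x (Fin.last k)) < 1 := by
    have h1 := h0
    rw [TT_eq, Fin.succ_last, Fin.succ_last, zOf_last, div_one] at h1
    exact h1
  have hsp := low_part O O₁ hle ha hg hch hch'
    (fun l => by rw [zOf_mid, zOf_mid]; exact hu1 l)
    (fun l => by rw [zOf_mid, zOf_mid, hvx, hvx]; exact hu1 l)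
    (by rw [zOf_mid]; exact hl1) (by rw [zOf_mid, hvx]; exact hl1) hs
  have hgen' := algInd_residue O₁ _ hF
    (Sum.elim (fun i : Fin (k + 2) => a i.castSucc)
      (fun i : Fin k => x i.castSucc / x (Fin.last k))) (by
      rintro (i | i)
      · exact Subfield.subset_closure (Or.inl (Subfield.subset_closure ⟨_, rfl⟩))
      · exact hmem _) (algInd_low hgen)
  have hgen'' : AlgebraicIndependent ℚ (Sum.elim (fun i : Fin (k + 2) => resK O₁ (a i.castSucc))
      (fun i : Fin k => resK O₁ (x i.castSucc / x (Fin.last k)))) := by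
    convert hgen' using 1
    funext i
    rcases i with i | i <;> rfl
  have hun := uniq hP _ _ _ hgen'' hsp
  have hres : ∀ i : Fin (k + 1), resK O₁ (x' i / x' (Fin.last k)) =
      resK O₁ (x i / x (Fin.last k)) := by
    intro i
    induction i using Fin.lastCases with
    | last => rw [div_self hxl, div_self hxl']
    | cast i => exact (congrFun hun i).symm
  obtain ⟨n, rfl⟩ : ∃ n, k = n + 1 := ⟨k - 1, by omega⟩
  have hT0 : ∀ y : Fin (n + 2) → Ω, (∀ i, y i ≠ 0) → TT y 0 =
      (y 0 / y (Fin.last (n + 1))) / (y 1 / y (Fin.last (n + 1))) := by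
    intro y hy
    have h1 : TT y 0 = y 0 / y 1 := by
      rw [TT_eq]
      have : (Fin.succ (Fin.succ (0 : Fin (n + 2)))) = (1 : Fin (n + 2)).castSucc.succ := by
        ext; rfl
      rw [this, zOf_mid]
    rw [h1]
    have h2 := hy 1
    have h3 := hy (Fin.last (n + 1))
    field_simp
  have hu0' : ∀ i : Fin (n + 2), O₁.valuation (x' i / x' (Fin.last (n + 1))) = 1 := fun i => by
    rw [map_div₀, hvx, hvx, ← map_div₀]; exact hu0 i
  have hunit : O₁.valuation (TT x 0) = 1 := by
    rw [hT0 x hxi, map_div₀, hu0, hu0, div_one]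
  have hunit' : O₁.valuation (TT x' 0) = 1 := by
    rw [hT0 x' hxi', map_div₀, hu0', hu0', div_one]
  refine ⟨hunit, ?_⟩
  have hr : resK O₁ (TT x' 0) = resK O₁ (TT x 0) := by
    rw [hT0 x hxi, hT0 x' hxi', resK_div O₁ (mem_iff.mpr (hu0' 0).le) (hu0' 1),
      resK_div O₁ (mem_iff.mpr (hu0 0).le) (hu0 1), hres, hres]
  have hlt := (resK_eq_iff O₁ (mem_iff.mpr hunit'.le) (mem_iff.mpr hunit.le)).mp hr
  have hne : TT x 0 ≠ 0 := fun h => by rw [h, map_zero] at hunit; exact zero_ne_one hunit
  have : TT x' 0 / TT x 0 - 1 = (TT x' 0 - TT x 0) / TT x 0 := by field_simp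
  rw [this, map_div₀, hunit, div_one]
  exact hlt

end cases

section second

variable {K : Type*} [Field K]

/-- the quadratic form appearing in the second order comparison -/
def Wq {k : ℕ} (a u : Fin (k + 3) → K) : K :=
  (1 - a 0 - a 1) * (∑ j ∈ Finset.univ.filter (fun j => 2 ≤ j), a j * u j ^ 2)
    - (∑ j ∈ Finset.univ.filter (fun j => 2 ≤ j), a j * u j) ^ 2

theorem sub_mem' (O : ValuationSubring K) {x y : K} (hx : x ∈ O) (hy : y ∈ O) : x - y ∈ O :=
  O.toSubring.sub_mem hx hy

theorem Wq_mem {k : ℕ} (O : ValuationSubring K) (a u : Fin (k + 3) → K) (ha : ∀ i, a i ∈ O)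
    (hu : ∀ j, 2 ≤ j → u j ∈ O) :
    Wq a u ∈ O ∧ resK O (Wq a u) = Wq (fun i => resK O (a i)) (fun i => resK O (u i)) := by
  have h1 : ∀ j ∈ Finset.univ.filter (fun j : Fin (k + 3) => 2 ≤ j), a j * u j ^ 2 ∈ O :=
    fun j hj => O.toSubring.mul_mem (ha j)
      (O.toSubring.pow_mem (hu j (Finset.mem_filter.mp hj).2) 2)
  have h2 : ∀ j ∈ Finset.univ.filter (fun j : Fin (k + 3) => 2 ≤ j), a j * u j ∈ O :=
    fun j hj => O.toSubring.mul_mem (ha j) (hu j (Finset.mem_filter.mp hj).2)
  have h3 : (∑ j ∈ Finset.univ.filter (fun j : Fin (k + 3) => 2 ≤ j), a j * u j ^ 2) ∈ O :=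
    O.toSubring.sum_mem h1
  have h4 : (∑ j ∈ Finset.univ.filter (fun j : Fin (k + 3) => 2 ≤ j), a j * u j) ∈ O :=
    O.toSubring.sum_mem h2
  have h5 : (1 : K) ∈ O := O.toSubring.one_mem
  have h6 : 1 - a 0 ∈ O := sub_mem' O h5 (ha 0)
  have h7 : 1 - a 0 - a 1 ∈ O := sub_mem' O h6 (ha 1)
  have h8 := O.toSubring.mul_mem h7 h3
  have h9 := O.toSubring.pow_mem h4 2
  refine ⟨sub_mem' O h8 h9, ?_⟩
  unfold Wq
  rw [resK_sub O h8 h9, resK_mul O h7 h3, resK_pow O h4, resK_sub O h6 (ha 1),
    resK_sub O h5 (ha 0), resK_one, resK_sum O _ _ h1, resK_sum O _ _ h2]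
  congr 1
  · congr 1
    refine Finset.sum_congr rfl fun j hj => ?_
    have hj2 := hu j (Finset.mem_filter.mp hj).2
    rw [resK_mul O (ha j) (O.toSubring.pow_mem hj2 2), resK_pow O hj2]
  · congr 1
    refine Finset.sum_congr rfl fun j hj => ?_
    rw [resK_mul O (ha j) (hu j (Finset.mem_filter.mp hj).2)]

theorem two_ne_zero_one {k : ℕ} : (2 : Fin (k + 3)) ≠ 0 ∧ (2 : Fin (k + 3)) ≠ 1 ∧
    (1 : Fin (k + 3)) ≠ 0 := by
  refine ⟨?_, ?_, ?_⟩ <;> intro h <;> rw [Fin.ext_iff] at h
  · exact absurd h (show ¬ (2 = 0) by norm_num)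
  · exact absurd h (show ¬ (2 = 1) by norm_num)
  · exact absurd h (show ¬ (1 = 0) by norm_num)

theorem Wq_chain {k : ℕ} (a u : Fin (k + 3) → K) (hg : GenW a) (h2 : u 2 = 1)
    (h3 : ∀ j, 2 < j → u j = 0) : Wq a u ≠ 0 := by
  obtain ⟨e1, e2, e3⟩ := two_ne_zero_one (k := k)
  have hs : ∀ f : Fin (k + 3) → K, (∀ j, 2 < j → f j = 0) →
      ∑ j ∈ Finset.univ.filter (fun j => 2 ≤ j), f j = f 2 := by
    intro f hf
    rw [Finset.sum_eq_single 2]
    · intro j hj hj2
      exact hf j (lt_of_le_of_ne (Finset.mem_filter.mp hj).2 hj2.symm)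
    · intro h; exact absurd (Finset.mem_filter.mpr ⟨Finset.mem_univ _, le_rfl⟩) h
  unfold Wq
  rw [hs _ (fun j hj => by rw [h3 j hj]; ring), hs _ (fun j hj => by rw [h3 j hj]; ring), h2]
  have h4 := (hg.avoid {2} (Finset.singleton_nonempty _)).1
  rw [Finset.sum_singleton] at h4
  have h5 := (hg.avoid {0, 1, 2} ⟨0, by simp⟩).2.1
  rw [Finset.sum_insert (by
    simp only [Finset.mem_insert, Finset.mem_singleton, not_or]
    exact ⟨e3.symm, e1.symm⟩), Finset.sum_pair e2.symm] at h5
  have : (1 - a 0 - a 1) * (a 2 * 1 ^ 2) - (a 2 * 1) ^ 2 =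
      a 2 * (1 - (a 0 + (a 1 + a 2))) := by ring
  rw [this]
  exact mul_ne_zero h4 (sub_ne_zero.mpr h5.symm)

theorem cw_one (O : ValuationSubring K) {k : ℕ} (a : Fin (k + 3) → K) :
    cw (m := k + 2) O a 1 = ![resK O (a 0), resK O (a 1)] := by
  unfold cw
  have : (Finset.univ.filter (fun i : Fin (k + 3) => i < 1)) = {0} := by
    ext i
    simp only [Finset.mem_filter, Finset.mem_univ, true_and, Finset.mem_singleton, Fin.lt_def,
      Fin.ext_iff]
    have h1 : ((1 : Fin (k + 3)) : ℕ) = 1 := rfl
    have h0 : ((0 : Fin (k + 3)) : ℕ) = 0 := rfl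
    rw [h1, h0]; omega
  have h2 : (Finset.univ.filter (fun i : Fin (k + 2 + 1) => i < 1)) = {0} := this
  rw [h2, Finset.sum_singleton]

theorem reduces01 (O : ValuationSubring K) {k : ℕ} (a z : Fin (k + 3) → K)
    (h10 : z 1 ≠ z 0)
    (h : ∀ j, 2 ≤ j → O.valuation (z 1 - z 0) < O.valuation (z j - z 0)) :
    Reduces O a z (z 0) (z 1 - z 0) (cb (m := k + 2) 1) ![resK O (a 0), resK O (a 1)]
      ![0, 1] := by
  have hr : z 1 - z 0 ≠ 0 := sub_ne_zero.mpr h10
  obtain ⟨-, -, e3⟩ := two_ne_zero_one (k := k)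
  have hb0 : cb (m := k + 2) 1 0 = some 0 := by
    unfold cb; rw [if_pos]; rw [Fin.lt_def]; exact Nat.zero_lt_one
  have hb1 : cb (m := k + 2) 1 1 = some 1 := by
    unfold cb; rw [if_neg (lt_irrefl _), if_pos rfl]
  have hb2 : ∀ i : Fin (k + 3), 2 ≤ i → cb (m := k + 2) 1 i = none := by
    intro i hi
    have hi' : 2 ≤ (i : ℕ) := hi
    unfold cb
    rw [if_neg, if_neg]
    · intro h
      rw [h] at hi'
      exact absurd hi' (show ¬ (2 ≤ 1) by norm_num)
    · intro h
      have h' : (i : ℕ) < 1 := h
      omega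
  have hcase : ∀ i : Fin (k + 3), i = 0 ∨ i = 1 ∨ 2 ≤ i := by
    intro i
    rcases Nat.lt_or_ge i.1 2 with h | h
    · rcases Nat.lt_or_ge i.1 1 with h' | h'
      · left; apply Fin.ext; show i.1 = 0; omega
      · right; left; apply Fin.ext; show i.1 = 1; omega
    · right; right; exact h
  refine ⟨hr, ?_, ?_, ?_, ?_, ?_⟩
  · intro i j hij
    fin_cases i <;> fin_cases j <;> simp_all
  · intro i b hib
    rcases hcase i with rfl | rfl | hi
    · rw [hb0] at hib
      obtain rfl := Option.some_injective _ hib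
      simp only [sub_self, zero_div]
      exact ⟨O.toSubring.zero_mem, resK_zero O⟩
    · rw [hb1] at hib
      obtain rfl := Option.some_injective _ hib
      rw [div_self hr]
      exact ⟨O.toSubring.one_mem, resK_one O⟩
    · rw [hb2 i hi] at hib; exact absurd hib (by simp)
  · intro i hi hmem
    rcases hcase i with rfl | rfl | hi'
    · rw [hb0] at hi; exact absurd hi (by simp)
    · rw [hb1] at hi; exact absurd hi (by simp)
    · rw [← le_iff hr] at hmem
      exact absurd (h i hi') (not_lt.mpr hmem)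
  · intro b
    fin_cases b
    · exact ⟨0, hb0⟩
    · exact ⟨1, hb1⟩
  · intro b
    have hf0 : Finset.univ.filter (fun i : Fin (k + 3) => cb (m := k + 2) 1 i = some 0) = {0} := by
      ext i
      simp only [Finset.mem_filter, Finset.mem_univ, true_and, Finset.mem_singleton]
      constructor
      · intro hi
        rcases hcase i with rfl | rfl | hi'
        · rfl
        · rw [hb1] at hi; exact absurd hi (by simp)
        · rw [hb2 i hi'] at hi; exact absurd hi (by simp)
      · rintro rfl; exact hb0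
    have hf1 : Finset.univ.filter (fun i : Fin (k + 3) => cb (m := k + 2) 1 i = some 1) = {1} := by
      ext i
      simp only [Finset.mem_filter, Finset.mem_univ, true_and, Finset.mem_singleton]
      constructor
      · intro hi
        rcases hcase i with rfl | rfl | hi'
        · rw [hb0] at hi; exact absurd hi (by simp)
        · rfl
        · rw [hb2 i hi'] at hi; exact absurd hi (by simp)
      · rintro rfl; exact hb1
    fin_cases b
    · show resK O (a 0) = _
      exact (by rw [hf0, Finset.sum_singleton] :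
        resK O (a 0) = ∑ i ∈ Finset.univ.filter
          (fun i : Fin (k + 3) => cb (m := k + 2) 1 i = some 0), resK O (a i))
    · show resK O (a 1) = _
      exact (by rw [hf1, Finset.sum_singleton] :
        resK O (a 1) = ∑ i ∈ Finset.univ.filter
          (fun i : Fin (k + 3) => cb (m := k + 2) 1 i = some 1), resK O (a i))

/-- good position at the vertex `{0,1}` passes to a coarser valuation ring -/
theorem good_coarse [IsAlgClosed K] (O O₁ : ValuationSubring K) (hle : O ≤ O₁)
    [CharZero (IsLocalRing.ResidueField O)] [CharZero (IsLocalRing.ResidueField O₁)]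
    {k : ℕ} (a z : Fin (k + 3) → K) (ha : ∀ i, a i ∈ O) (hg : GenW (fun i => resK O (a i)))
    (hch : IsChain (m := k + 2) O z)
    (h : ∀ j, 2 ≤ j → O₁.valuation (z 1 - z 0) < O₁.valuation (z j - z 0))
    (p : K) (hp : (PhiZ a z).IsRoot p)
    (hgood : GoodAt O (cw (m := k + 2) O a 1) ![0, 1] (z 0) (z 1 - z 0) p) :
    GoodAt O₁ ![resK O₁ (a 0), resK O₁ (a 1)] ![0, 1] (z 0) (z 1 - z 0) p := by
  have hinj := chain_injective (m := k + 2) O z hch
  obtain ⟨-, -, e3⟩ := two_ne_zero_one (k := k)
  have h10 : z 1 ≠ z 0 := hinj.ne e3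
  have hR := chain_reduces (m := k + 2) O a z hch 1 e3
  obtain ⟨-, hall⟩ := good_roots O a z ha hg hinj _ _ _ _ _ hR
  obtain ⟨-, -, h3, -, h4, -, -⟩ := hall p hp hgood
  refine good_of_units O₁ a z (fun i => hle (ha i)) (genW_coarse O O₁ hle a ha hg) hinj _ _ _ _ _
    (reduces01 O₁ a z h10 h) p hp (fun i => one_coarse hle (h4 i)) (one_coarse hle h3) ?_
  have h5 := hle hgood.1
  rwa [← le_iff (sub_ne_zero.mpr h10)] at h5

end second

section final

universe u

variable {Ω : Type u} [Field Ω] [IsAlgClosed Ω] [CharZero Ω] {k : ℕ}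
  {a : Fin (k + 3) → Ω} {x x' : Fin (k + 1) → Ω}

theorem TT_zero_eq (y : Fin (k + 1) → Ω) :
    (zOf y 1 - zOf y 0) / (zOf y 2 - zOf y 0) = TT y 0 := rfl

/-- comparison of `|z_2|` and `|z_j|` in a chain -/
theorem chain_ge_two (O : ValuationSubring Ω) (hch : IsChain (m := k + 2) O (zOf x))
    (j : Fin (k + 3)) (hj : 2 ≤ j) :
    O.valuation (zOf x 2 - zOf x 0) ≤ O.valuation (zOf x j - zOf x 0) := by
  rcases eq_or_lt_of_le hj with h | h
  · rw [h]
  · exact (hch 2 j h).le

theorem one_lt_two' : (1 : Fin (k + 3)) < 2 := by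
  rw [Fin.lt_def]; exact Nat.one_lt_two

theorem res_u (O : ValuationSubring Ω) [CharZero (IsLocalRing.ResidueField O)] (hch : IsChain (m := k + 2) O (zOf x)) :
    resK O ((zOf x 2 - zOf x 0) / (zOf x 2 - zOf x 0)) = 1 ∧
    ∀ j, 2 < j → resK O ((zOf x 2 - zOf x 0) / (zOf x j - zOf x 0)) = 0 := by
  obtain ⟨e1, e2, e3⟩ := two_ne_zero_one (k := k)
  have hinj := chain_injective (m := k + 2) O _ hch
  constructor
  · rw [div_self (sub_ne_zero.mpr (hinj.ne e1))]; exact resK_one O
  · intro j hj
    have hlt := hch 2 j hj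
    have hne : zOf x j - zOf x 0 ≠ 0 := by
      intro h
      rw [h, map_zero] at hlt
      exact not_lt_zero hlt
    have h1 : O.valuation ((zOf x 2 - zOf x 0) / (zOf x j - zOf x 0)) < 1 := by
      rw [map_div₀, div_lt_one₀ (zero_lt_iff.mpr ((Valuation.ne_zero_iff _).mpr hne))]
      exact hlt
    exact (resK_eq_zero_iff O (mem_iff.mpr h1.le)).mpr h1

theorem exists_pair (O : ValuationSubring Ω) [CharZero (IsLocalRing.ResidueField O)]
    (ha : ∀ i, a i ∈ O) (hg : GenW (fun i => resK O (a i)))
    (hch : IsChain (m := k + 2) O (zOf x)) (hch' : IsChain (m := k + 2) O (zOf x'))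
    (hs : Spec a (zOf x) = Spec a (zOf x')) :
    ∃ p p', (PhiZ a (zOf x)).IsRoot p ∧ (PhiZ a (zOf x')).IsRoot p' ∧
      mult a (zOf x) p = mult a (zOf x') p' ∧
      GoodAt O (cw (m := k + 2) O a 1) ![0, 1] (zOf x 0) (zOf x 1 - zOf x 0) p ∧
      GoodAt O (cw (m := k + 2) O a 1) ![0, 1] (zOf x' 0) (zOf x' 1 - zOf x' 0) p' := by
  obtain ⟨e1, e2, e3⟩ := two_ne_zero_one (k := k)
  exact chain_match O (m := k + 2) (by omega) a _ _ ha hg hch hch' hs 1 e3

/-- `(t_1'/t_1)^2 = 1` modulo the maximal ideal, in the finest situation -/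
theorem sq_fine (hgen : AlgebraicIndependent ℚ (Sum.elim a x)) (O : ValuationSubring Ω)
    (hO : ∀ y ∈ Subfield.closure (Set.range a), y ∈ O)
    (hT : ∀ j, O.valuation (TT x j) < 1)
    (hinj' : Function.Injective (zOf x')) (hs : Spec a (zOf x) = Spec a (zOf x')) :
    O.valuation ((TT x' 0 / TT x 0) ^ 2 - 1) < 1 := by
  obtain ⟨e1, e2, e3⟩ := two_ne_zero_one (k := k)
  have hinj := zOf_injective hgen
  obtain ⟨hc, hg, ha⟩ := genW_res O (algInd_left hgen) hO
  have hch := chain_of_TT O hinj hT
  have hch' := chain_rigid O (m := k + 2) (by omega) a _ _ ha hg hinj' hch hs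
  obtain ⟨p, p', hp, hp', hM, hgd, hgd'⟩ := exists_pair O ha hg hch hch' hs
  rw [cw_one] at hgd hgd'
  obtain ⟨r1, r2⟩ := res_u O hch
  obtain ⟨r1', r2'⟩ := res_u O hch'
  have := ratio_sq (m := k) O a (zOf x) (zOf x') ha hg hinj hinj' (hch 1 2 one_lt_two')
    (hch' 1 2 one_lt_two') (chain_ge_two O hch) (chain_ge_two O hch') (by
      intro j hj
      rcases eq_or_lt_of_le hj with h | h
      · rw [← h, r1, r1']
      · rw [r2 j h, r2' j h])
    (Wq_chain (fun i => resK O (a i))
      (fun j => resK O ((zOf x 2 - zOf x 0) / (zOf x j - zOf x 0))) hg r1 r2)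
    p p' hp hp' hM hgd hgd'
  exact this

/-- `(t_1'/t_1)^2 = 1` modulo the maximal ideal of the coarse ring of case (II) -/
theorem sq_coarse (hP : Pst.{u} k) (hgen : AlgebraicIndependent ℚ (Sum.elim a x))
    (O O₁ : ValuationSubring Ω) (hle : O ≤ O₁)
    (hO : ∀ y ∈ Subfield.closure (Set.range a), y ∈ O)
    (hF : ∀ y ∈ Subfield.closure ((Subfield.closure (Set.range a) : Set Ω) ∪
      TT x '' {j | j ≠ 0}), y ∈ O₁)
    (h0 : O₁.valuation (TT x 0) < 1)
    (hmono : ∀ i j, i < j → O.valuation (TT x i) < O.valuation (TT x j))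
    (hT : ∀ j, O.valuation (TT x j) < 1)
    (hinj' : Function.Injective (zOf x')) (hs : Spec a (zOf x) = Spec a (zOf x')) :
    O₁.valuation ((TT x' 0 / TT x 0) ^ 2 - 1) < 1 ∧
    ∀ j, j ≠ 0 → O₁.valuation (TT x' j - TT x j) < 1 := by
  obtain ⟨e1, e2, e3⟩ := two_ne_zero_one (k := k)
  have hinj := zOf_injective hgen
  obtain ⟨hch, hch', hv, hu, hres⟩ := caseII hP hgen O O₁ hle hO hF h0 hmono hT hinj' hs
  obtain ⟨hc, hg, ha⟩ := genW_res O (algInd_left hgen) hO
  have hc₁ := residueField_charZero O₁ _ hF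
  have hu' : ∀ l : Fin (k + 1), O₁.valuation (zOf x' l.succ.succ) = 1 := fun l => by
    rw [eq_coarse hle (hv _), hu]
  have hres' : ∀ l : Fin (k + 1), resK O₁ (zOf x' l.succ.succ) = resK O₁ (zOf x l.succ.succ) := by
    intro l
    induction l using Fin.lastCases with
    | last => rw [Fin.succ_last, Fin.succ_last, zOf_last, zOf_last]
    | cast j => rw [Fin.succ_castSucc, zOf_mid, zOf_mid]; exact hres j
  have h1 : O₁.valuation (zOf x 1) < 1 := by
    rw [TT_zero_mul hinj, map_mul, hu, mul_one]; exact h0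
  have h1' : O₁.valuation (zOf x' 1) < 1 := by rw [eq_coarse hle (hv _)]; exact h1
  have hss : ∀ j : Fin (k + 3), 2 ≤ j → ∃ l : Fin (k + 1), j = l.succ.succ := by
    intro j hj
    exact exists_ss (lt_of_lt_of_le one_lt_two' hj)
  have huj : ∀ j : Fin (k + 3), 2 ≤ j → O₁.valuation (zOf x j - zOf x 0) = 1 := by
    intro j hj
    obtain ⟨l, rfl⟩ := hss j hj
    rw [zOf_zero, sub_zero, hu]
  have huj' : ∀ j : Fin (k + 3), 2 ≤ j → O₁.valuation (zOf x' j - zOf x' 0) = 1 := by
    intro j hj
    obtain ⟨l, rfl⟩ := hss j hj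
    rw [zOf_zero, sub_zero, hu']
  have hlt : ∀ j, 2 ≤ j → O₁.valuation (zOf x 1 - zOf x 0) < O₁.valuation (zOf x j - zOf x 0) :=
    fun j hj => by rw [huj j hj, zOf_zero, sub_zero]; exact h1
  have hlt' : ∀ j, 2 ≤ j →
      O₁.valuation (zOf x' 1 - zOf x' 0) < O₁.valuation (zOf x' j - zOf x' 0) :=
    fun j hj => by rw [huj' j hj, zOf_zero, sub_zero]; exact h1'
  constructor
  · obtain ⟨p, p', hp, hp', hM, hgd, hgd'⟩ := exists_pair O ha hg hch hch' hs
    have hgd1 := good_coarse O O₁ hle a (zOf x) ha hg hch hlt p hp hgd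
    have hgd1' := good_coarse O O₁ hle a (zOf x') ha hg hch' hlt' p' hp' hgd'
    have ha₁ : ∀ i, a i ∈ O₁ := fun i => hle (ha i)
    have hg₁ := genW_coarse O O₁ hle a ha hg
    -- the quadratic form is a unit
    let u : Fin (k + 3) → Ω := fun j => (zOf x 2 - zOf x 0) / (zOf x j - zOf x 0)
    have humem : ∀ j, 2 ≤ j → u j ∈ O := by
      intro j hj
      have hne : zOf x j - zOf x 0 ≠ 0 := by
        intro h
        have := huj j hj
        rw [h, map_zero] at this
        exact zero_ne_one this
      show (zOf x 2 - zOf x 0) / (zOf x j - zOf x 0) ∈ O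
      rw [← le_iff hne]
      exact chain_ge_two O hch j hj
    obtain ⟨r1, r2⟩ := res_u O hch
    obtain ⟨hW1, hW2⟩ := Wq_mem O a u ha humem
    have hW3 : resK O (Wq a u) ≠ 0 := by
      rw [hW2]
      exact Wq_chain (fun i => resK O (a i)) (fun j => resK O (u j)) hg r1 r2
    have hW4 := (resK_ne_zero_iff O hW1).mp hW3
    have hW5 := one_coarse hle hW4
    obtain ⟨hW1', hW2'⟩ := Wq_mem O₁ a u ha₁ (fun j hj => hle (humem j hj))
    have hW6 := (resK_ne_zero_iff O₁ hW1').mpr hW5
    rw [hW2'] at hW6
    have := ratio_sq (m := k) O₁ a (zOf x) (zOf x') ha₁ hg₁ hinj hinj' (hlt 2 le_rfl)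
      (hlt' 2 le_rfl) (fun j hj => by rw [huj 2 le_rfl, huj j hj])
      (fun j hj => by rw [huj' 2 le_rfl, huj' j hj]) (by
        intro j hj
        obtain ⟨l, rfl⟩ := hss j hj
        obtain ⟨l2, h2⟩ := hss 2 le_rfl
        rw [h2]
        simp only [zOf_zero, sub_zero]
        rw [resK_div O₁ (mem_iff.mpr (hu l2).le) (hu l),
          resK_div O₁ (mem_iff.mpr (hu' l2).le) (hu' l), hres', hres'])
      hW6 p p' hp hp' hM hgd1 hgd1'
    exact this
  · intro j hj
    have hne : j ≠ 0 := hj
    obtain ⟨i, rfl⟩ : ∃ i : Fin k, j = i.succ :=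
      ⟨j.pred hne, (Fin.succ_pred j hne).symm⟩
    have e : ∀ y : Fin (k + 1) → Ω, TT y i.succ =
        zOf y i.castSucc.succ.succ / zOf y i.succ.succ.succ := by
      intro y
      rw [TT_eq, Fin.succ_castSucc i, zOf_mid]
    have hun : O₁.valuation (TT x i.succ) = 1 := by rw [e, map_div₀, hu, hu, div_one]
    have hun' : O₁.valuation (TT x' i.succ) = 1 := by rw [e, map_div₀, hu', hu', div_one]
    apply (resK_eq_iff O₁ (mem_iff.mpr hun'.le) (mem_iff.mpr hun.le)).mp
    rw [e, e, resK_div O₁ (mem_iff.mpr (hu _).le) (hu _),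
      resK_div O₁ (mem_iff.mpr (hu' _).le) (hu' _), hres', hres']


theorem two_unit (O : ValuationSubring Ω) (hO : ∀ y ∈ Subfield.closure (Set.range a), y ∈ O) :
    O.valuation (2 : Ω) = 1 := by
  refine unit_of_subfield _ hO ?_ two_ne_zero
  have : (2 : Ω) = 1 + 1 := by norm_num
  rw [this]
  exact Subfield.add_mem _ (Subfield.one_mem _) (Subfield.one_mem _)

theorem prod_sub_one {ι : Type*} (O : ValuationSubring Ω) (S : Finset ι) (f : ι → Ω)
    (h : ∀ i ∈ S, O.valuation (f i - 1) < 1) : O.valuation (∏ i ∈ S, f i - 1) < 1 := by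
  classical
  induction S using Finset.induction_on with
  | empty => simp
  | insert i S hi ih =>
    rw [Finset.prod_insert hi]
    have h1 := h i (Finset.mem_insert_self _ _)
    have h2 := ih (fun j hj => h j (Finset.mem_insert_of_mem hj))
    have e : f i * ∏ j ∈ S, f j - 1 = (f i - 1) * (∏ j ∈ S, f j - 1) + (f i - 1) +
        (∏ j ∈ S, f j - 1) := by ring
    rw [e]
    refine Valuation.map_add_lt _ (Valuation.map_add_lt _ ?_ h1) h2
    rw [map_mul]
    exact mul_lt_one_of_nonneg_of_lt_one_left zero_le' h1 h2.le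

theorem closure_zOf (a : Fin (k + 3) → Ω) (x : Fin (k + 1) → Ω) :
    Subfield.closure (Set.range a ∪ Set.range (zOf x)) =
      Subfield.closure (Set.range a ∪ Set.range x) := by
  apply le_antisymm
  · rw [Subfield.closure_le]
    refine Set.union_subset (Set.subset_union_left.trans Subfield.subset_closure) ?_
    rintro _ ⟨i, rfl⟩
    induction i using Fin.cases with
    | zero => rw [zOf_zero]; exact Subfield.zero_mem _
    | succ i =>
      induction i using Fin.lastCases with
      | last => rw [Fin.succ_last, zOf_last]; exact Subfield.one_mem _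
      | cast i => rw [zOf_mid]; exact Subfield.subset_closure (Or.inr ⟨i, rfl⟩)
  · apply Subfield.closure_mono
    refine Set.union_subset_union_right _ ?_
    rintro _ ⟨i, rfl⟩
    exact ⟨i.castSucc.succ, zOf_mid x i⟩

end final

end Main

open Main in
theorem pst_succ.{u} (k : ℕ) (hk : 1 ≤ k) (hP : Pst.{u} k) : Pst.{u} (k + 1) := by
  apply pst_of_algebraic
  intro Ω _ _ _ a x hgen halg
  have hinj := zOf_injective hgen
  have hx0 := x_ne_zero hinj
  have hTgen := algInd_TT (a := a) (x := x) hgen
  have hTk := algInd_over_closure a (TT x) hTgen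
  have hcl := closure_TT (a := a) hx0
  have hTne : ∀ j, TT x j ≠ 0 := fun j => hTk.ne_zero j
  have halgT : Algebra.IsAlgebraic
    (Subfield.closure ((Subfield.closure (Set.range a) : Set Ω) ∪ Set.range (TT x))) Ω := by
    rw [hcl]; exact halg
  -- Galois conjugates
  have hconj : ∀ σ : Ω ≃ₐ[specField a (zOf x)] Ω,
      ∃ x' : Fin (k + 1) → Ω, Function.Injective (zOf x') ∧ Spec a (zOf x) = Spec a (zOf x') ∧
        ∀ j, TT x' j = σ (TT x j) := by
    intro σ
    refine ⟨fun i => (σ : Ω →+* Ω) (x i), ?_, ?_, fun j => map_TT (σ : Ω →+* Ω) x j⟩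
    · rw [← zOf_map]
      exact σ.injective.comp hinj
    · rw [← zOf_map]
      exact (spec_of_fixed a (zOf x) σ).symm
  -- the rings of case (II)
  obtain ⟨O, O₁, hle, hkO, hF, h0, hmono, hT⟩ :=
    exists_val (Subfield.closure (Set.range a)) (TT x) hTk
  -- the rings of case (III)
  obtain ⟨O', O₂, hle', hkO', hF', h0', hmono', hT'⟩ :=
    exists_val (Subfield.closure (Set.range a)) (TT x ∘ Fin.rev) (hTk.comp _ Fin.rev_injective)
  have himg : (TT x ∘ Fin.rev) '' {j | j ≠ 0} = TT x '' {j | j ≠ Fin.last k} := by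
    ext y
    constructor
    · rintro ⟨j, hj, rfl⟩
      refine ⟨Fin.rev j, ?_, rfl⟩
      intro h
      apply hj
      rw [← Fin.rev_rev j, h, Fin.rev_last]
    · rintro ⟨j, hj, rfl⟩
      refine ⟨Fin.rev j, ?_, by simp⟩
      intro h
      apply hj
      rw [← Fin.rev_rev j, h, Fin.rev_zero]
  rw [himg] at hF'
  have h0'' : O₂.valuation (TT x (Fin.last k)) < 1 := by
    have := h0'
    simpa using this
  have hmono'' : ∀ i j, i < j → O'.valuation (TT x j) < O'.valuation (TT x i) := by
    intro i j hij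
    have := hmono' (Fin.rev j) (Fin.rev i) (Fin.rev_lt_rev.mpr hij)
    simpa using this
  have hT'' : ∀ j, O'.valuation (TT x j) < 1 := by
    intro j
    have := hT' (Fin.rev j)
    simpa using this
  have hII : ∀ σ : Ω ≃ₐ[specField a (zOf x)] Ω,
      O₁.valuation ((σ (TT x 0) / TT x 0) ^ 2 - 1) < 1 ∧
      ∀ j, j ≠ 0 → O₁.valuation (σ (TT x j) - TT x j) < 1 := by
    intro σ
    obtain ⟨x', hinj', hs, hTT⟩ := hconj σ
    have := sq_coarse hP hgen O O₁ hle hkO hF h0 hmono hT hinj' hs
    simpa only [hTT] using this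
  have hIII : ∀ σ : Ω ≃ₐ[specField a (zOf x)] Ω,
      O₂.valuation (σ (TT x 0) / TT x 0 - 1) < 1 := by
    intro σ
    obtain ⟨x', hinj', hs, hTT⟩ := hconj σ
    have := (caseIII hk hP hgen O' O₂ hle' hkO' hF' h0'' hmono'' hT'' hinj' hs).2
    simpa only [hTT] using this
  have hfine : ∀ V : ValuationSubring Ω, (∀ y ∈ Subfield.closure (Set.range a), y ∈ V) →
      (∀ j, V.valuation (TT x j) < 1) → ∀ σ : Ω ≃ₐ[specField a (zOf x)] Ω,
      V.valuation ((σ (TT x 0) / TT x 0) ^ 2 - 1) < 1 := by
    intro V hV hVT σ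
    obtain ⟨x', hinj', hs, hTT⟩ := hconj σ
    have := sq_fine hgen V hV hVT hinj' hs
    simpa only [hTT] using this
  -- algebraicity
  have hE : Algebra.IsAlgebraic (specField a (zOf x)) Ω := by
    by_contra hna
    have hle3 : Subfield.closure ((Subfield.closure (Set.range a) : Set Ω) ∪ Set.range (TT x)) ≤
        Subfield.closure ((specField a (zOf x) : Set Ω) ∪ Set.range (TT x)) := by
      apply Subfield.closure_mono
      apply Set.union_subset_union_left
      exact SetLike.coe_subset_coe.mpr (Subfield.closure_mono Set.subset_union_left)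
    obtain ⟨σ, i, hi, h⟩ := exists_scale (specField a (zOf x)) (TT x)
      (isAlgebraic_of_le hle3 halgT) hna
    by_cases hi0 : i = 0
    · subst hi0
      have h1 := hIII σ
      rw [h, mul_div_assoc, div_self hi, mul_one] at h1
      have h2 : (2 : Ω) - 1 = 1 := by norm_num
      rw [h2, map_one] at h1
      exact lt_irrefl _ h1
    · have h1 := (hII σ).2 i hi0
      rw [h] at h1
      have h2 : 2 * TT x i - TT x i = TT x i := by ring
      rw [h2] at h1
      have h3 : O₁.valuation (TT x i) = 1 :=
        unit_of_subfield _ hF (Subfield.subset_closure (Or.inr ⟨i, hi0, rfl⟩)) hi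
      rw [h3] at h1
      exact lt_irrefl _ h1
  -- the field of the data
  have hEL : specField a (zOf x) ≤
      Subfield.closure ((Subfield.closure (Set.range a) : Set Ω) ∪ Set.range (TT x)) := by
    rw [hcl, ← closure_zOf]
    apply specField_le
    rw [closure_zOf]; exact halg
  obtain ⟨ν, hνL, S, hS, hν⟩ := exists_nu (specField a (zOf x)) _ hEL hE (TT x 0)
    (Subfield.subset_closure (Or.inr ⟨0, rfl⟩)) (hTne 0)
  have hfactor : ∀ V : ValuationSubring Ω, (∀ y ∈ Subfield.closure (Set.range a), y ∈ V) →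
      (∀ j, V.valuation (TT x j) < 1) → ∀ σ : Ω ≃ₐ[specField a (zOf x)] Ω,
      V.valuation (σ (TT x 0) / TT x 0) ≤ 1 := by
    intro V hV hVT σ
    have h1 := hfine V hV hVT σ
    have h2 : V.valuation ((σ (TT x 0) / TT x 0) ^ 2) = V.valuation 1 := by
      apply eq_of_sub_lt
      rw [map_one]; exact h1
    rw [map_one, map_pow] at h2
    exact (pow_eq_one_iff_of_nonneg zero_le' two_ne_zero).mp h2 |>.le
  have hfactor' : ∀ V : ValuationSubring Ω, (∀ y ∈ Subfield.closure (Set.range a), y ∈ V) →
      (∀ j, V.valuation (TT x j) < 1) → ∀ σ : Ω ≃ₐ[specField a (zOf x)] Ω,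
      V.valuation ((1 + σ (TT x 0) / TT x 0) / 2) ≤ 1 := by
    intro V hV hVT σ
    rw [map_div₀, two_unit V hV, div_one]
    refine (Valuation.map_add _ _ _).trans (max_le ?_ (hfactor V hV hVT σ))
    rw [map_one]
  have hνO : O.valuation (ν - 1) < 1 := by
    refine transfer (Subfield.closure (Set.range a)) (TT x) hTk ν hνL ?_ O' hkO' hT'' ?_
      O hkO hT
    · intro V hV hVT
      rw [hν, mem_iff, map_prod]
      exact Finset.prod_le_one' fun ρ _ => hfactor' V hV hVT ρ
    · rw [hν]
      refine prod_sub_one O' S _ fun ρ _ => ?_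
      have h1 := lt_one_of_coarse hle' (hIII ρ)
      have h2 : (1 + ρ (TT x 0) / TT x 0) / 2 - 1 = (ρ (TT x 0) / TT x 0 - 1) / 2 := by ring
      rw [h2, map_div₀, two_unit O' hkO', div_one]
      exact h1
  have hone : ∀ σ : Ω ≃ₐ[specField a (zOf x)] Ω,
      O.valuation (σ (TT x 0) / TT x 0 - 1) < 1 := by
    intro σ
    obtain ⟨ρ, hρS, hρ⟩ := hS σ
    rw [← hρ]
    have h1 := hfine O hkO hT ρ
    have h2 : (ρ (TT x 0) / TT x 0) ^ 2 - 1 =
        (ρ (TT x 0) / TT x 0 - 1) * (1 + ρ (TT x 0) / TT x 0) := by ring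
    rw [h2, map_mul] at h1
    by_contra hc
    have hc' := not_lt.mp hc
    have h3 : O.valuation (1 + ρ (TT x 0) / TT x 0) < 1 := by
      by_contra hc2
      have hc2' := not_lt.mp hc2
      exact absurd h1 (not_lt.mpr (one_le_mul hc' hc2'))
    have h4 : O.valuation ν < 1 := by
      classical
      rw [hν, map_prod, ← Finset.mul_prod_erase S _ hρS]
      refine mul_lt_one_of_nonneg_of_lt_one_left zero_le' ?_ ?_
      · rw [map_div₀, two_unit O hkO, div_one]; exact h3
      · exact Finset.prod_le_one' fun ρ' _ => hfactor' O hkO hT ρ'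
    have h5 : O.valuation ν = O.valuation 1 := by
      apply eq_of_sub_lt
      rw [map_one]; exact hνO
    rw [h5, map_one] at h4
    exact lt_irrefl _ h4
  have hcoarse : ∀ σ : Ω ≃ₐ[specField a (zOf x)] Ω,
      O₁.valuation (σ (TT x 0) / TT x 0 - 1) < 1 := by
    intro σ
    have h1 := (hII σ).1
    have h2 : (σ (TT x 0) / TT x 0) ^ 2 - 1 =
        (σ (TT x 0) / TT x 0 - 1) * (1 + σ (TT x 0) / TT x 0) := by ring
    have h3 : O.valuation (1 + σ (TT x 0) / TT x 0) = 1 := by
      rw [← two_unit O hkO]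
      apply eq_of_sub_lt
      have : 1 + σ (TT x 0) / TT x 0 - 2 = σ (TT x 0) / TT x 0 - 1 := by ring
      rw [this, two_unit O hkO]
      exact hone σ
    rw [h2, map_mul, one_coarse hle h3, mul_one] at h1
    exact h1
  have hmemE := delta (Subfield.closure (Set.range a)) (specField a (zOf x))
    (Subfield.closure_mono Set.subset_union_left) (TT x) hTk hEL hE O₁ hF h0
    (fun σ => ⟨hcoarse σ, (hII σ).2⟩)
  intro i
  have := mem_of_TT x (specField a (zOf x)) hx0 i (fun j _ => hmemE j)
  rwa [zOf_mid] at this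

theorem pst_all.{u} (k : ℕ) : Pst.{u} k := by
  rcases Nat.eq_zero_or_pos k with rfl | hk
  · intro Ω _ _ _ a x _ i; exact i.elim0
  · induction k, hk using Nat.le_induction with
    | base => exact pst_one
    | succ k hk ih => exact pst_succ k hk ih

theorem uniq_all.{u} {k : ℕ} {Ω : Type u} [Field Ω] [IsAlgClosed Ω] [CharZero Ω]
    (a : Fin (k + 2) → Ω) (x x' : Fin k → Ω) (hgen : AlgebraicIndependent ℚ (Sum.elim a x))
    (hs : Spec a (zOf x) = Spec a (zOf x')) : x = x' := uniq (pst_all k) a x x' hgen hs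

open Main in
/-- the multiplier of a period-two point of a generic configuration is not one -/
theorem generic_mult_ne_one {k : ℕ} {Ω : Type*} [Field Ω] [IsAlgClosed Ω] [CharZero Ω]
    (a : Fin (k + 2) → Ω) (x : Fin k → Ω) (hgen : AlgebraicIndependent ℚ (Sum.elim a x))
    (p : Ω) (hp : (PhiZ a (zOf x)).IsRoot p) : mult a (zOf x) p ≠ 1 := by
  have hinj := zOf_injective hgen
  have hxk := algInd_over_closure a x hgen
  have hx : AlgebraicIndependent ℚ x := by
    have := hgen.comp Sum.inr Sum.inr_injective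
    simpa using this
  -- a valuation ring for which the configuration is a chain
  obtain ⟨O, hO, hmono, hlt⟩ : ∃ O : ValuationSubring Ω,
      (∀ y ∈ Subfield.closure (Set.range a), y ∈ O) ∧
      (∀ i j, i < j → O.valuation (x i) < O.valuation (x j)) ∧ ∀ j, O.valuation (x j) < 1 := by
    rcases k with _ | r
    · exact ⟨⊤, fun y _ => trivial, fun i => i.elim0, fun i => i.elim0⟩
    · obtain ⟨O, O₁, -, h1, -, -, h2, h3⟩ := exists_val _ x hxk
      exact ⟨O, h1, h2, h3⟩
  obtain ⟨hc, hg, ha⟩ := genW_res O (algInd_left hgen) hO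
  have hch : IsChain (m := k + 1) O (zOf x) := by
    have hmono2 : StrictMono (fun i : Fin (k + 2) => O.valuation (zOf x i)) := by
      rw [Fin.strictMono_iff_lt_succ]
      intro i
      show O.valuation (zOf x i.castSucc) < O.valuation (zOf x i.succ)
      induction i using Fin.lastCases with
      | last =>
        rw [Fin.succ_last, zOf_last, map_one]
        rcases k with _ | r
        · have : (Fin.last 0).castSucc = (0 : Fin 2) := rfl
          rw [this, zOf_zero, map_zero]; exact zero_lt_one
        · have : (Fin.last (r + 1)).castSucc = (Fin.last r).castSucc.succ := by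
            rw [Fin.succ_castSucc, Fin.succ_last]
          rw [this, zOf_mid]; exact hlt _
      | cast i =>
        rw [zOf_mid]
        by_cases hi0 : (i : ℕ) = 0
        · have : (i.castSucc.castSucc : Fin (k + 2)) = 0 := Fin.ext (by simpa using hi0)
          rw [this, zOf_zero, map_zero]
          exact zero_lt_iff.mpr ((Valuation.ne_zero_iff _).mpr (hx.ne_zero _))
        · have hi1 : (i : ℕ) - 1 < k := lt_of_le_of_lt (Nat.sub_le _ _) i.2
          have : (i.castSucc.castSucc : Fin (k + 2)) =
              (⟨(i : ℕ) - 1, hi1⟩ : Fin k).castSucc.succ := by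
            ext; simp; omega
          rw [this, zOf_mid]
          apply hmono
          rw [Fin.lt_def]
          show (i : ℕ) - 1 < (i : ℕ)
          omega
    intro i j hij
    rw [zOf_zero, sub_zero, sub_zero]
    exact hmono2 hij
  exact chain_mult_ne_one O (m := k + 1) (by omega) a _ ha hg hch p hp

end

end Pool.Agent.Lib.MP_740d3f_ag
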