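import Pool.Agent.Lib.MP_740d3f_ag.Basic

set_option autoImplicit false

/-!
# Reduction of a configuration at a ball

Let `O` be a valuation ring of `K`, `β, A, ζ` the reduction data at the ball with centre `z0` and
radius `|r|` (see `Reduces`).  Put `phat = (p - z0)/r`, `zhat i = (z i - z0)/r`.  Take
`s i = 1, c i = zhat i` for `i` in the ball and `s i = 1/zhat i` (in the maximal ideal), `c i = 1`
otherwise.  By `Phi_affine` and `Phi_scale` the roots of `Phi a s c` are the `phat` for the roots
`p` of `PhiZ a z`; `Phi a s c` has coefficients in `O` and its reduction is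
`D^N * ∏_b (G_b)^(n_b - 1) * W^(number of points outside) * Φ_v` where `Φ_v = PhiZ A ζ`,
`W = Wp A 1 ζ`, `G_b = Gp A 1 ζ b`, `n_b` = size of block `b`, `N = card ι` and
`D = ± ∏_b (X - ζ b)^(n_b - 1)`.  By `root_facts` (in the residue field, weights `A`) the roots of
`Φ_v` are not roots of the other factors.
-/

namespace Pool.Agent.Lib.MP_740d3f_ag
open Polynomial
noncomputable section

section general
variable {K : Type*} [Field K] (O : ValuationSubring K)

lemma resK_of_mem {x : K} (hx : x ∈ O) : resK O x = IsLocalRing.residue O ⟨x, hx⟩ := dif_pos hx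

theorem resK_zero : resK O 0 = 0 := by
  rw [resK_of_mem O O.zero_mem]
  exact map_zero _
theorem resK_one : resK O 1 = 1 := by
  rw [resK_of_mem O O.one_mem]
  exact map_one _
theorem resK_add {x y : K} (hx : x ∈ O) (hy : y ∈ O) : resK O (x + y) = resK O x + resK O y := by
  rw [resK_of_mem O hx, resK_of_mem O hy, resK_of_mem O (O.add_mem _ _ hx hy), ← map_add]
  rfl
theorem resK_sub {x y : K} (hx : x ∈ O) (hy : y ∈ O) : resK O (x - y) = resK O x - resK O y := by
  rw [resK_of_mem O hx, resK_of_mem O hy, resK_of_mem O (sub_mem hx hy), ← map_sub]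
  rfl
theorem resK_mul {x y : K} (hx : x ∈ O) (hy : y ∈ O) : resK O (x * y) = resK O x * resK O y := by
  rw [resK_of_mem O hx, resK_of_mem O hy, resK_of_mem O (O.mul_mem _ _ hx hy), ← map_mul]
  rfl
theorem resK_pow {x : K} (hx : x ∈ O) (n : ℕ) : resK O (x ^ n) = resK O x ^ n := by
  rw [resK_of_mem O hx, resK_of_mem O (pow_mem hx n), ← map_pow]
  rfl
theorem resK_natCast (n : ℕ) : resK O (n : K) = n := by
  rw [resK_of_mem O (natCast_mem O n), ← map_natCast (IsLocalRing.residue O) n]
  rfl
theorem resK_sum {ι : Type*} (S : Finset ι) (f : ι → K) (h : ∀ i ∈ S, f i ∈ O) :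
    resK O (∑ i ∈ S, f i) = ∑ i ∈ S, resK O (f i) := by
  classical
  induction S using Finset.induction_on with
  | empty => simp [resK_zero]
  | insert i S hi ih =>
    rw [Finset.sum_insert hi, Finset.sum_insert hi,
      resK_add O (h i (Finset.mem_insert_self i S))
        (sum_mem fun j hj => h j (Finset.mem_insert_of_mem hj)),
      ih fun j hj => h j (Finset.mem_insert_of_mem hj)]

lemma mem_of_val_eq_one {x : K} (hx : O.valuation x = 1) : x ∈ O :=
  (O.valuation_le_one_iff x).mp hx.le

lemma inv_mem_of_val_eq_one {x : K} (hx : O.valuation x = 1) : x⁻¹ ∈ O :=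
  mem_of_val_eq_one O (by rw [map_inv₀, hx, inv_one])

theorem resK_inv {x : K} (hx : O.valuation x = 1) : resK O x⁻¹ = (resK O x)⁻¹ := by
  have hx0 : x ≠ 0 := by
    rintro rfl
    simp at hx
  have h := resK_mul O (mem_of_val_eq_one O hx) (inv_mem_of_val_eq_one O hx)
  rw [mul_inv_cancel₀ hx0, resK_one] at h
  exact eq_inv_of_mul_eq_one_right h.symm
theorem resK_div {x y : K} (hx : x ∈ O) (hy : O.valuation y = 1) :
    resK O (x / y) = resK O x / resK O y := by
  rw [div_eq_mul_inv, div_eq_mul_inv, resK_mul O hx (inv_mem_of_val_eq_one O hy), resK_inv O hy]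
/-- for integral `x` the residue vanishes iff `|x| < 1` -/
theorem resK_eq_zero_iff {x : K} (hx : x ∈ O) : resK O x = 0 ↔ O.valuation x < 1 := by
  rw [resK_of_mem O hx, IsLocalRing.residue_eq_zero_iff, O.valuation_lt_one_iff]
theorem resK_ne_zero_iff {x : K} (hx : x ∈ O) : resK O x ≠ 0 ↔ O.valuation x = 1 := by
  rw [Ne, resK_eq_zero_iff O hx, not_lt]
  have h := (O.valuation_le_one_iff x).mpr hx
  constructor
  · intro h'
    exact le_antisymm h h'
  · intro h'
    exact h'.ge
theorem resK_eq_iff {x y : K} (hx : x ∈ O) (hy : y ∈ O) :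
    resK O x = resK O y ↔ O.valuation (x - y) < 1 := by
  rw [← resK_eq_zero_iff O (sub_mem hx hy), resK_sub O hx hy, sub_eq_zero]
theorem resK_mu {A B : K} (hA : O.valuation A = 1) (hB : O.valuation B = 1)
    (hC : O.valuation (1 - A - B) = 1) :
    mu A B ∈ O ∧ resK O (mu A B) = mu (resK O A) (resK O B) := by
  have mA := mem_of_val_eq_one O hA
  have mB := mem_of_val_eq_one O hB
  have mC := mem_of_val_eq_one O hC
  have m4 : (4 : K) ∈ O := by exact_mod_cast natCast_mem O 4
  have m9 : (9 : K) ∈ O := by exact_mod_cast natCast_mem O 9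
  have r4 : resK O (4 : K) = 4 := by exact_mod_cast resK_natCast O 4
  have r9 : resK O (9 : K) = 9 := by exact_mod_cast resK_natCast O 9
  have hD : O.valuation (A * B * (1 - A - B)) = 1 := by
    rw [map_mul, map_mul, hA, hB, hC]; simp
  have mAB := mul_mem mA mB
  have mS := mul_mem (add_mem mA mB) mC
  have mN : 1 - 4 * (A * B + (A + B) * (1 - A - B)) ∈ O :=
    sub_mem O.one_mem (mul_mem m4 (add_mem mAB mS))
  have rC : resK O (1 - A - B) = 1 - resK O A - resK O B := by
    rw [resK_sub O (sub_mem O.one_mem mA) mB, resK_sub O O.one_mem mA, resK_one]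
  refine ⟨?_, ?_⟩
  · rw [mu, div_eq_mul_inv]
    exact add_mem m9 (mul_mem mN (inv_mem_of_val_eq_one O hD))
  · rw [mu, mu, resK_add O m9, r9, resK_div O mN hD, resK_sub O O.one_mem
      (mul_mem m4 (add_mem mAB mS)), resK_one, resK_mul O m4 (add_mem mAB mS), r4,
      resK_add O mAB mS, resK_mul O mA mB, resK_mul O (add_mem mA mB) mC, resK_add O mA mB, rC,
      resK_mul O (mul_mem mA mB) mC, rC, resK_mul O mA mB]
    rw [div_eq_mul_inv]
    exact mul_mem mN (inv_mem_of_val_eq_one O hD)

lemma GenW.transfer {R k₁ k₂ ι : Type*} [CommRing R] [Field k₁] [Field k₂] (φ : R →+* k₁)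
    (ψ : R →+* k₂) (h : ∀ x, φ x = 0 → ψ x = 0) (a : ι → R) (hg : GenW (fun i => ψ (a i))) :
    GenW (fun i => φ (a i)) := by
  have h' : ∀ x y, φ x = φ y → ψ x = ψ y := by
    intro x y hxy
    have := h (x - y) (by rw [map_sub, hxy, sub_self])
    rwa [map_sub, sub_eq_zero] at this
  have key : ∀ S : Finset ι, S.Nonempty → ψ (∑ i ∈ S, a i) ≠ 0 ∧ ψ (∑ i ∈ S, a i) ≠ 1 ∧
      2 * ψ (∑ i ∈ S, a i) ≠ 1 ∧ 3 * ψ (∑ i ∈ S, a i) ≠ 1 ∧ 3 * ψ (∑ i ∈ S, a i) ≠ 2 := by
    intro S hS
    have := hg.avoid S hS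
    simpa only [map_sum] using this
  constructor
  · intro S hS
    obtain ⟨h0, h1, h2, h3, h4⟩ := key S hS
    rw [← map_sum]
    refine ⟨fun e => h0 ?_, fun e => h1 ?_, fun e => h2 ?_, fun e => h3 ?_, fun e => h4 ?_⟩
    · exact h _ e
    · have := h' (∑ i ∈ S, a i) 1 (by rw [e, map_one])
      rwa [map_one] at this
    · have := h' (2 * ∑ i ∈ S, a i) 1 (by rw [map_mul, map_ofNat, e, map_one])
      rwa [map_one, map_mul, map_ofNat] at this
    · have := h' (3 * ∑ i ∈ S, a i) 1 (by rw [map_mul, map_ofNat, e, map_one])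
      rwa [map_one, map_mul, map_ofNat] at this
    · have := h' (3 * ∑ i ∈ S, a i) 2 (by rw [map_mul, map_ofNat, e, map_ofNat])
      rwa [map_ofNat, map_mul, map_ofNat] at this
  · intro S₁ S₂ T₁ T₂ hS₁ hS₂ hT₁ hT₂ hS hT hmu
    classical
    refine hg.part S₁ S₂ T₁ T₂ hS₁ hS₂ hT₁ hT₂ hS hT ?_
    rw [← map_sum, ← map_sum, ← map_sum, ← map_sum] at hmu ⊢
    have aux : ∀ S T : Finset ι, S.Nonempty → T.Nonempty → Disjoint S T →
        ψ ((∑ i ∈ S, a i) * (∑ i ∈ T, a i) * (1 - ∑ i ∈ S, a i - ∑ i ∈ T, a i)) ≠ 0 := by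
      intro S T hS hT hST
      rw [map_mul, map_mul]
      refine mul_ne_zero (mul_ne_zero (key S hS).1 (key T hT).1) ?_
      intro e
      refine (key (S ∪ T) (hS.mono Finset.subset_union_left)).2.1 ?_
      rw [Finset.sum_union hST, map_add]
      rw [map_sub, map_sub, map_one] at e
      linear_combination -e
    have n1 := aux S₁ S₂ hS₁ hS₂ hS
    have n2 := aux T₁ T₂ hT₁ hT₂ hT
    have m1 := mt (h _) n1
    have m2 := mt (h _) n2
    generalize ∑ i ∈ S₁, a i = A₁ at *
    generalize ∑ i ∈ S₂, a i = A₂ at *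
    generalize ∑ i ∈ T₁, a i = B₁ at *
    generalize ∑ i ∈ T₂, a i = B₂ at *
    have e1 : φ ((1 - 4 * (A₁ * A₂ + (A₁ + A₂) * (1 - A₁ - A₂))) * (B₁ * B₂ * (1 - B₁ - B₂))) =
        φ ((1 - 4 * (B₁ * B₂ + (B₁ + B₂) * (1 - B₁ - B₂))) * (A₁ * A₂ * (1 - A₁ - A₂))) := by
      simp only [map_mul, map_sub, map_add, map_one, map_ofNat] at m1 m2 ⊢
      rw [mu, mu, add_right_inj, div_eq_div_iff m1 m2] at hmu
      exact hmu
    have e2 := h' _ _ e1
    simp only [map_mul, map_sub, map_add, map_one, map_ofNat] at n1 n2 e2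
    rw [mu, mu, add_right_inj, div_eq_div_iff n1 n2]
    exact e2

/-- integral weights with generic residues are generic, and all their sums are units -/
theorem genW_of_res {ι : Type*} [Fintype ι] [DecidableEq ι] (a : ι → K) (ha : ∀ i, a i ∈ O)
    (hg : GenW (fun i => resK O (a i))) : GenW a := by
  have h := GenW.transfer (algebraMap O K) (IsLocalRing.residue O) (fun x hx => by
    have : x = 0 := by
      apply FaithfulSMul.algebraMap_injective O K
      rw [hx, map_zero]
    rw [this, map_zero]) (fun i => (⟨a i, ha i⟩ : O)) (by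
      have : (fun i => IsLocalRing.residue O ⟨a i, ha i⟩) = fun i => resK O (a i) := by
        ext i
        rw [resK_of_mem O (ha i)]
      rw [this]
      exact hg)
  exact h

/-- the same for a coarser valuation ring -/
theorem genW_coarse (O₁ : ValuationSubring K) (hO : O ≤ O₁) {ι : Type*} [Fintype ι]
    [DecidableEq ι] (a : ι → K) (ha : ∀ i, a i ∈ O) (hg : GenW (fun i => resK O (a i))) :
    GenW (fun i => resK O₁ (a i)) := by
  let j : O →+* O₁ := Subring.inclusion hO
  have h := GenW.transfer ((IsLocalRing.residue O₁).comp j) (IsLocalRing.residue O) (fun x hx => by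
    have h1 : O₁.valuation (x : K) < 1 := by
      have : resK O₁ (x : K) = 0 := by
        rw [resK_of_mem O₁ (hO x.2)]
        exact hx
      exact (resK_eq_zero_iff O₁ (hO x.2)).mp this
    have h2 : O.valuation (x : K) < 1 := by
      by_contra h3
      rw [not_lt] at h3
      have h4 : O.valuation (x : K) = 1 := le_antisymm (O.valuation_le_one x) h3
      have h5 : (x : K)⁻¹ ∈ O₁ := hO (inv_mem_of_val_eq_one O h4)
      have h6 := (O₁.valuation_le_one_iff _).mpr h5
      have h7 : (x : K) ≠ 0 := by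
        intro h8
        rw [h8] at h4
        simp at h4
      have h8 : O₁.valuation (x : K) * O₁.valuation (x : K)⁻¹ = 1 := by
        rw [← map_mul, mul_inv_cancel₀ h7, map_one]
      have h9 : O₁.valuation (x : K) * O₁.valuation (x : K)⁻¹ < 1 :=
        mul_lt_one_of_lt_of_le h1 h6
      exact absurd h8 h9.ne
    have h3 := (resK_eq_zero_iff O x.2).mpr h2
    rwa [resK_of_mem O x.2] at h3) (fun i => (⟨a i, ha i⟩ : O)) (by
      have : (fun i => IsLocalRing.residue O ⟨a i, ha i⟩) = fun i => resK O (a i) := by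
        ext i
        rw [resK_of_mem O (ha i)]
      rw [this]
      exact hg)
  have e : (fun i => ((IsLocalRing.residue O₁).comp j) ⟨a i, ha i⟩) =
      fun i => resK O₁ (a i) := by
    ext i
    rw [resK_of_mem O₁ (hO (ha i))]
    rfl
  rwa [e] at h

end general

variable {K : Type*} [Field K] [IsAlgClosed K] (O : ValuationSubring K)
  [CharZero (IsLocalRing.ResidueField O)]
  {ι τ : Type*} [Fintype ι] [DecidableEq ι] [Fintype τ] [DecidableEq τ] [Nonempty τ]

omit [CharZero (IsLocalRing.ResidueField O)] in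
/-- if `P` has no integral root, then `|P(x)|` does not depend on the integral point `x` -/
lemma valuation_eval_const (P : K[X]) (hP : ∀ r ∈ P.roots, r ∉ O) {x : K}
    (hx : x ∈ O) : O.valuation (P.eval x) = O.valuation (P.eval 0) := by
  have h := (IsAlgClosed.splits P).eq_prod_roots
  have key : ∀ y ∈ O, O.valuation (P.eval y) =
      O.valuation P.leadingCoeff * (P.roots.map (fun r => O.valuation r)).prod := by
    intro y hy
    conv_lhs => rw [h]
    rw [eval_mul, eval_C, map_mul, eval_multiset_prod, Multiset.map_map, map_multiset_prod,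
      Multiset.map_map]
    congr 2
    refine Multiset.map_congr rfl ?_
    intro r hr
    simp only [Function.comp_apply, eval_sub, eval_X, eval_C]
    have h1 : O.valuation y < O.valuation r := by
      have h2 : 1 < O.valuation r := by
        rw [← not_le, O.valuation_le_one_iff]
        exact hP r hr
      exact lt_of_le_of_lt ((O.valuation_le_one_iff y).mpr hy) h2
    rw [Valuation.map_sub_swap]
    exact Valuation.map_sub_eq_of_lt_left _ h1
  rw [key x hx, key 0 O.zero_mem]

open Classical in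
theorem roots_residue (P : O[X]) (hP : P.map (IsLocalRing.residue O) ≠ 0) :
    Multiset.map (resK O) (Multiset.filter (· ∈ O) (P.map (algebraMap O K)).roots)
      = (P.map (IsLocalRing.residue O)).roots := by
  induction hn : P.natDegree using Nat.strong_induction_on generalizing P with
  | _ n ih =>
    have hinj : Function.Injective (algebraMap O K) := FaithfulSMul.algebraMap_injective O K
    have hP0 : P ≠ 0 := by
      rintro rfl
      simp at hP
    by_cases hr : ∃ r : O, P.IsRoot r
    · obtain ⟨r, hr⟩ := hr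
      obtain ⟨Q, hQ⟩ := dvd_iff_isRoot.mpr hr
      have hQ0 : Q ≠ 0 := by
        rintro rfl
        exact hP0 (by rw [hQ, mul_zero])
      have hQ1 : Q.map (IsLocalRing.residue O) ≠ 0 := by
        intro h
        apply hP
        rw [hQ, Polynomial.map_mul, h, mul_zero]
      have hdeg : Q.natDegree < n := by
        rw [← hn, hQ, natDegree_mul (X_sub_C_ne_zero r) hQ0, natDegree_X_sub_C]
        omega
      have hQK : Q.map (algebraMap O K) ≠ 0 := (Polynomial.map_ne_zero_iff hinj).mpr hQ0
      have e1 : (P.map (algebraMap O K)).roots = (r : K) ::ₘ (Q.map (algebraMap O K)).roots := by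
        rw [hQ, Polynomial.map_mul, Polynomial.map_sub, map_X, map_C,
          roots_mul (mul_ne_zero (X_sub_C_ne_zero _) hQK), roots_X_sub_C]
        rfl
      have e2 : (P.map (IsLocalRing.residue O)).roots =
          IsLocalRing.residue O r ::ₘ (Q.map (IsLocalRing.residue O)).roots := by
        rw [hQ, Polynomial.map_mul, Polynomial.map_sub, map_X, map_C,
          roots_mul (mul_ne_zero (X_sub_C_ne_zero _) hQ1), roots_X_sub_C]
        rfl
      rw [e1, e2, Multiset.filter_cons_of_pos _ r.2, Multiset.map_cons,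
        ih Q.natDegree hdeg Q hQ1 rfl, resK_of_mem O r.2]
    · push Not at hr
      have hno : ∀ r ∈ (P.map (algebraMap O K)).roots, r ∉ O := by
        intro r hr1 hr2
        have h1 : (P.map (algebraMap O K)).IsRoot (algebraMap O K ⟨r, hr2⟩) :=
          (mem_roots'.mp hr1).2
        exact hr ⟨r, hr2⟩ ((isRoot_map_iff hinj).mp h1)
      have e1 : Multiset.filter (· ∈ O) (P.map (algebraMap O K)).roots = 0 :=
        Multiset.filter_eq_nil.mpr hno
      rw [e1, Multiset.map_zero]
      symm
      rw [Multiset.eq_zero_iff_forall_notMem]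
      intro ρ hρ
      obtain ⟨ρ, rfl⟩ := IsLocalRing.residue_surjective ρ
      have h1 : (P.map (IsLocalRing.residue O)).eval (IsLocalRing.residue O ρ) = 0 :=
        (mem_roots'.mp hρ).2
      have aux : ∀ x : O, (P.map (IsLocalRing.residue O)).eval (IsLocalRing.residue O x) = 0 ↔
          O.valuation ((P.map (algebraMap O K)).eval (x : K)) < 1 := by
        intro x
        have e3 : (P.map (algebraMap O K)).eval (x : K) = ((P.eval x : O) : K) :=
          eval_map_apply (f := algebraMap O K) x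
        rw [e3, eval_map_apply, IsLocalRing.residue_eq_zero_iff, O.valuation_lt_one_iff]
      have h2 : ∀ y : IsLocalRing.ResidueField O, (P.map (IsLocalRing.residue O)).eval y = 0 := by
        intro y
        obtain ⟨y, rfl⟩ := IsLocalRing.residue_surjective y
        rw [aux]
        rw [aux] at h1
        rwa [valuation_eval_const O _ hno y.2, ← valuation_eval_const O _ hno ρ.2]
      exact hP (Polynomial.funext (by simpa using h2))

/-- the reduced configuration has generic weights -/
theorem genW_reduced {k : Type*} [Field k] {ι τ : Type*} [Fintype ι] [DecidableEq ι]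
    [Fintype τ] [DecidableEq τ]
    (a : ι → k) (hg : GenW a) (β : ι → Option τ)
    (hsurj : ∀ b, ∃ i, β i = some b) (A : τ → k)
    (hA : ∀ b, A b = ∑ i ∈ Finset.univ.filter (fun i => β i = some b), a i) : GenW A := by
  classical
  let Φ : Finset τ → Finset ι := fun S =>
    Finset.univ.filter (fun i => ∃ b ∈ S, β i = some b)
  have hsum : ∀ S : Finset τ, ∑ b ∈ S, A b = ∑ i ∈ Φ S, a i := by
    intro S
    have e : Φ S = S.biUnion (fun b => Finset.univ.filter (fun i => β i = some b)) := by
      ext i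
      simp [Φ]
    rw [e, Finset.sum_biUnion]
    · exact Finset.sum_congr rfl fun b _ => hA b
    · intro b _ b' _ hbb
      rw [Function.onFun, Finset.disjoint_left]
      intro i hi hi'
      simp only [Finset.mem_filter, Finset.mem_univ, true_and] at hi hi'
      rw [hi] at hi'
      exact hbb (Option.some_injective _ hi')
  have hne : ∀ S : Finset τ, S.Nonempty → (Φ S).Nonempty := by
    rintro S ⟨b, hb⟩
    obtain ⟨i, hi⟩ := hsurj b
    exact ⟨i, by simp only [Φ, Finset.mem_filter, Finset.mem_univ, true_and]; exact ⟨b, hb, hi⟩⟩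
  have hinj : ∀ S T : Finset τ, Φ S = Φ T → S = T := by
    have aux : ∀ S T : Finset τ, Φ S = Φ T → S ⊆ T := by
      intro S T h b hb
      obtain ⟨i, hi⟩ := hsurj b
      have h1 : i ∈ Φ S := by
        simp only [Φ, Finset.mem_filter, Finset.mem_univ, true_and]
        exact ⟨b, hb, hi⟩
      rw [h] at h1
      simp only [Φ, Finset.mem_filter, Finset.mem_univ, true_and] at h1
      obtain ⟨b', hb', hi'⟩ := h1
      rw [hi] at hi'
      rw [Option.some_injective _ hi']
      exact hb'
    exact fun S T h => Finset.Subset.antisymm (aux S T h) (aux T S h.symm)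
  have hdis : ∀ S T : Finset τ, Disjoint S T → Disjoint (Φ S) (Φ T) := by
    intro S T h
    rw [Finset.disjoint_left] at h ⊢
    intro i hi hi'
    simp only [Φ, Finset.mem_filter, Finset.mem_univ, true_and] at hi hi'
    obtain ⟨b, hb, hi⟩ := hi
    obtain ⟨b', hb', hi'⟩ := hi'
    rw [hi] at hi'
    rw [← Option.some_injective _ hi'] at hb'
    exact h hb hb'
  constructor
  · intro S hS
    rw [hsum]
    exact hg.avoid _ (hne S hS)
  · intro S₁ S₂ T₁ T₂ hS₁ hS₂ hT₁ hT₂ hS hT hmu
    rw [hsum, hsum, hsum, hsum] at hmu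
    rcases hg.part _ _ _ _ (hne _ hS₁) (hne _ hS₂) (hne _ hT₁) (hne _ hT₂) (hdis _ _ hS)
      (hdis _ _ hT) hmu with ⟨h1, h2⟩ | ⟨h1, h2⟩
    · exact Or.inl ⟨hinj _ _ h1, hinj _ _ h2⟩
    · exact Or.inr ⟨hinj _ _ h1, hinj _ _ h2⟩

/-! ### The factorization of the reduction of the dynatomic polynomial -/

section blocks

variable {ι τ : Type*} [Fintype ι] [DecidableEq ι] [Fintype τ] [DecidableEq τ]

omit [DecidableEq ι] in
lemma prod_blocks {R : Type*} [CommRing R] (β : ι → Option τ) (hsurj : ∀ b, ∃ i, β i = some b)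
    (g : Option τ → R) :
    ∏ j, g (β j) = g none ^ (Finset.univ.filter (fun j => β j = none)).card *
      (∏ b, g (some b) ^ ((Finset.univ.filter (fun j => β j = some b)).card - 1)) *
      ∏ b, g (some b) := by
  have h1 : ∏ j, g (β j) = ∏ o, g o ^ (Finset.univ.filter (fun j => β j = o)).card := by
    rw [← Finset.prod_fiberwise' Finset.univ β g]
    exact Finset.prod_congr rfl fun o _ => Finset.prod_const _
  rw [h1, Fintype.prod_option, mul_assoc, ← Finset.prod_mul_distrib]
  congr 1
  refine Finset.prod_congr rfl fun b _ => ?_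
  obtain ⟨i, hi⟩ := hsurj b
  have : 0 < (Finset.univ.filter (fun j => β j = some b)).card :=
    Finset.card_pos.mpr ⟨i, by simp [hi]⟩
  conv_lhs => rw [← Nat.sub_add_cancel this, pow_succ]

lemma prod_erase_blocks {R : Type*} [CommRing R] (β : ι → Option τ)
    (hsurj : ∀ b, ∃ i, β i = some b) (g : Option τ → R) (i : ι) (b : τ) (hi : β i = some b) :
    ∏ j ∈ Finset.univ.erase i, g (β j) =
      g none ^ (Finset.univ.filter (fun j => β j = none)).card *
      (∏ b, g (some b) ^ ((Finset.univ.filter (fun j => β j = some b)).card - 1)) *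
      ∏ b' ∈ Finset.univ.erase b, g (some b') := by
  have h1 : ∀ S : Finset ι, ∏ j ∈ S, g (β j) = ∏ o, g o ^ (S.filter (fun j => β j = o)).card := by
    intro S
    rw [← Finset.prod_fiberwise' S β g]
    exact Finset.prod_congr rfl fun o _ => Finset.prod_const _
  rw [h1, Fintype.prod_option, mul_assoc]
  have h2 : (Finset.univ.erase i).filter (fun j => β j = none) =
      Finset.univ.filter (fun j => β j = none) := by
    ext j
    simp only [Finset.mem_filter, Finset.mem_erase, Finset.mem_univ, and_true, true_and,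
      and_iff_right_iff_imp]
    rintro hj rfl
    rw [hi] at hj
    exact Option.some_ne_none _ hj
  rw [h2]
  congr 1
  rw [← Finset.mul_prod_erase Finset.univ _ (Finset.mem_univ b),
    ← Finset.mul_prod_erase Finset.univ (fun b => g (some b) ^
      ((Finset.univ.filter (fun j => β j = some b)).card - 1)) (Finset.mem_univ b), mul_assoc,
    ← Finset.prod_mul_distrib]
  have h3 : (Finset.univ.erase i).filter (fun j => β j = some b) =
      (Finset.univ.filter (fun j => β j = some b)).erase i := by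
    ext j
    simp only [Finset.mem_filter, Finset.mem_erase, Finset.mem_univ, and_true, true_and]
  rw [h3, Finset.card_erase_of_mem (by simp [hi])]
  congr 1
  refine Finset.prod_congr rfl fun b' hb' => ?_
  have h4 : (Finset.univ.erase i).filter (fun j => β j = some b') =
      Finset.univ.filter (fun j => β j = some b') := by
    ext j
    simp only [Finset.mem_filter, Finset.mem_erase, Finset.mem_univ, and_true, true_and,
      and_iff_right_iff_imp]
    rintro hj rfl
    rw [hi] at hj
    exact (Finset.ne_of_mem_erase hb') (Option.some_injective _ hj).symm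
  rw [h4]
  obtain ⟨i', hi'⟩ := hsurj b'
  have : 0 < (Finset.univ.filter (fun j => β j = some b')).card :=
    Finset.card_pos.mpr ⟨i', by simp [hi']⟩
  conv_lhs => rw [← Nat.sub_add_cancel this, pow_succ]

omit [DecidableEq ι] in
/-- sum over the points inside the ball, sorted by blocks -/
lemma sum_blocks {R M : Type*} [CommRing R] [AddCommMonoid M] (β : ι → Option τ)
    (F : ι → M) (H : τ → M) (hF : ∀ i, β i = none → F i = 0)
    (hH : ∀ b, ∑ i ∈ Finset.univ.filter (fun i => β i = some b), F i = H b) :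
    ∑ i, F i = ∑ b, H b := by
  rw [← Finset.sum_fiberwise Finset.univ β F, Fintype.sum_option]
  rw [Finset.sum_eq_zero (fun i hi => hF i (Finset.mem_filter.mp hi).2), zero_add]
  exact Finset.sum_congr rfl fun b _ => hH b

variable {k : Type*} [Field k]

/-- the polynomial `D` -/
def Dred (β : ι → Option τ) (ζ : τ → k) : k[X] :=
  (-1) ^ (Finset.univ.filter (fun j => β j = none)).card *
    ∏ b, (lin 1 ζ b) ^ ((Finset.univ.filter (fun j => β j = some b)).card - 1)

/-- the cofactor in the reduction of the dynatomic polynomial -/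
def Ered (β : ι → Option τ) (A ζ : τ → k) : k[X] :=
  (Dred β ζ * Wp A 1 ζ) ^ (Finset.univ.filter (fun j => β j = none)).card *
    (∏ b, (Dred β ζ * Gp A 1 ζ b) ^ ((Finset.univ.filter (fun j => β j = some b)).card - 1)) *
    Dred β ζ ^ Fintype.card τ

lemma Phi_blocks [Nonempty τ] (a s c : ι → k) (β : ι → Option τ)
    (hsurj : ∀ b, ∃ i, β i = some b) (A ζ : τ → k)
    (hA : ∀ b, A b = ∑ i ∈ Finset.univ.filter (fun i => β i = some b), a i)
    (hin : ∀ i b, β i = some b → s i = 1 ∧ c i = ζ b) (hout : ∀ i, β i = none → s i = 0 ∧ c i = 1) :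
    Phi a s c = Ered β A ζ * Phi A 1 ζ := by
  have hlin : ∀ j, lin s c j = (fun o : Option τ => o.elim (-1 : k[X]) (lin 1 ζ)) (β j) := by
    intro j
    rcases hj : β j with _ | b
    · obtain ⟨h1, h2⟩ := hout j hj
      simp [lin, h1, h2]
    · obtain ⟨h1, h2⟩ := hin j b hj
      simp [lin, h1, h2]
  have hprodE : ∀ i b, β i = some b → prodE s c i = Dred β ζ * prodE 1 ζ b := by
    intro i b hi
    exact (Finset.prod_congr rfl (fun j _ => hlin j)).trans
      (prod_erase_blocks β hsurj (fun o : Option τ => o.elim (-1 : k[X]) (lin 1 ζ)) i b hi)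
  have hW : Wp a s c = Dred β ζ * Wp A 1 ζ := by
    rw [Wp, Wp, Finset.mul_sum]
    refine sum_blocks (R := k) β _ _ (fun i hi => ?_) (fun b => ?_)
    · rw [(hout i hi).1]
      simp
    · rw [hA b]
      have : ∀ i ∈ Finset.univ.filter (fun i => β i = some b),
          C (a i * s i) * prodE s c i = C (a i) * (Dred β ζ * prodE 1 ζ b) := by
        intro i hi
        have hi := (Finset.mem_filter.mp hi).2
        rw [hprodE i b hi, (hin i b hi).1, mul_one]
      rw [Finset.sum_congr rfl this, ← Finset.sum_mul, ← map_sum]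
      simp only [Pi.one_apply, mul_one]
      ring
  have hG : ∀ j, Gp a s c j = (fun o : Option τ => o.elim (Dred β ζ * Wp A 1 ζ)
      (fun b => Dred β ζ * Gp A 1 ζ b)) (β j) := by
    intro j
    rcases hj : β j with _ | b
    · rw [Gp, hW, (hout j hj).1]
      simp
    · rw [Gp, hW, (hin j b hj).1, hprodE j b hj]
      simp only [Option.elim_some, Gp, Pi.one_apply]
      ring
  set n0 := (Finset.univ.filter (fun j => β j = none)).card with hn0
  set E : k[X] := (Dred β ζ * Wp A 1 ζ) ^ n0 *
    ∏ b, (Dred β ζ * Gp A 1 ζ b) ^ ((Finset.univ.filter (fun j => β j = some b)).card - 1) with hE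
  have hE1 : ∀ i b, β i = some b → ∏ j ∈ Finset.univ.erase i, Gp a s c j =
      E * ∏ b' ∈ Finset.univ.erase b, (Dred β ζ * Gp A 1 ζ b') := by
    intro i b hi
    exact (Finset.prod_congr rfl (fun j _ => hG j)).trans
      (prod_erase_blocks β hsurj (fun o : Option τ => o.elim (Dred β ζ * Wp A 1 ζ)
        (fun b => Dred β ζ * Gp A 1 ζ b)) i b hi)
  have hE2 : ∏ j, Gp a s c j = E * ∏ b, (Dred β ζ * Gp A 1 ζ b) := by
    exact (Finset.prod_congr rfl (fun j _ => hG j)).trans
      (prod_blocks β hsurj (fun o : Option τ => o.elim (Dred β ζ * Wp A 1 ζ)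
        (fun b => Dred β ζ * Gp A 1 ζ b)))
  have hr : ∀ b : τ, Dred β ζ * ∏ b' ∈ Finset.univ.erase b, (Dred β ζ * Gp A 1 ζ b') =
      Dred β ζ ^ Fintype.card τ * ∏ b' ∈ Finset.univ.erase b, Gp A 1 ζ b' := by
    intro b
    rw [Finset.prod_mul_distrib, Finset.prod_const, Finset.card_erase_of_mem (Finset.mem_univ b),
      Finset.card_univ, ← mul_assoc, ← pow_succ', Nat.sub_add_cancel Fintype.card_pos]
  have hsum : ∑ i, C (a i * s i) * prodE s c i * ∏ j ∈ Finset.univ.erase i, Gp a s c j =
      E * Dred β ζ ^ Fintype.card τ *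
        ∑ b, C (A b * (1 : τ → k) b) * prodE 1 ζ b * ∏ b' ∈ Finset.univ.erase b, Gp A 1 ζ b' := by
    rw [Finset.mul_sum]
    refine sum_blocks (R := k) β _ _ (fun i hi => ?_) (fun b => ?_)
    · rw [(hout i hi).1]
      simp
    · rw [hA b]
      have : ∀ i ∈ Finset.univ.filter (fun i => β i = some b),
          C (a i * s i) * prodE s c i * ∏ j ∈ Finset.univ.erase i, Gp a s c j =
          C (a i) * (E * prodE 1 ζ b *
            (Dred β ζ * ∏ b' ∈ Finset.univ.erase b, (Dred β ζ * Gp A 1 ζ b'))) := by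
        intro i hi
        have hi := (Finset.mem_filter.mp hi).2
        rw [hprodE i b hi, (hin i b hi).1, mul_one, hE1 i b hi]
        ring
      rw [Finset.sum_congr rfl this, ← Finset.sum_mul, ← map_sum, hr b]
      simp only [Pi.one_apply, mul_one]
      ring
  rw [Phi, hsum, hE2, Phi, Ered, Finset.prod_mul_distrib, Finset.prod_const, Finset.card_univ,
    mul_add]
  simp only [← hn0]
  rw [← hE]
  ring

end blocks

section aux

variable {k τ : Type*} [Field k] [Fintype τ] [DecidableEq τ]

omit [Fintype τ] [DecidableEq τ] in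
lemma lin_eval (ζ : τ → k) (b : τ) (p : k) : (lin 1 ζ b).eval p = p - ζ b := by
  simp [lin]

lemma lin_ne_zero (ζ : τ → k) (b : τ) : lin 1 ζ b ≠ 0 := by
  intro h
  have := lin_eval ζ b (ζ b + 1)
  rw [h] at this
  simp at this

lemma prodE_eval_self (ζ : τ → k) (hζ : Function.Injective ζ) (b : τ) :
    (prodE 1 ζ b).eval (ζ b) ≠ 0 := by
  rw [prodE, eval_prod, Finset.prod_ne_zero_iff]
  intro b' hb'
  rw [lin_eval, sub_ne_zero]
  exact fun h => (Finset.ne_of_mem_erase hb') (hζ h).symm

lemma prodE_eval_other (ζ : τ → k) {b b' : τ} (h : b' ≠ b) : (prodE 1 ζ b').eval (ζ b) = 0 := by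
  rw [prodE, eval_prod]
  refine Finset.prod_eq_zero (i := b) (Finset.mem_erase.mpr ⟨h.symm, Finset.mem_univ b⟩) ?_
  rw [lin_eval, sub_self]

lemma Wp_eval_self (A ζ : τ → k) (b : τ) :
    (Wp A 1 ζ).eval (ζ b) = A b * (prodE 1 ζ b).eval (ζ b) := by
  rw [Wp, eval_finsetSum, Finset.sum_eq_single b]
  · simp
  · intro b' _ hb'
    rw [eval_mul, prodE_eval_other ζ hb', mul_zero]
  · intro h
    exact absurd (Finset.mem_univ b) h

lemma Wp_ne_zero [Nonempty τ] (A ζ : τ → k) (hg : GenW A) (hζ : Function.Injective ζ) :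
    Wp A 1 ζ ≠ 0 := by
  intro h
  let b := Classical.arbitrary τ
  have h1 := Wp_eval_self A ζ b
  rw [h, eval_zero] at h1
  have h2 := (hg.avoid {b} (Finset.singleton_nonempty b)).1
  rw [Finset.sum_singleton] at h2
  exact mul_ne_zero h2 (prodE_eval_self ζ hζ b) h1.symm

lemma Gp_ne_zero (A ζ : τ → k) (hg : GenW A) (hζ : Function.Injective ζ) (b : τ) :
    Gp A 1 ζ b ≠ 0 := by
  intro h
  have h1 : (Gp A 1 ζ b).eval (ζ b) = (A b - 1) * (prodE 1 ζ b).eval (ζ b) := by
    rw [Gp, eval_sub, Wp_eval_self]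
    simp
    ring
  rw [h, eval_zero] at h1
  have h2 := (hg.avoid {b} (Finset.singleton_nonempty b)).2.1
  rw [Finset.sum_singleton] at h2
  exact mul_ne_zero (sub_ne_zero.mpr h2) (prodE_eval_self ζ hζ b) h1.symm

lemma Ered_ne_zero [Nonempty τ] {ι : Type*} [Fintype ι] (β : ι → Option τ) (A ζ : τ → k)
    (hg : GenW A) (hζ : Function.Injective ζ) : Ered β A ζ ≠ 0 := by
  have hD : Dred β ζ ≠ 0 := by
    refine mul_ne_zero (pow_ne_zero _ (neg_ne_zero.mpr one_ne_zero)) ?_
    rw [Finset.prod_ne_zero_iff]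
    exact fun b _ => pow_ne_zero _ (lin_ne_zero ζ b)
  refine mul_ne_zero (mul_ne_zero (pow_ne_zero _ (mul_ne_zero hD (Wp_ne_zero A ζ hg hζ))) ?_)
    (pow_ne_zero _ hD)
  rw [Finset.prod_ne_zero_iff]
  exact fun b _ => pow_ne_zero _ (mul_ne_zero hD (Gp_ne_zero A ζ hg hζ b))

lemma Ered_eval_ne_zero [Nonempty τ] {ι : Type*} [Fintype ι] (β : ι → Option τ) (A ζ : τ → k)
    (hg : GenW A) (hζ : Function.Injective ζ) (p : k) (hp : (PhiZ A ζ).IsRoot p) :
    (Ered β A ζ).eval p ≠ 0 := by
  have h1 := (root_facts A ζ hg hζ).2.2 p hp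
  have h2 := root_facts' A ζ hg hζ p hp
  have hD : (Dred β ζ).eval p ≠ 0 := by
    rw [Dred, eval_mul, eval_prod]
    refine mul_ne_zero ?_ ?_
    · rw [eval_pow, eval_neg, eval_one]
      exact pow_ne_zero _ (neg_ne_zero.mpr one_ne_zero)
    · rw [Finset.prod_ne_zero_iff]
      intro b _
      rw [eval_pow, lin_eval]
      exact pow_ne_zero _ (sub_ne_zero.mpr (h1.1 b))
  rw [Ered, eval_mul, eval_mul, eval_pow, eval_mul, eval_prod, eval_pow]
  refine mul_ne_zero (mul_ne_zero (pow_ne_zero _ (mul_ne_zero hD h2.1)) ?_) (pow_ne_zero _ hD)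
  rw [Finset.prod_ne_zero_iff]
  intro b _
  rw [eval_pow, eval_mul]
  exact pow_ne_zero _ (mul_ne_zero hD (h2.2.1 b))

lemma roots_comp_affine {K : Type*} [Field K] [IsAlgClosed K] (F : K[X]) (z0 r : K) (hr : r ≠ 0) :
    (F.comp (C r * X + C z0)).roots = F.roots.map (fun p => (p - z0) / r) := by
  by_cases hF : F = 0
  · simp [hF]
  have h := (IsAlgClosed.splits F).eq_prod_roots
  have h1 : F.comp (C r * X + C z0) = C (F.leadingCoeff * r ^ F.roots.card) *
      ((F.roots.map (fun p => (p - z0) / r)).map (fun a => X - C a)).prod := by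
    conv_lhs => rw [h]
    rw [mul_comp, C_comp, multiset_prod_comp, Multiset.map_map, Multiset.map_map, C_mul, mul_assoc]
    congr 1
    have h2 : C (r ^ F.roots.card) = (F.roots.map (fun _ => C r)).prod := by
      rw [Multiset.map_const', Multiset.prod_replicate, C_pow]
    rw [h2, ← Multiset.prod_map_mul]
    congr 1
    refine Multiset.map_congr rfl ?_
    intro a _
    simp only [Function.comp_apply, sub_comp, X_comp, C_comp]
    rw [mul_sub, ← C_mul, mul_div_cancel₀ _ hr, C_sub]
    ring
  rw [h1, roots_C_mul _ (mul_ne_zero (leadingCoeff_ne_zero.mpr hF) (pow_ne_zero _ hr)),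
    roots_multiset_prod_X_sub_C]

end aux

section reduce

variable {K : Type*} [Field K] (O : ValuationSubring K)
  {ι τ : Type*} [Fintype ι] [DecidableEq ι] [Fintype τ] [DecidableEq τ]

/-- reduction of `ω` at an integral point away from the points of the reduced configuration -/
lemma omega_reduce (a z : ι → K) (ha : ∀ i, a i ∈ O) (z0 r : K) (β : ι → Option τ)
    (A ζ : τ → IsLocalRing.ResidueField O) (hR : Reduces O a z z0 r β A ζ) (p : K)
    (hp : (p - z0) / r ∈ O) (hne : ∀ b, resK O ((p - z0) / r) ≠ ζ b) :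
    (∀ i b, β i = some b → O.valuation ((p - z i) / r) = 1 ∧
      resK O ((p - z i) / r) = resK O ((p - z0) / r) - ζ b) ∧
    (∀ i, β i = none → ((p - z i) / r)⁻¹ ∈ O ∧ resK O ((p - z i) / r)⁻¹ = 0) ∧
    r * omega a z p ∈ O ∧ resK O (r * omega a z p) = omega A ζ (resK O ((p - z0) / r)) := by
  have e : ∀ i, (p - z i) / r = (p - z0) / r - (z i - z0) / r := by
    intro i
    rw [← sub_div]
    ring
  have h1 : ∀ i b, β i = some b → O.valuation ((p - z i) / r) = 1 ∧
      resK O ((p - z i) / r) = resK O ((p - z0) / r) - ζ b := by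
    intro i b hi
    obtain ⟨h2, h3⟩ := hR.hin i b hi
    have h4 : resK O ((p - z i) / r) = resK O ((p - z0) / r) - ζ b := by
      rw [e i, resK_sub O hp h2, h3]
    refine ⟨?_, h4⟩
    rw [← resK_ne_zero_iff O (by rw [e i]; exact sub_mem hp h2), h4]
    exact sub_ne_zero.mpr (hne b)
  have h2 : ∀ i, β i = none → ((p - z i) / r)⁻¹ ∈ O ∧ resK O ((p - z i) / r)⁻¹ = 0 := by
    intro i hi
    have h3 := hR.hout i hi
    have h4 : (p - z i) / r ∉ O := by
      rw [e i]
      intro h5
      apply h3
      have := sub_mem hp h5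
      simpa using this
    have h5 : 1 < O.valuation ((p - z i) / r) := by
      rw [← not_le, O.valuation_le_one_iff]
      exact h4
    have h6 : O.valuation ((p - z i) / r)⁻¹ < 1 := by
      rw [map_inv₀]
      exact inv_lt_one_of_one_lt₀ h5
    have h7 : ((p - z i) / r)⁻¹ ∈ O := (O.valuation_le_one_iff _).mp h6.le
    exact ⟨h7, (resK_eq_zero_iff O h7).mpr h6⟩
  have h3 : ∀ i, ((p - z i) / r)⁻¹ ∈ O := by
    intro i
    rcases hi : β i with _ | b
    · exact (h2 i hi).1
    · exact inv_mem_of_val_eq_one O (h1 i b hi).1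
  have h4 : r * omega a z p = ∑ i, a i * ((p - z i) / r)⁻¹ := by
    rw [omega, Finset.mul_sum]
    refine Finset.sum_congr rfl fun i _ => ?_
    rw [inv_div]
    ring
  refine ⟨h1, h2, ?_, ?_⟩
  · rw [h4]
    exact sum_mem fun i _ => mul_mem (ha i) (h3 i)
  · rw [h4, resK_sum O _ _ (fun i _ => mul_mem (ha i) (h3 i)), omega]
    refine sum_blocks (R := K) β _ _ (fun i hi => ?_) (fun b => ?_)
    · rw [resK_mul O (ha i) (h3 i), (h2 i hi).2, mul_zero]
    · rw [hR.hA b, Finset.sum_div]
      refine Finset.sum_congr rfl fun i hi => ?_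
      have hi := (Finset.mem_filter.mp hi).2
      rw [resK_mul O (ha i) (h3 i), resK_inv O (h1 i b hi).1, (h1 i b hi).2]
      exact (div_eq_mul_inv _ _).symm

lemma Y_reduce (a z : ι → K) (ha : ∀ i, a i ∈ O) (z0 r : K) (β : ι → Option τ)
    (A ζ : τ → IsLocalRing.ResidueField O) (hR : Reduces O a z z0 r β A ζ) (p : K)
    (hp : (p - z0) / r ∈ O) (hne : ∀ b, resK O ((p - z0) / r) ≠ ζ b)
    (hw : O.valuation (r * omega a z p) = 1) :
    (∀ i b, β i = some b → Yc a z p i ∈ O ∧
      resK O (Yc a z p i) = Yc A ζ (resK O ((p - z0) / r)) b) ∧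
    (∀ i, β i = none → Yc a z p i ∈ O ∧ resK O (Yc a z p i) = 1) := by
  obtain ⟨h1, h2, h3, h4⟩ := omega_reduce O a z ha z0 r β A ζ hR p hp hne
  have hY : ∀ i, Yc a z p i = 1 - ((p - z i) / r)⁻¹ * (r * omega a z p)⁻¹ := by
    intro i
    rw [Yc, ← mul_inv, one_div]
    congr 2
    have := hR.hr
    field_simp
  have hwm := inv_mem_of_val_eq_one O hw
  refine ⟨fun i b hi => ?_, fun i hi => ?_⟩
  · obtain ⟨h5, h6⟩ := h1 i b hi
    have h7 := inv_mem_of_val_eq_one O h5
    refine ⟨?_, ?_⟩
    · rw [hY i]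
      exact sub_mem O.one_mem (mul_mem h7 hwm)
    · rw [hY i, resK_sub O O.one_mem (mul_mem h7 hwm), resK_one, resK_mul O h7 hwm,
        resK_inv O h5, resK_inv O hw, h6, h4, Yc, ← mul_inv, one_div]
  · obtain ⟨h5, h6⟩ := h2 i hi
    refine ⟨?_, ?_⟩
    · rw [hY i]
      exact sub_mem O.one_mem (mul_mem h5 hwm)
    · rw [hY i, resK_sub O O.one_mem (mul_mem h5 hwm), resK_one, resK_mul O h5 hwm, h6]
      simp

/-- `1 + ∑ a_i (y_i - 1)` reduces to the corresponding sum over blocks -/
lemma sum_reduce (a : ι → K) (ha : ∀ i, a i ∈ O) (β : ι → Option τ)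
    (A : τ → IsLocalRing.ResidueField O)
    (hA : ∀ b, A b = ∑ i ∈ Finset.univ.filter (fun i => β i = some b), resK O (a i))
    (y : ι → K) (hy : ∀ i, y i ∈ O) (Y : τ → IsLocalRing.ResidueField O)
    (h1 : ∀ i b, β i = some b → resK O (y i) = Y b) (h2 : ∀ i, β i = none → resK O (y i) = 1) :
    ∑ i, a i * y i + (1 - ∑ i, a i) ∈ O ∧
    resK O (∑ i, a i * y i + (1 - ∑ i, a i)) = ∑ b, A b * Y b + (1 - ∑ b, A b) := by
  have m1 : ∑ i, a i * y i ∈ O := sum_mem fun i _ => mul_mem (ha i) (hy i)
  have m2 : ∑ i, a i ∈ O := sum_mem fun i _ => ha i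
  refine ⟨add_mem m1 (sub_mem O.one_mem m2), ?_⟩
  rw [resK_add O m1 (sub_mem O.one_mem m2), resK_sub O O.one_mem m2, resK_one,
    resK_sum O _ _ (fun i _ => mul_mem (ha i) (hy i)), resK_sum O _ _ (fun i _ => ha i)]
  have key : ∑ i, (resK O (a i * y i) - resK O (a i)) = ∑ b, (A b * Y b - A b) := by
    refine sum_blocks (R := K) β _ _ (fun i hi => ?_) (fun b => ?_)
    · rw [resK_mul O (ha i) (hy i), h2 i hi, mul_one, sub_self]
    · rw [hA b, Finset.sum_mul, ← Finset.sum_sub_distrib]
      refine Finset.sum_congr rfl fun i hi => ?_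
      have hi := (Finset.mem_filter.mp hi).2
      rw [resK_mul O (ha i) (hy i), h1 i b hi]
  rw [Finset.sum_sub_distrib, Finset.sum_sub_distrib] at key
  linear_combination key

end reduce

open Classical in
theorem good_roots (a z : ι → K) (ha : ∀ i, a i ∈ O) (hg : GenW (fun i => resK O (a i)))
    (hz : Function.Injective z) (z0 r : K) (β : ι → Option τ)
    (A ζ : τ → IsLocalRing.ResidueField O) (hR : Reduces O a z z0 r β A ζ) :
    (((PhiZ a z).roots.filter (GoodAt O A ζ z0 r)).map (fun p => resK O ((p - z0) / r))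
        = (PhiZ A ζ).roots) ∧
    ∀ p, (PhiZ a z).IsRoot p → GoodAt O A ζ z0 r p →
      mult a z p ∈ O ∧ resK O (mult a z p) = mult A ζ (resK O ((p - z0) / r)) ∧
      O.valuation (r * omega a z p) = 1 ∧
      resK O (r * omega a z p) = omega A ζ (resK O ((p - z0) / r)) ∧
      (∀ i, O.valuation (Yc a z p i) = 1) ∧
      (∀ i b, β i = some b → O.valuation (p - z i) = O.valuation r ∧
        resK O (Yc a z p i) = Yc A ζ (resK O ((p - z0) / r)) b) ∧
      (∀ i, β i = none → resK O (Yc a z p i) = 1) := by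
  have hgA : GenW A := genW_reduced (fun i => resK O (a i)) hg β hR.hsurj A hR.hA
  have hr := hR.hr
  refine ⟨?_, ?_⟩
  · -- the integral model
    set zh : ι → K := fun i => (z i - z0) / r with hzh
    have hzo : ∀ i, β i = none → zh i ≠ 0 ∧ (zh i)⁻¹ ∈ O ∧ resK O (zh i)⁻¹ = 0 := by
      intro i hi
      have h1 := hR.hout i hi
      have h5 : 1 < O.valuation (zh i) := by
        rw [← not_le, O.valuation_le_one_iff]
        exact h1
      have h6 : O.valuation (zh i)⁻¹ < 1 := by
        rw [map_inv₀]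
        exact inv_lt_one_of_one_lt₀ h5
      have h7 : (zh i)⁻¹ ∈ O := (O.valuation_le_one_iff _).mp h6.le
      refine ⟨?_, h7, (resK_eq_zero_iff O h7).mpr h6⟩
      intro h8
      exact h1 (by rw [show (z i - z0) / r = zh i from rfl, h8]; exact O.zero_mem)
    let u : ι → K := fun i => if β i = none then (zh i)⁻¹ else 1
    let s : ι → K := fun i => u i
    let c : ι → K := fun i => if β i = none then 1 else zh i
    have hsO : ∀ i, s i ∈ O := by
      intro i
      simp only [s, u]
      split_ifs with h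
      · exact (hzo i h).2.1
      · exact O.one_mem
    have hcO : ∀ i, c i ∈ O := by
      intro i
      simp only [c]
      rcases hi : β i with _ | b
      · simp
      · simpa [hi] using (hR.hin i b hi).1
    have hu0 : ∀ i, u i ≠ 0 := by
      intro i
      simp only [u]
      split_ifs with h
      · exact inv_ne_zero (hzo i h).1
      · exact one_ne_zero
    have hscale : Phi a s c = C ((∏ i, u i) ^ Fintype.card ι) * Phi a 1 zh := by
      rw [← Phi_scale]
      congr 1
      · ext i
        simp [s]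
      · ext i
        simp only [c, u]
        split_ifs with h
        · rw [inv_mul_cancel₀ (hzo i h).1]
        · rw [one_mul]
    have haff : (PhiZ a z).comp (C r * X + C z0) =
        C (r ^ (Fintype.card ι * (Fintype.card ι - 1))) * Phi a 1 zh := by
      rw [← Phi_affine a zh z0 r]
      congr 2
      ext i
      simp only [hzh]
      field_simp
      ring
    have hroots : (Phi a s c).roots = (PhiZ a z).roots.map (fun p => (p - z0) / r) := by
      rw [hscale, roots_C_mul _ (pow_ne_zero _ (Finset.prod_ne_zero_iff.mpr fun i _ => hu0 i)),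
        ← roots_comp_affine _ z0 r hr, haff, roots_C_mul _ (pow_ne_zero _ hr)]
    let P : O[X] := Phi (fun i => (⟨a i, ha i⟩ : O)) (fun i => ⟨s i, hsO i⟩)
      (fun i => ⟨c i, hcO i⟩)
    have hPK : P.map (algebraMap O K) = Phi a s c := Phi_map _ _ _ _
    have hPk : P.map (IsLocalRing.residue O) = Ered β A ζ * Phi A 1 ζ := by
      rw [Phi_map]
      have e1 : ∀ (x : ι → K) (hx : ∀ i, x i ∈ O),
          (fun i => IsLocalRing.residue O ⟨x i, hx i⟩) = fun i => resK O (x i) := by
        intro x hx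
        ext i
        rw [resK_of_mem O (hx i)]
      rw [e1 a ha, e1 s hsO, e1 c hcO]
      refine Phi_blocks _ _ _ β hR.hsurj A ζ hR.hA (fun i b hi => ⟨?_, ?_⟩)
        (fun i hi => ⟨?_, ?_⟩)
      · simp [s, u, hi, resK_one]
      · simp only [c, hi]
        simpa using (hR.hin i b hi).2
      · simp only [s, u, hi, if_true]
        exact (hzo i hi).2.2
      · simp [c, hi, resK_one]
    have hv0 := (root_facts A ζ hgA hR.hζ).1
    have hE0 := Ered_ne_zero β A ζ hgA hR.hζ
    have key := roots_residue O P (by rw [hPk]; exact mul_ne_zero hE0 hv0)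
    rw [hPK, hroots, hPk, roots_mul (mul_ne_zero hE0 hv0)] at key
    have key2 := congrArg (Multiset.filter (fun x => (PhiZ A ζ).IsRoot x)) key
    rw [Multiset.filter_add] at key2
    have f1 : Multiset.filter (fun x => (PhiZ A ζ).IsRoot x) (Ered β A ζ).roots = 0 := by
      rw [Multiset.filter_eq_nil]
      intro x hx hx'
      exact Ered_eval_ne_zero β A ζ hgA hR.hζ x hx' (mem_roots'.mp hx).2
    have f2 : Multiset.filter (fun x => (PhiZ A ζ).IsRoot x) (Phi A 1 ζ).roots =
        (PhiZ A ζ).roots := by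
      rw [Multiset.filter_eq_self]
      intro x hx
      exact (mem_roots'.mp hx).2
    rw [f1, f2, zero_add, Multiset.filter_map, Multiset.filter_filter, Multiset.filter_map,
      Multiset.map_map] at key2
    rw [← key2]
    congr 1
    refine Multiset.filter_congr ?_
    intro p _
    simp only [GoodAt, Function.comp_apply]
    exact and_comm
  · intro p hp hgood
    obtain ⟨hpO, hroot⟩ := hgood
    obtain ⟨hne, hw0, hY0, -, -⟩ := (root_facts A ζ hgA hR.hζ).2.2 _ hroot
    obtain ⟨h1, h2, h3, h4⟩ := omega_reduce O a z ha z0 r β A ζ hR p hpO hne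
    have hw : O.valuation (r * omega a z p) = 1 := by
      rw [← resK_ne_zero_iff O h3, h4]
      exact hw0
    obtain ⟨h5, h6⟩ := Y_reduce O a z ha z0 r β A ζ hR p hpO hne hw
    have hYm : ∀ i, Yc a z p i ∈ O := by
      intro i
      rcases hi : β i with _ | b
      · exact (h6 i hi).1
      · exact (h5 i b hi).1
    have hYv : ∀ i, O.valuation (Yc a z p i) = 1 := by
      intro i
      rw [← resK_ne_zero_iff O (hYm i)]
      rcases hi : β i with _ | b
      · rw [(h6 i hi).2]
        exact one_ne_zero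
      · rw [(h5 i b hi).2]
        exact hY0 b
    have hYv2 : ∀ i, O.valuation (Yc a z p i ^ 2) = 1 := by
      intro i
      rw [map_pow, hYv, one_pow]
    obtain ⟨s1, s2⟩ := sum_reduce O a ha β A hR.hA (fun i => Yc a z p i ^ 2)
      (fun i => pow_mem (hYm i) 2) (fun b => Yc A ζ (resK O ((p - z0) / r)) b ^ 2)
      (fun i b hi => by rw [resK_pow O (hYm i), (h5 i b hi).2])
      (fun i hi => by rw [resK_pow O (hYm i), (h6 i hi).2, one_pow])
    obtain ⟨t1, t2⟩ := sum_reduce O a ha β A hR.hA (fun i => (Yc a z p i ^ 2)⁻¹)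
      (fun i => inv_mem_of_val_eq_one O (hYv2 i))
      (fun b => (Yc A ζ (resK O ((p - z0) / r)) b ^ 2)⁻¹)
      (fun i b hi => by rw [resK_inv O (hYv2 i), resK_pow O (hYm i), (h5 i b hi).2])
      (fun i hi => by
        rw [resK_inv O (hYv2 i), resK_pow O (hYm i), (h6 i hi).2, one_pow, inv_one])
    simp only [← div_eq_mul_inv] at t1 t2
    refine ⟨?_, ?_, hw, h4, hYv, fun i b hi => ⟨?_, (h5 i b hi).2⟩, fun i hi => (h6 i hi).2⟩
    · exact mul_mem s1 t1
    · rw [mult, resK_mul O s1 t1, s2, t2, mult]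
    · have := (h1 i b hi).1
      rwa [map_div₀, div_eq_one_iff_eq] at this
      exact (Valuation.ne_zero_iff _).mpr hr

theorem good_of_units (a z : ι → K) (ha : ∀ i, a i ∈ O) (hg : GenW (fun i => resK O (a i)))
    (hz : Function.Injective z) (z0 r : K) (β : ι → Option τ)
    (A ζ : τ → IsLocalRing.ResidueField O) (hR : Reduces O a z z0 r β A ζ) (p : K)
    (hp : (PhiZ a z).IsRoot p) (hY : ∀ i, O.valuation (Yc a z p i) = 1)
    (hw : O.valuation (r * omega a z p) = 1) (hpz : O.valuation (p - z0) ≤ O.valuation r) :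
    GoodAt O A ζ z0 r p := by
  have hgA : GenW A := genW_reduced (fun i => resK O (a i)) hg β hR.hsurj A hR.hA
  have hga : GenW a := genW_of_res O a ha hg
  have hr := hR.hr
  have hrv : O.valuation r ≠ 0 := (Valuation.ne_zero_iff _).mpr hr
  have hpO : (p - z0) / r ∈ O := by
    rw [← O.valuation_le_one_iff, map_div₀]
    exact div_le_one_of_le₀ hpz zero_le
  have hne : ∀ b, resK O ((p - z0) / r) ≠ ζ b := by
    intro b hb
    obtain ⟨i, hi⟩ := hR.hsurj b
    obtain ⟨h1, h2⟩ := hR.hin i b hi
    have h3 : O.valuation ((p - z i) / r) < 1 := by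
      have : (p - z i) / r = (p - z0) / r - (z i - z0) / r := by
        rw [← sub_div]
        ring
      rw [this, ← resK_eq_iff O hpO h1, hb, h2]
    have h4 : 1 - Yc a z p i = ((p - z i) / r)⁻¹ * (r * omega a z p)⁻¹ := by
      rw [Yc, ← mul_inv, sub_sub_cancel, one_div]
      congr 1
      field_simp
    have h5 : O.valuation (1 - Yc a z p i) ≤ 1 := by
      refine (Valuation.map_sub _ _ _).trans ?_
      rw [map_one, hY i, max_self]
    rw [h4, map_mul, map_inv₀, map_inv₀, hw, inv_one, mul_one] at h5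
    have h6 : O.valuation ((p - z i) / r) ≠ 0 := by
      intro h7
      rw [Valuation.zero_iff] at h7
      have h8 : Yc a z p i = 1 - ((p - z i) / r)⁻¹ * (r * omega a z p)⁻¹ := by
        linear_combination -h4
      have h9 : (PhiZ a z).IsRoot (z i) := by
        have h10 : p - z i = 0 := by
          rcases div_eq_zero_iff.mp h7 with h | h
          · exact h
          · exact absurd h hr
        rwa [sub_eq_zero.mp h10] at hp
      have : Nonempty ι := ⟨i⟩
      exact ((root_facts a z hga hz).2.2 _ h9).1 i rfl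
    exact absurd h5 (not_le.mpr ((one_lt_inv₀ (zero_lt_iff.mpr h6)).mpr h3))
  obtain ⟨h1, h2, h3, h4⟩ := omega_reduce O a z ha z0 r β A ζ hR p hpO hne
  obtain ⟨h5, h6⟩ := Y_reduce O a z ha z0 r β A ζ hR p hpO hne hw
  have hw0 : omega A ζ (resK O ((p - z0) / r)) ≠ 0 := by
    rw [← h4, resK_ne_zero_iff O h3]
    exact hw
  have hYm : ∀ i, Yc a z p i ∈ O := fun i => mem_of_val_eq_one O (hY i)
  have hY0 : ∀ b, Yc A ζ (resK O ((p - z0) / r)) b ≠ 0 := by
    intro b
    obtain ⟨i, hi⟩ := hR.hsurj b
    rw [← (h5 i b hi).2, resK_ne_zero_iff O (hYm i)]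
    exact hY i
  have : Nonempty ι := by
    obtain ⟨i, -⟩ := hR.hsurj (Classical.arbitrary τ)
    exact ⟨i⟩
  obtain ⟨-, -, -, -, hsum⟩ := (root_facts a z hga hz).2.2 p hp
  obtain ⟨-, t2⟩ := sum_reduce O a ha β A hR.hA (fun i => (Yc a z p i)⁻¹)
    (fun i => inv_mem_of_val_eq_one O (hY i))
    (fun b => (Yc A ζ (resK O ((p - z0) / r)) b)⁻¹)
    (fun i b hi => by rw [resK_inv O (hY i), (h5 i b hi).2])
    (fun i hi => by rw [resK_inv O (hY i), (h6 i hi).2, inv_one])
  simp only [← div_eq_mul_inv] at t2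
  rw [hsum, resK_zero] at t2
  refine ⟨hpO, ?_⟩
  set x := resK O ((p - z0) / r) with hx
  have hq : ∀ b, x - 1 / omega A ζ x - ζ b = (x - ζ b) * Yc A ζ x b := by
    intro b
    have := sub_ne_zero.mpr (hne b)
    rw [Yc]
    field_simp
    ring
  rw [isRoot_iff A ζ hgA hR.hζ x hne hw0 (fun b hb => by
    have h7 := hq b
    rw [hb, sub_self] at h7
    exact mul_ne_zero (sub_ne_zero.mpr (hne b)) (hY0 b) h7.symm)]
  have h8 : omega A ζ (x - 1 / omega A ζ x) = ∑ b, omega A ζ x * (A b / Yc A ζ x b - A b) := by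
    conv_lhs => rw [omega]
    refine Finset.sum_congr rfl fun b _ => ?_
    rw [hq b]
    have n1 := sub_ne_zero.mpr (hne b)
    have n2 := hY0 b
    have n3 : omega A ζ x * (1 - Yc A ζ x b) = 1 / (x - ζ b) := by
      rw [Yc]
      field_simp
      ring
    have n4 : omega A ζ x * (A b / Yc A ζ x b - A b) =
        A b / Yc A ζ x b * (omega A ζ x * (1 - Yc A ζ x b)) := by
      field_simp
    rw [n4, n3]
    field_simp
  rw [h8, ← Finset.mul_sum, Finset.sum_sub_distrib]
  linear_combination (-omega A ζ x) * t2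

end

end Pool.Agent.Lib.MP_740d3f_ag
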