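import Pool.Agent.Lib.MP_740d3f_ag.Main

set_option autoImplicit false

/-! # Generic rational maps over an algebraically closed field -/

namespace Pool.Agent.Lib.MP_740d3f_ag
open Polynomial
noncomputable section

/-- fixed point data of the rational map `p/q` -/
structure ThmV.FP {K : Type*} [Field K] {n : ℕ} (p q : K[X]) (c : K) (z A : Fin n → K) :
    Prop where
  hc : c ≠ 0
  hz : Function.Injective z
  hA : ∑ i, A i = 1
  hq : q = C c * Wp A 1 z
  hp : p = X * q - C c * ∏ i, (X - C (z i))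

namespace ThmV

section Alg

variable {K : Type*} [Field K] {n : ℕ} {p q : K[X]} {c : K} {z A : Fin n → K}

theorem FP.perm (h : FP p q c z A) (σ : Equiv.Perm (Fin n)) : FP p q c (z ∘ σ) (A ∘ σ) := by
  refine ⟨h.hc, h.hz.comp σ.injective, ?_, ?_, ?_⟩
  · rw [← h.hA]; exact Equiv.sum_comp σ A
  · rw [h.hq]
    congr 1
    have hE : ∀ i, prodE (1 : Fin n → K) (z ∘ σ) i = prodE 1 z (σ i) := fun i => by
      unfold prodE lin
      refine Finset.prod_bij (fun j _ => σ j) ?_ ?_ ?_ ?_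
      · intro j hj; simp at hj ⊢; exact hj
      · intro j _ k _ h; exact σ.injective h
      · intro j hj; exact ⟨σ.symm j, by simpa [Equiv.symm_apply_eq] using hj, by simp⟩
      · intro j _; rfl
    unfold Wp
    simp only [hE]
    exact (Equiv.sum_comp σ (fun i => C (A i * (1 : Fin n → K) i) * prodE 1 z i)).symm
  · rw [h.hp]
    congr 2
    exact (Equiv.prod_comp σ (fun i => X - C (z i))).symm

theorem FP.eval_p (h : FP p q c z A) (w : K) :
    p.eval w = w * q.eval w - c * ∏ i, (w - z i) := by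
  rw [h.hp]
  simp [eval_prod]

theorem FP.eval_q (h : FP p q c z A) {w : K} (hw : ∀ i, w ≠ z i) :
    q.eval w = c * ((∏ i, (w - z i)) * omega A z w) := by
  rw [h.hq, eval_mul, eval_C, Wp_eq_omega hw]

theorem FP.eval_q_fix (h : FP p q c z A) (i : Fin n) :
    q.eval (z i) = c * (A i * ∏ j ∈ Finset.univ.erase i, (z i - z j)) := by
  rw [h.hq, eval_mul, eval_C, Wp_one_eval]
  congr 1
  refine Finset.sum_eq_single i (fun j _ hj => ?_) (fun h => absurd (Finset.mem_univ i) h)
  have : ∏ k ∈ Finset.univ.erase j, (z i - z k) = 0 :=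
    Finset.prod_eq_zero (Finset.mem_erase.mpr ⟨Ne.symm hj, Finset.mem_univ i⟩) (sub_self _)
  rw [this, mul_zero]

theorem FP.fix_iff (h : FP p q c z A) (w : K) :
    p.eval w = w * q.eval w ↔ ∃ i, w = z i := by
  rw [h.eval_p, sub_eq_self, mul_eq_zero, or_iff_right h.hc, Finset.prod_eq_zero_iff]
  simp [sub_eq_zero]

/-- formula for the map -/
theorem FP.val (h : FP p q c z A) {w : K} (hw : ∀ i, w ≠ z i) (hq : q.eval w ≠ 0) :
    p.eval w / q.eval w = w - 1 / omega A z w ∧ omega A z w ≠ 0 := by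
  have h1 := h.eval_q hw
  have h2 := prod_ne_zero' hw
  have h3 : omega A z w ≠ 0 := fun h0 => hq (by rw [h1, h0]; ring)
  refine ⟨?_, h3⟩
  rw [h.eval_p, h1]
  have := h.hc
  field_simp

theorem deriv_prodE (z : Fin n → K) {w : K} (hw : ∀ i, w ≠ z i) (i : Fin n) :
    (derivative (prodE 1 z i)).eval w =
      ((derivative (∏ j, (X - C (z j)))).eval w - (prodE 1 z i).eval w) / (w - z i) := by
  have h0 : (∏ j, (X - C (z j))) = ∏ j, lin 1 z j :=
    Finset.prod_congr rfl fun j _ => (lin_one z j).symm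
  have h1 : (∏ j, lin 1 z j) = lin 1 z i * prodE 1 z i :=
    (Finset.mul_prod_erase Finset.univ (fun j => lin 1 z j) (Finset.mem_univ i)).symm
  have h2 := sub_ne_zero.mpr (hw i)
  rw [h0, h1, derivative_mul, lin_one]
  simp only [derivative_sub, derivative_X, derivative_C, sub_zero, one_mul, eval_add, eval_mul,
    eval_sub, eval_X, eval_C]
  field_simp
  ring

theorem FP.deriv_eq (h : FP p q c z A) (w : K) :
    (derivative p).eval w * q.eval w - p.eval w * (derivative q).eval w =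
      q.eval w ^ 2 - c * ((derivative (∏ j, (X - C (z j)))).eval w * q.eval w -
        (∏ j, (w - z j)) * (derivative q).eval w) := by
  have h1 : (derivative p).eval w = q.eval w + w * (derivative q).eval w -
      c * (derivative (∏ j, (X - C (z j)))).eval w := by
    rw [h.hp]
    simp only [derivative_sub, derivative_mul, derivative_X, one_mul, derivative_C, zero_mul,
      zero_add, eval_sub, eval_add, eval_mul, eval_X, eval_C]
  rw [h1, h.eval_p]
  ring

/-- derivative of the map at a non fixed point -/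
theorem FP.deriv (h : FP p q c z A) {w : K} (hw : ∀ i, w ≠ z i) (hq : q.eval w ≠ 0) :
    ((derivative p).eval w * q.eval w - p.eval w * (derivative q).eval w) / (q.eval w) ^ 2 =
      1 - (∑ i, A i / (w - z i) ^ 2) / omega A z w ^ 2 := by
  have h1 := h.eval_q hw
  have h2 := prod_ne_zero' hw
  have h3 : omega A z w ≠ 0 := fun h0 => hq (by rw [h1, h0]; ring)
  have h4 : (derivative q).eval w = c * ((derivative (∏ j, (X - C (z j)))).eval w *
      omega A z w - (∏ i, (w - z i)) * ∑ i, A i / (w - z i) ^ 2) := by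
    rw [h.hq, derivative_C_mul, eval_mul, eval_C]
    congr 1
    unfold Wp
    rw [derivative_sum, eval_finsetSum]
    have : ∀ i, (derivative (C (A i * (1 : Fin n → K) i) * prodE 1 z i)).eval w =
        (derivative (∏ j, (X - C (z j)))).eval w * (A i / (w - z i)) -
          (∏ i, (w - z i)) * (A i / (w - z i) ^ 2) := fun i => by
      rw [Pi.one_apply, mul_one, derivative_C_mul, eval_mul, eval_C, deriv_prodE z hw i,
        prodE_one_eval, prodE_eq_div hw i]
      have := sub_ne_zero.mpr (hw i)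
      field_simp
    rw [Finset.sum_congr rfl fun i _ => this i, Finset.sum_sub_distrib, ← Finset.mul_sum,
      ← Finset.mul_sum]
    rfl
  rw [h.deriv_eq, h4, h1]
  have := h.hc
  field_simp
  ring

/-- derivative of the map at a fixed point -/
theorem FP.deriv_fix (h : FP p q c z A) (i : Fin n) (hq : q.eval (z i) ≠ 0) :
    ((derivative p).eval (z i) * q.eval (z i) - p.eval (z i) * (derivative q).eval (z i)) /
      (q.eval (z i)) ^ 2 = 1 - 1 / A i := by
  have h1 := h.eval_q_fix i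
  have h2 : ∏ j ∈ Finset.univ.erase i, (z i - z j) ≠ 0 :=
    Finset.prod_ne_zero_iff.mpr fun j hj =>
      sub_ne_zero.mpr (fun e => (Finset.mem_erase.mp hj).1 (h.hz e).symm)
  have h3 : A i ≠ 0 := fun h0 => hq (by rw [h1, h0]; ring)
  have h4 : ∏ j, (z i - z j) = 0 := Finset.prod_eq_zero (Finset.mem_univ i) (sub_self _)
  have h5 : (derivative (∏ j, (X - C (z j)))).eval (z i) =
      ∏ j ∈ Finset.univ.erase i, (z i - z j) := by
    rw [← Finset.mul_prod_erase Finset.univ (fun j => X - C (z j)) (Finset.mem_univ i),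
      derivative_mul]
    simp [eval_prod]
  rw [h.deriv_eq, h4, h5, h1]
  have := h.hc
  field_simp
  ring

end Alg

section Cyc

variable {K : Type*} [Field K] {n : ℕ}

/-- `∑ A_i/(w - z_i)^2` -/
def S2 (A z : Fin n → K) (w : K) : K := ∑ i, A i / (w - z i) ^ 2

/-- two-cycles -/
def Cyc (A z : Fin n → K) (w v : K) : Prop :=
  (∀ i, w ≠ z i) ∧ (∀ i, v ≠ z i) ∧ w ≠ v ∧ omega A z w = 1 / (w - v) ∧
    omega A z v = 1 / (v - w)

theorem Cyc.symm {A z : Fin n → K} {w v : K} (h : Cyc A z w v) : Cyc A z v w :=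
  ⟨h.2.1, h.1, h.2.2.1.symm, h.2.2.2.2, h.2.2.2.1⟩

/-- multiplier of a two-cycle -/
def cm (A z : Fin n → K) (w v : K) : K :=
  (1 - S2 A z w * (w - v) ^ 2) * (1 - S2 A z v * (w - v) ^ 2)

theorem cyc_unique {A z : Fin n → K} {w v v' : K} (h : Cyc A z w v) (h' : Cyc A z w v') :
    v = v' := by
  have h1 := h.2.2.2.1
  have h2 := h'.2.2.2.1
  have h3 := sub_ne_zero.mpr h.2.2.1
  have h4 := sub_ne_zero.mpr h'.2.2.1
  rw [h1] at h2
  field_simp at h2
  linear_combination h2

theorem FP.per_iff {p q : K[X]} {c : K} {z A : Fin n → K} (h : FP p q c z A) (w μ : K) :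
    w ∈ PerS p q μ ↔ ∃ v, Cyc A z w v ∧ cm A z w v = μ := by
  constructor
  · rintro ⟨h1, h2, h3, h4, h5⟩
    have hw : ∀ i, w ≠ z i := fun i hi => by
      have := (h.fix_iff w).mpr ⟨i, hi⟩
      rw [this, mul_div_assoc, div_self h1, mul_one] at h4
      exact h4 rfl
    have hv : ∀ i, p.eval w / q.eval w ≠ z i := fun i hi => by
      have := (h.fix_iff _).mpr ⟨i, hi⟩
      rw [this, mul_div_assoc, div_self h2, mul_one] at h3
      exact h4 h3
    obtain ⟨e1, e2⟩ := h.val hw h1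
    obtain ⟨e3, e4⟩ := h.val hv h2
    have e5 := h.deriv hw h1
    have e6 := h.deriv hv h2
    generalize p.eval w / q.eval w = v at *
    rw [h3] at e3
    have e7 : w - v ≠ 0 := sub_ne_zero.mpr h4.symm
    have e8 : v - w ≠ 0 := sub_ne_zero.mpr h4
    have e9 : omega A z w = 1 / (w - v) := by
      rw [e1]; field_simp; ring
    have e10 : omega A z v = 1 / (v - w) := by
      have : v - w = 1 / omega A z v := by linear_combination -e3
      rw [this]; field_simp
    refine ⟨v, ⟨hw, hv, h4.symm, e9, e10⟩, ?_⟩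
    rw [← h5, e5, e6, e9, e10]
    unfold cm S2
    field_simp
    ring
  · rintro ⟨v, ⟨hw, hv, hwv, e1, e2⟩, hm⟩
    have e7 : w - v ≠ 0 := sub_ne_zero.mpr hwv
    have e8 : v - w ≠ 0 := sub_ne_zero.mpr hwv.symm
    have h1 : q.eval w ≠ 0 := by
      rw [h.eval_q hw, e1]
      exact mul_ne_zero h.hc (mul_ne_zero (prod_ne_zero' hw) (one_div_ne_zero e7))
    have h2 : q.eval v ≠ 0 := by
      rw [h.eval_q hv, e2]
      exact mul_ne_zero h.hc (mul_ne_zero (prod_ne_zero' hv) (one_div_ne_zero e8))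
    have e3 := (h.val hw h1).1
    have e4 := (h.val hv h2).1
    rw [e1] at e3
    rw [e2] at e4
    have e5 : p.eval w / q.eval w = v := by rw [e3]; simp
    have e6 : p.eval v / q.eval v = w := by rw [e4]; simp
    refine ⟨h1, ?_, ?_, ?_, ?_⟩
    · rw [e5]; exact h2
    · rw [e5]; exact e6
    · rw [e5]; exact hwv.symm
    · rw [e5, h.deriv hw h1, h.deriv hv h2, e1, e2, ← hm]
      unfold cm S2
      field_simp
      ring

theorem root_iff_cyc {m : ℕ} [NeZero m] {a z : Fin m → K} (hg : GenW a)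
    (hz : Function.Injective z) (u : K) : (PhiZ a z).IsRoot u ↔ ∃ v, Cyc a z u v := by
  have : Nonempty (Fin m) := ⟨0⟩
  constructor
  · intro h
    obtain ⟨h1, h2, h3, h4, h5⟩ := root_partner a z hg hz u h
    have h6 := root_omega hg hz u h
    refine ⟨u - 1 / omega a z u, root_ne hg hz u h, root_ne hg hz _ h1, h5.symm, ?_, ?_⟩
    · simp
    · rw [h2]; field_simp; ring
  · rintro ⟨v, hw, hv, hwv, e1, e2⟩
    have e7 : u - v ≠ 0 := sub_ne_zero.mpr hwv
    have e3 : u - 1 / omega a z u = v := by rw [e1]; simp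
    rw [isRoot_iff a z hg hz u hw (by rw [e1]; exact one_div_ne_zero e7)
      (fun i => by rw [e3]; exact hv i), e3, e1, e2]
    rw [← neg_sub u v, one_div, one_div, inv_neg]

theorem mult_cyc {m : ℕ} [NeZero m] {a z : Fin m → K} (hg : GenW a)
    (hz : Function.Injective z) {u v : K} (h : Cyc a z u v) : mult a z u = cm a z u v := by
  have : Nonempty (Fin m) := ⟨0⟩
  have h0 := (root_iff_cyc hg hz u).mpr ⟨v, h⟩
  have h1 := mult_eq_deriv a z hg hz u h0
  obtain ⟨hw, hv, hwv, e1, e2⟩ := h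
  have e7 : u - v ≠ 0 := sub_ne_zero.mpr hwv
  have e8 : v - u ≠ 0 := sub_ne_zero.mpr hwv.symm
  have e3 : u - 1 / omega a z u = v := by rw [e1]; simp
  rw [h1, e3, e1, e2]
  unfold cm S2
  field_simp
  ring

/-- the normalizing Moebius map -/
def phi (α s t w : K) : K := α * (w - s) / (w - t)

theorem phi_sub (α s t : K) {w v : K} (hw : w ≠ t) (hv : v ≠ t) :
    phi α s t w - phi α s t v = α * (s - t) * (w - v) / ((w - t) * (v - t)) := by
  have h1 := sub_ne_zero.mpr hw
  have h2 := sub_ne_zero.mpr hv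
  unfold phi
  field_simp
  ring

theorem phi_inj {α s t : K} (hα : α ≠ 0) (hst : s ≠ t) {w v : K} (hw : w ≠ t) (hv : v ≠ t)
    (h : phi α s t w = phi α s t v) : w = v := by
  have h1 := phi_sub α s t hw hv
  rw [h, sub_self] at h1
  have h2 := sub_ne_zero.mpr hw
  have h3 := sub_ne_zero.mpr hv
  have h4 := sub_ne_zero.mpr hst
  rcases div_eq_zero_iff.mp h1.symm with h5 | h5
  · rcases mul_eq_zero.mp h5 with h6 | h6
    · exact absurd h6 (mul_ne_zero hα h4)
    · exact sub_eq_zero.mp h6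
  · exact absurd h5 (mul_ne_zero h2 h3)

section Conj

variable {m : ℕ} {A z : Fin (m + 1) → K} {α s : K}

theorem omega_phi (hA : ∑ i, A i = 1) (hz : ∀ i : Fin m, z i.castSucc ≠ z (Fin.last m))
    (hα : α ≠ 0) (hs : s ≠ z (Fin.last m)) {w : K} (hw : ∀ i, w ≠ z i) :
    omega (fun i : Fin m => A i.castSucc)
      (fun i => phi α s (z (Fin.last m)) (z i.castSucc)) (phi α s (z (Fin.last m)) w) =
    (w - z (Fin.last m)) / (α * (s - z (Fin.last m))) *
      ((w - z (Fin.last m)) * omega A z w - 1) := by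
  have h1 : ∀ i : Fin m, A i.castSucc / (phi α s (z (Fin.last m)) w -
      phi α s (z (Fin.last m)) (z i.castSucc)) =
      (w - z (Fin.last m)) / (α * (s - z (Fin.last m))) *
        ((w - z (Fin.last m)) * (A i.castSucc / (w - z i.castSucc)) - A i.castSucc) := fun i => by
    rw [phi_sub α s _ (hw _) (hz i)]
    have h2 := sub_ne_zero.mpr (hw (Fin.last m))
    have h3 := sub_ne_zero.mpr (hw i.castSucc)
    have h4 := sub_ne_zero.mpr (hz i)
    have h5 := sub_ne_zero.mpr hs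
    field_simp
    ring
  have h2 := sub_ne_zero.mpr (hw (Fin.last m))
  rw [Fin.sum_univ_castSucc] at hA
  unfold omega
  rw [Finset.sum_congr rfl fun i _ => h1 i, ← Finset.mul_sum, Finset.sum_sub_distrib,
    ← Finset.mul_sum, Fin.sum_univ_castSucc]
  congr 1
  have h3 : (w - z (Fin.last m)) * (A (Fin.last m) / (w - z (Fin.last m))) = A (Fin.last m) := by
    field_simp
  rw [mul_add, h3]
  linear_combination -hA

theorem S2_phi (hA : ∑ i, A i = 1) (hz : ∀ i : Fin m, z i.castSucc ≠ z (Fin.last m))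
    (hα : α ≠ 0) (hs : s ≠ z (Fin.last m)) {w : K} (hw : ∀ i, w ≠ z i) :
    S2 (fun i : Fin m => A i.castSucc)
      (fun i => phi α s (z (Fin.last m)) (z i.castSucc)) (phi α s (z (Fin.last m)) w) =
    (w - z (Fin.last m)) ^ 2 / (α * (s - z (Fin.last m))) ^ 2 *
      ((w - z (Fin.last m)) ^ 2 * S2 A z w - 2 * (w - z (Fin.last m)) * omega A z w + 1) := by
  have h1 : ∀ i : Fin m, A i.castSucc / (phi α s (z (Fin.last m)) w -
      phi α s (z (Fin.last m)) (z i.castSucc)) ^ 2 =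
      (w - z (Fin.last m)) ^ 2 / (α * (s - z (Fin.last m))) ^ 2 *
        ((w - z (Fin.last m)) ^ 2 * (A i.castSucc / (w - z i.castSucc) ^ 2) -
          2 * (w - z (Fin.last m)) * (A i.castSucc / (w - z i.castSucc)) + A i.castSucc) :=
      fun i => by
    rw [phi_sub α s _ (hw _) (hz i)]
    have h2 := sub_ne_zero.mpr (hw (Fin.last m))
    have h3 := sub_ne_zero.mpr (hw i.castSucc)
    have h4 := sub_ne_zero.mpr (hz i)
    have h5 := sub_ne_zero.mpr hs
    field_simp
    ring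
  have h2 := sub_ne_zero.mpr (hw (Fin.last m))
  rw [Fin.sum_univ_castSucc] at hA
  unfold S2 omega
  rw [Finset.sum_congr rfl fun i _ => h1 i, ← Finset.mul_sum, Finset.sum_add_distrib,
    Finset.sum_sub_distrib, ← Finset.mul_sum, ← Finset.mul_sum, Fin.sum_univ_castSucc,
    Fin.sum_univ_castSucc]
  congr 1
  have h3 : (w - z (Fin.last m)) * (A (Fin.last m) / (w - z (Fin.last m))) = A (Fin.last m) := by
    field_simp
  have h4 : (w - z (Fin.last m)) ^ 2 * (A (Fin.last m) / (w - z (Fin.last m)) ^ 2) =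
      A (Fin.last m) := by
    field_simp
  linear_combination hA - h4 + 2 * h3

theorem cyc_phi (hA : ∑ i, A i = 1) (hz : ∀ i : Fin m, z i.castSucc ≠ z (Fin.last m))
    (hα : α ≠ 0) (hs : s ≠ z (Fin.last m)) {w v : K} (hw : w ≠ z (Fin.last m))
    (hv : v ≠ z (Fin.last m)) :
    Cyc A z w v ↔ Cyc (fun i : Fin m => A i.castSucc)
      (fun i => phi α s (z (Fin.last m)) (z i.castSucc)) (phi α s (z (Fin.last m)) w)
      (phi α s (z (Fin.last m)) v) := by
  have key : ∀ {w v : K}, (∀ i, w ≠ z i) → v ≠ z (Fin.last m) → w ≠ v →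
      (omega A z w = 1 / (w - v) ↔ omega (fun i : Fin m => A i.castSucc)
      (fun i => phi α s (z (Fin.last m)) (z i.castSucc)) (phi α s (z (Fin.last m)) w) =
      1 / (phi α s (z (Fin.last m)) w - phi α s (z (Fin.last m)) v)) := by
    intro w v hw hv hwv
    rw [omega_phi hA hz hα hs hw, phi_sub α s _ (hw _) hv]
    have h2 := sub_ne_zero.mpr (hw (Fin.last m))
    have h3 := sub_ne_zero.mpr hv
    have h4 := sub_ne_zero.mpr hwv
    have h5 := sub_ne_zero.mpr hs
    constructor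
    · intro h
      rw [h]
      field_simp
      ring
    · intro h
      have h6 : (w - z (Fin.last m)) * omega A z w - 1 = (v - z (Fin.last m)) / (w - v) := by
        have h7 : (w - z (Fin.last m)) / (α * (s - z (Fin.last m))) ≠ 0 :=
          div_ne_zero h2 (mul_ne_zero hα h5)
        refine mul_left_cancel₀ h7 ?_
        rw [h]
        field_simp
      have h8 : (w - z (Fin.last m)) * omega A z w = (w - z (Fin.last m)) * (1 / (w - v)) := by
        rw [sub_eq_iff_eq_add.mp h6]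
        field_simp
        ring
      exact mul_left_cancel₀ h2 h8
  have hne : ∀ {w : K}, w ≠ z (Fin.last m) → ((∀ i, w ≠ z i) ↔ ∀ i : Fin m,
      phi α s (z (Fin.last m)) w ≠ phi α s (z (Fin.last m)) (z i.castSucc)) := by
    intro w hw
    constructor
    · intro h i hi
      exact h _ (phi_inj hα hs hw (hz i) hi)
    · intro h i
      refine Fin.lastCases hw (fun i => ?_) i
      intro hi
      exact h i (by rw [hi])
  unfold Cyc
  rw [← hne hw, ← hne hv]
  constructor
  · rintro ⟨h1, h2, h3, h4, h5⟩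
    exact ⟨h1, h2, fun h => h3 (phi_inj hα hs hw hv h), (key h1 hv h3).mp h4,
      (key h2 hw h3.symm).mp h5⟩
  · rintro ⟨h1, h2, h3, h4, h5⟩
    have h3' : w ≠ v := fun h => h3 (by rw [h])
    exact ⟨h1, h2, h3', (key h1 hv h3').mpr h4, (key h2 hw h3'.symm).mpr h5⟩

theorem cm_phi (hA : ∑ i, A i = 1) (hz : ∀ i : Fin m, z i.castSucc ≠ z (Fin.last m))
    (hα : α ≠ 0) (hs : s ≠ z (Fin.last m)) {w v : K} (h : Cyc A z w v) :
    cm (fun i : Fin m => A i.castSucc)
      (fun i => phi α s (z (Fin.last m)) (z i.castSucc)) (phi α s (z (Fin.last m)) w)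
      (phi α s (z (Fin.last m)) v) = cm A z w v := by
  obtain ⟨hw, hv, hwv, e1, e2⟩ := h
  unfold cm
  rw [S2_phi hA hz hα hs hw, S2_phi hA hz hα hs hv, phi_sub α s _ (hw _) (hv _), e1, e2]
  have h2 := sub_ne_zero.mpr (hw (Fin.last m))
  have h3 := sub_ne_zero.mpr (hv (Fin.last m))
  have h4 := sub_ne_zero.mpr hwv
  have h4' := sub_ne_zero.mpr hwv.symm
  have h5 := sub_ne_zero.mpr hs
  generalize z (Fin.last m) = t at *
  generalize S2 A z w = S at *
  generalize S2 A z v = S' at *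
  have k1 : 1 - (w - t) ^ 2 / (α * (s - t)) ^ 2 * ((w - t) ^ 2 * S - 2 * (w - t) * (1 / (w - v)) + 1)
      * (α * (s - t) * (w - v) / ((w - t) * (v - t))) ^ 2 =
      (w - t) ^ 2 * (1 - S * (w - v) ^ 2) / (v - t) ^ 2 := by
    field_simp
    ring
  have k2 : 1 - (v - t) ^ 2 / (α * (s - t)) ^ 2 * ((v - t) ^ 2 * S' - 2 * (v - t) * (1 / (v - w)) + 1)
      * (α * (s - t) * (w - v) / ((w - t) * (v - t))) ^ 2 =
      (v - t) ^ 2 * (1 - S' * (w - v) ^ 2) / (w - t) ^ 2 := by
    field_simp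
    ring
  rw [k1, k2]
  field_simp

end Conj

end Cyc

section FieldTheory

variable {K : Type*} [Field K]

theorem exists_fin_roots (F : K[X]) [IsAlgClosed K] (m : ℕ) (h : F.natDegree = m) :
    ∃ z : Fin m → K, F = C F.leadingCoeff * ∏ i, (X - C (z i)) := by
  obtain ⟨l, hl⟩ := Quot.exists_rep F.roots
  have hl' : (l : Multiset K) = F.roots := hl
  have h1 := (IsAlgClosed.splits F).natDegree_eq_card_roots
  have h2 : l.length = m := by
    rw [← Multiset.coe_card, hl', ← h1, h]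
  subst h2
  refine ⟨fun i => l[i.1], ?_⟩
  conv_lhs => rw [(IsAlgClosed.splits F).eq_prod_roots, ← hl']
  rw [Fin.prod_univ_fun_getElem l (fun x => X - C x)]
  simp

theorem lifts_X_sub_C (L : Subfield K) {x : K} (hx : x ∈ L) :
    (X - C x : K[X]) ∈ lifts L.subtype := by
  rw [sub_eq_add_neg, ← C_neg]
  exact add_mem (X_mem_lifts _) (C'_mem_lifts ⟨⟨-x, neg_mem hx⟩, rfl⟩)

theorem lifts_prod (L : Subfield K) {ι : Type*} (s : Finset ι) {z : ι → K} (hz : ∀ i, z i ∈ L) :
    (∏ i ∈ s, (X - C (z i)) : K[X]) ∈ lifts L.subtype :=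
  prod_mem fun i _ => lifts_X_sub_C L (hz i)

theorem lifts_sub (L : Subfield K) {p q : K[X]} (hp : p ∈ lifts L.subtype)
    (hq : q ∈ lifts L.subtype) : p - q ∈ lifts L.subtype := by
  rw [lifts_iff_coeff_lifts] at *
  intro n
  obtain ⟨x, hx⟩ := hp n
  obtain ⟨y, hy⟩ := hq n
  exact ⟨x - y, by rw [map_sub, hx, hy, coeff_sub]⟩

theorem coeff_mem (L : Subfield K) {p : K[X]} (hp : p ∈ lifts L.subtype) (n : ℕ) :
    p.coeff n ∈ L := by
  rw [lifts_iff_coeff_lifts] at hp
  obtain ⟨x, hx⟩ := hp n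
  rw [← hx]; exact x.2

theorem algInd_of_mem [CharZero K] {ι κ : Type*} [Fintype ι] [Fintype κ]
    (hc : Fintype.card κ ≤ Fintype.card ι) (x : ι → K) (y : κ → K)
    (hx : AlgebraicIndependent ℚ x) (h : ∀ i, x i ∈ Subfield.closure (Set.range y)) :
    AlgebraicIndependent ℚ y :=
  algInd_of_isAlgebraic hc x y hx fun i =>
    isAlgebraic_algebraMap (⟨x i, h i⟩ : Subfield.closure (Set.range y))

theorem exists_FP [IsAlgClosed K] [CharZero K] (d : ℕ) (p q : K[X]) (h : GenMap d p q) :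
    ∃ (c : K) (z A : Fin (d + 1) → K), FP p q c z A := by
  obtain ⟨hp, hq, hi⟩ := h
  have hc : q.coeff d ≠ 0 := hi.ne_zero (Sum.inr (Fin.last d))
  have h1 : (X * q - p).coeff (d + 1) = q.coeff d := by
    rw [coeff_sub, coeff_X_mul, coeff_eq_zero_of_natDegree_lt (Nat.lt_succ_of_le hp), sub_zero]
  have h2 : (X * q - p).natDegree = d + 1 := by
    refine le_antisymm ?_ (le_natDegree_of_ne_zero (by rw [h1]; exact hc))
    refine (natDegree_sub_le _ _).trans (max_le ?_ (hp.trans (Nat.le_succ _)))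
    refine natDegree_mul_le.trans ?_
    rw [natDegree_X]; omega
  have h3 : (X * q - p).leadingCoeff = q.coeff d := by
    rw [leadingCoeff, h2, h1]
  obtain ⟨z, hz⟩ := exists_fin_roots (X * q - p) (d + 1) h2
  rw [h3] at hz
  have hp' : p = X * q - C (q.coeff d) * ∏ i, (X - C (z i)) := by rw [← hz]; ring
  have hqz : AlgebraicIndependent ℚ (Sum.elim (fun i : Fin (d + 1) => q.coeff i.val) z) := by
    refine algInd_of_mem (le_of_eq (by simp)) _ _ hi fun i => ?_
    set L := Subfield.closure (Set.range (Sum.elim (fun i : Fin (d + 1) => q.coeff i.val) z))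
      with hL
    have m1 : ∀ n, q.coeff n ∈ L := fun n => by
      rcases lt_or_ge n (d + 1) with hn | hn
      · exact Subfield.subset_closure ⟨Sum.inl ⟨n, hn⟩, rfl⟩
      · rw [coeff_eq_zero_of_natDegree_lt (lt_of_le_of_lt hq hn)]; exact zero_mem _
    have m2 : ∀ i, z i ∈ L := fun i => Subfield.subset_closure ⟨Sum.inr i, rfl⟩
    have m3 : q ∈ lifts L.subtype := by
      rw [lifts_iff_coeff_lifts]
      exact fun n => ⟨⟨_, m1 n⟩, rfl⟩
    have m4 : p ∈ lifts L.subtype := by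
      rw [hp']
      exact lifts_sub L (mul_mem (X_mem_lifts _) m3)
        (mul_mem (C'_mem_lifts ⟨⟨_, m1 d⟩, rfl⟩) (lifts_prod L _ m2))
    rcases i with i | i
    · exact coeff_mem L m4 _
    · exact m1 _
  have hzi : Function.Injective z := by
    have := hqz.injective
    intro i j hij
    exact Sum.inr_injective (this (a₁ := Sum.inr i) (a₂ := Sum.inr j) hij)
  have hP : ∀ i, ∏ j ∈ Finset.univ.erase i, (z i - z j) ≠ 0 := fun i =>
    Finset.prod_ne_zero_iff.mpr fun j hj =>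
      sub_ne_zero.mpr (fun e => (Finset.mem_erase.mp hj).1 (hzi e).symm)
  let A : Fin (d + 1) → K := fun i => q.eval (z i) / (q.coeff d *
    ∏ j ∈ Finset.univ.erase i, (z i - z j))
  have hq' : q = C (q.coeff d) * Wp A 1 z := by
    refine eq_of_natDegree_lt_card_of_eval_eq _ _ hzi (fun i => ?_) ?_
    · rw [eval_mul, eval_C, Wp_one_eval]
      have : ∑ j, A j * ∏ k ∈ Finset.univ.erase j, (z i - z k) =
          A i * ∏ k ∈ Finset.univ.erase i, (z i - z k) := by
        refine Finset.sum_eq_single i (fun j _ hj => ?_)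
          (fun h => absurd (Finset.mem_univ i) h)
        rw [Finset.prod_eq_zero (Finset.mem_erase.mpr ⟨Ne.symm hj, Finset.mem_univ i⟩)
          (sub_self _), mul_zero]
      rw [this]
      have := hP i
      simp only [A]
      field_simp
    · rw [Fintype.card_fin, Nat.lt_succ_iff]
      refine max_le hq ((natDegree_C_mul_le _ _).trans ((Wp_natDegree_le A z).trans ?_))
      simp
  refine ⟨q.coeff d, z, A, hc, hzi, ?_, hq', hp'⟩
  have h5 : q.coeff d = q.coeff d * ∑ i, A i := by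
    conv_lhs => rw [hq']
    rw [coeff_C_mul]
    congr 1
    have := Wp_coeff A z
    simpa using this
  exact (mul_left_cancel₀ hc (by rw [mul_one]; exact h5)).symm

/-- the parameter of the normalizing map -/
def al {k : ℕ} (z : Fin (k + 3) → K) : K :=
  (z (Fin.last (k + 1)).castSucc - z (Fin.last (k + 2))) /
    (z (Fin.last (k + 1)).castSucc - z 0)

/-- normalized coordinates -/
def xx {k : ℕ} (z : Fin (k + 3) → K) (i : Fin k) : K :=
  phi (al z) (z 0) (z (Fin.last (k + 2))) (z i.castSucc.succ.castSucc)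

theorem last_ne {k : ℕ} : ((Fin.last (k + 1)).castSucc : Fin (k + 3)) ≠ 0 := by
  intro h
  have := congrArg Fin.val h
  simp at this

theorem al_ne_zero {k : ℕ} {z : Fin (k + 3) → K} (hz : Function.Injective z) : al z ≠ 0 :=
  div_ne_zero (sub_ne_zero.mpr fun h => (Fin.castSucc_lt_last _).ne (hz h))
    (sub_ne_zero.mpr fun h => last_ne (hz h))

omit [Field K] in
theorem z0_ne {k : ℕ} {z : Fin (k + 3) → K} (hz : Function.Injective z) :
    z 0 ≠ z (Fin.last (k + 2)) := fun h => by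
  have := congrArg Fin.val (hz h)
  simp at this

omit [Field K] in
theorem zcast_ne {m : ℕ} {z : Fin (m + 1) → K} (hz : Function.Injective z) (i : Fin m) :
    z i.castSucc ≠ z (Fin.last m) := fun h => (Fin.castSucc_lt_last i).ne (hz h)

theorem zOf_eq {k : ℕ} {z : Fin (k + 3) → K} (hz : Function.Injective z) :
    zOf (xx z) = fun i : Fin (k + 2) =>
      phi (al z) (z 0) (z (Fin.last (k + 2))) (z i.castSucc) := by
  funext i
  unfold zOf
  refine Fin.cases ?_ (fun i => ?_) i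
  · simp [phi]
  · rw [Fin.cons_succ]
    refine Fin.lastCases ?_ (fun i => ?_) i
    · rw [Fin.snoc_last, Fin.succ_last, phi, al]
      have h1 : z (Fin.last (k + 1)).castSucc - z (Fin.last (k + 2)) ≠ 0 :=
        sub_ne_zero.mpr (zcast_ne hz _)
      have h2 : z (Fin.last (k + 1)).castSucc - z 0 ≠ 0 :=
        sub_ne_zero.mpr fun h => last_ne (hz h)
      have : (Fin.last k.succ).castSucc = (Fin.last (k + 1)).castSucc := rfl
      rw [this]
      field_simp
    · rw [Fin.snoc_castSucc]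
      rfl

theorem algInd_norm [CharZero K] {k : ℕ} {p q : K[X]} (h : GenMap (k + 2) p q) {c : K}
    {z A : Fin (k + 3) → K} (hF : FP p q c z A) :
    AlgebraicIndependent ℚ (Sum.elim (Sum.elim (fun i : Fin (k + 2) => A i.castSucc) (xx z))
      ![al z, z 0, z (Fin.last (k + 1)).castSucc, c]) := by
  obtain ⟨hp, hq, hi⟩ := h
  refine algInd_of_mem (le_of_eq (by simp; ring)) _ _ hi fun i => ?_
  set y := (Sum.elim (Sum.elim (fun i : Fin (k + 2) => A i.castSucc) (xx z))
      ![al z, z 0, z (Fin.last (k + 1)).castSucc, c]) with hy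
  set L := Subfield.closure (Set.range y) with hL
  have hmem : ∀ i, y i ∈ L := fun i => Subfield.subset_closure ⟨i, rfl⟩
  have a1 : al z ∈ L := hmem (Sum.inr 0)
  have a2 : z 0 ∈ L := hmem (Sum.inr 1)
  have a3 : z (Fin.last (k + 1)).castSucc ∈ L := hmem (Sum.inr 2)
  have a4 : c ∈ L := hmem (Sum.inr 3)
  have a5 : z (Fin.last (k + 2)) ∈ L := by
    have h2 : z (Fin.last (k + 1)).castSucc - z 0 ≠ 0 :=
      sub_ne_zero.mpr fun h => last_ne (hF.hz h)
    have : z (Fin.last (k + 2)) = z (Fin.last (k + 1)).castSucc -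
        al z * (z (Fin.last (k + 1)).castSucc - z 0) := by
      unfold al; field_simp; ring
    rw [this]
    exact sub_mem a3 (mul_mem a1 (sub_mem a3 a2))
  have a6 : ∀ i : Fin k, z i.castSucc.succ.castSucc ∈ L := fun i => by
    have hx : xx z i ∈ L := hmem (Sum.inl (Sum.inr i))
    have h1 := al_ne_zero hF.hz
    have h2 := sub_ne_zero.mpr (z0_ne hF.hz)
    have h3 := sub_ne_zero.mpr (zcast_ne hF.hz i.castSucc.succ)
    have h4 : xx z i - al z ≠ 0 := by
      have : xx z i - al z = al z * (z (Fin.last (k + 2)) - z 0) /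
          (z i.castSucc.succ.castSucc - z (Fin.last (k + 2))) := by
        unfold xx phi; field_simp; ring
      rw [this]
      exact div_ne_zero (mul_ne_zero h1 (sub_ne_zero.mpr (z0_ne hF.hz).symm)) h3
    have h5 : z i.castSucc.succ.castSucc =
        (xx z i * z (Fin.last (k + 2)) - al z * z 0) / (xx z i - al z) := by
      rw [eq_div_iff h4]
      unfold xx phi
      field_simp
      ring
    rw [h5]
    exact div_mem (sub_mem (mul_mem hx a5) (mul_mem a1 a2)) (sub_mem hx a1)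
  have a7 : ∀ i, z i ∈ L := fun i => by
    refine Fin.lastCases a5 (fun i => ?_) i
    refine Fin.cases a2 (fun i => ?_) i
    refine Fin.lastCases a3 (fun i => a6 i) i
  have b1 : ∀ i : Fin (k + 2), A i.castSucc ∈ L := fun i => hmem (Sum.inl (Sum.inl i))
  have b2 : ∀ i, A i ∈ L := fun i => by
    refine Fin.lastCases ?_ b1 i
    have := hF.hA
    rw [Fin.sum_univ_castSucc] at this
    have h1 : A (Fin.last (k + 2)) = 1 - ∑ i : Fin (k + 2), A i.castSucc := by
      linear_combination this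
    rw [h1]
    exact sub_mem (one_mem _) (sum_mem fun i _ => b1 i)
  have m3 : q ∈ lifts L.subtype := by
    rw [hF.hq]
    refine mul_mem (C'_mem_lifts ⟨⟨_, a4⟩, rfl⟩) (sum_mem fun i _ => mul_mem
      (C'_mem_lifts ⟨⟨_, mul_mem (b2 i) (one_mem _)⟩, rfl⟩) ?_)
    refine prod_mem fun j _ => ?_
    rw [lin_one]
    exact lifts_X_sub_C L (a7 j)
  have m4 : p ∈ lifts L.subtype := by
    rw [hF.hp]
    exact lifts_sub L (mul_mem (X_mem_lifts _) m3)
      (mul_mem (C'_mem_lifts ⟨⟨_, a4⟩, rfl⟩) (lifts_prod L _ a7))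
  rcases i with i | i
  · exact coeff_mem L m4 _
  · exact coeff_mem L m3 _

/-- generic consequences -/
theorem gen_facts [IsAlgClosed K] [CharZero K] {k : ℕ} {p q : K[X]} (h : GenMap (k + 2) p q)
    {c : K} {z A : Fin (k + 3) → K} (hF : FP p q c z A) :
    AlgebraicIndependent ℚ (Sum.elim (fun i : Fin (k + 2) => A i.castSucc) (xx z)) ∧
    GenW (fun i : Fin (k + 2) => A i.castSucc) ∧ (∀ i, A i ≠ 0) ∧
    Function.Injective (zOf (xx z)) ∧
    ¬ (PhiZ (fun i : Fin (k + 2) => A i.castSucc) (zOf (xx z))).IsRoot (al z) := by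
  have h0 := algInd_norm h hF
  have h1 : AlgebraicIndependent ℚ
      (Sum.elim (fun i : Fin (k + 2) => A i.castSucc) (xx z)) := by
    have := h0.comp Sum.inl Sum.inl_injective
    exact this
  have h2 : GenW (fun i : Fin (k + 2) => A i.castSucc) := by
    refine genW_of_algebraicIndependent _ ?_
    have := h1.comp Sum.inl Sum.inl_injective
    exact this
  refine ⟨h1, h2, ?_, ?_, ?_⟩
  · intro i
    refine Fin.lastCases ?_ (fun i => (avoid_single h2 i).1) i
    have := hF.hA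
    rw [Fin.sum_univ_castSucc] at this
    have h3 := (h2.avoid Finset.univ Finset.univ_nonempty).2.1
    intro h4
    rw [h4, add_zero] at this
    exact h3 this
  · rw [zOf_eq hF.hz]
    intro i j hij
    have h1 := phi_inj (al_ne_zero hF.hz) (z0_ne hF.hz) (zcast_ne hF.hz i) (zcast_ne hF.hz j) hij
    exact Fin.castSucc_injective _ (hF.hz h1)
  · intro hr
    set L := Subfield.closure (Set.range
      (Sum.elim (fun i : Fin (k + 2) => A i.castSucc) (xx z))) with hL
    have h3 := algInd_over_closure _ _ h0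
    have h4 : Transcendental L (al z) := h3.transcendental 0
    apply h4
    have ha : ∀ i : Fin (k + 2), A i.castSucc ∈ L := fun i =>
      Subfield.subset_closure ⟨Sum.inl i, rfl⟩
    have hx : ∀ i : Fin k, xx z i ∈ L := fun i => Subfield.subset_closure ⟨Sum.inr i, rfl⟩
    have hz : ∀ i : Fin (k + 2), zOf (xx z) i ∈ L := fun i => by
      unfold zOf
      refine Fin.cases ?_ (fun i => ?_) i
      · simp
      · rw [Fin.cons_succ]
        refine Fin.lastCases ?_ (fun i => ?_) i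
        · rw [Fin.snoc_last]; exact one_mem _
        · rw [Fin.snoc_castSucc]; exact hx i
    refine ⟨PhiZ (fun i : Fin (k + 2) => (⟨A i.castSucc, ha i⟩ : L)) (fun i => ⟨_, hz i⟩), ?_, ?_⟩
    · intro h5
      have h6 := PhiZ_map (algebraMap L K)
        (fun i : Fin (k + 2) => (⟨A i.castSucc, ha i⟩ : L)) (fun i => ⟨_, hz i⟩)
      rw [h5, Polynomial.map_zero] at h6
      exact PhiZ_ne_zero h2 h6
    · rw [← eval_map_algebraMap, ← PhiZ_map]
      exact hr

end FieldTheory

section Final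

variable {K : Type*} [Field K]

theorem fixS_eq {n : ℕ} {p q : K[X]} {c : K} {z A : Fin n → K} (h : FP p q c z A)
    (hA : ∀ i, A i ≠ 0) (μ : K) : FixS p q μ = z '' {i | 1 - 1 / A i = μ} := by
  ext w
  constructor
  · rintro ⟨h1, h2, h3⟩
    obtain ⟨i, rfl⟩ := (h.fix_iff w).mp h2
    refine ⟨i, ?_, rfl⟩
    rw [h.deriv_fix i h1] at h3
    exact h3
  · rintro ⟨i, h1, rfl⟩
    have h2 : q.eval (z i) ≠ 0 := by
      rw [h.eval_q_fix]
      refine mul_ne_zero h.hc (mul_ne_zero (hA i) (Finset.prod_ne_zero_iff.mpr fun j hj =>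
        sub_ne_zero.mpr (fun e => (Finset.mem_erase.mp hj).1 (h.hz e).symm)))
    refine ⟨h2, (h.fix_iff _).mpr ⟨i, rfl⟩, ?_⟩
    rw [h.deriv_fix i h2]
    exact h1

theorem exists_perm {n : ℕ} {p₁ q₁ p₂ q₂ : K[X]} {c₁ c₂ : K} {z₁ A₁ z₂ A₂ : Fin n → K}
    (h₁ : FP p₁ q₁ c₁ z₁ A₁) (h₂ : FP p₂ q₂ c₂ z₂ A₂) (hA₁ : ∀ i, A₁ i ≠ 0)
    (hA₂ : ∀ i, A₂ i ≠ 0) (hfix : ∀ c, (FixS p₁ q₁ c).ncard = (FixS p₂ q₂ c).ncard) :
    ∃ σ : Equiv.Perm (Fin n), A₁ = A₂ ∘ σ := by
  have key : ∀ a : K, Nonempty ({i // A₁ i = a} ≃ {i // A₂ i = a}) := by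
    intro a
    rw [← Finite.card_eq]
    by_cases ha : a = 0
    · subst ha
      have e1 : IsEmpty {i // A₁ i = 0} := ⟨fun i => hA₁ _ i.2⟩
      have e2 : IsEmpty {i // A₂ i = 0} := ⟨fun i => hA₂ _ i.2⟩
      simp
    · have h3 := hfix (1 - 1 / a)
      rw [fixS_eq h₁ hA₁, fixS_eq h₂ hA₂, Set.ncard_image_of_injective _ h₁.hz,
        Set.ncard_image_of_injective _ h₂.hz] at h3
      have h4 : ∀ {A : Fin n → K}, (∀ i, A i ≠ 0) →
          {i | 1 - 1 / A i = 1 - 1 / a} = {i | A i = a} := by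
        intro A hA
        ext i
        simp only [Set.mem_ofPred_eq, sub_right_inj]
        constructor
        · intro h
          have := hA i
          field_simp at h
          exact h.symm
        · intro h; rw [h]
      rw [h4 hA₁, h4 hA₂] at h3
      exact h3
  refine ⟨Equiv.ofFiberEquiv (fun a => (key a).some), ?_⟩
  funext i
  exact (Equiv.ofFiberEquiv_map (fun a => (key a).some) i).symm

variable [IsAlgClosed K] [CharZero K]

theorem perS_image {k : ℕ} {p q : K[X]} (h : GenMap (k + 2) p q) {c : K}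
    {z A : Fin (k + 3) → K} (hF : FP p q c z A) (μ : K) :
    phi (al z) (z 0) (z (Fin.last (k + 2))) '' PerS p q μ =
      {u | (PhiZ (fun i : Fin (k + 2) => A i.castSucc) (zOf (xx z))).IsRoot u ∧
        mult (fun i : Fin (k + 2) => A i.castSucc) (zOf (xx z)) u = μ} := by
  obtain ⟨h1, h2, h3, h4, h5⟩ := gen_facts h hF
  have hα := al_ne_zero hF.hz
  have hs := z0_ne hF.hz
  have hzz := zcast_ne hF.hz
  have hA := hF.hA
  rw [zOf_eq hF.hz] at h4 h5 ⊢
  ext u
  constructor
  · rintro ⟨w, hw, rfl⟩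
    obtain ⟨v, hv, hm⟩ := (hF.per_iff w μ).mp hw
    have e1 := (cyc_phi hA hzz hα hs (hv.1 _) (hv.2.1 _)).mp hv
    refine ⟨(root_iff_cyc h2 h4 _).mpr ⟨_, e1⟩, ?_⟩
    rw [mult_cyc h2 h4 e1, cm_phi hA hzz hα hs hv, hm]
  · rintro ⟨hr, hm⟩
    obtain ⟨v, hv⟩ := (root_iff_cyc h2 h4 u).mp hr
    have hrv := (root_iff_cyc h2 h4 v).mpr ⟨u, hv.symm⟩
    have hinv : ∀ u, u ≠ al z → ∃ w, w ≠ z (Fin.last (k + 2)) ∧
        phi (al z) (z 0) (z (Fin.last (k + 2))) w = u := by
      intro u hu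
      have e1 := sub_ne_zero.mpr hu
      have e2 := sub_ne_zero.mpr hs
      have e2' := sub_ne_zero.mpr hs.symm
      have e3 : (u * z (Fin.last (k + 2)) - al z * z 0) / (u - al z) - z (Fin.last (k + 2)) =
          al z * (z (Fin.last (k + 2)) - z 0) / (u - al z) := by
        field_simp; ring
      have e4 : (u * z (Fin.last (k + 2)) - al z * z 0) / (u - al z) - z 0 =
          u * (z (Fin.last (k + 2)) - z 0) / (u - al z) := by
        field_simp; ring
      refine ⟨(u * z (Fin.last (k + 2)) - al z * z 0) / (u - al z), ?_, ?_⟩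
      · rw [← sub_ne_zero, e3]
        exact div_ne_zero (mul_ne_zero hα e2') e1
      · unfold phi
        rw [e3, e4]
        field_simp
    obtain ⟨w, hw1, hw2⟩ := hinv u (fun e => by rw [e] at hr; exact h5 hr)
    obtain ⟨v', hv1, hv2⟩ := hinv v (fun e => by rw [e] at hrv; exact h5 hrv)
    rw [← hw2, ← hv2] at hv
    have e1 := (cyc_phi hA hzz hα hs hw1 hv1).mpr hv
    have e2 := cm_phi hA hzz hα hs e1
    have e3 := mult_cyc h2 h4 hv
    refine ⟨w, (hF.per_iff w μ).mpr ⟨v', e1, e2.symm.trans (e3.symm.trans ?_)⟩, hw2⟩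
    rw [hw2]; exact hm

omit [IsAlgClosed K] [CharZero K] in
theorem perS_injOn {k : ℕ} {p q : K[X]} {c : K}
    {z A : Fin (k + 3) → K} (hF : FP p q c z A) (μ : K) :
    Set.InjOn (phi (al z) (z 0) (z (Fin.last (k + 2)))) (PerS p q μ) := by
  intro w hw v hv h
  obtain ⟨w', h1, -⟩ := (hF.per_iff w μ).mp hw
  obtain ⟨v', h2, -⟩ := (hF.per_iff v μ).mp hv
  exact phi_inj (al_ne_zero hF.hz) (z0_ne hF.hz) (h1.1 _) (h2.1 _) h

open Classical in
theorem perS_ncard {k : ℕ} {p q : K[X]} (h : GenMap (k + 2) p q) {c : K}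
    {z A : Fin (k + 3) → K} (hF : FP p q c z A) (μ : K) :
    (PerS p q μ).ncard = Multiset.count μ
      (Spec (fun i : Fin (k + 2) => A i.castSucc) (zOf (xx z))) := by
  obtain ⟨h1, h2, h3, h4, h5⟩ := gen_facts h hF
  rw [← (perS_injOn hF μ).ncard_image, perS_image h hF]
  have h0 : PhiZ (fun i : Fin (k + 2) => A i.castSucc) (zOf (xx z)) ≠ 0 := PhiZ_ne_zero h2
  have hnd : (PhiZ (fun i : Fin (k + 2) => A i.castSucc) (zOf (xx z))).roots.Nodup := by
    rw [Multiset.nodup_iff_count_le_one]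
    intro u
    rw [count_roots]
    by_cases hu : (PhiZ (fun i : Fin (k + 2) => A i.castSucc) (zOf (xx z))).IsRoot u
    · exact (rootMultiplicity_eq_one _ _ h2 h4 u hu
        (generic_mult_ne_one _ _ h1 u hu)).le
    · rw [rootMultiplicity_eq_zero hu]; exact zero_le_one
  rw [Spec, Multiset.count_map]
  rw [← Multiset.toFinset_card_of_nodup (hnd.filter _), ← Set.ncard_coe_finset]
  congr 1
  ext u
  simp [h0, eq_comm]

theorem spec_eq {k : ℕ} {p₁ q₁ p₂ q₂ : K[X]} (h₁ : GenMap (k + 2) p₁ q₁)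
    (h₂ : GenMap (k + 2) p₂ q₂) {c₁ c₂ : K} {z₁ z₂ A : Fin (k + 3) → K}
    (hF₁ : FP p₁ q₁ c₁ z₁ A) (hF₂ : FP p₂ q₂ c₂ z₂ A)
    (hper : ∀ c, (PerS p₁ q₁ c).ncard = (PerS p₂ q₂ c).ncard) :
    Spec (fun i : Fin (k + 2) => A i.castSucc) (zOf (xx z₁)) =
      Spec (fun i : Fin (k + 2) => A i.castSucc) (zOf (xx z₂)) := by
  classical
  refine Multiset.ext.mpr fun μ => ?_
  have h3 := perS_ncard h₁ hF₁ μ
  have h4 := perS_ncard h₂ hF₂ μ
  rw [hper μ, h4] at h3
  convert h3.symm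

/-- Moebius maps carry one generic map to the other -/
theorem conj_of_moebius {n : ℕ} {p₁ q₁ p₂ q₂ : K[X]} {c₁ c₂ : K} {z₁ z₂ A : Fin n → K}
    (hF₁ : FP p₁ q₁ c₁ z₁ A) (hF₂ : FP p₂ q₂ c₂ z₂ A) (a b c e : K) (hD : a * e - b * c ≠ 0)
    (hc : ∀ i, c * z₁ i + e ≠ 0) (hz : ∀ i, a * z₁ i + b = z₂ i * (c * z₁ i + e)) :
    ConjM p₁ q₁ p₂ q₂ := by
  refine ⟨a, b, c, e, hD, fun w hq₁ hw hfw hq₂ => ?_⟩
  by_cases hwz : ∃ i, w = z₁ i
  · obtain ⟨i, hi⟩ := hwz
    have h1 := (hF₁.fix_iff w).mpr ⟨i, hi⟩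
    have h2 : (a * w + b) / (c * w + e) = z₂ i := by
      rw [div_eq_iff hw, hi]; exact hz i
    have h3 := (hF₂.fix_iff ((a * w + b) / (c * w + e))).mpr ⟨i, h2⟩
    rw [h3, h1, mul_div_assoc, div_self hq₂, mul_one, mul_div_assoc, div_self hq₁, mul_one]
  · have hwz' : ∀ i, w ≠ z₁ i := fun i hi => hwz ⟨i, hi⟩
    have hsub : ∀ {x y : K}, c * x + e ≠ 0 → c * y + e ≠ 0 →
        (a * x + b) / (c * x + e) - (a * y + b) / (c * y + e) =
          (a * e - b * c) * (x - y) / ((c * x + e) * (c * y + e)) := by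
      intro x y hx hy
      rw [div_sub_div _ _ hx hy]
      congr 1
      ring
    have hz' : ∀ i, z₂ i = (a * z₁ i + b) / (c * z₁ i + e) := fun i => by
      rw [eq_div_iff (hc i)]; exact (hz i).symm
    have hMw : ∀ i, (a * w + b) / (c * w + e) ≠ z₂ i := fun i hi => by
      have h1 := hsub hw (hc i)
      rw [hi, hz' i, sub_self] at h1
      have h2 := sub_ne_zero.mpr (hwz' i)
      exact div_ne_zero (mul_ne_zero hD h2) (mul_ne_zero hw (hc i)) h1.symm
    obtain ⟨e1, e2⟩ := hF₁.val hwz' hq₁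
    obtain ⟨e3, e4⟩ := hF₂.val hMw hq₂
    rw [e1] at hfw
    rw [e3, e1]
    have h5 : omega A z₂ ((a * w + b) / (c * w + e)) = (c * w + e) / (a * e - b * c) *
        ((c * w + e) * omega A z₁ w - c) := by
      have h6 : ∀ i, A i / ((a * w + b) / (c * w + e) - z₂ i) =
          (c * w + e) / (a * e - b * c) * ((c * w + e) * (A i / (w - z₁ i)) - c * A i) := by
        intro i
        rw [hz' i, hsub hw (hc i)]
        have h2 := sub_ne_zero.mpr (hwz' i)
        have h3 := hc i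
        field_simp
        ring
      unfold omega
      rw [Finset.sum_congr rfl fun i _ => h6 i, ← Finset.mul_sum, Finset.sum_sub_distrib,
        ← Finset.mul_sum, ← Finset.mul_sum, hF₁.hA, mul_one]
    have h6 : omega A z₂ ((a * w + b) / (c * w + e)) = (c * w + e) *
        (c * (w - 1 / omega A z₁ w) + e) * omega A z₁ w / (a * e - b * c) := by
      rw [h5]; field_simp; ring
    have h7 := hsub hw hfw
    rw [h6]
    have h8 : (a * (w - 1 / omega A z₁ w) + b) / (c * (w - 1 / omega A z₁ w) + e) =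
        (a * w + b) / (c * w + e) - (a * e - b * c) * (w - (w - 1 / omega A z₁ w)) /
          ((c * w + e) * (c * (w - 1 / omega A z₁ w) + e)) := by
      rw [← h7]; ring
    rw [h8]
    congr 1
    rw [one_div_div, sub_sub_cancel]
    field_simp

/-- equality of the normalized coordinates gives conjugacy -/
theorem conj_of_xx {k : ℕ} {p₁ q₁ p₂ q₂ : K[X]} {c₁ c₂ : K} {z₁ z₂ A : Fin (k + 3) → K}
    (hF₁ : FP p₁ q₁ c₁ z₁ A) (hF₂ : FP p₂ q₂ c₂ z₂ A) (hx : xx z₁ = xx z₂) :
    ConjM p₁ q₁ p₂ q₂ := by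
  have hα₁ := al_ne_zero hF₁.hz
  have hα₂ := al_ne_zero hF₂.hz
  have hs₁ := z0_ne hF₁.hz
  have hs₂ := z0_ne hF₂.hz
  have h1 : ∀ i : Fin (k + 3), al z₁ * (z₁ i - z₁ 0) * (z₂ i - z₂ (Fin.last (k + 2))) =
      al z₂ * (z₂ i - z₂ 0) * (z₁ i - z₁ (Fin.last (k + 2))) := fun i => by
    refine Fin.lastCases (by simp) (fun i => ?_) i
    have h2 := congrFun (zOf_eq hF₁.hz) i
    have h3 := congrFun (zOf_eq hF₂.hz) i
    rw [hx] at h2
    rw [h3] at h2
    have h4 := sub_ne_zero.mpr (zcast_ne hF₁.hz i)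
    have h5 := sub_ne_zero.mpr (zcast_ne hF₂.hz i)
    simp only [phi] at h2
    rw [div_eq_div_iff h5 h4] at h2
    exact h2.symm
  have hcz : ∀ i : Fin (k + 3), (al z₁ - al z₂) * z₁ i +
      (al z₂ * z₁ (Fin.last (k + 2)) - al z₁ * z₁ 0) ≠ 0 := fun i => by
    refine Fin.lastCases ?_ (fun i => ?_) i
    · have : (al z₁ - al z₂) * z₁ (Fin.last (k + 2)) +
        (al z₂ * z₁ (Fin.last (k + 2)) - al z₁ * z₁ 0) =
          al z₁ * (z₁ (Fin.last (k + 2)) - z₁ 0) := by ring
      rw [this]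
      exact mul_ne_zero hα₁ (sub_ne_zero.mpr hs₁.symm)
    · intro h0
      have h2 := h1 i.castSucc
      have h4 := sub_ne_zero.mpr (zcast_ne hF₁.hz i)
      have h5 := sub_ne_zero.mpr hs₂.symm
      have h6 : al z₂ * (z₁ i.castSucc - z₁ (Fin.last (k + 2))) *
          (z₂ (Fin.last (k + 2)) - z₂ 0) = 0 := by
        linear_combination (z₂ i.castSucc - z₂ (Fin.last (k + 2))) * h0 - h2
      exact mul_ne_zero (mul_ne_zero hα₂ h4) h5 h6
  refine conj_of_moebius hF₁ hF₂ (al z₁ * z₂ (Fin.last (k + 2)) - al z₂ * z₂ 0)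
    (al z₂ * z₂ 0 * z₁ (Fin.last (k + 2)) - al z₁ * z₁ 0 * z₂ (Fin.last (k + 2)))
    (al z₁ - al z₂) (al z₂ * z₁ (Fin.last (k + 2)) - al z₁ * z₁ 0) ?_ hcz fun i => ?_
  · have : (al z₁ * z₂ (Fin.last (k + 2)) - al z₂ * z₂ 0) *
        (al z₂ * z₁ (Fin.last (k + 2)) - al z₁ * z₁ 0) -
        (al z₂ * z₂ 0 * z₁ (Fin.last (k + 2)) - al z₁ * z₁ 0 * z₂ (Fin.last (k + 2))) *
          (al z₁ - al z₂) =
        al z₁ * al z₂ * ((z₁ 0 - z₁ (Fin.last (k + 2))) * (z₂ 0 - z₂ (Fin.last (k + 2)))) := by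
      ring
    rw [this]
    exact mul_ne_zero (mul_ne_zero hα₁ hα₂)
      (mul_ne_zero (sub_ne_zero.mpr hs₁) (sub_ne_zero.mpr hs₂))
  · linear_combination -h1 i

end Final

end ThmV

theorem genMap_finite (Ω : Type) [Field Ω] [IsAlgClosed Ω] [CharZero Ω] (d : ℕ) (hd : 2 ≤ d)
    (p q : Polynomial Ω) (h : GenMap d p q) (c : Ω) : (FixS p q c).Finite ∧ (PerS p q c).Finite := by
  classical
  obtain ⟨k, rfl⟩ : ∃ k, d = k + 2 := ⟨d - 2, by omega⟩
  obtain ⟨c₀, z, A, hF⟩ := ThmV.exists_FP (k + 2) p q h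
  obtain ⟨h1, h2, h3, h4, h5⟩ := ThmV.gen_facts h hF
  constructor
  · rw [ThmV.fixS_eq hF h3]
    exact (Set.toFinite _).image _
  · refine Set.Finite.of_finite_image ?_ (ThmV.perS_injOn hF c)
    rw [ThmV.perS_image h hF]
    have h0 : PhiZ (fun i : Fin (k + 2) => A i.castSucc) (zOf (ThmV.xx z)) ≠ 0 :=
      PhiZ_ne_zero h2
    refine (PhiZ (fun i : Fin (k + 2) => A i.castSucc)
      (zOf (ThmV.xx z))).roots.toFinset.finite_toSet.subset ?_
    rintro u ⟨hu, -⟩
    simpa [h0] using hu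

theorem thmV (Ω : Type) [Field Ω] [IsAlgClosed Ω] [CharZero Ω] (d : ℕ) (hd : 2 ≤ d)
    (p₁ q₁ p₂ q₂ : Polynomial Ω) (h₁ : GenMap d p₁ q₁) (h₂ : GenMap d p₂ q₂)
    (hfix : ∀ c, (FixS p₁ q₁ c).ncard = (FixS p₂ q₂ c).ncard)
    (hper : ∀ c, (PerS p₁ q₁ c).ncard = (PerS p₂ q₂ c).ncard) :
    ConjM p₁ q₁ p₂ q₂ := by
  obtain ⟨k, rfl⟩ : ∃ k, d = k + 2 := ⟨d - 2, by omega⟩
  obtain ⟨c₁, z₁, A₁, hF₁⟩ := ThmV.exists_FP (k + 2) p₁ q₁ h₁
  obtain ⟨c₂, z₂, A₂, hF₂⟩ := ThmV.exists_FP (k + 2) p₂ q₂ h₂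
  obtain ⟨σ, hσ⟩ := ThmV.exists_perm hF₁ hF₂ (ThmV.gen_facts h₁ hF₁).2.2.1
    (ThmV.gen_facts h₂ hF₂).2.2.1 hfix
  have hF₂' := hF₂.perm σ
  rw [← hσ] at hF₂'
  have hs := ThmV.spec_eq h₁ h₂ hF₁ hF₂' hper
  have hx := uniq_all _ _ _ (ThmV.gen_facts h₁ hF₁).1 hs
  exact ThmV.conj_of_xx hF₁ hF₂' hx

end

end Pool.Agent.Lib.MP_740d3f_ag
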